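import Mathlib

open MeasureTheory Metric Set
open scoped ENNReal Real

namespace MeanVal

/-- Number of solutions `z` in the unit disc of `f z = w`, counted with multiplicity. -/
noncomputable def valency (f : ℂ → ℂ) (w : ℂ) : ℝ≥0∞ :=
  ∑' z : {z : ℂ // z ∈ ball (0:ℂ) 1 ∧ f z = w},
    ((analyticOrderAt (fun ζ : ℂ => f ζ - w) (z:ℂ) : ℕ∞) : ℝ≥0∞)

/-- `f` is analytic and mean `p`-valent in the unit disc. -/
def MeanValent (p : ℝ) (f : ℂ → ℂ) : Prop :=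
  DifferentiableOn ℂ f (ball (0:ℂ) 1) ∧
  ∀ R : ℝ, 0 < R → ∫⁻ w in ball (0:ℂ) R, valency f w ≤ ENNReal.ofReal (π * p * R ^ 2)

/-- Taylor coefficients at `0`. -/
noncomputable def coeff (f : ℂ → ℂ) (n : ℕ) : ℂ := iteratedDeriv n f 0 / (n.factorial : ℂ)

/-- `α` is admissible for `(m,p)`. -/
def Admissible (m : ℕ) (p α : ℝ) : Prop :=
  ∀ f : ℂ → ℂ, MeanValent p f → ∀ k : ℕ, 0 < k → ∃ K : ℝ, ∀ n : ℕ, 0 < n →
    ∃ c : ℕ → ℂ, c 0 = 1 ∧ (1 / 4 : ℝ) ^ m ≤ ‖c m‖ ∧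
      ∀ j ≤ k, ‖∑ i ∈ Finset.range (m + 1), c i * coeff f (n + j + i)‖ ≤ K * (n : ℝ) ^ α

/-- the best possible exponent `α_m(p)` (`+∞` if no exponent is admissible). -/
noncomputable def optExp (m : ℕ) (p : ℝ) : EReal :=
  sInf ((fun a : ℝ => (a : EReal)) '' {α : ℝ | Admissible m p α})

end MeanVal
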