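import Mathlib
import Pool.Agent.Helper772.MV.Basic

open MeasureTheory Metric Set
open scoped ENNReal Real

namespace MeanVal

/-- area form of mean valence -/
def AreaBound (p : ℝ) (f : ℂ → ℂ) : Prop :=
  DifferentiableOn ℂ f (ball (0:ℂ) 1) ∧ ∀ R : ℝ, 0 < R →
    ∫⁻ z in ball (0:ℂ) 1 ∩ f ⁻¹' ball (0:ℂ) R, ‖deriv f z‖ₑ ^ 2 ≤ ENNReal.ofReal (π * p * R ^ 2)

/-- truncated sector at the boundary point `ζ`: `q = 1 - conj ζ * w`, `lo < |q| < hi`, `|arg q| < th` -/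
def sector (ζ : ℂ) (lo hi th : ℝ) : Set ℂ :=
  {w : ℂ | lo < ‖1 - (starRingEnd ℂ) ζ * w‖ ∧ ‖1 - (starRingEnd ℂ) ζ * w‖ < hi ∧
    |Complex.arg (1 - (starRingEnd ℂ) ζ * w)| < th}

/-- carrier profile: product of `((q + e k)/(q + e (k+1)))^(2 θ k)` for `k < J` -/
noncomputable def prof (J : ℕ) (e θ : ℕ → ℝ) (q : ℂ) : ℂ :=
  Complex.exp (∑ k ∈ Finset.range J, 2 * (θ k : ℂ) *
    (Complex.log (q + (e k : ℂ)) - Complex.log (q + (e (k + 1) : ℂ))))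

/-- minus one half of the logarithmic derivative times `q` -/
noncomputable def profY (J : ℕ) (e θ : ℕ → ℝ) (q : ℂ) : ℂ :=
  ∑ k ∈ Finset.range J, (θ k : ℂ) * (q / (q + (e (k + 1) : ℂ)) - q / (q + (e k : ℂ)))

/-- level reached after `k` phases -/
noncomputable def lev (e θ : ℕ → ℝ) (k : ℕ) : ℝ :=
  ∏ j ∈ Finset.range k, (e j / e (j + 1)) ^ (2 * θ j)

noncomputable def DL (L : ℕ) (z : ℂ) : ℂ := ∑ j ∈ Finset.range L, z ^ j

/-- kernel with a flat stretch of Taylor coefficients -/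
noncomputable def kern (L : ℕ) (z : ℂ) : ℂ := DL L z ^ 2 * DL (3 * L) z / (L : ℂ) ^ 3

/-- quantitative lower bound for the `(m+1) x (m+1)` Hankel matrix at `n` -/
def HankelLB (m n : ℕ) (f : ℂ → ℂ) (X : ℝ) : Prop :=
  ∀ (c : ℕ → ℂ) (B : ℝ), (∃ i ≤ m, B ≤ ‖c i‖) →
    ∃ j ≤ m, X * B ≤ ‖∑ i ∈ Finset.range (m + 1), c i * coeff f (n + j + i)‖

/-- nice function: analytic beyond the closed disc, zero free there, with area bound -/
def Nice (p : ℝ) (f : ℂ → ℂ) : Prop :=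
  (∃ ρ : ℝ, 1 < ρ ∧ DifferentiableOn ℂ f (ball (0:ℂ) ρ)) ∧
  (∀ z : ℂ, ‖z‖ ≤ 1 → f z ≠ 0) ∧ AreaBound p f

end MeanVal
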