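import Mathlib
import Pool.Agent.Helper772.MV.Defs

open MeasureTheory Metric Set
open scoped ENNReal Real

namespace MeanVal

namespace Annulus


theorem circ_bound {g : ℂ → ℂ} (hg : DifferentiableOn ℂ g (ball 0 1)) {r : ℝ} (h0 : 0 < r)
    (h1 : r < 1) {N : ℕ} (hN : 1 ≤ N) :
    2 * π * N * ‖coeff g N‖ * r ^ N ≤ r * ∫ θ in (0:ℝ)..2*π, ‖deriv g (circleMap 0 r θ)‖ := by
  obtain ⟨m, rfl⟩ : ∃ m, N = m + 1 := ⟨N - 1, by omega⟩
  have hd : DifferentiableOn ℂ (deriv g) (ball 0 1) := hg.deriv isOpen_ball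
  have hd' : DifferentiableOn ℂ (deriv g) (closedBall 0 ((⟨r, h0.le⟩ : NNReal) : ℝ)) :=
    hd.mono (closedBall_subset_ball h1)
  have hfp := hd'.hasFPowerSeriesOnBall (R := ⟨r, h0.le⟩) h0
  have e1 := hfp.factorial_smul (1 : ℂ) m
  have e2 : iteratedDeriv (m+1) g 0 = iteratedDeriv m (deriv g) 0 := by
    rw [iteratedDeriv_succ']
  have e3 : iteratedDeriv m (deriv g) 0 = (m.factorial : ℂ) *
      cauchyPowerSeries (deriv g) 0 ((⟨r, h0.le⟩ : NNReal) : ℝ) m (fun _ => 1) := by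
    rw [iteratedDeriv_eq_iteratedFDeriv, ← e1, nsmul_eq_mul]
    rfl
  have e4 : ‖cauchyPowerSeries (deriv g) 0 ((⟨r, h0.le⟩ : NNReal) : ℝ) m (fun _ => 1)‖ ≤
      ((2 * π)⁻¹ * ∫ θ : ℝ in (0:ℝ)..2 * π, ‖deriv g (circleMap 0 r θ)‖) * |r|⁻¹ ^ m := by
    refine (ContinuousMultilinearMap.le_opNorm _ _).trans ?_
    simp only [norm_one, Finset.prod_const_one, mul_one]
    exact norm_cauchyPowerSeries_le (deriv g) 0 r m
  have e5 : ((m+1 : ℕ) : ℝ) * ‖coeff g (m+1)‖ =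
      ‖cauchyPowerSeries (deriv g) 0 ((⟨r, h0.le⟩ : NNReal) : ℝ) m (fun _ => 1)‖ := by
    unfold coeff
    rw [e2, e3, Nat.factorial_succ]
    have hm : (m.factorial : ℝ) ≠ 0 := by exact_mod_cast m.factorial_ne_zero
    have hm1 : ((m:ℝ) + 1) ≠ 0 := by positivity
    rw [norm_div, norm_mul, Complex.norm_natCast, Complex.norm_natCast]
    push_cast
    field_simp
  rw [abs_of_pos h0] at e4
  have hr : r ^ m ≠ 0 := (pow_pos h0 m).ne'
  calc 2 * π * ((m+1 : ℕ) : ℝ) * ‖coeff g (m+1)‖ * r ^ (m+1)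
      = 2 * π * (((m+1 : ℕ) : ℝ) * ‖coeff g (m+1)‖) * r ^ (m+1) := by ring
    _ ≤ 2 * π * (((2 * π)⁻¹ * ∫ θ : ℝ in (0:ℝ)..2 * π, ‖deriv g (circleMap 0 r θ)‖) * r⁻¹ ^ m)
          * r ^ (m+1) := by
        rw [e5]
        gcongr
    _ = r * ∫ θ in (0:ℝ)..2*π, ‖deriv g (circleMap 0 r θ)‖ := by
        have hpi : (π:ℝ) ≠ 0 := Real.pi_ne_zero
        rw [pow_succ, inv_pow]
        field_simp

theorem circ_bound' {g : ℂ → ℂ} (hg : DifferentiableOn ℂ g (ball 0 1)) {r : ℝ} (h0 : 0 < r)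
    (h1 : r < 1) {N : ℕ} (hN : 1 ≤ N) :
    ENNReal.ofReal (2 * π * N * ‖coeff g N‖ * r ^ N) ≤ ENNReal.ofReal r *
      ∫⁻ θ in Ioo (-π) π, ENNReal.ofReal ‖deriv g (Complex.polarCoord.symm (r, θ))‖ := by
  refine (ENNReal.ofReal_le_ofReal (circ_bound hg h0 h1 hN)).trans ?_
  rw [ENNReal.ofReal_mul h0.le]
  gcongr
  have hper : Function.Periodic (fun θ => ‖deriv g (circleMap 0 r θ)‖) (2*π) := by
    intro θ
    simp only [periodic_circleMap 0 r θ]
  have e1 : ∫ θ in (0:ℝ)..2*π, ‖deriv g (circleMap 0 r θ)‖ =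
      ∫ θ in (-π)..π, ‖deriv g (circleMap 0 r θ)‖ := by
    have := hper.intervalIntegral_add_eq 0 (-π)
    rw [zero_add] at this
    rw [this]
    congr 1
    ring
  have hd : DifferentiableOn ℂ (deriv g) (ball 0 1) := hg.deriv isOpen_ball
  have hcont : Continuous (fun θ => ‖deriv g (circleMap 0 r θ)‖) := by
    refine Continuous.norm ?_
    refine ContinuousOn.comp_continuous hd.continuousOn (continuous_circleMap 0 r) ?_
    intro θ
    rw [mem_ball_zero_iff, norm_circleMap_zero, abs_of_pos h0]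
    exact h1
  rw [e1, intervalIntegral.integral_of_le (by linarith [Real.pi_pos]),
    integral_Ioc_eq_integral_Ioo]
  rw [ofReal_integral_eq_lintegral_ofReal]
  · apply le_of_eq
    apply lintegral_congr
    intro θ
    congr 3
    rw [Complex.polarCoord_symm_apply, circleMap, Complex.exp_mul_I]
    simp
  · exact (hcont.integrableOn_Icc (a := -π) (b := π)).mono_set Ioo_subset_Icc_self
  · exact Filter.Eventually.of_forall (fun _ => norm_nonneg _)

theorem coeff_le_annulus (k : ℕ) : ∃ C : ℝ, 0 ≤ C ∧ ∀ (g : ℂ → ℂ),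
    DifferentiableOn ℂ g (ball 0 1) → ∀ n N : ℕ, 4 ≤ n → n ≤ N → N ≤ n + k →
    ENNReal.ofReal ‖coeff g N‖ ≤ ENNReal.ofReal C *
      ∫⁻ z in {z : ℂ | 1 - 2 / (n:ℝ) < ‖z‖ ∧ ‖z‖ < 1 - 1 / (n:ℝ)}, ENNReal.ofReal ‖deriv g z‖ := by
  refine ⟨Real.exp 4 * 2 ^ k, by positivity, ?_⟩
  intro g hg n N hn hnN hNk
  set A : Set ℂ := {z : ℂ | 1 - 2 / (n:ℝ) < ‖z‖ ∧ ‖z‖ < 1 - 1 / (n:ℝ)} with hA
  have hn4 : (4:ℝ) ≤ n := by exact_mod_cast hn
  have hn0 : (0:ℝ) < n := by linarith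
  have hlo : (1:ℝ)/2 ≤ 1 - 2/(n:ℝ) := by
    rw [le_sub_iff_add_le, ← le_sub_iff_add_le', div_le_iff₀ hn0]
    linarith
  have hAm : MeasurableSet A := by
    apply MeasurableSet.inter
    · exact measurableSet_lt measurable_const measurable_norm
    · exact measurableSet_lt measurable_norm measurable_const
  have hF : Measurable (fun z : ℂ => ENNReal.ofReal ‖deriv g z‖) :=
    ENNReal.measurable_ofReal.comp (measurable_deriv g).norm
  have key : ENNReal.ofReal (2 * π * N * ‖coeff g N‖ * (1 - 2/(n:ℝ)) ^ N * (1/(n:ℝ))) ≤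
      ∫⁻ z in A, ENNReal.ofReal ‖deriv g z‖ := by
    rw [← lintegral_indicator hAm, ← Complex.lintegral_comp_polarCoord_symm]
    rw [polarCoord_target, Measure.volume_eq_prod, ← Measure.prod_restrict]
    have hpm : Measurable (fun p : ℝ × ℝ => Complex.polarCoord.symm p) := by
      simp only [Complex.polarCoord_symm_apply]
      fun_prop
    rw [lintegral_prod]
    swap
    · refine Measurable.aemeasurable ?_
      refine Measurable.smul (ENNReal.measurable_ofReal.comp measurable_fst) ?_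
      exact (hF.indicator hAm).comp hpm
    have hsub : Ioo (1 - 2/(n:ℝ)) (1 - 1/(n:ℝ)) ⊆ Ioi 0 := by
      intro r hr
      exact lt_trans (by linarith) hr.1
    refine le_trans ?_ (lintegral_mono_set hsub)
    calc ENNReal.ofReal (2 * π * N * ‖coeff g N‖ * (1 - 2/(n:ℝ)) ^ N * (1/(n:ℝ)))
        = ∫⁻ r in Ioo (1 - 2/(n:ℝ)) (1 - 1/(n:ℝ)),
            ENNReal.ofReal (2 * π * N * ‖coeff g N‖ * (1 - 2/(n:ℝ)) ^ N) := by
          rw [setLIntegral_const, Real.volume_Ioo, ← ENNReal.ofReal_mul]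
          · congr 1
            ring
          · have : (0:ℝ) ≤ 1 - 2/(n:ℝ) := by linarith
            positivity
      _ ≤ _ := by
          refine setLIntegral_mono' measurableSet_Ioo ?_
          intro r hr
          have hr0 : 0 < r := lt_trans (by linarith) hr.1
          have hr1 : r < 1 := lt_trans hr.2 (by
            have : 0 < 1/(n:ℝ) := by positivity
            linarith)
          have h1 : ENNReal.ofReal (2 * π * N * ‖coeff g N‖ * (1 - 2/(n:ℝ)) ^ N) ≤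
              ENNReal.ofReal (2 * π * N * ‖coeff g N‖ * r ^ N) := by
            apply ENNReal.ofReal_le_ofReal
            have h3 : (1 - 2/(n:ℝ)) ^ N ≤ r ^ N :=
              pow_le_pow_left₀ (by linarith) hr.1.le N
            exact mul_le_mul_of_nonneg_left h3 (by positivity)
          refine h1.trans ((circ_bound' hg hr0 hr1 (by omega)).trans ?_)
          rw [← lintegral_const_mul]
          · refine lintegral_mono fun θ => ?_
            have hmem : Complex.polarCoord.symm (r, θ) ∈ A := by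
              rw [hA]
              show 1 - 2 / (n:ℝ) < ‖Complex.polarCoord.symm (r, θ)‖ ∧
                ‖Complex.polarCoord.symm (r, θ)‖ < 1 - 1 / (n:ℝ)
              rw [Complex.norm_polarCoord_symm]
              simp only [abs_of_pos hr0]
              exact hr
            simp only [smul_eq_mul, Set.indicator_of_mem hmem]
            exact le_refl _
          · exact hF.comp (hpm.comp (measurable_const.prodMk measurable_id))
  have hlog : Real.exp (-4) ≤ (1 - 2/(n:ℝ)) ^ n := by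
    have hx : 0 < 1 - 2/(n:ℝ) := by linarith
    have h2 := Real.one_sub_inv_le_log_of_pos hx
    have h3 : (1 - 2/(n:ℝ))⁻¹ = (n:ℝ)/((n:ℝ)-2) := by
      have : (n:ℝ) - 2 ≠ 0 := by linarith
      have h4 : 1 - 2/(n:ℝ) = ((n:ℝ)-2)/n := by field_simp
      rw [h4, inv_div]
    rw [h3] at h2
    have h4 : -4 ≤ (n:ℝ) * Real.log (1 - 2/(n:ℝ)) := by
      have h5 : -4 / (n:ℝ) ≤ 1 - (n:ℝ)/((n:ℝ)-2) := by
        have h6 : (0:ℝ) < (n:ℝ) - 2 := by linarith
        rw [div_le_iff₀ hn0]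
        have h7 : (1 - (n:ℝ)/((n:ℝ)-2)) * n = -(2 * n)/((n:ℝ)-2) := by
          field_simp
          ring
        rw [h7, le_div_iff₀ h6]
        linarith
      have h8 := h5.trans h2
      rw [div_le_iff₀ hn0] at h8
      linarith
    rw [← Real.exp_log hx, ← Real.exp_nat_mul]
    exact Real.exp_le_exp.2 h4
  have hpow : Real.exp (-4) * (1/2) ^ k ≤ (1 - 2/(n:ℝ)) ^ N := by
    have hx1 : 1 - 2/(n:ℝ) ≤ 1 := by
      have : 0 < 2/(n:ℝ) := by positivity
      linarith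
    calc Real.exp (-4) * (1/2) ^ k ≤ (1 - 2/(n:ℝ)) ^ n * (1 - 2/(n:ℝ)) ^ k := by
          apply mul_le_mul hlog (pow_le_pow_left₀ (by norm_num) hlo k) (by positivity)
          exact pow_nonneg (by linarith) _
      _ = (1 - 2/(n:ℝ)) ^ (n + k) := by rw [pow_add]
      _ ≤ (1 - 2/(n:ℝ)) ^ N := pow_le_pow_of_le_one (by linarith) hx1 hNk
  have hmain : ‖coeff g N‖ ≤ Real.exp 4 * 2 ^ k *
      (2 * π * N * ‖coeff g N‖ * (1 - 2/(n:ℝ)) ^ N * (1/(n:ℝ))) := by
    have h1 : 1 ≤ 2 * π * ((N:ℝ) * (1/(n:ℝ))) := by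
      have h2 : 1 ≤ (N:ℝ) * (1/(n:ℝ)) := by
        rw [mul_one_div, le_div_iff₀ hn0, one_mul]
        exact_mod_cast hnN
      have h3 : (1:ℝ) ≤ 2 * π := by linarith [Real.pi_gt_three]
      nlinarith
    have h2 : 1 ≤ Real.exp 4 * 2 ^ k * (1 - 2/(n:ℝ)) ^ N := by
      calc (1:ℝ) = Real.exp 4 * 2 ^ k * (Real.exp (-4) * (1/2) ^ k) := by
            rw [Real.exp_neg, one_div, inv_pow]
            have := Real.exp_pos 4
            field_simp
        _ ≤ _ := mul_le_mul_of_nonneg_left hpow (by positivity)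
    have h3 : 1 ≤ (Real.exp 4 * 2 ^ k * (1 - 2/(n:ℝ)) ^ N) * (2 * π * ((N:ℝ) * (1/(n:ℝ)))) := by
      nlinarith
    calc ‖coeff g N‖ = 1 * ‖coeff g N‖ := (one_mul _).symm
      _ ≤ ((Real.exp 4 * 2 ^ k * (1 - 2/(n:ℝ)) ^ N) * (2 * π * ((N:ℝ) * (1/(n:ℝ))))) *
          ‖coeff g N‖ := mul_le_mul_of_nonneg_right h3 (norm_nonneg _)
      _ = _ := by ring
  calc ENNReal.ofReal ‖coeff g N‖ ≤ ENNReal.ofReal (Real.exp 4 * 2 ^ k *
      (2 * π * N * ‖coeff g N‖ * (1 - 2/(n:ℝ)) ^ N * (1/(n:ℝ)))) := ENNReal.ofReal_le_ofReal hmain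
    _ = ENNReal.ofReal (Real.exp 4 * 2 ^ k) * ENNReal.ofReal
      (2 * π * N * ‖coeff g N‖ * (1 - 2/(n:ℝ)) ^ N * (1/(n:ℝ))) :=
        ENNReal.ofReal_mul (by positivity)
    _ ≤ _ := by gcongr

end Annulus

end MeanVal
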