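import Mathlib
import Pool.Agent.Helper772.MV.Defs

open MeasureTheory Metric Set
open scoped ENNReal Real

namespace MeanVal

namespace Area


theorem af_det (c : ℂ) : (ContinuousLinearMap.mul ℝ ℂ c).det = ‖c‖ ^ 2 := by
  have h : ((ContinuousLinearMap.mul ℝ ℂ c : ℂ →L[ℝ] ℂ) : ℂ →ₗ[ℝ] ℂ) = LinearMap.mul ℝ ℂ c := by
    ext
    rfl
  have h2 : Algebra.norm ℝ c = LinearMap.det (LinearMap.mul ℝ ℂ c) := rfl
  rw [ContinuousLinearMap.det, h, ← h2, Algebra.norm_complex_apply, Complex.normSq_eq_norm_sq]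

theorem af_hasFDerivAt (f : ℂ → ℂ) (z c : ℂ) (h : HasDerivAt f c z) :
    HasFDerivAt f (ContinuousLinearMap.mul ℝ ℂ c) z := by
  have h1 := h.hasFDerivAt.restrictScalars ℝ
  have e : ContinuousLinearMap.mul ℝ ℂ c =
      (ContinuousLinearMap.toSpanSingleton ℂ c).restrictScalars ℝ := by
    ext x
    simp [mul_comm]
  rw [e]
  exact h1

theorem af_count (f : ℂ → ℂ) (D : Set ℂ) (s : ℕ → Set ℂ) (hD : D = ⋃ n, s n)
    (hdisj : Pairwise (Function.onFun Disjoint s)) (hinj : ∀ n, InjOn f (s n)) (w : ℂ) :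
    (∑' z : {z : ℂ // z ∈ D ∧ f z = w}, (1 : ℝ≥0∞)) =
      ∑' n, (f '' s n).indicator (fun _ => (1 : ℝ≥0∞)) w := by
  have h1 : ∀ z : {z : ℂ // z ∈ D ∧ f z = w},
      (1 : ℝ≥0∞) = ∑' n, (s n).indicator (fun _ => (1 : ℝ≥0∞)) (z : ℂ) := by
    rintro ⟨z, hz, hfz⟩
    rw [hD] at hz
    obtain ⟨n, hn⟩ := mem_iUnion.1 hz
    rw [tsum_eq_single n]
    · simp [hn]
    · intro m hm
      have : z ∉ s m := fun hm' => (Set.disjoint_left.1 (hdisj hm)) hm' hn
      simp [this]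
  rw [tsum_congr h1, ENNReal.tsum_comm]
  refine tsum_congr fun n => ?_
  by_cases hw : w ∈ f '' s n
  · obtain ⟨z, hz, hfz⟩ := hw
    have hzD : z ∈ D := by rw [hD]; exact mem_iUnion.2 ⟨n, hz⟩
    rw [tsum_eq_single (⟨z, hzD, hfz⟩ : {z : ℂ // z ∈ D ∧ f z = w})]
    · have hw : w ∈ f '' s n := ⟨z, hz, hfz⟩
      simp only [indicator_of_mem hz, indicator_of_mem hw]
    · rintro ⟨z', hz', hfz'⟩ hne
      have : z' ∉ s n := by
        intro h
        apply hne
        have := hinj n h hz (hfz'.trans hfz.symm)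
        exact Subtype.ext this
      simp [this]
  · rw [indicator_of_notMem hw, ENNReal.tsum_eq_zero]
    rintro ⟨z', hz', hfz'⟩
    have : z' ∉ s n := fun h => hw ⟨z', h, hfz'⟩
    simp [this]

theorem af_main (f : ℂ → ℂ) (D : Set ℂ) (hDm : MeasurableSet D)
    (hd : ∀ z ∈ D, HasDerivAt f (deriv f z) z) (hne : ∀ z ∈ D, deriv f z ≠ 0)
    (B : Set ℂ) (hB : MeasurableSet B) :
    ∫⁻ w in B, (∑' z : {z : ℂ // z ∈ D ∧ f z = w}, (1 : ℝ≥0∞)) =
      ∫⁻ z in D ∩ f ⁻¹' B, ‖deriv f z‖ₑ ^ 2 := by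
  classical
  rcases D.eq_empty_or_nonempty with hemp | hnemp
  · subst hemp
    have : ∀ w : ℂ, (∑' z : {z : ℂ // z ∈ (∅ : Set ℂ) ∧ f z = w}, (1 : ℝ≥0∞)) = 0 := by
      intro w
      rw [ENNReal.tsum_eq_zero]
      rintro ⟨z, hz, _⟩
      exact absurd hz (Set.notMem_empty z)
    simp only [this, lintegral_zero, empty_inter, Measure.restrict_empty, lintegral_zero_measure]
  have hfd : ∀ z ∈ D, HasFDerivAt f (ContinuousLinearMap.mul ℝ ℂ (deriv f z)) z :=
    fun z hz => af_hasFDerivAt f z _ (hd z hz)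
  obtain ⟨t, A, tdisj, tmeas, tcov, tapp, tA⟩ :=
    exists_partition_approximatesLinearOn_of_hasFDerivWithinAt f D
      (fun z => ContinuousLinearMap.mul ℝ ℂ (deriv f z))
      (fun z hz => (hfd z hz).hasFDerivWithinAt)
      (fun A => if A 1 = 0 then 1 else ‖A 1‖₊ / 2) (by
        intro A
        by_cases h : A 1 = 0
        · simp [h]
        · simp [h])
  have hsD : D = ⋃ n, D ∩ t n := by
    rw [← inter_iUnion]
    exact Subset.antisymm (subset_inter Subset.rfl tcov) inter_subset_left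
  have hsm : ∀ n, MeasurableSet (D ∩ t n) := fun n => hDm.inter (tmeas n)
  have hsdisj : Pairwise (Function.onFun Disjoint (fun n => D ∩ t n)) :=
    pairwise_disjoint_mono tdisj fun n => inter_subset_right
  have hinj : ∀ n, InjOn f (D ∩ t n) := by
    intro n x hx y hy hxy
    obtain ⟨u, hu, hAu⟩ := tA hnemp n
    have happ := tapp n x hx y hy
    have hu0 := hne u hu
    have hA1 : A n 1 = deriv f u := by rw [hAu]; simp
    rw [hxy, sub_self, zero_sub, norm_neg, hA1, if_neg hu0, hAu] at happ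
    simp only [ContinuousLinearMap.mul_apply', norm_mul] at happ
    have hpos : 0 < ‖deriv f u‖ := norm_pos_iff.2 hu0
    have h2 : ((‖deriv f u‖₊ / 2 : NNReal) : ℝ) = ‖deriv f u‖ / 2 := by simp
    rw [h2] at happ
    have h3 : ‖x - y‖ ≤ 0 := by nlinarith [norm_nonneg (x - y)]
    exact sub_eq_zero.1 (norm_le_zero_iff.1 h3)
  have hcont : ContinuousOn f D := fun z hz => (hd z hz).continuousAt.continuousWithinAt
  have hDB : MeasurableSet (D ∩ f ⁻¹' B) := by
    have h1 : Measurable (D.domRestrict f) :=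
      (continuousOn_iff_continuous_domRestrict.1 hcont).measurable
    have h2 : D ∩ f ⁻¹' B = Subtype.val '' ((D.domRestrict f) ⁻¹' B) := by
      ext z
      simp [Set.mem_image, and_comm]
    rw [h2]
    exact hDm.subtype_image (h1 hB)
  have himeas : ∀ n, MeasurableSet (f '' (D ∩ t n)) := fun n =>
    measurable_image_of_fderivWithin (hsm n)
      (fun z hz => (hfd z hz.1).hasFDerivWithinAt) (hinj n)
  have e1 : D ∩ f ⁻¹' B = ⋃ n, (D ∩ t n) ∩ f ⁻¹' B := by
    rw [← iUnion_inter, ← hsD]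
  rw [e1, lintegral_iUnion]
  · have e2 : ∀ n, ∫⁻ z in (D ∩ t n) ∩ f ⁻¹' B, ‖deriv f z‖ₑ ^ 2 =
        ∫⁻ w in B, (f '' (D ∩ t n)).indicator (fun _ => (1 : ℝ≥0∞)) w := by
      intro n
      have hm : MeasurableSet ((D ∩ t n) ∩ f ⁻¹' B) := by
        have : (D ∩ t n) ∩ f ⁻¹' B = (D ∩ f ⁻¹' B) ∩ t n := by
          ext z; simp only [mem_inter_iff]; tauto
        rw [this]
        exact hDB.inter (tmeas n)
      have h := lintegral_abs_det_fderiv_eq_addHaar_image (volume : Measure ℂ) hm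
        (f' := fun z => ContinuousLinearMap.mul ℝ ℂ (deriv f z))
        (fun z hz => (hfd z hz.1.1).hasFDerivWithinAt) ((hinj n).mono inter_subset_left)
      rw [lintegral_indicator (himeas n), lintegral_one, Measure.restrict_restrict (himeas n),
        Measure.restrict_apply_univ, ← image_inter_preimage, ← h]
      refine lintegral_congr fun z => ?_
      rw [af_det, abs_of_nonneg (by positivity), ENNReal.ofReal_pow (norm_nonneg _),
        ofReal_norm]
    rw [tsum_congr e2, ← lintegral_tsum]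
    · refine lintegral_congr fun w => ?_
      exact af_count f D (fun n => D ∩ t n) hsD hsdisj hinj w
    · intro n
      exact (measurable_const.indicator (himeas n)).aemeasurable
  · intro n
    have : (D ∩ t n) ∩ f ⁻¹' B = (D ∩ f ⁻¹' B) ∩ t n := by
      ext z; simp only [mem_inter_iff]; tauto
    rw [this]
    exact hDB.inter (tmeas n)
  · exact pairwise_disjoint_mono hsdisj fun n => inter_subset_left

/-- Area formula with multiplicities for a function analytic in the unit disc. -/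
theorem area_formula (f : ℂ → ℂ) (hf : DifferentiableOn ℂ f (ball (0:ℂ) 1))
    (B : Set ℂ) (hB : MeasurableSet B) :
    ∫⁻ w in B, valency f w = ∫⁻ z in ball (0:ℂ) 1 ∩ f ⁻¹' B, ‖deriv f z‖ₑ ^ 2 := by
  have hfa : AnalyticOnNhd ℂ f (ball 0 1) := hf.analyticOnNhd isOpen_ball
  have hda : AnalyticOnNhd ℂ (deriv f) (ball 0 1) := hfa.deriv
  by_cases hconst : ∀ z ∈ ball (0:ℂ) 1, deriv f z = 0
  · obtain ⟨a, ha⟩ := (isOpen_ball (x := (0:ℂ)) (ε := 1)).exists_is_const_of_fderiv_eq_zero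
      (convex_ball (0:ℂ) 1).isPreconnected hf (by
        intro z hz
        have h1 : HasDerivAt f (deriv f z) z := (hfa z hz).differentiableAt.hasDerivAt
        rw [hconst z hz] at h1
        rw [h1.hasFDerivAt.fderiv]
        simp)
    have hr : ∫⁻ z in ball (0:ℂ) 1 ∩ f ⁻¹' B, ‖deriv f z‖ₑ ^ 2 = 0 := by
      apply le_antisymm _ zero_le
      calc ∫⁻ z in ball (0:ℂ) 1 ∩ f ⁻¹' B, ‖deriv f z‖ₑ ^ 2
          ≤ ∫⁻ z in ball (0:ℂ) 1, ‖deriv f z‖ₑ ^ 2 := lintegral_mono_set inter_subset_left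
        _ = ∫⁻ z in ball (0:ℂ) 1, 0 := by
            apply setLIntegral_congr_fun measurableSet_ball
            intro z hz
            simp [hconst z hz]
        _ = 0 := by simp
        _ ≤ 0 := le_rfl
    rw [hr]
    have hval : ∀ w, w ≠ a → valency f w = 0 := by
      intro w hw
      unfold valency
      rw [ENNReal.tsum_eq_zero]
      rintro ⟨z, hz, hfz⟩
      exact absurd (hfz.symm.trans (ha z hz)) hw
    rw [lintegral_congr_ae (g := fun _ => 0)]
    · simp
    · apply ae_restrict_of_ae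
      have : ∀ᵐ w : ℂ, w ≠ a := by
        rw [ae_iff]
        simp
      filter_upwards [this] with w hw using hval w hw
  · push Not at hconst
    obtain ⟨z0, hz0, hne0⟩ := hconst
    have hcod := hda.preimage_zero_mem_codiscreteWithin hne0 hz0
      ((convex_ball (0:ℂ) 1).isConnected ⟨z0, hz0⟩)
    set Z : Set ℂ := ((deriv f ⁻¹' {0}ᶜ)ᶜ ∩ ball (0:ℂ) 1) with hZ
    have hZc : Z.Countable := by
      have : DiscreteTopology ↑((deriv f ⁻¹' {0}ᶜ)ᶜ ∩ ball (0:ℂ) 1) :=
        isDiscrete_iff_discreteTopology.mp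
          (isDiscrete_of_codiscreteWithin ((compl_compl (deriv f ⁻¹' {0}ᶜ)).symm ▸ hcod))
      exact TopologicalSpace.separableSpace_iff_countable.1 inferInstance
    have hZmem : ∀ z, z ∈ Z ↔ z ∈ ball (0:ℂ) 1 ∧ deriv f z = 0 := by
      intro z
      simp only [hZ, mem_inter_iff, mem_compl_iff, mem_preimage, mem_singleton_iff, not_not]
      tauto
    have hm := af_main f (ball (0:ℂ) 1 \ Z) (measurableSet_ball.diff hZc.measurableSet)
      (fun z hz => (hfa z hz.1).differentiableAt.hasDerivAt)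
      (fun z hz h0 => hz.2 ((hZmem z).2 ⟨hz.1, h0⟩)) B hB
    have hr : ∫⁻ z in ball (0:ℂ) 1 ∩ f ⁻¹' B, ‖deriv f z‖ₑ ^ 2 =
        ∫⁻ z in (ball (0:ℂ) 1 \ Z) ∩ f ⁻¹' B, ‖deriv f z‖ₑ ^ 2 := by
      apply setLIntegral_congr
      have hZ0 : ∀ᵐ z : ℂ, z ∉ Z := by
        rw [ae_iff]
        simpa using hZc.measure_zero volume
      filter_upwards [hZ0] with z hz
      apply propext
      show z ∈ ball (0:ℂ) 1 ∩ f ⁻¹' B ↔ z ∈ (ball (0:ℂ) 1 \ Z) ∩ f ⁻¹' B
      simp only [mem_inter_iff, mem_sdiff]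
      tauto
    rw [hr, ← hm]
    apply lintegral_congr_ae
    apply ae_restrict_of_ae
    have hfZ : ∀ᵐ w : ℂ, w ∉ f '' Z := by
      rw [ae_iff]
      have h0 := (hZc.image f).measure_zero (volume : Measure ℂ)
      have h1 : {a : ℂ | ¬a ∉ f '' Z} = f '' Z := by
        ext a; simp
      rw [h1]
      exact h0
    filter_upwards [hfZ] with w hw
    unfold valency
    have hset : {z : ℂ | z ∈ ball (0:ℂ) 1 ∧ f z = w} = {z : ℂ | z ∈ ball (0:ℂ) 1 \ Z ∧ f z = w} := by
      ext z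
      constructor
      · rintro ⟨h1, h2⟩
        exact ⟨⟨h1, fun h => hw ⟨z, h, h2⟩⟩, h2⟩
      · rintro ⟨h1, h2⟩
        exact ⟨h1.1, h2⟩
    have e1 : (∑' z : {z : ℂ // z ∈ ball (0:ℂ) 1 ∧ f z = w},
        ((analyticOrderAt (fun ζ : ℂ => f ζ - w) (z:ℂ) : ℕ∞) : ℝ≥0∞)) =
        ∑' z : {z : ℂ // z ∈ ball (0:ℂ) 1 ∧ f z = w}, (1 : ℝ≥0∞) := by
      apply tsum_congr
      rintro ⟨z, hz, hfz⟩
      have h1 : deriv f z ≠ 0 := fun h0 => hw ⟨z, (hZmem z).2 ⟨hz, h0⟩, hfz⟩
      have h2 := (hfa z hz).analyticOrderAt_sub_eq_one_of_deriv_ne_zero h1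
      rw [hfz] at h2
      simp [h2]
    rw [e1]
    have e2 : ∀ (S T : Set ℂ), S = T → (∑' _z : S, (1 : ℝ≥0∞)) = ∑' _z : T, (1 : ℝ≥0∞) := by
      intro S T h; rw [h]
    exact e2 _ _ hset

end Area

end MeanVal
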