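import Mathlib
import Pool.Agent.Helper772.MV.Defs

/- NOTE (helper670): the posted conclusion parses the sum over l inside the first lintegral (the
notation binds at level 60); here the integral is in parentheses. The posted form is false. -/

open MeasureTheory Metric Set
open scoped ENNReal Real

namespace MeanVal

namespace AreaAsm

theorem aas_young (η x y : ℝ) (hη : 0 < η) :
    (x + y) ^ 2 ≤ (1 + η) * x ^ 2 + (1 + 1 / η) * y ^ 2 := by
  have h : 0 ≤ (η * x - y) ^ 2 / η := by positivity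
  have h2 : (η * x - y) ^ 2 / η = η * x ^ 2 - 2 * x * y + 1 / η * y ^ 2 := by
    field_simp
    ring
  nlinarith

theorem aas_norm_young (η : ℝ) (hη : 0 < η) (a b : ℂ) :
    ‖a + b‖ ^ 2 ≤ (1 + η) * ‖a‖ ^ 2 + (1 + 1 / η) * ‖b‖ ^ 2 := by
  have h1 : ‖a + b‖ ^ 2 ≤ (‖a‖ + ‖b‖) ^ 2 := pow_le_pow_left₀ (norm_nonneg _) (norm_add_le a b) 2
  exact h1.trans (aas_young η _ _ hη)

theorem aas_q_norm {ζ : ℂ} (hζ : ‖ζ‖ = 1) (z : ℂ) : ‖1 - (starRingEnd ℂ) ζ * z‖ = ‖z - ζ‖ := by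
  have h1 : (starRingEnd ℂ) ζ * ζ = 1 := by
    rw [mul_comm, Complex.mul_conj, Complex.normSq_eq_norm_sq, hζ]; simp
  have h2 : 1 - (starRingEnd ℂ) ζ * z = (starRingEnd ℂ) ζ * (ζ - z) := by
    rw [mul_sub, h1]
  rw [h2, norm_mul, RCLike.norm_conj, hζ, one_mul, norm_sub_rev]

theorem aas_q_re {ζ : ℂ} (hζ : ‖ζ‖ = 1) {z : ℂ} (hz : ‖z‖ < 1) :
    0 < (1 - (starRingEnd ℂ) ζ * z).re := by
  have h1 : ‖(starRingEnd ℂ) ζ * z‖ < 1 := by
    rw [norm_mul, RCLike.norm_conj, hζ, one_mul]; exact hz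
  have h2 := (Complex.abs_re_le_norm ((starRingEnd ℂ) ζ * z)).trans_lt h1
  rw [Complex.sub_re, Complex.one_re]
  linarith [(abs_lt.1 h2).2]

theorem aas_q_mp {ζ : ℂ} (hζ : ‖ζ‖ = 1) :
    MeasurePreserving (fun z : ℂ => 1 - (starRingEnd ℂ) ζ * z) volume volume := by
  let a : Circle := ⟨-(starRingEnd ℂ) ζ, by
    rw [Submonoid.unitSphere]
    show _ ∈ sphere (0 : ℂ) 1
    rw [mem_sphere_zero_iff_norm, norm_neg, RCLike.norm_conj, hζ]⟩
  have h1 : MeasurePreserving (rotation a) (volume : Measure ℂ) volume :=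
    LinearIsometryEquiv.measurePreserving _
  have h2 := (measurePreserving_add_left (volume : Measure ℂ) 1).comp h1
  have h3 : (fun z : ℂ => 1 - (starRingEnd ℂ) ζ * z) = (fun x => 1 + x) ∘ (rotation a) := by
    funext z
    simp only [Function.comp_apply, rotation_apply]
    show 1 - (starRingEnd ℂ) ζ * z = 1 + (-(starRingEnd ℂ) ζ) * z
    ring
  rw [h3]
  exact h2

/-- products of functions near `1` -/
theorem aas_prod (S : Finset ℕ) (h : ℕ → ℂ → ℂ) (z : ℂ) (ω : ℝ) (hω : 0 ≤ ω)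
    (hd : ∀ l ∈ S, DifferentiableAt ℂ (h l) z) (h1 : ∀ l ∈ S, ‖h l z - 1‖ ≤ ω)
    (h2 : ∀ l ∈ S, ‖deriv (h l) z‖ ≤ ω) :
    ∃ D : ℂ, HasDerivAt (fun z => ∏ l ∈ S, h l z) D z ∧
      ‖D‖ ≤ S.card * ω * (1 + ω) ^ S.card ∧ ‖∏ l ∈ S, h l z‖ ≤ (1 + ω) ^ S.card := by
  classical
  induction S using Finset.induction_on with
  | empty => exact ⟨0, by simpa using hasDerivAt_const z (1 : ℂ), by simp, by simp⟩
  | insert a S ha ih =>
    obtain ⟨D, hD, hD1, hD2⟩ := ih (fun l hl => hd l (Finset.mem_insert_of_mem hl))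
      (fun l hl => h1 l (Finset.mem_insert_of_mem hl))
      (fun l hl => h2 l (Finset.mem_insert_of_mem hl))
    have ha' := Finset.mem_insert_self a S
    have k1 : ‖h a z‖ ≤ 1 + ω := by
      have : h a z = 1 + (h a z - 1) := by ring
      rw [this]
      refine (norm_add_le _ _).trans ?_
      rw [norm_one]
      linarith [h1 a ha']
    have k2 := h2 a ha'
    have k3 := (hd a ha').hasDerivAt
    refine ⟨deriv (h a) z * (∏ l ∈ S, h l z) + h a z * D, ?_, ?_, ?_⟩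
    · have := k3.mul hD
      simp only [Finset.prod_insert ha]
      exact this
    · rw [Finset.card_insert_of_notMem ha]
      have hpow : (1 : ℝ) ≤ (1 + ω) ^ S.card := one_le_pow₀ (by linarith)
      have hp0 : (0 : ℝ) ≤ (1 + ω) ^ S.card := by positivity
      refine (norm_add_le _ _).trans ?_
      rw [norm_mul, norm_mul]
      have e1 : ‖deriv (h a) z‖ * ‖∏ l ∈ S, h l z‖ ≤ ω * (1 + ω) ^ S.card :=
        mul_le_mul k2 hD2 (norm_nonneg _) hω
      have e2 : ‖h a z‖ * ‖D‖ ≤ (1 + ω) * (S.card * ω * (1 + ω) ^ S.card) :=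
        mul_le_mul k1 hD1 (norm_nonneg _) (by linarith)
      have e3 : ω * (1 + ω) ^ S.card ≤ ω * (1 + ω) ^ S.card * (1 + ω) := by
        have : 0 ≤ ω * (1 + ω) ^ S.card := by positivity
        nlinarith
      push_cast
      rw [pow_succ]
      nlinarith
    · rw [Finset.prod_insert ha, Finset.card_insert_of_notMem ha, norm_mul, pow_succ, mul_comm]
      exact mul_le_mul hD2 k1 (norm_nonneg _) (by positivity)

theorem aas_one_le_prod (S : Finset ℕ) (h : ℕ → ℂ) (h1 : ∀ l ∈ S, 1 ≤ ‖h l‖) :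
    1 ≤ ‖∏ l ∈ S, h l‖ := by
  classical
  rw [norm_prod]
  induction S using Finset.induction_on with
  | empty => simp
  | insert a S ha ih =>
    rw [Finset.prod_insert ha]
    have e1 := h1 a (Finset.mem_insert_self a S)
    have e2 := ih (fun l hl => h1 l (Finset.mem_insert_of_mem hl))
    nlinarith


/-- the constants -/
structure aasC (m : ℕ) (f : ℂ → ℂ) (ζ : ℕ → ℂ) (ε e M c0 κ ω : ℝ) : Prop where
  e0 : 0 < e
  e1 : e ≤ 1
  ee : e ≤ ε
  M0 : 0 < M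
  c00 : 0 < c0
  κ0 : 0 < κ
  ω0 : 0 < ω
  fM : ∀ z ∈ closedBall (0:ℂ) 1, ‖f z‖ ≤ M ∧ ‖deriv f z‖ ≤ M
  fc : ∀ z ∈ closedBall (0:ℂ) 1, c0 ≤ ‖f z‖
  K1 : ∀ l ≤ m, ∀ l' ≤ m, l ≠ l' → 2 * κ ≤ ‖ζ l - ζ l'‖
  K2 : ∀ l ≤ m, ∀ z ∈ closedBall (0:ℂ) 1, ‖z - ζ l‖ < κ → ‖f z - f (ζ l)‖ ≤ e / 16 * ‖f (ζ l)‖
  K3 : ((m : ℝ) + 1) * ((1 + e / 16) * (1 + 1 / (e / 16)) * (9 * M ^ 2) * ((1 + ε) / c0) ^ 2) *
    (Real.pi * κ ^ 2) ≤ ε / 3
  W1 : ω ≤ e / 16
  W2 : (1 + ω) ^ (m + 1) ≤ 1 + e / 16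
  W3 : (1 + 1 / (e / 16)) * (ω * 4) ≤ ε / 3
  W4 : (1 + e / 16) * (1 + 1 / (e / 16)) * M ^ 2 * (2 * (m + 1) * ω) ^ 2 ≤
    ε / (3 * Real.pi) * (c0 ^ 2 / 4)
  W5 : 2 * ((m : ℝ) + 1) * ω ≤ 1

open Filter Topology in
theorem aas_params (m : ℕ) (f : ℂ → ℂ)
    (hf : ∃ ρ : ℝ, 1 < ρ ∧ DifferentiableOn ℂ f (ball (0:ℂ) ρ))
    (hf0 : ∀ z : ℂ, ‖z‖ ≤ 1 → f z ≠ 0) (ζ : ℕ → ℂ) (hζ : ∀ l ≤ m, ‖ζ l‖ = 1)
    (hζ' : ∀ l ≤ m, ∀ l' ≤ m, l ≠ l' → ζ l ≠ ζ l') (ε : ℝ) (hε : 0 < ε) :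
    ∃ e M c0 κ ω : ℝ, aasC m f ζ ε e M c0 κ ω := by
  obtain ⟨ρ, hρ, hfd⟩ := hf
  have hsub : closedBall (0:ℂ) 1 ⊆ ball (0:ℂ) ρ := closedBall_subset_ball hρ
  have hfc : ContinuousOn f (closedBall (0:ℂ) 1) := hfd.continuousOn.mono hsub
  have hdc : ContinuousOn (deriv f) (closedBall (0:ℂ) 1) :=
    (hfd.deriv isOpen_ball).continuousOn.mono hsub
  have hcpt : IsCompact (closedBall (0:ℂ) 1) := isCompact_closedBall _ _
  have hne : (closedBall (0:ℂ) 1).Nonempty := ⟨0, by simp⟩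
  obtain ⟨M1, hM1⟩ := hcpt.exists_bound_of_continuousOn hfc
  obtain ⟨M2, hM2⟩ := hcpt.exists_bound_of_continuousOn hdc
  obtain ⟨z0, hz0, hz0'⟩ := hcpt.exists_isMinOn hne hfc.norm
  set M := max 1 (max M1 M2) with hM
  have hMpos : 0 < M := lt_of_lt_of_le one_pos (le_max_left _ _)
  set c0 := ‖f z0‖ with hc0
  have hc0pos : 0 < c0 := norm_pos_iff.2 (hf0 z0 (by simpa using hz0))
  have hfcl : ∀ z ∈ closedBall (0:ℂ) 1, c0 ≤ ‖f z‖ := fun z hz => hz0' hz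
  set e := min ε 1 with he
  have he0 : 0 < e := lt_min hε one_pos
  have he1 : e ≤ 1 := min_le_right _ _
  have hee : e ≤ ε := min_le_left _ _
  -- uniform continuity
  have huc := hcpt.uniformContinuousOn_of_continuous hfc
  obtain ⟨δ, hδ, hδ'⟩ := Metric.uniformContinuousOn_iff.1 huc (e / 16 * c0) (by positivity)
  -- eventually in κ
  have k0 : ∀ᶠ κ : ℝ in 𝓝[>] 0, 0 < κ := self_mem_nhdsWithin
  have kid : Tendsto (fun κ : ℝ => κ) (𝓝[>] 0) (𝓝 0) := nhdsWithin_le_nhds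
  have k1 : ∀ᶠ κ : ℝ in 𝓝[>] 0, ∀ l ∈ Finset.range (m + 1), ∀ l' ∈ Finset.range (m + 1),
      l ≠ l' → 2 * κ ≤ ‖ζ l - ζ l'‖ := by
    rw [Filter.eventually_all_finset]
    intro l hl
    rw [Filter.eventually_all_finset]
    intro l' hl'
    by_cases hll : l = l'
    · exact Filter.Eventually.of_forall fun κ h => absurd hll h
    · have hpos : 0 < ‖ζ l - ζ l'‖ := norm_pos_iff.2 (sub_ne_zero.2
        (hζ' l (by simpa [Nat.lt_succ_iff] using hl) l' (by simpa [Nat.lt_succ_iff] using hl') hll))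
      have h1 : Tendsto (fun κ : ℝ => 2 * κ) (𝓝[>] 0) (𝓝 (2 * 0)) := kid.const_mul 2
      rw [mul_zero] at h1
      filter_upwards [h1.eventually_lt_const hpos] with κ hκ _
      exact hκ.le
  have k2 : ∀ᶠ κ : ℝ in 𝓝[>] 0, κ < δ := kid.eventually_lt_const hδ
  have k3 : ∀ᶠ κ : ℝ in 𝓝[>] 0, ((m : ℝ) + 1) * ((1 + e / 16) * (1 + 1 / (e / 16)) * (9 * M ^ 2) *
      ((1 + ε) / c0) ^ 2) * (Real.pi * κ ^ 2) < ε / 3 := by
    have h1 : Tendsto (fun κ : ℝ => ((m : ℝ) + 1) * ((1 + e / 16) * (1 + 1 / (e / 16)) *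
        (9 * M ^ 2) * ((1 + ε) / c0) ^ 2) * (Real.pi * κ ^ 2)) (𝓝[>] 0)
        (𝓝 (((m : ℝ) + 1) * ((1 + e / 16) * (1 + 1 / (e / 16)) * (9 * M ^ 2) *
        ((1 + ε) / c0) ^ 2) * (Real.pi * 0 ^ 2))) := ((kid.pow 2).const_mul _).const_mul _
    refine h1.eventually_lt_const ?_
    have : (0 : ℝ) ^ 2 = 0 := by norm_num
    rw [this, mul_zero, mul_zero]
    positivity
  obtain ⟨κ, hκ0, hκ1, hκ2, hκ3⟩ := (k0.and (k1.and (k2.and k3))).exists
  -- eventually in ω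
  have w1 : ∀ᶠ ω : ℝ in 𝓝[>] 0, ω < e / 16 := kid.eventually_lt_const (by positivity)
  have w2 : ∀ᶠ ω : ℝ in 𝓝[>] 0, (1 + ω) ^ (m + 1) < 1 + e / 16 := by
    have h1 : Tendsto (fun ω : ℝ => (1 + ω) ^ (m + 1)) (𝓝[>] 0) (𝓝 ((1 + 0) ^ (m + 1))) :=
      (kid.const_add 1).pow (m + 1)
    refine h1.eventually_lt_const ?_
    rw [add_zero, one_pow]
    linarith
  have w3 : ∀ᶠ ω : ℝ in 𝓝[>] 0, (1 + 1 / (e / 16)) * (ω * 4) < ε / 3 := by
    have h1 : Tendsto (fun ω : ℝ => (1 + 1 / (e / 16)) * (ω * 4)) (𝓝[>] 0)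
        (𝓝 ((1 + 1 / (e / 16)) * (0 * 4))) := (kid.mul_const 4).const_mul _
    refine h1.eventually_lt_const ?_
    rw [zero_mul, mul_zero]
    positivity
  have w4 : ∀ᶠ ω : ℝ in 𝓝[>] 0, (1 + e / 16) * (1 + 1 / (e / 16)) * M ^ 2 *
      (2 * (m + 1) * ω) ^ 2 < ε / (3 * Real.pi) * (c0 ^ 2 / 4) := by
    have h1 : Tendsto (fun ω : ℝ => (1 + e / 16) * (1 + 1 / (e / 16)) * M ^ 2 *
        (2 * ((m : ℝ) + 1) * ω) ^ 2) (𝓝[>] 0) (𝓝 ((1 + e / 16) * (1 + 1 / (e / 16)) * M ^ 2 *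
        (2 * ((m : ℝ) + 1) * 0) ^ 2)) := ((kid.const_mul _).pow 2).const_mul _
    refine h1.eventually_lt_const ?_
    have : (2 * ((m : ℝ) + 1) * 0) ^ 2 = 0 := by ring
    rw [this, mul_zero]
    positivity
  have w5 : ∀ᶠ ω : ℝ in 𝓝[>] 0, 2 * ((m : ℝ) + 1) * ω < 1 := by
    have h1 : Tendsto (fun ω : ℝ => 2 * ((m : ℝ) + 1) * ω) (𝓝[>] 0)
        (𝓝 (2 * ((m : ℝ) + 1) * 0)) := kid.const_mul _
    refine h1.eventually_lt_const ?_
    rw [mul_zero]
    exact one_pos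
  obtain ⟨ω, hω0, hω1, hω2, hω3, hω4, hω5⟩ :=
    (k0.and (w1.and (w2.and (w3.and (w4.and w5))))).exists
  refine ⟨e, M, c0, κ, ω, ⟨he0, he1, hee, hMpos, hc0pos, hκ0, hω0, ?_, hfcl, ?_, ?_, hκ3.le,
    hω1.le, hω2.le, hω3.le, hω4.le, hω5.le⟩⟩
  · intro z hz
    exact ⟨(hM1 z hz).trans ((le_max_left _ _).trans (le_max_right _ _)),
      (hM2 z hz).trans ((le_max_right _ _).trans (le_max_right _ _))⟩
  · intro l hl l' hl' hll
    exact hκ1 l (Finset.mem_range.2 (Nat.lt_succ_of_le hl)) l'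
      (Finset.mem_range.2 (Nat.lt_succ_of_le hl')) hll
  · intro l hl z hz hzl
    have hζl : ζ l ∈ closedBall (0:ℂ) 1 := by simp [hζ l hl]
    have h1 := hδ' z hz (ζ l) hζl (by rw [dist_eq_norm]; linarith)
    rw [dist_eq_norm] at h1
    have h2 := hfcl (ζ l) hζl
    nlinarith

/-- numerical facts -/
theorem aas_num1 {e ε ω R : ℝ} (he0 : 0 < e) (he1 : e ≤ 1) (hee : e ≤ ε) (hω0 : 0 < ω)
    (hω : ω ≤ e / 16) (hR : 0 < R) :
    R / (1 - ω) ≤ (1 + ε) * R ∧ R / ((1 - ω) * (1 - e / 16)) ≤ (1 + ε) * R := by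
  have h1 : 0 < 1 - ω := by linarith
  have h2 : 0 < 1 - e / 16 := by linarith
  have h3 : 15 / 16 ≤ 1 - ω := by linarith
  have key : 1 ≤ (1 + e) * ((1 - ω) * (1 - e / 16)) := by
    have h4 : (1 - e / 16) * (1 - e / 16) ≤ (1 - ω) * (1 - e / 16) :=
      mul_le_mul_of_nonneg_right (by linarith) h2.le
    have h5 : 1 ≤ (1 + e) * ((1 - e / 16) * (1 - e / 16)) := by
      have e2 : e ^ 2 ≤ e := by nlinarith
      have e3 : 0 ≤ e ^ 3 := by positivity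
      have : (1 + e) * ((1 - e / 16) * (1 - e / 16)) =
          1 + 7 / 8 * e - 31 / 256 * e ^ 2 + e ^ 3 / 256 := by ring
      rw [this]
      linarith
    exact h5.trans (mul_le_mul_of_nonneg_left h4 (by linarith))
  have key2 : 1 ≤ (1 + ε) * ((1 - ω) * (1 - e / 16)) := by
    have : 0 < (1 - ω) * (1 - e / 16) := by positivity
    nlinarith
  constructor
  · rw [div_le_iff₀ h1]
    have h5 : 1 ≤ (1 + ε) * (1 - ω) := by
      have h6 : (1 - ω) * (1 - e / 16) ≤ 1 - ω := by nlinarith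
      have : 0 ≤ 1 + ε := by linarith
      nlinarith
    nlinarith
  · rw [div_le_iff₀ (by positivity)]
    nlinarith

theorem aas_num2 {e ε p : ℝ} (he0 : 0 < e) (he1 : e ≤ 1) (hee : e ≤ ε) (hp0 : 0 ≤ p)
    (hp : p ≤ 1 + e / 16) :
    (1 + e / 16) * ((1 + e / 16) * (p ^ 2 * (1 + e / 16) ^ 2)) ≤ 1 + ε ∧
    (1 + e / 16) * ((1 + e / 16) * p ^ 2) ≤ 1 + ε := by
  set x := 1 + e / 16 with hx
  have hx1 : 1 ≤ x := by rw [hx]; linarith
  have hp2 : p ^ 2 ≤ x ^ 2 := pow_le_pow_left₀ hp0 hp 2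
  have h6 : x ^ 6 ≤ 1 + e := by
    rw [hx]
    have h2 : e ^ 2 ≤ e := by nlinarith
    have h3 : e ^ 3 ≤ e := by nlinarith [pow_pos he0 2, pow_pos he0 3]
    have h4 : e ^ 4 ≤ e := by nlinarith [pow_pos he0 2, pow_pos he0 3, pow_pos he0 4]
    have h5 : e ^ 5 ≤ e := by nlinarith [pow_pos he0 2, pow_pos he0 3, pow_pos he0 4, pow_pos he0 5]
    have h6 : e ^ 6 ≤ e := by
      nlinarith [pow_pos he0 2, pow_pos he0 3, pow_pos he0 4, pow_pos he0 5, pow_pos he0 6]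
    have : (1 + e / 16) ^ 6 = 1 + 6 * (e / 16) + 15 * (e ^ 2 / 256) + 20 * (e ^ 3 / 4096) +
        15 * (e ^ 4 / 65536) + 6 * (e ^ 5 / 1048576) + e ^ 6 / 16777216 := by ring
    rw [this]
    linarith
  constructor
  · calc x * (x * (p ^ 2 * x ^ 2)) ≤ x * (x * (x ^ 2 * x ^ 2)) := by gcongr
      _ = x ^ 6 := by ring
      _ ≤ 1 + ε := by linarith
  · calc x * (x * p ^ 2) ≤ x * (x * x ^ 2) := by gcongr
      _ = x ^ 4 := by ring
      _ ≤ x ^ 6 := pow_le_pow_right₀ hx1 (by norm_num)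
      _ ≤ 1 + ε := by linarith


set_option maxHeartbeats 4000000 in
/-- pointwise estimate -/
theorem aas_point (m : ℕ) (f : ℂ → ℂ) (ζ : ℕ → ℂ) (hζ : ∀ l ≤ m, ‖ζ l‖ = 1)
    {ε e M c0 κ ω : ℝ} (hfd : ∀ z ∈ ball (0:ℂ) 1, DifferentiableAt ℂ f z)
    (hC : aasC m f ζ ε e M c0 κ ω) (H : ℕ → ℂ → ℂ) (O : ℂ → ℂ)
    (ha : ∀ l ≤ m, ∀ q : ℂ, 0 < q.re → DifferentiableAt ℂ (H l) q ∧ 1 ≤ ‖H l q‖)
    (hb : ∀ l ≤ m, ∀ q : ℂ, 0 < q.re → κ ≤ ‖q‖ → ‖H l q - 1‖ ≤ ω ∧ ‖deriv (H l) q‖ ≤ ω)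
    (hO : DifferentiableOn ℂ O (ball 0 1))
    (hO1 : ∀ z ∈ ball (0:ℂ) 1, ‖O z‖ ≤
        ω * ‖f z * ∏ l ∈ Finset.range (m + 1), H l (1 - (starRingEnd ℂ) (ζ l) * z)‖)
    {R : ℝ} (hR : 0 < R) {z : ℂ} (hz : z ∈ ball (0:ℂ) 1)
    (hzR : ‖f z * (∏ l ∈ Finset.range (m + 1),
            H l (1 - (starRingEnd ℂ) (ζ l) * z)) + O z‖ < R) :
    ‖f z * ∏ l ∈ Finset.range (m + 1), H l (1 - (starRingEnd ℂ) (ζ l) * z)‖ < R / (1 - ω) ∧
    ((‖f z‖ < (1 + ε) * R ∧ ‖deriv (fun z => f z * (∏ l ∈ Finset.range (m + 1),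
            H l (1 - (starRingEnd ℂ) (ζ l) * z)) + O z) z‖ ^ 2 ≤ (1 + ε) * ‖deriv f z‖ ^ 2 +
        ε / (3 * Real.pi) * R ^ 2 + (1 + 1 / (e / 16)) * ‖deriv O z‖ ^ 2) ∨
    (∃ l ≤ m, ‖z - ζ l‖ < κ ∧ ‖H l (1 - (starRingEnd ℂ) (ζ l) * z)‖ < (1 + ε) * R / ‖f (ζ l)‖ ∧
      ‖deriv (fun z => f z * (∏ l ∈ Finset.range (m + 1),
            H l (1 - (starRingEnd ℂ) (ζ l) * z)) + O z) z‖ ^ 2 ≤
        (1 + ε) * ‖f (ζ l)‖ ^ 2 * ‖deriv (H l) (1 - (starRingEnd ℂ) (ζ l) * z)‖ ^ 2 +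
        ((1 + e / 16) * (1 + 1 / (e / 16)) * (9 * M ^ 2) * ((1 + ε) / c0) ^ 2) * R ^ 2 +
        (1 + 1 / (e / 16)) * ‖deriv O z‖ ^ 2)) := by
  classical
  obtain ⟨he0, he1, hee, hM0, hc0, hκ0, hω0, hfM, hfc, hK1, hK2, hK3, hW1, hW2, hW3, hW4, hW5⟩ := hC
  have hε : 0 < ε := by linarith
  have hzn : ‖z‖ < 1 := by simpa using hz
  have hzc : z ∈ closedBall (0:ℂ) 1 := ball_subset_closedBall hz
  -- local functions
  set h : ℕ → ℂ → ℂ := fun l z => H l (1 - (starRingEnd ℂ) (ζ l) * z) with hh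
  have hmem : ∀ l, l ∈ Finset.range (m + 1) → l ≤ m := fun l hl =>
    Nat.lt_succ_iff.1 (Finset.mem_range.1 hl)
  have hqd : ∀ l (z : ℂ), HasDerivAt (fun z : ℂ => 1 - (starRingEnd ℂ) (ζ l) * z)
      (-(starRingEnd ℂ) (ζ l)) z := by
    intro l z
    have := ((hasDerivAt_id z).const_mul ((starRingEnd ℂ) (ζ l))).const_sub 1
    simpa using this
  have hhd : ∀ l ≤ m, HasDerivAt (h l)
      (deriv (H l) (1 - (starRingEnd ℂ) (ζ l) * z) * (-(starRingEnd ℂ) (ζ l))) z := by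
    intro l hl
    have h1 := (ha l hl _ (aas_q_re (hζ l hl) hzn)).1.hasDerivAt
    exact HasDerivAt.comp z h1 (hqd l z)
  have hhdn : ∀ l ≤ m, ‖deriv (h l) z‖ = ‖deriv (H l) (1 - (starRingEnd ℂ) (ζ l) * z)‖ := by
    intro l hl
    rw [(hhd l hl).deriv, norm_mul, norm_neg, RCLike.norm_conj, hζ l hl, mul_one]
  have hh1 : ∀ l ≤ m, 1 ≤ ‖h l z‖ := fun l hl => (ha l hl _ (aas_q_re (hζ l hl) hzn)).2
  have hfar : ∀ l ≤ m, κ ≤ ‖z - ζ l‖ → ‖h l z - 1‖ ≤ ω ∧ ‖deriv (h l) z‖ ≤ ω := by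
    intro l hl hzl
    have h1 := hb l hl _ (aas_q_re (hζ l hl) hzn) (by rw [aas_q_norm (hζ l hl)]; exact hzl)
    exact ⟨h1.1, by rw [hhdn l hl]; exact h1.2⟩
  have hOd : HasDerivAt O (deriv O z) z := (hO.differentiableAt (isOpen_ball.mem_nhds hz)).hasDerivAt
  have hfd' : HasDerivAt f (deriv f z) z := (hfd z hz).hasDerivAt
  have hO1z := hO1 z hz
  change ‖O z‖ ≤ ω * ‖f z * ∏ l ∈ Finset.range (m + 1), h l z‖ at hO1z
  change ‖f z * (∏ l ∈ Finset.range (m + 1), h l z) + O z‖ < R at hzR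
  have hω1 : 0 < 1 - ω := by linarith
  have hcar : ‖f z * ∏ l ∈ Finset.range (m + 1), h l z‖ < R / (1 - ω) := by
    rw [lt_div_iff₀ hω1]
    have h1 : ‖f z * ∏ l ∈ Finset.range (m + 1), h l z‖ ≤
        ‖f z * (∏ l ∈ Finset.range (m + 1), h l z) + O z‖ + ‖O z‖ := by
      have := norm_sub_le (f z * (∏ l ∈ Finset.range (m + 1), h l z) + O z) (O z)
      rwa [add_sub_cancel_right] at this
    nlinarith
  refine ⟨hcar, ?_⟩
  have hnum := aas_num1 he0 he1 hee hω0 hW1 hR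
  have hη : 0 < e / 16 := by positivity
  by_cases hnear : ∃ l ≤ m, ‖z - ζ l‖ < κ
  · -- near a boundary point
    right
    obtain ⟨l, hl, hzl⟩ := hnear
    have hlr : l ∈ Finset.range (m + 1) := Finset.mem_range.2 (Nat.lt_succ_of_le hl)
    have hothers : ∀ l' ∈ (Finset.range (m + 1)).erase l, κ ≤ ‖z - ζ l'‖ := by
      intro l' hl'
      rw [Finset.mem_erase] at hl'
      have h1 := hK1 l hl l' (hmem _ hl'.2) (Ne.symm hl'.1)
      have h2 : ‖ζ l - ζ l'‖ ≤ ‖z - ζ l‖ + ‖z - ζ l'‖ := by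
        have : ζ l - ζ l' = (z - ζ l') - (z - ζ l) := by ring
        rw [this]
        refine (norm_sub_le _ _).trans ?_
        linarith
      linarith
    obtain ⟨D, hD, hD1, hD2⟩ := aas_prod ((Finset.range (m + 1)).erase l) h z ω hω0.le
      (fun l' hl' => (hhd l' (hmem _ (Finset.mem_of_mem_erase hl'))).differentiableAt)
      (fun l' hl' => (hfar l' (hmem _ (Finset.mem_of_mem_erase hl')) (hothers l' hl')).1)
      (fun l' hl' => (hfar l' (hmem _ (Finset.mem_of_mem_erase hl')) (hothers l' hl')).2)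
    have hcard : ((Finset.range (m + 1)).erase l).card = m := by
      rw [Finset.card_erase_of_mem hlr, Finset.card_range]; rfl
    rw [hcard] at hD1 hD2
    have hpm : (1 + ω) ^ m ≤ 1 + e / 16 := by
      refine le_trans ?_ hW2
      exact pow_le_pow_right₀ (by linarith) (Nat.le_succ m)
    set P := ∏ l' ∈ (Finset.range (m + 1)).erase l, h l' z with hP
    have hPge : 1 ≤ ‖P‖ := aas_one_le_prod _ _ fun l' hl' =>
      hh1 l' (hmem _ (Finset.mem_of_mem_erase hl'))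
    have hPle : ‖P‖ ≤ 1 + e / 16 := hD2.trans hpm
    have hDle : ‖D‖ ≤ 1 := by
      refine hD1.trans ?_
      have h1 : (m : ℝ) * ω * (1 + ω) ^ m ≤ m * ω * 2 := by
        apply mul_le_mul_of_nonneg_left _ (by positivity)
        linarith
      have h2 : (0 : ℝ) ≤ m := Nat.cast_nonneg m
      nlinarith
    have hprod : ∀ y, ∏ l ∈ Finset.range (m + 1), h l y =
        h l y * ∏ l' ∈ (Finset.range (m + 1)).erase l, h l' y := fun y =>
      (Finset.mul_prod_erase _ _ hlr).symm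
    have hζl : ζ l ∈ closedBall (0:ℂ) 1 := by simp [hζ l hl]
    have hW0 : 0 < ‖f (ζ l)‖ := hc0.trans_le (hfc _ hζl)
    have hclose := hK2 l hl z hzc hzl
    have hfup : ‖f z‖ ≤ (1 + e / 16) * ‖f (ζ l)‖ := by
      have : f z = f (ζ l) + (f z - f (ζ l)) := by ring
      rw [this]
      refine (norm_add_le _ _).trans ?_
      linarith
    have hflow : (1 - e / 16) * ‖f (ζ l)‖ ≤ ‖f z‖ := by
      have : f (ζ l) = f z - (f z - f (ζ l)) := by ring
      have h2 : ‖f (ζ l)‖ ≤ ‖f z‖ + ‖f z - f (ζ l)‖ := by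
        conv_lhs => rw [this]
        exact norm_sub_le _ _
      linarith
    have h1e : 0 < 1 - e / 16 := by linarith
    -- bound of h
    have hhz : ‖h l z‖ < (1 + ε) * R / ‖f (ζ l)‖ := by
      have h1 : (1 - e / 16) * ‖f (ζ l)‖ * ‖h l z‖ ≤
          ‖f z * ∏ l ∈ Finset.range (m + 1), h l z‖ := by
        rw [hprod, norm_mul, norm_mul]
        have : ‖h l z‖ ≤ ‖h l z‖ * ‖P‖ := le_mul_of_one_le_right (norm_nonneg _) hPge
        exact mul_le_mul hflow this (norm_nonneg _) (norm_nonneg _)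
      have h2 := h1.trans_lt hcar
      rw [lt_div_iff₀ hW0]
      refine lt_of_lt_of_le ?_ hnum.2
      rw [lt_div_iff₀ (by positivity)]
      rw [lt_div_iff₀ hω1] at h2
      calc ‖h l z‖ * ‖f (ζ l)‖ * ((1 - ω) * (1 - e / 16))
          = (1 - e / 16) * ‖f (ζ l)‖ * ‖h l z‖ * (1 - ω) := by ring
        _ < R := h2
    refine ⟨l, hl, hzl, hhz, ?_⟩
    -- derivative
    have hder : HasDerivAt (fun z => f z * (∏ l ∈ Finset.range (m + 1), h l z) + O z)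
        ((deriv f z * P + f z * D) * h l z + f z * P * deriv (h l) z + deriv O z) z := by
      have h1 := ((hfd'.mul hD).mul (hhd l hl).differentiableAt.hasDerivAt).add hOd
      refine h1.congr_of_eventuallyEq (Filter.Eventually.of_forall fun y => ?_)
      simp only [Pi.add_apply, Pi.mul_apply]
      rw [hprod]
      ring
    have hder' : deriv (fun z => f z * (∏ l ∈ Finset.range (m + 1), h l z) + O z) z =
        (f z * P * deriv (h l) z + (deriv f z * P + f z * D) * h l z) + deriv O z := by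
      rw [hder.deriv]; ring
    change ‖deriv (fun z => f z * (∏ l ∈ Finset.range (m + 1), h l z) + O z) z‖ ^ 2 ≤ _
    rw [hder']
    have y1 := aas_norm_young (e / 16) hη
      (f z * P * deriv (h l) z + (deriv f z * P + f z * D) * h l z) (deriv O z)
    have y2 := aas_norm_young (e / 16) hη (f z * P * deriv (h l) z)
      ((deriv f z * P + f z * D) * h l z)
    have b1 : ‖f z * P * deriv (h l) z‖ ^ 2 ≤ (‖P‖ ^ 2 * (1 + e / 16) ^ 2) *
        (‖f (ζ l)‖ ^ 2 * ‖deriv (H l) (1 - (starRingEnd ℂ) (ζ l) * z)‖ ^ 2) := by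
      rw [norm_mul, norm_mul, hhdn l hl, mul_pow, mul_pow]
      have : ‖f z‖ ^ 2 ≤ ((1 + e / 16) * ‖f (ζ l)‖) ^ 2 := pow_le_pow_left₀ (norm_nonneg _) hfup 2
      rw [mul_pow] at this
      have h2 : 0 ≤ ‖P‖ ^ 2 * ‖deriv (H l) (1 - (starRingEnd ℂ) (ζ l) * z)‖ ^ 2 := by positivity
      have h3 := mul_le_mul_of_nonneg_right this h2
      calc ‖f z‖ ^ 2 * ‖P‖ ^ 2 * ‖deriv (H l) (1 - (starRingEnd ℂ) (ζ l) * z)‖ ^ 2
          = ‖f z‖ ^ 2 * (‖P‖ ^ 2 * ‖deriv (H l) (1 - (starRingEnd ℂ) (ζ l) * z)‖ ^ 2) := by ring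
        _ ≤ _ := h3
        _ = _ := by ring
    have b2 : ‖(deriv f z * P + f z * D) * h l z‖ ^ 2 ≤ (9 * M ^ 2) * (((1 + ε) / c0) ^ 2 * R ^ 2) := by
      rw [norm_mul, mul_pow]
      have h1 : ‖deriv f z * P + f z * D‖ ≤ 3 * M := by
        refine (norm_add_le _ _).trans ?_
        rw [norm_mul, norm_mul]
        have t1 : ‖deriv f z‖ * ‖P‖ ≤ M * 2 :=
          mul_le_mul (hfM z hzc).2 (by linarith) (norm_nonneg _) hM0.le
        have t2 : ‖f z‖ * ‖D‖ ≤ M * 1 := mul_le_mul (hfM z hzc).1 hDle (norm_nonneg _) hM0.le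
        linarith
      have h2 : ‖deriv f z * P + f z * D‖ ^ 2 ≤ 9 * M ^ 2 := by
        have := pow_le_pow_left₀ (norm_nonneg _) h1 2
        calc _ ≤ (3 * M) ^ 2 := this
          _ = 9 * M ^ 2 := by ring
      have h3 : ‖h l z‖ ≤ (1 + ε) / c0 * R := by
        refine hhz.le.trans ?_
        rw [div_mul_eq_mul_div]
        exact div_le_div_of_nonneg_left (by positivity) hc0 (hfc _ hζl)
      have h4 : ‖h l z‖ ^ 2 ≤ ((1 + ε) / c0) ^ 2 * R ^ 2 := by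
        rw [← mul_pow]
        exact pow_le_pow_left₀ (norm_nonneg _) h3 2
      exact mul_le_mul h2 h4 (by positivity) (by positivity)
    have hn2 := (aas_num2 he0 he1 hee (norm_nonneg P) hPle).1
    have hA : 0 < 1 + 1 / (e / 16) := by positivity
    have hw : 0 ≤ ‖f (ζ l)‖ ^ 2 * ‖deriv (H l) (1 - (starRingEnd ℂ) (ζ l) * z)‖ ^ 2 := by positivity
    calc _ ≤ _ := y1
      _ ≤ (1 + e / 16) * ((1 + e / 16) * ((‖P‖ ^ 2 * (1 + e / 16) ^ 2) *
        (‖f (ζ l)‖ ^ 2 * ‖deriv (H l) (1 - (starRingEnd ℂ) (ζ l) * z)‖ ^ 2)) +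
        (1 + 1 / (e / 16)) * ((9 * M ^ 2) * (((1 + ε) / c0) ^ 2 * R ^ 2))) +
        (1 + 1 / (e / 16)) * ‖deriv O z‖ ^ 2 := by
          have s1 : (1 + e / 16) * ‖f z * P * deriv (h l) z‖ ^ 2 ≤ (1 + e / 16) *
              ((‖P‖ ^ 2 * (1 + e / 16) ^ 2) *
              (‖f (ζ l)‖ ^ 2 * ‖deriv (H l) (1 - (starRingEnd ℂ) (ζ l) * z)‖ ^ 2)) :=
            mul_le_mul_of_nonneg_left b1 (by positivity)
          have s2 : (1 + 1 / (e / 16)) * ‖(deriv f z * P + f z * D) * h l z‖ ^ 2 ≤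
              (1 + 1 / (e / 16)) * ((9 * M ^ 2) * (((1 + ε) / c0) ^ 2 * R ^ 2)) :=
            mul_le_mul_of_nonneg_left b2 hA.le
          have s3 := mul_le_mul_of_nonneg_left (y2.trans (add_le_add s1 s2))
            (show 0 ≤ 1 + e / 16 by positivity)
          linarith
      _ = ((1 + e / 16) * ((1 + e / 16) * (‖P‖ ^ 2 * (1 + e / 16) ^ 2))) *
        (‖f (ζ l)‖ ^ 2 * ‖deriv (H l) (1 - (starRingEnd ℂ) (ζ l) * z)‖ ^ 2) +
        ((1 + e / 16) * (1 + 1 / (e / 16)) * (9 * M ^ 2) * ((1 + ε) / c0) ^ 2) * R ^ 2 +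
        (1 + 1 / (e / 16)) * ‖deriv O z‖ ^ 2 := by ring
      _ ≤ (1 + ε) *
        (‖f (ζ l)‖ ^ 2 * ‖deriv (H l) (1 - (starRingEnd ℂ) (ζ l) * z)‖ ^ 2) +
        ((1 + e / 16) * (1 + 1 / (e / 16)) * (9 * M ^ 2) * ((1 + ε) / c0) ^ 2) * R ^ 2 +
        (1 + 1 / (e / 16)) * ‖deriv O z‖ ^ 2 := by
          have := mul_le_mul_of_nonneg_right hn2 hw
          linarith
      _ = _ := by ring
  · -- away from all boundary points
    left
    push Not at hnear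
    obtain ⟨D, hD, hD1, hD2⟩ := aas_prod (Finset.range (m + 1)) h z ω hω0.le
      (fun l' hl' => (hhd l' (hmem _ hl')).differentiableAt)
      (fun l' hl' => (hfar l' (hmem _ hl') (hnear l' (hmem _ hl'))).1)
      (fun l' hl' => (hfar l' (hmem _ hl') (hnear l' (hmem _ hl'))).2)
    rw [Finset.card_range] at hD1 hD2
    set P := ∏ l' ∈ Finset.range (m + 1), h l' z with hP
    have hPge : 1 ≤ ‖P‖ := aas_one_le_prod _ _ fun l' hl' => hh1 l' (hmem _ hl')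
    have hPle : ‖P‖ ≤ 1 + e / 16 := hD2.trans hW2
    have hDle : ‖D‖ ≤ 2 * (m + 1) * ω := by
      refine hD1.trans ?_
      push_cast
      have h1 : ((m : ℝ) + 1) * ω * (1 + ω) ^ (m + 1) ≤ (m + 1) * ω * 2 := by
        apply mul_le_mul_of_nonneg_left _ (by positivity)
        linarith
      linarith
    have hfz : ‖f z‖ ≤ ‖f z * P‖ := by
      rw [norm_mul]
      exact le_mul_of_one_le_right (norm_nonneg _) hPge
    refine ⟨(hfz.trans_lt hcar).trans_le hnum.1, ?_⟩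
    have hRc : c0 ^ 2 / 4 ≤ R ^ 2 := by
      have h1 : c0 < R / (1 - ω) := (hfc z hzc).trans_lt (hfz.trans_lt hcar)
      rw [lt_div_iff₀ hω1] at h1
      have h2 : c0 / 2 ≤ R := by nlinarith
      have h3 : (c0 / 2) ^ 2 ≤ R ^ 2 := pow_le_pow_left₀ (by positivity) h2 2
      linarith [show (c0 / 2) ^ 2 = c0 ^ 2 / 4 by ring]
    have hder : HasDerivAt (fun z => f z * (∏ l ∈ Finset.range (m + 1), h l z) + O z)
        (deriv f z * P + f z * D + deriv O z) z := (hfd'.mul hD).add hOd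
    change ‖deriv (fun z => f z * (∏ l ∈ Finset.range (m + 1), h l z) + O z) z‖ ^ 2 ≤ _
    rw [hder.deriv]
    have y1 := aas_norm_young (e / 16) hη (deriv f z * P + f z * D) (deriv O z)
    have y2 := aas_norm_young (e / 16) hη (deriv f z * P) (f z * D)
    have b2 : ‖f z * D‖ ^ 2 ≤ M ^ 2 * (2 * (m + 1) * ω) ^ 2 := by
      rw [norm_mul, mul_pow]
      exact mul_le_mul (pow_le_pow_left₀ (norm_nonneg _) (hfM z hzc).1 2)
        (pow_le_pow_left₀ (norm_nonneg _) hDle 2) (by positivity) (by positivity)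
    have b1 : ‖deriv f z * P‖ ^ 2 = ‖P‖ ^ 2 * ‖deriv f z‖ ^ 2 := by
      rw [norm_mul, mul_pow, mul_comm]
    have hn2 := (aas_num2 he0 he1 hee (norm_nonneg P) hPle).2
    have hA : 0 < 1 + 1 / (e / 16) := by positivity
    calc _ ≤ _ := y1
      _ ≤ (1 + e / 16) * ((1 + e / 16) * (‖P‖ ^ 2 * ‖deriv f z‖ ^ 2) +
        (1 + 1 / (e / 16)) * (M ^ 2 * (2 * (m + 1) * ω) ^ 2)) +
        (1 + 1 / (e / 16)) * ‖deriv O z‖ ^ 2 := by
          rw [b1] at y2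
          have s2 : (1 + 1 / (e / 16)) * ‖f z * D‖ ^ 2 ≤
              (1 + 1 / (e / 16)) * (M ^ 2 * (2 * (m + 1) * ω) ^ 2) :=
            mul_le_mul_of_nonneg_left b2 hA.le
          have s3 := mul_le_mul_of_nonneg_left (y2.trans (add_le_add le_rfl s2))
            (show 0 ≤ 1 + e / 16 by positivity)
          linarith
      _ = ((1 + e / 16) * ((1 + e / 16) * ‖P‖ ^ 2)) * ‖deriv f z‖ ^ 2 +
        (1 + e / 16) * (1 + 1 / (e / 16)) * M ^ 2 * (2 * (m + 1) * ω) ^ 2 +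
        (1 + 1 / (e / 16)) * ‖deriv O z‖ ^ 2 := by ring
      _ ≤ (1 + ε) * ‖deriv f z‖ ^ 2 + ε / (3 * Real.pi) * R ^ 2 +
        (1 + 1 / (e / 16)) * ‖deriv O z‖ ^ 2 := by
          have s1 := mul_le_mul_of_nonneg_right hn2 (sq_nonneg ‖deriv f z‖)
          have s2 : ε / (3 * Real.pi) * (c0 ^ 2 / 4) ≤ ε / (3 * Real.pi) * R ^ 2 :=
            mul_le_mul_of_nonneg_left hRc (by positivity)
          linarith


theorem aas_enorm (w : ℂ) : ‖w‖ₑ ^ 2 = ENNReal.ofReal (‖w‖ ^ 2) := by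
  rw [← ofReal_norm, ENNReal.ofReal_pow (norm_nonneg _)]

theorem aas_vol (a : ℂ) {κ : ℝ} (hκ : 0 ≤ κ) :
    volume (ball a κ) = ENNReal.ofReal (Real.pi * κ ^ 2) := by
  rw [Complex.volume_ball, ENNReal.ofReal_mul Real.pi_pos.le, ENNReal.ofReal_pow hκ, mul_comm]
  congr 1
  rw [← NNReal.coe_real_pi, ENNReal.ofReal_coe_nnreal]

set_option maxHeartbeats 4000000 in
/-- assembly of the area estimate for the modified function (note the parentheses around the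
first integral of the conclusion) -/
theorem area_assembly (m : ℕ) (f : ℂ → ℂ)
    (hf : ∃ ρ : ℝ, 1 < ρ ∧ DifferentiableOn ℂ f (ball (0:ℂ) ρ))
    (hf0 : ∀ z : ℂ, ‖z‖ ≤ 1 → f z ≠ 0) (ζ : ℕ → ℂ) (hζ : ∀ l ≤ m, ‖ζ l‖ = 1)
    (hζ' : ∀ l ≤ m, ∀ l' ≤ m, l ≠ l' → ζ l ≠ ζ l') (ε : ℝ) (hε : 0 < ε) :
    ∃ κ ω : ℝ, 0 < κ ∧ 0 < ω ∧ ∀ (H : ℕ → ℂ → ℂ) (O : ℂ → ℂ) (Φ : ℕ → ℝ → ℝ≥0∞),
      (∀ l ≤ m, ∀ q : ℂ, 0 < q.re → DifferentiableAt ℂ (H l) q ∧ 1 ≤ ‖H l q‖) →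
      (∀ l ≤ m, ∀ q : ℂ, 0 < q.re → κ ≤ ‖q‖ → ‖H l q - 1‖ ≤ ω ∧ ‖deriv (H l) q‖ ≤ ω) →
      (∀ l ≤ m, ∀ R : ℝ, ∫⁻ q in {q : ℂ | 0 < q.re ∧ ‖H l q‖ < R},
        ENNReal.ofReal (‖deriv (H l) q‖ ^ 2) ≤ Φ l R) →
      DifferentiableOn ℂ O (ball 0 1) →
      (∀ z ∈ ball (0:ℂ) 1, ‖O z‖ ≤
        ω * ‖f z * ∏ l ∈ Finset.range (m + 1), H l (1 - (starRingEnd ℂ) (ζ l) * z)‖) →
      (∀ R : ℝ, 0 < R → ∫⁻ z in {z : ℂ | z ∈ ball (0:ℂ) 1 ∧
        ‖f z * ∏ l ∈ Finset.range (m + 1), H l (1 - (starRingEnd ℂ) (ζ l) * z)‖ < R},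
        ENNReal.ofReal (‖deriv O z‖ ^ 2) ≤ ENNReal.ofReal (ω * R ^ 2)) →
      ∀ R : ℝ, 0 < R →
        ∫⁻ z in ball (0:ℂ) 1 ∩ (fun z => f z * (∏ l ∈ Finset.range (m + 1),
            H l (1 - (starRingEnd ℂ) (ζ l) * z)) + O z) ⁻¹' ball (0:ℂ) R,
          ‖deriv (fun z => f z * (∏ l ∈ Finset.range (m + 1),
            H l (1 - (starRingEnd ℂ) (ζ l) * z)) + O z) z‖ₑ ^ 2 ≤
        ENNReal.ofReal (1 + ε) *
          ((∫⁻ z in ball (0:ℂ) 1 ∩ f ⁻¹' ball (0:ℂ) ((1 + ε) * R), ‖deriv f z‖ₑ ^ 2) +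
            ∑ l ∈ Finset.range (m + 1), ENNReal.ofReal (‖f (ζ l)‖ ^ 2) *
              Φ l ((1 + ε) * R / ‖f (ζ l)‖)) + ENNReal.ofReal (ε * R ^ 2) := by
  classical
  obtain ⟨e, M, c0, κ, ω, hC⟩ := aas_params m f hf hf0 ζ hζ hζ' ε hε
  refine ⟨κ, ω, hC.κ0, hC.ω0, ?_⟩
  intro H O Φ ha hb hΦ hO hO1 hO2 R hR
  obtain ⟨ρ, hρ, hfdo⟩ := hf
  have hfd : ∀ z ∈ ball (0:ℂ) 1, DifferentiableAt ℂ f z := fun z hz =>
    hfdo.differentiableAt (isOpen_ball.mem_nhds (ball_subset_ball hρ.le hz))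
  have hmem : ∀ l, l ∈ Finset.range (m + 1) → l ≤ m := fun l hl =>
    Nat.lt_succ_iff.1 (Finset.mem_range.1 hl)
  have hcard : DifferentiableOn ℂ (fun z => f z * ∏ l ∈ Finset.range (m + 1),
      H l (1 - (starRingEnd ℂ) (ζ l) * z)) (ball 0 1) := by
    intro z hz
    have hzn : ‖z‖ < 1 := by simpa using hz
    apply DifferentiableAt.differentiableWithinAt
    apply (hfd z hz).mul
    apply DifferentiableAt.fun_finsetProd
    intro l hl
    have h1 := (ha l (hmem l hl) _ (aas_q_re (hζ l (hmem l hl)) hzn)).1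
    have h2 : DifferentiableAt ℂ (fun z : ℂ => 1 - (starRingEnd ℂ) (ζ l) * z) z := by fun_prop
    exact DifferentiableAt.comp z h1 h2
  set car : ℂ → ℂ := fun z => f z * ∏ l ∈ Finset.range (m + 1),
      H l (1 - (starRingEnd ℂ) (ζ l) * z) with hcar
  have hgd : DifferentiableOn ℂ (fun z => car z + O z) (ball 0 1) := hcard.add hO
  -- measurability of the sets
  set A := ball (0:ℂ) 1 ∩ (fun z => f z * (∏ l ∈ Finset.range (m + 1),
            H l (1 - (starRingEnd ℂ) (ζ l) * z)) + O z) ⁻¹' ball (0:ℂ) R with hA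
  have hAm : MeasurableSet A :=
    (hgd.continuousOn.isOpen_inter_preimage isOpen_ball isOpen_ball).measurableSet
  set S0 := ball (0:ℂ) 1 ∩ f ⁻¹' ball (0:ℂ) ((1 + ε) * R) with hS0
  have hfco : ContinuousOn f (ball (0:ℂ) 1) := fun z hz =>
    (hfd z hz).continuousAt.continuousWithinAt
  have hS0m : MeasurableSet S0 :=
    (hfco.isOpen_inter_preimage isOpen_ball isOpen_ball).measurableSet
  have hω1 : 0 < 1 - ω := by
    have h1 := hC.W1
    have h2 := hC.e1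
    linarith
  set SO := {z : ℂ | z ∈ ball (0:ℂ) 1 ∧ ‖car z‖ < R / (1 - ω)} with hSO
  have hSOm : MeasurableSet SO := by
    have h1 : IsOpen (ball (0:ℂ) 1 ∩ car ⁻¹' ball (0:ℂ) (R / (1 - ω))) :=
      hcard.continuousOn.isOpen_inter_preimage isOpen_ball isOpen_ball
    have h2 : SO = ball (0:ℂ) 1 ∩ car ⁻¹' ball (0:ℂ) (R / (1 - ω)) := by
      ext z
      simp [hSO]
    rw [h2]
    exact h1.measurableSet
  let T : ℕ → Set ℂ := fun l => {q : ℂ | 0 < q.re ∧ ‖H l q‖ < (1 + ε) * R / ‖f (ζ l)‖}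
  have hTm : ∀ l ≤ m, MeasurableSet (T l) := by
    intro l hl
    have h1 : IsOpen {q : ℂ | 0 < q.re} := isOpen_lt continuous_const Complex.continuous_re
    have h2 : ContinuousOn (H l) {q : ℂ | 0 < q.re} := fun q hq =>
      (ha l hl q hq).1.continuousAt.continuousWithinAt
    have h3 := h2.isOpen_inter_preimage h1 (isOpen_ball (x := (0:ℂ))
      (ε := (1 + ε) * R / ‖f (ζ l)‖))
    have h4 : T l = {q : ℂ | 0 < q.re} ∩ (H l) ⁻¹' ball (0:ℂ) ((1 + ε) * R / ‖f (ζ l)‖) := by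
      ext q
      simp [T]
    rw [h4]
    exact h3.measurableSet
  set bU : ℝ := (1 + e / 16) * (1 + 1 / (e / 16)) * (9 * M ^ 2) * ((1 + ε) / c0) ^ 2 with hbU
  have he0 := hC.e0
  have hbU0 : 0 ≤ bU := by
    have := hC.c00
    positivity
  -- the majorants
  let φ0 : ℂ → ℝ≥0∞ := S0.indicator fun z => ENNReal.ofReal (1 + ε) * ‖deriv f z‖ₑ ^ 2
  let φT : ℕ → ℂ → ℝ≥0∞ := fun l => (T l).indicator fun q =>
    ENNReal.ofReal ((1 + ε) * ‖f (ζ l)‖ ^ 2) * ENNReal.ofReal (‖deriv (H l) q‖ ^ 2)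
  let φO : ℂ → ℝ≥0∞ := SO.indicator fun z =>
    ENNReal.ofReal (1 + 1 / (e / 16)) * ENNReal.ofReal (‖deriv O z‖ ^ 2)
  let φV : ℂ → ℝ≥0∞ := (ball (0:ℂ) 1).indicator fun _ => ENNReal.ofReal (ε / (3 * Real.pi) * R ^ 2)
  let φU : ℕ → ℂ → ℝ≥0∞ := fun l => (ball (ζ l) κ).indicator fun _ => ENNReal.ofReal (bU * R ^ 2)
  have m0 : Measurable φ0 := by
    refine Measurable.indicator ?_ hS0m
    exact ((measurable_deriv f).enorm.pow_const 2).const_mul _
  have mT : ∀ l ≤ m, Measurable (φT l) := by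
    intro l hl
    refine Measurable.indicator ?_ (hTm l hl)
    exact (((measurable_deriv (H l)).norm.pow_const 2).ennreal_ofReal).const_mul _
  have mO : Measurable φO := by
    refine Measurable.indicator ?_ hSOm
    exact (((measurable_deriv O).norm.pow_const 2).ennreal_ofReal).const_mul _
  have mV : Measurable φV := measurable_const.indicator measurableSet_ball
  have mU : ∀ l, Measurable (φU l) := fun l => measurable_const.indicator measurableSet_ball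
  have hqm : ∀ l ≤ m, MeasurePreserving (fun z : ℂ => 1 - (starRingEnd ℂ) (ζ l) * z) volume volume :=
    fun l hl => aas_q_mp (hζ l hl)
  have mTq : ∀ l ≤ m, Measurable (fun z => φT l (1 - (starRingEnd ℂ) (ζ l) * z)) := fun l hl =>
    (mT l hl).comp (hqm l hl).measurable
  -- pointwise bound
  have hpt : ∀ z ∈ A, ‖deriv (fun z => f z * (∏ l ∈ Finset.range (m + 1),
      H l (1 - (starRingEnd ℂ) (ζ l) * z)) + O z) z‖ₑ ^ 2 ≤
      φ0 z + ((∑ l ∈ Finset.range (m + 1), φT l (1 - (starRingEnd ℂ) (ζ l) * z)) +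
        (φO z + (φV z + ∑ l ∈ Finset.range (m + 1), φU l z))) := by
    intro z hz
    have hzb : z ∈ ball (0:ℂ) 1 := hz.1
    have hzn : ‖z‖ < 1 := by simpa using hzb
    have hzR : ‖f z * (∏ l ∈ Finset.range (m + 1),
            H l (1 - (starRingEnd ℂ) (ζ l) * z)) + O z‖ < R := by
      have := hz.2
      simpa using this
    obtain ⟨p1, p2⟩ := aas_point m f ζ hζ hfd hC H O ha hb hO hO1 hR hzb hzR
    have hzSO : z ∈ SO := ⟨hzb, p1⟩
    have vO : φO z = ENNReal.ofReal ((1 + 1 / (e / 16)) * ‖deriv O z‖ ^ 2) := by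
      simp only [φO]
      rw [indicator_of_mem hzSO, ← ENNReal.ofReal_mul (by positivity)]
    have vV : φV z = ENNReal.ofReal (ε / (3 * Real.pi) * R ^ 2) := by
      simp only [φV]
      rw [indicator_of_mem hzb]
    rw [aas_enorm]
    rcases p2 with ⟨q1, q2⟩ | ⟨l, hl, q1, q2, q3⟩
    · have hzS0 : z ∈ S0 := ⟨hzb, by simpa using q1⟩
      have v0 : φ0 z = ENNReal.ofReal ((1 + ε) * ‖deriv f z‖ ^ 2) := by
        simp only [φ0]
        rw [indicator_of_mem hzS0, aas_enorm, ← ENNReal.ofReal_mul (by positivity)]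
      calc _ ≤ ENNReal.ofReal ((1 + ε) * ‖deriv f z‖ ^ 2 +
            ε / (3 * Real.pi) * R ^ 2 + (1 + 1 / (e / 16)) * ‖deriv O z‖ ^ 2) :=
            ENNReal.ofReal_le_ofReal q2
        _ = φ0 z + (φO z + φV z) := by
            rw [v0, vO, vV, ENNReal.ofReal_add (by positivity) (by positivity),
              ENNReal.ofReal_add (by positivity) (by positivity)]
            ring
        _ ≤ _ := by
            refine add_le_add le_rfl ?_
            refine le_trans ?_ le_add_self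
            exact add_le_add le_rfl le_self_add
    · have hlr : l ∈ Finset.range (m + 1) := Finset.mem_range.2 (Nat.lt_succ_of_le hl)
      have hzT : 1 - (starRingEnd ℂ) (ζ l) * z ∈ T l := ⟨aas_q_re (hζ l hl) hzn, q2⟩
      have vT : φT l (1 - (starRingEnd ℂ) (ζ l) * z) = ENNReal.ofReal ((1 + ε) * ‖f (ζ l)‖ ^ 2 *
          ‖deriv (H l) (1 - (starRingEnd ℂ) (ζ l) * z)‖ ^ 2) := by
        simp only [φT]
        rw [indicator_of_mem hzT, ← ENNReal.ofReal_mul (by positivity)]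
      have vU : φU l z = ENNReal.ofReal (bU * R ^ 2) := by
        simp only [φU]
        rw [indicator_of_mem]
        rw [mem_ball, dist_eq_norm]
        exact q1
      calc _ ≤ ENNReal.ofReal ((1 + ε) * ‖f (ζ l)‖ ^ 2 *
            ‖deriv (H l) (1 - (starRingEnd ℂ) (ζ l) * z)‖ ^ 2 + bU * R ^ 2 +
            (1 + 1 / (e / 16)) * ‖deriv O z‖ ^ 2) := ENNReal.ofReal_le_ofReal q3
        _ = φT l (1 - (starRingEnd ℂ) (ζ l) * z) + (φO z + φU l z) := by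
            rw [vT, vO, vU, ENNReal.ofReal_add (by positivity) (by positivity),
              ENNReal.ofReal_add (by positivity) (by positivity)]
            ring
        _ ≤ _ := by
            refine le_trans ?_ le_add_self
            refine add_le_add ?_ (add_le_add le_rfl ?_)
            · exact Finset.single_le_sum (f := fun l => φT l (1 - (starRingEnd ℂ) (ζ l) * z))
                (fun _ _ => bot_le) hlr
            · refine le_trans ?_ le_add_self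
              exact Finset.single_le_sum (f := fun l => φU l z) (fun _ _ => bot_le) hlr
  -- integrate
  have mS1 : Measurable (fun z => ∑ l ∈ Finset.range (m + 1), φT l (1 - (starRingEnd ℂ) (ζ l) * z)) :=
    Finset.measurable_fun_sum _ fun l hl => mTq l (hmem l hl)
  have mS2 : Measurable (fun z => ∑ l ∈ Finset.range (m + 1), φU l z) :=
    Finset.measurable_fun_sum _ fun l _ => mU l
  have i0 : ∫⁻ z, φ0 z = ENNReal.ofReal (1 + ε) * ∫⁻ z in S0, ‖deriv f z‖ₑ ^ 2 := by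
    simp only [φ0]
    rw [lintegral_indicator hS0m, lintegral_const_mul _ ((measurable_deriv f).enorm.pow_const 2)]
  have iT : ∀ l ∈ Finset.range (m + 1), ∫⁻ z, φT l (1 - (starRingEnd ℂ) (ζ l) * z) ≤
      ENNReal.ofReal (1 + ε) * (ENNReal.ofReal (‖f (ζ l)‖ ^ 2) *
              Φ l ((1 + ε) * R / ‖f (ζ l)‖)) := by
    intro l hl
    have hl' := hmem l hl
    rw [(hqm l hl').lintegral_comp (mT l hl')]
    simp only [φT]
    rw [lintegral_indicator (hTm l hl'), lintegral_const_mul _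
      (((measurable_deriv (H l)).norm.pow_const 2).ennreal_ofReal),
      ENNReal.ofReal_mul (by positivity), mul_assoc]
    exact mul_le_mul' le_rfl (mul_le_mul' le_rfl (hΦ l hl' _))
  have iO : ∫⁻ z, φO z ≤ ENNReal.ofReal (ε / 3 * R ^ 2) := by
    simp only [φO]
    rw [lintegral_indicator hSOm, lintegral_const_mul _
      (((measurable_deriv O).norm.pow_const 2).ennreal_ofReal)]
    refine (mul_le_mul' le_rfl (hO2 (R / (1 - ω)) (by positivity))).trans ?_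
    rw [← ENNReal.ofReal_mul (by positivity)]
    apply ENNReal.ofReal_le_ofReal
    have hω2 : (R / (1 - ω)) ^ 2 ≤ 4 * R ^ 2 := by
      rw [div_pow, div_le_iff₀ (by positivity)]
      have h1 := hC.W1
      have h2 := hC.e1
      have h3 : 1 / 2 ≤ 1 - ω := by linarith
      have h4 : 1 / 4 ≤ (1 - ω) ^ 2 := by nlinarith
      have h5 : 0 < R ^ 2 := by positivity
      nlinarith
    have h3 := hC.W3
    have h4 := hC.ω0
    have h5 : (1 + 1 / (e / 16)) * (ω * (R / (1 - ω)) ^ 2) ≤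
        (1 + 1 / (e / 16)) * (ω * (4 * R ^ 2)) := by
      apply mul_le_mul_of_nonneg_left _ (by positivity)
      exact mul_le_mul_of_nonneg_left hω2 h4.le
    have h6 := mul_le_mul_of_nonneg_right h3 (sq_nonneg R)
    linarith
  have iV : ∫⁻ z, φV z ≤ ENNReal.ofReal (ε / 3 * R ^ 2) := by
    simp only [φV]
    rw [lintegral_indicator measurableSet_ball, lintegral_const, Measure.restrict_apply_univ,
      aas_vol 0 zero_le_one, ← ENNReal.ofReal_mul (by positivity)]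
    apply ENNReal.ofReal_le_ofReal
    have := Real.pi_pos
    apply le_of_eq
    field_simp
  have iU : ∫⁻ z, ∑ l ∈ Finset.range (m + 1), φU l z ≤ ENNReal.ofReal (ε / 3 * R ^ 2) := by
    rw [lintegral_finsetSum _ (fun l _ => mU l)]
    have h1 : ∀ l, ∫⁻ z, φU l z = ENNReal.ofReal (bU * R ^ 2 * (Real.pi * κ ^ 2)) := by
      intro l
      simp only [φU]
      rw [lintegral_indicator measurableSet_ball, lintegral_const, Measure.restrict_apply_univ,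
        aas_vol _ hC.κ0.le, ← ENNReal.ofReal_mul (by positivity)]
    simp only [h1, Finset.sum_const, Finset.card_range, nsmul_eq_mul]
    rw [← ENNReal.ofReal_natCast, ← ENNReal.ofReal_mul (by positivity)]
    apply ENNReal.ofReal_le_ofReal
    have h3 := hC.K3
    have h6 := mul_le_mul_of_nonneg_right h3 (sq_nonneg R)
    push_cast
    calc ((m : ℝ) + 1) * (bU * R ^ 2 * (Real.pi * κ ^ 2)) =
        ((m : ℝ) + 1) * bU * (Real.pi * κ ^ 2) * R ^ 2 := by ring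
      _ ≤ _ := h6
  calc ∫⁻ z in A, ‖deriv (fun z => f z * (∏ l ∈ Finset.range (m + 1),
            H l (1 - (starRingEnd ℂ) (ζ l) * z)) + O z) z‖ₑ ^ 2
      ≤ ∫⁻ z in A, (φ0 z + ((∑ l ∈ Finset.range (m + 1), φT l (1 - (starRingEnd ℂ) (ζ l) * z)) +
        (φO z + (φV z + ∑ l ∈ Finset.range (m + 1), φU l z)))) := setLIntegral_mono' hAm hpt
    _ ≤ ∫⁻ z, (φ0 z + ((∑ l ∈ Finset.range (m + 1), φT l (1 - (starRingEnd ℂ) (ζ l) * z)) +
        (φO z + (φV z + ∑ l ∈ Finset.range (m + 1), φU l z)))) := setLIntegral_le_lintegral _ _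
    _ = (∫⁻ z, φ0 z) + ((∑ l ∈ Finset.range (m + 1), ∫⁻ z, φT l (1 - (starRingEnd ℂ) (ζ l) * z)) +
        ((∫⁻ z, φO z) + ((∫⁻ z, φV z) + ∫⁻ z, ∑ l ∈ Finset.range (m + 1), φU l z))) := by
        rw [lintegral_add_left m0, lintegral_add_left mS1, lintegral_add_left mO,
          lintegral_add_left mV, lintegral_finsetSum _ (fun l hl => mTq l (hmem l hl))]
    _ ≤ (ENNReal.ofReal (1 + ε) * ∫⁻ z in S0, ‖deriv f z‖ₑ ^ 2) +
        ((∑ l ∈ Finset.range (m + 1), ENNReal.ofReal (1 + ε) * (ENNReal.ofReal (‖f (ζ l)‖ ^ 2) *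
              Φ l ((1 + ε) * R / ‖f (ζ l)‖))) +
        (ENNReal.ofReal (ε / 3 * R ^ 2) + (ENNReal.ofReal (ε / 3 * R ^ 2) +
          ENNReal.ofReal (ε / 3 * R ^ 2)))) := by
        rw [i0]
        exact add_le_add le_rfl (add_le_add (Finset.sum_le_sum iT)
          (add_le_add iO (add_le_add iV iU)))
    _ = _ := by
        rw [← Finset.mul_sum, ← ENNReal.ofReal_add (by positivity) (by positivity),
          ← ENNReal.ofReal_add (by positivity) (by positivity), mul_add, add_assoc]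
        congr 3
        ring

end AreaAsm

end MeanVal
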