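import Mathlib
import Pool.Agent.Helper772.MV.Defs

open MeasureTheory Metric Set
open scoped ENNReal Real

namespace MeanVal

namespace NumTotal




theorem numeric_total (m Jm : ℕ) (J : ℕ → ℕ) (θ : ℕ → ℕ → ℝ) (q p₁ δ ε M₀ : ℝ) (W b : ℕ → ℝ)
    (R : ℝ) (hJ : ∀ l ≤ m, J l ≤ Jm) (hq0 : 0 ≤ q) (hq : q ≤ p₁) (hδ0 : 0 ≤ δ) (hε : 0 ≤ ε)
    (hR : 0 < R) (hθ : ∀ l ≤ m, ∀ j < J l, 0 ≤ θ l j)
    (hsum : ∀ j < Jm, ∑ l ∈ Finset.range (m + 1), (if j < J l then θ l j else 0) ≤ q)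
    (hb : ∀ k, 1 ≤ k → b k ≤ b (k + 1)) (hM0 : 0 < M₀) (hM : M₀ ≤ b 1)
    (hW0 : ∀ l ≤ m, 0 < W l) (hW : ∀ l ≤ m, W l ≤ b 1) :
    p₁ * min R M₀ ^ 2 + ∑ l ∈ Finset.range (m + 1), W l ^ 2 * ((1 + ε) *
      (δ * (min (R / W l) (b 1 / W l) ^ 2 - min (R / W l) 1 ^ 2) +
        ∑ j ∈ Finset.range (J l), θ l j *
          (min (R / W l) (b (j + 2) / W l) ^ 2 - min (R / W l) (b (j + 1) / W l) ^ 2)))
      ≤ (1 + ε) * (p₁ + (m + 1) * δ) * R ^ 2 := by
  have hp0 : 0 ≤ p₁ := hq0.trans hq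
  have hbpos : ∀ k, b 1 ≤ b (k + 1) := by
    intro k
    induction k with
    | zero => exact le_rfl
    | succ k ih => exact ih.trans (hb (k + 1) (by omega))
  have hb1 : 0 < b 1 := hM0.trans_le hM
  let g : ℕ → ℝ := fun k => min R (b k) ^ 2
  have hmin0 : ∀ k, 0 < min R (b (k + 1)) := fun k => lt_min hR (hb1.trans_le (hbpos k))
  have hgR : ∀ k, g (k + 1) ≤ R ^ 2 := fun k =>
    pow_le_pow_left₀ (hmin0 k).le (min_le_left _ _) 2
  have hgmono : ∀ k, g (k + 1) ≤ g (k + 2) := fun k =>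
    pow_le_pow_left₀ (hmin0 k).le (min_le_min_left _ (hb (k + 1) (by omega))) 2
  have hd0 : ∀ k, 0 ≤ g (k + 2) - g (k + 1) := fun k => sub_nonneg.2 (hgmono k)
  have hscale : ∀ w x : ℝ, 0 < w → w ^ 2 * min (R / w) (x / w) ^ 2 = min R x ^ 2 := by
    intro w x hw
    rw [min_div_div_right hw.le, ← mul_pow, mul_div_cancel₀ _ hw.ne']
  have hterm : ∀ l ∈ Finset.range (m + 1), W l ^ 2 * ((1 + ε) *
      (δ * (min (R / W l) (b 1 / W l) ^ 2 - min (R / W l) 1 ^ 2) +
        ∑ j ∈ Finset.range (J l), θ l j *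
          (min (R / W l) (b (j + 2) / W l) ^ 2 - min (R / W l) (b (j + 1) / W l) ^ 2)))
      ≤ (1 + ε) * (δ * R ^ 2 + ∑ j ∈ Finset.range Jm,
          (if j < J l then θ l j else 0) * (g (j + 2) - g (j + 1))) := by
    intro l hl
    have hl' : l ≤ m := by rw [Finset.mem_range] at hl; omega
    have hw := hW0 l hl'
    have e1 : W l ^ 2 * ∑ j ∈ Finset.range (J l), θ l j *
          (min (R / W l) (b (j + 2) / W l) ^ 2 - min (R / W l) (b (j + 1) / W l) ^ 2)
          = ∑ j ∈ Finset.range (J l), θ l j * (g (j + 2) - g (j + 1)) := by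
      rw [Finset.mul_sum]
      refine Finset.sum_congr rfl fun j _ => ?_
      change _ = θ l j * (min R (b (j + 2)) ^ 2 - min R (b (j + 1)) ^ 2)
      rw [← hscale (W l) (b (j + 2)) hw, ← hscale (W l) (b (j + 1)) hw]
      ring
    have e2 : ∑ j ∈ Finset.range (J l), θ l j * (g (j + 2) - g (j + 1)) =
        ∑ j ∈ Finset.range Jm, (if j < J l then θ l j else 0) * (g (j + 2) - g (j + 1)) := by
      have hsub : Finset.range (J l) ⊆ Finset.range Jm :=
        Finset.range_subset_range.2 (hJ l hl')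
      rw [← Finset.sum_subset hsub]
      · refine Finset.sum_congr rfl fun j hj => ?_
        rw [if_pos (Finset.mem_range.1 hj)]
      · intro j _ hj
        rw [if_neg (by simpa using hj), zero_mul]
    have e3 : W l ^ 2 * (δ * (min (R / W l) (b 1 / W l) ^ 2 - min (R / W l) 1 ^ 2)) ≤
        δ * R ^ 2 := by
      have h1 : W l ^ 2 * (δ * (min (R / W l) (b 1 / W l) ^ 2 - min (R / W l) 1 ^ 2)) =
          δ * (g 1 - W l ^ 2 * min (R / W l) 1 ^ 2) := by
        change _ = δ * (min R (b 1) ^ 2 - _)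
        rw [← hscale (W l) (b 1) hw]
        ring
      rw [h1]
      have h2 : 0 ≤ W l ^ 2 * min (R / W l) 1 ^ 2 := by positivity
      have h3 : g 1 ≤ R ^ 2 := hgR 0
      exact mul_le_mul_of_nonneg_left (by linarith) hδ0
    calc _ = (1 + ε) * (W l ^ 2 * (δ * (min (R / W l) (b 1 / W l) ^ 2 - min (R / W l) 1 ^ 2)) +
          W l ^ 2 * ∑ j ∈ Finset.range (J l), θ l j *
          (min (R / W l) (b (j + 2) / W l) ^ 2 - min (R / W l) (b (j + 1) / W l) ^ 2)) := by ring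
      _ ≤ _ := by
        rw [e1, e2]
        exact mul_le_mul_of_nonneg_left (by linarith) (by linarith)
  have hS := Finset.sum_le_sum hterm
  have hD : ∑ l ∈ Finset.range (m + 1), ∑ j ∈ Finset.range Jm,
          (if j < J l then θ l j else 0) * (g (j + 2) - g (j + 1)) ≤ p₁ * (R ^ 2 - g 1) := by
    rw [Finset.sum_comm]
    calc ∑ j ∈ Finset.range Jm, ∑ l ∈ Finset.range (m + 1),
          (if j < J l then θ l j else 0) * (g (j + 2) - g (j + 1))
        = ∑ j ∈ Finset.range Jm, (∑ l ∈ Finset.range (m + 1),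
          (if j < J l then θ l j else 0)) * (g (j + 2) - g (j + 1)) := by
          refine Finset.sum_congr rfl fun j _ => ?_
          rw [Finset.sum_mul]
      _ ≤ ∑ j ∈ Finset.range Jm, q * (g (j + 2) - g (j + 1)) := by
          refine Finset.sum_le_sum fun j hj => ?_
          exact mul_le_mul_of_nonneg_right (hsum j (Finset.mem_range.1 hj)) (hd0 j)
      _ = q * (g (Jm + 1) - g 1) := by
          rw [← Finset.mul_sum]
          congr 1
          exact Finset.sum_range_sub (fun j => g (j + 1)) Jm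
      _ ≤ p₁ * (R ^ 2 - g 1) := by
          have h1 : g (Jm + 1) ≤ R ^ 2 := hgR Jm
          have h2 : g 1 ≤ R ^ 2 := hgR 0
          calc q * (g (Jm + 1) - g 1) ≤ q * (R ^ 2 - g 1) :=
                mul_le_mul_of_nonneg_left (by linarith) hq0
            _ ≤ _ := mul_le_mul_of_nonneg_right hq (by linarith)
  have hsumeq : ∑ l ∈ Finset.range (m + 1), (1 + ε) * (δ * R ^ 2 + ∑ j ∈ Finset.range Jm,
          (if j < J l then θ l j else 0) * (g (j + 2) - g (j + 1))) =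
      (1 + ε) * ((m + 1) * δ * R ^ 2 + ∑ l ∈ Finset.range (m + 1), ∑ j ∈ Finset.range Jm,
          (if j < J l then θ l j else 0) * (g (j + 2) - g (j + 1))) := by
    rw [← Finset.mul_sum, Finset.sum_add_distrib, Finset.sum_const, Finset.card_range,
      nsmul_eq_mul]
    push_cast
    ring
  rw [hsumeq] at hS
  have hmin : min R M₀ ^ 2 ≤ g 1 :=
    pow_le_pow_left₀ (lt_min hR hM0).le (min_le_min_left _ hM) 2
  have hg1 : 0 ≤ g 1 := sq_nonneg _
  have h1 : p₁ * min R M₀ ^ 2 ≤ p₁ * g 1 := mul_le_mul_of_nonneg_left hmin hp0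
  have h2 : (1 + ε) * ((m + 1) * δ * R ^ 2 + ∑ l ∈ Finset.range (m + 1), ∑ j ∈ Finset.range Jm,
          (if j < J l then θ l j else 0) * (g (j + 2) - g (j + 1))) ≤
      (1 + ε) * ((m + 1) * δ * R ^ 2 + p₁ * (R ^ 2 - g 1)) :=
    mul_le_mul_of_nonneg_left (by linarith) (by linarith)
  have h3 : 0 ≤ ε * (p₁ * g 1) := mul_nonneg hε (mul_nonneg hp0 hg1)
  have h4 : p₁ * g 1 + (1 + ε) * ((m + 1) * δ * R ^ 2 + p₁ * (R ^ 2 - g 1)) =
      (1 + ε) * (p₁ + (m + 1) * δ) * R ^ 2 - ε * (p₁ * g 1) := by ring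
  linarith

end NumTotal

end MeanVal
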