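import Mathlib
import Pool.Agent.Helper772.MV.Defs

open MeasureTheory Metric Set
open scoped ENNReal Real

namespace MeanVal

namespace HankelDFT







theorem orth_10387 (N : ℕ) (hN : 0 < N) (ζ : ℂ) (hζ : IsPrimitiveRoot ζ N) (l l0 : ℕ)
    (hl : l < N) (hl0 : l0 < N) :
    ∑ j ∈ Finset.range N, (ζ⁻¹) ^ (l * j) * ζ ^ (l0 * j) = if l = l0 then (N : ℂ) else 0 := by
  have hz0 : ζ ≠ 0 := hζ.ne_zero (by omega)
  have h1 : ∀ j, (ζ⁻¹) ^ (l * j) * ζ ^ (l0 * j) = ((ζ⁻¹) ^ l * ζ ^ l0) ^ j := by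
    intro j; rw [mul_pow, ← pow_mul, ← pow_mul]
  simp_rw [h1]
  split_ifs with h
  · subst h
    have : (ζ⁻¹) ^ l * ζ ^ l = 1 := by rw [← mul_pow, inv_mul_cancel₀ hz0, one_pow]
    simp only [this, one_pow, Finset.sum_const, Finset.card_range, nsmul_eq_mul, mul_one]
  · have hq1 : (ζ⁻¹) ^ l * ζ ^ l0 ≠ 1 := by
      intro h2
      apply h
      have h3 : ζ ^ l = ζ ^ l0 := by
        rw [inv_pow] at h2
        have h4 : ζ ^ l ≠ 0 := pow_ne_zero _ hz0
        rw [inv_mul_eq_iff_eq_mul₀ h4, mul_one] at h2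
        exact h2.symm
      exact hζ.pow_inj hl hl0 h3
    have hqN : ((ζ⁻¹) ^ l * ζ ^ l0) ^ N = 1 := by
      rw [mul_pow, ← pow_mul, ← pow_mul, mul_comm l, mul_comm l0, pow_mul, pow_mul, inv_pow,
        hζ.pow_eq_one]
      simp
    have := mul_geom_sum ((ζ⁻¹) ^ l * ζ ^ l0) N
    rw [hqN, sub_self] at this
    exact (mul_eq_zero.mp this).resolve_left (sub_ne_zero.mpr hq1)

theorem exists_ge_10387 (N : ℕ) (hN : 0 < N) (a : ℕ → ℝ) (b : ℝ)
    (h : (N : ℝ) * b ≤ ∑ l ∈ Finset.range N, a l) : ∃ l < N, b ≤ a l := by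
  by_contra hcon
  push Not at hcon
  have h1 : ∑ l ∈ Finset.range N, a l < ∑ l ∈ Finset.range N, b := by
    apply Finset.sum_lt_sum_of_nonempty ⟨0, Finset.mem_range.mpr hN⟩
    intro i hi
    exact hcon i (Finset.mem_range.mp hi)
  rw [Finset.sum_const, Finset.card_range, nsmul_eq_mul] at h1
  linarith

theorem hankel_of_dft (m n : ℕ) (f : ℂ → ℂ) (X : ℝ) (hX : 0 < X) (x : ℕ → ℂ)
    (hx : ∀ l ≤ m, X ≤ ‖x l‖)
    (h : ∀ s ≤ 2 * m, ‖coeff f (n + s) - ∑ l ∈ Finset.range (m + 1),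
      x l * Complex.exp (-(2 * π * Complex.I * l * s / (m + 1)))‖ ≤ X / (4 * (m + 1))) :
    HankelLB m n f (X / 2) := by
  rintro c B ⟨i0, hi0, hB⟩
  set ζ : ℂ := Complex.exp (2 * π * Complex.I / ((m + 1 : ℕ) : ℂ)) with hζdef
  have hζ : IsPrimitiveRoot ζ (m + 1) := Complex.isPrimitiveRoot_exp (m + 1) (by omega)
  have hζn : ‖ζ‖ = 1 := Complex.norm_eq_one_of_pow_eq_one hζ.pow_eq_one (by omega)
  have hζin : ‖ζ⁻¹‖ = 1 := by rw [norm_inv, hζn, inv_one]
  have hexp : ∀ l s : ℕ, Complex.exp (-(2 * π * Complex.I * l * s / (m + 1))) =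
      (ζ⁻¹) ^ (l * s) := by
    intro l s
    rw [hζdef, ← Complex.exp_neg, ← Complex.exp_nat_mul]
    congr 1
    push_cast
    ring
  simp only [hexp] at h
  obtain ⟨i1, hi1, hmax⟩ := Finset.exists_max_image (Finset.range (m + 1)) (fun i => ‖c i‖)
    ⟨0, by simp⟩
  have hi1' : i1 < m + 1 := Finset.mem_range.mp hi1
  have hB1 : B ≤ ‖c i1‖ := hB.trans (hmax i0 (Finset.mem_range.mpr (by omega)))
  have hB10 : 0 ≤ ‖c i1‖ := norm_nonneg _
  let C : ℕ → ℂ := fun l => ∑ i ∈ Finset.range (m + 1), c i * (ζ⁻¹) ^ (l * i)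
  have hN : ((m + 1 : ℕ) : ℝ) = (m : ℝ) + 1 := by push_cast; ring
  have hNpos : (0 : ℝ) < (m : ℝ) + 1 := by positivity
  -- inverse transform of `c`
  have hinv : ∑ l ∈ Finset.range (m + 1), ζ ^ (i1 * l) * C l = ((m + 1 : ℕ) : ℂ) * c i1 := by
    calc ∑ l ∈ Finset.range (m + 1), ζ ^ (i1 * l) * C l
        = ∑ l ∈ Finset.range (m + 1), ∑ i ∈ Finset.range (m + 1),
            c i * ((ζ⁻¹) ^ (i * l) * ζ ^ (i1 * l)) := by
          apply Finset.sum_congr rfl
          intro l _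
          simp only [C]
          rw [Finset.mul_sum]
          apply Finset.sum_congr rfl
          intro i _
          rw [mul_comm l i]; ring
      _ = ∑ i ∈ Finset.range (m + 1), c i * ∑ l ∈ Finset.range (m + 1),
            (ζ⁻¹) ^ (i * l) * ζ ^ (i1 * l) := by
          rw [Finset.sum_comm]
          apply Finset.sum_congr rfl
          intro i _
          rw [Finset.mul_sum]
      _ = ∑ i ∈ Finset.range (m + 1), c i * (if i = i1 then ((m + 1 : ℕ) : ℂ) else 0) := by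
          apply Finset.sum_congr rfl
          intro i hi
          rw [orth_10387 (m + 1) (by omega) ζ hζ i i1 (Finset.mem_range.mp hi) hi1']
      _ = ((m + 1 : ℕ) : ℂ) * c i1 := by
          simp only [mul_ite, mul_zero]
          rw [Finset.sum_ite_eq' (Finset.range (m + 1)) i1, if_pos hi1]
          ring
  obtain ⟨l0, hl0, hCl0⟩ : ∃ l0 < m + 1, ‖c i1‖ ≤ ‖C l0‖ := by
    apply exists_ge_10387 (m + 1) (by omega) (fun l => ‖C l‖)
    calc ((m + 1 : ℕ) : ℝ) * ‖c i1‖ = ‖((m + 1 : ℕ) : ℂ) * c i1‖ := by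
          rw [norm_mul, Complex.norm_natCast]
      _ = ‖∑ l ∈ Finset.range (m + 1), ζ ^ (i1 * l) * C l‖ := by rw [hinv]
      _ ≤ ∑ l ∈ Finset.range (m + 1), ‖ζ ^ (i1 * l) * C l‖ := norm_sum_le _ _
      _ = ∑ l ∈ Finset.range (m + 1), ‖C l‖ := by
          apply Finset.sum_congr rfl
          intro l _
          rw [norm_mul, norm_pow, hζn, one_pow, one_mul]
  let T : ℕ → ℂ := fun j => ∑ l ∈ Finset.range (m + 1), x l * (ζ⁻¹) ^ (l * j) * C l
  have herr : ∀ j ≤ m, ‖(∑ i ∈ Finset.range (m + 1), c i * coeff f (n + j + i)) - T j‖ ≤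
      ‖c i1‖ * X / 4 := by
    intro j hj
    have hT : T j = ∑ i ∈ Finset.range (m + 1), c i *
        ∑ l ∈ Finset.range (m + 1), x l * (ζ⁻¹) ^ (l * (j + i)) := by
      simp only [T, C]
      simp_rw [Finset.mul_sum]
      rw [Finset.sum_comm]
      apply Finset.sum_congr rfl
      intro i _
      apply Finset.sum_congr rfl
      intro l _
      rw [mul_add, pow_add]; ring
    rw [hT, ← Finset.sum_sub_distrib]
    calc ‖∑ i ∈ Finset.range (m + 1), (c i * coeff f (n + j + i) - c i *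
        ∑ l ∈ Finset.range (m + 1), x l * (ζ⁻¹) ^ (l * (j + i)))‖
        ≤ ∑ i ∈ Finset.range (m + 1), ‖c i * coeff f (n + j + i) - c i *
        ∑ l ∈ Finset.range (m + 1), x l * (ζ⁻¹) ^ (l * (j + i))‖ := norm_sum_le _ _
      _ ≤ ∑ i ∈ Finset.range (m + 1), ‖c i1‖ * (X / (4 * (m + 1))) := by
          apply Finset.sum_le_sum
          intro i hi
          rw [← mul_sub, norm_mul]
          have hi' : i < m + 1 := Finset.mem_range.mp hi
          have h5 := h (j + i) (by omega)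
          rw [← add_assoc] at h5
          exact mul_le_mul (hmax i hi) h5 (norm_nonneg _) (norm_nonneg _)
      _ = ‖c i1‖ * X / 4 := by
          rw [Finset.sum_const, Finset.card_range, nsmul_eq_mul, hN]
          field_simp
  have hinv2 : ∑ j ∈ Finset.range (m + 1), ζ ^ (l0 * j) * T j =
      ((m + 1 : ℕ) : ℂ) * (x l0 * C l0) := by
    calc ∑ j ∈ Finset.range (m + 1), ζ ^ (l0 * j) * T j
        = ∑ j ∈ Finset.range (m + 1), ∑ l ∈ Finset.range (m + 1),
            (x l * C l) * ((ζ⁻¹) ^ (l * j) * ζ ^ (l0 * j)) := by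
          apply Finset.sum_congr rfl
          intro j _
          simp only [T]
          rw [Finset.mul_sum]
          apply Finset.sum_congr rfl
          intro l _
          ring
      _ = ∑ l ∈ Finset.range (m + 1), (x l * C l) * ∑ j ∈ Finset.range (m + 1),
            (ζ⁻¹) ^ (l * j) * ζ ^ (l0 * j) := by
          rw [Finset.sum_comm]
          apply Finset.sum_congr rfl
          intro l _
          exact (Finset.mul_sum _ _ _).symm
      _ = ∑ l ∈ Finset.range (m + 1), (x l * C l) *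
            (if l = l0 then ((m + 1 : ℕ) : ℂ) else 0) := by
          apply Finset.sum_congr rfl
          intro l hl
          rw [orth_10387 (m + 1) (by omega) ζ hζ l l0 (Finset.mem_range.mp hl) hl0]
      _ = ((m + 1 : ℕ) : ℂ) * (x l0 * C l0) := by
          simp only [mul_ite, mul_zero]
          rw [Finset.sum_ite_eq' (Finset.range (m + 1)) l0, if_pos (Finset.mem_range.mpr hl0)]
          ring
  obtain ⟨j, hj, hTj⟩ : ∃ j < m + 1, X * ‖c i1‖ ≤ ‖T j‖ := by
    apply exists_ge_10387 (m + 1) (by omega) (fun l => ‖T l‖)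
    calc ((m + 1 : ℕ) : ℝ) * (X * ‖c i1‖)
        ≤ ((m + 1 : ℕ) : ℝ) * (‖x l0‖ * ‖C l0‖) := by
          have := hx l0 (by omega)
          gcongr
      _ = ‖((m + 1 : ℕ) : ℂ) * (x l0 * C l0)‖ := by
          rw [norm_mul, norm_mul, Complex.norm_natCast]
      _ = ‖∑ j ∈ Finset.range (m + 1), ζ ^ (l0 * j) * T j‖ := by rw [hinv2]
      _ ≤ ∑ j ∈ Finset.range (m + 1), ‖ζ ^ (l0 * j) * T j‖ := norm_sum_le _ _
      _ = ∑ l ∈ Finset.range (m + 1), ‖T l‖ := by
          apply Finset.sum_congr rfl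
          intro l _
          rw [norm_mul, norm_pow, hζn, one_pow, one_mul]
  refine ⟨j, by omega, ?_⟩
  have h6 := herr j (by omega)
  have h7 : ‖T j‖ ≤ ‖∑ i ∈ Finset.range (m + 1), c i * coeff f (n + j + i)‖ +
      ‖(∑ i ∈ Finset.range (m + 1), c i * coeff f (n + j + i)) - T j‖ := by
    have := norm_sub_norm_le (T j) (∑ i ∈ Finset.range (m + 1), c i * coeff f (n + j + i))
    rw [norm_sub_rev] at this
    linarith
  nlinarith

end HankelDFT

end MeanVal
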