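import Mathlib
import Pool.Agent.Helper772.MV.Defs

open MeasureTheory Metric Set
open scoped ENNReal Real

namespace MeanVal

namespace Kern







/-! ### auxiliary lemmas on `DL` -/

lemma DL_le (L : ℕ) (z : ℂ) (hz : ‖z‖ ≤ 1) : ‖DL L z‖ ≤ L := by
  unfold DL
  refine (norm_sum_le _ _).trans ?_
  calc ∑ i ∈ Finset.range L, ‖z ^ i‖ ≤ ∑ _i ∈ Finset.range L, (1 : ℝ) := by
        refine Finset.sum_le_sum fun i _ => ?_
        rw [norm_pow]; exact pow_le_one₀ (norm_nonneg _) hz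
    _ = L := by simp

lemma DL_x (L : ℕ) (z : ℂ) (hz : ‖z‖ ≤ 1) : ‖1 - z‖ * ‖DL L z‖ ≤ 2 := by
  rw [← norm_mul, DL, mul_neg_geom_sum]
  refine (norm_sub_le _ _).trans ?_
  rw [norm_one, norm_pow]
  have : ‖z‖ ^ L ≤ 1 := pow_le_one₀ (norm_nonneg _) hz
  linarith

/-- derivative of `DL` -/
noncomputable def DD (L : ℕ) (z : ℂ) : ℂ := ∑ j ∈ Finset.range L, (j : ℂ) * z ^ (j - 1)

lemma DL_hasDeriv (L : ℕ) (z : ℂ) : HasDerivAt (DL L) (DD L z) z := by
  have : HasDerivAt (fun w : ℂ => ∑ j ∈ Finset.range L, w ^ j) (DD L z) z := by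
    unfold DD
    exact HasDerivAt.fun_sum fun j _ => hasDerivAt_pow j z
  exact this

lemma DD_le (L : ℕ) (z : ℂ) (hz : ‖z‖ ≤ 1) : ‖DD L z‖ ≤ (L : ℝ) ^ 2 := by
  unfold DD
  refine (norm_sum_le _ _).trans ?_
  calc ∑ i ∈ Finset.range L, ‖(i : ℂ) * z ^ (i - 1)‖ ≤ ∑ _i ∈ Finset.range L, (L : ℝ) := by
        refine Finset.sum_le_sum fun i hi => ?_
        rw [norm_mul, norm_pow, Complex.norm_natCast]
        have h1 : ‖z‖ ^ (i - 1) ≤ 1 := pow_le_one₀ (norm_nonneg _) hz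
        have h2 : (i : ℝ) ≤ L := by exact_mod_cast (Finset.mem_range.mp hi).le
        calc (i : ℝ) * ‖z‖ ^ (i - 1) ≤ L * 1 := mul_le_mul h2 h1 (by positivity) (by positivity)
          _ = L := mul_one _
    _ = (L : ℝ) ^ 2 := by simp; ring

lemma DD_eq (L : ℕ) (z : ℂ) : (1 - z) * DD L z = DL L z - L * z ^ (L - 1) := by
  induction L with
  | zero => simp [DD, DL]
  | succ L ih =>
    have h1 : DD (L + 1) z = DD L z + L * z ^ (L - 1) := by
      unfold DD; rw [Finset.sum_range_succ]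
    have h2 : DL (L + 1) z = DL L z + z ^ L := by
      unfold DL; rw [Finset.sum_range_succ]
    rw [h1, h2, mul_add, ih]
    have h3 : (L : ℂ) * z ^ L = (L : ℂ) * (z * z ^ (L - 1)) := by
      rcases Nat.eq_zero_or_pos L with h | h
      · subst h; simp
      · rw [mul_pow_sub_one h.ne']
    have h4 : L + 1 - 1 = L := by omega
    rw [h4]
    push_cast
    linear_combination h3

lemma DD_x (L : ℕ) (z : ℂ) (hz : ‖z‖ ≤ 1) : ‖1 - z‖ * ‖DD L z‖ ≤ 2 * L := by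
  rw [← norm_mul, DD_eq]
  refine (norm_sub_le _ _).trans ?_
  rw [norm_mul, norm_pow, Complex.norm_natCast]
  have h1 : ‖z‖ ^ (L - 1) ≤ 1 := pow_le_one₀ (norm_nonneg _) hz
  have h2 := DL_le L z hz
  have h3 : (L : ℝ) * ‖z‖ ^ (L - 1) ≤ L * 1 := mul_le_mul_of_nonneg_left h1 (Nat.cast_nonneg _)
  linarith

open Polynomial in
theorem kern_coeff (L : ℕ) (hL : 1 ≤ L) : ∃ κ : ℕ → ℂ,
    (∀ z : ℂ, kern L z = ∑ s ∈ Finset.range (5 * L), κ s * z ^ s) ∧
    ∀ s : ℕ, 2 * L - 2 ≤ s → s ≤ 3 * L - 1 → κ s = 1 / (L : ℂ) := by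
  obtain ⟨D, hD⟩ : ∃ D : ℕ → ℂ[X], ∀ n, D n = ∑ j ∈ Finset.range n, X ^ j := ⟨_, fun _ => rfl⟩
  have hDe : ∀ n z, (D n).eval z = DL n z := by
    intro n z
    rw [hD, eval_finsetSum, DL]
    simp
  have hDc : ∀ n i, i < n → (D n).coeff i = 1 := by
    intro n i hi
    rw [hD, finsetSum_coeff]
    simp only [coeff_X_pow]
    rw [Finset.sum_ite_eq, if_pos (Finset.mem_range.mpr hi)]
  have hDd : ∀ n, (D n).natDegree ≤ n - 1 := by
    intro n
    rw [hD]
    refine natDegree_sum_le_of_forall_le _ _ fun i hi => ?_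
    rw [Finset.mem_range] at hi
    exact (natDegree_X_pow_le _).trans (by omega)
  have hL0 : (L : ℂ) ≠ 0 := by exact_mod_cast (by omega : L ≠ 0)
  refine ⟨fun s => ((D L) ^ 2 * D (3 * L)).coeff s / (L : ℂ) ^ 3, ?_, ?_⟩
  · intro z
    have h1 : ((D L) ^ 2 * D (3 * L)).natDegree < 5 * L := by
      have a := natDegree_mul_le (p := (D L) ^ 2) (q := D (3 * L))
      have b := natDegree_pow_le (p := D L) (n := 2)
      have c := hDd L
      have d := hDd (3 * L)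
      omega
    have h2 := eval_eq_sum_range' h1 z
    rw [eval_mul, eval_pow, hDe, hDe] at h2
    rw [kern, h2, Finset.sum_div]
    refine Finset.sum_congr rfl fun i _ => ?_
    ring
  · intro s hs1 hs2
    have h1 : ((D L) ^ 2 * D (3 * L)).coeff s = (L : ℂ) ^ 2 := by
      rw [coeff_mul, Finset.Nat.sum_antidiagonal_eq_sum_range_succ_mk]
      have h2 : ∀ k ∈ Finset.range s.succ, ((D L) ^ 2).coeff k * (D (3 * L)).coeff (s - k) =
          ((D L) ^ 2).coeff k * 1 ^ k := by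
        intro k hk
        rw [Finset.mem_range] at hk
        rw [hDc _ _ (by omega), one_pow]
      rw [Finset.sum_congr rfl h2]
      have h3 : ((D L) ^ 2).natDegree < s.succ := by
        have b := natDegree_pow_le (p := D L) (n := 2)
        have c := hDd L
        omega
      rw [← eval_eq_sum_range' h3, eval_pow, hDe]
      simp [DL]
    simp only [h1]
    field_simp

theorem kern_bound (L : ℕ) (hL : 1 ≤ L) (z : ℂ) (hz : ‖z‖ ≤ 1) :
    ‖kern L z‖ ≤ 3 ∧ ‖kern L z‖ * ((L : ℝ) * ‖1 - z‖) ^ 3 ≤ 8 := by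
  have hL0 : (0 : ℝ) < L := by exact_mod_cast hL
  have a1 := DL_le L z hz
  have a2 := DL_le (3 * L) z hz
  have b1 := DL_x L z hz
  have b2 := DL_x (3 * L) z hz
  push_cast at a2
  have e : ‖kern L z‖ = ‖DL L z‖ ^ 2 * ‖DL (3 * L) z‖ / (L : ℝ) ^ 3 := by
    rw [kern, norm_div, norm_mul, norm_pow, norm_pow, Complex.norm_natCast]
  constructor
  · rw [e, div_le_iff₀ (by positivity)]
    calc ‖DL L z‖ ^ 2 * ‖DL (3 * L) z‖ ≤ (L : ℝ) ^ 2 * (3 * L) :=
          mul_le_mul (pow_le_pow_left₀ (norm_nonneg _) a1 2) a2 (norm_nonneg _) (by positivity)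
      _ = 3 * (L : ℝ) ^ 3 := by ring
  · rw [e]
    calc ‖DL L z‖ ^ 2 * ‖DL (3 * L) z‖ / (L : ℝ) ^ 3 * ((L : ℝ) * ‖1 - z‖) ^ 3 =
        (‖1 - z‖ * ‖DL L z‖) ^ 2 * (‖1 - z‖ * ‖DL (3 * L) z‖) := by field_simp
      _ ≤ 2 ^ 2 * 2 := mul_le_mul (pow_le_pow_left₀ (by positivity) b1 2) b2 (by positivity)
          (by norm_num)
      _ = 8 := by norm_num

lemma kern_hasDeriv (L : ℕ) (z : ℂ) : HasDerivAt (kern L)
    ((2 * DL L z * DD L z * DL (3 * L) z + DL L z ^ 2 * DD (3 * L) z) / (L : ℂ) ^ 3) z := by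
  have h := (((DL_hasDeriv L z).fun_pow 2).fun_mul (DL_hasDeriv (3 * L) z)).div_const ((L : ℂ) ^ 3)
  have e : (fun y => (DL L y ^ 2 * DL (3 * L) y) / (L : ℂ) ^ 3) = kern L := rfl
  rw [e] at h
  have e2 : (2 * DL L z * DD L z * DL (3 * L) z + DL L z ^ 2 * DD (3 * L) z) / (L : ℂ) ^ 3 =
    (((2 : ℕ) : ℂ) * DL L z ^ (2 - 1) * DD L z * DL (3 * L) z + DL L z ^ 2 * DD (3 * L) z) /
      (L : ℂ) ^ 3 := by
    norm_num
  rw [e2]
  exact h

theorem kern_deriv_bound (L : ℕ) (hL : 1 ≤ L) (z : ℂ) (hz : ‖z‖ ≤ 1) :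
    ‖deriv (kern L) z‖ ≤ 15 * L ∧ ‖deriv (kern L) z‖ * ((L : ℝ) * ‖1 - z‖) ^ 3 ≤ 40 * L := by
  have hL0 : (0 : ℝ) < L := by exact_mod_cast hL
  have a1 := DL_le L z hz
  have a2 := DL_le (3 * L) z hz
  have b1 := DL_x L z hz
  have b2 := DL_x (3 * L) z hz
  have c1 := DD_le L z hz
  have c2 := DD_le (3 * L) z hz
  have d1 := DD_x L z hz
  have d2 := DD_x (3 * L) z hz
  push_cast at a2 c2 d2
  have e : ‖deriv (kern L) z‖ ≤ (2 * ‖DL L z‖ * ‖DD L z‖ * ‖DL (3 * L) z‖ +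
      ‖DL L z‖ ^ 2 * ‖DD (3 * L) z‖) / (L : ℝ) ^ 3 := by
    rw [(kern_hasDeriv L z).deriv, norm_div, norm_pow, Complex.norm_natCast]
    refine div_le_div_of_nonneg_right ((norm_add_le _ _).trans ?_) (by positivity)
    simp only [norm_mul, norm_pow]
    norm_num
  have x0 : 0 ≤ ‖1 - z‖ := norm_nonneg _
  have p1 : 0 ≤ ‖DL L z‖ := norm_nonneg _
  have p2 : 0 ≤ ‖DL (3 * L) z‖ := norm_nonneg _
  have p3 : 0 ≤ ‖DD L z‖ := norm_nonneg _
  have p4 : 0 ≤ ‖DD (3 * L) z‖ := norm_nonneg _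
  generalize ‖DL L z‖ = u1 at *
  generalize ‖DL (3 * L) z‖ = u2 at *
  generalize ‖DD L z‖ = v1 at *
  generalize ‖DD (3 * L) z‖ = v2 at *
  generalize ‖1 - z‖ = x at *
  constructor
  · refine e.trans ?_
    rw [div_le_iff₀ (by positivity)]
    have t1 : 2 * u1 * v1 * u2 ≤ 2 * L * (L : ℝ) ^ 2 * (3 * L) := by
      refine mul_le_mul (mul_le_mul (by linarith) c1 p3 (by positivity)) a2 p2 (by positivity)
    have t2 : u1 ^ 2 * v2 ≤ (L : ℝ) ^ 2 * (3 * L) ^ 2 :=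
      mul_le_mul (pow_le_pow_left₀ p1 a1 2) c2 p4 (by positivity)
    nlinarith
  · calc ‖deriv (kern L) z‖ * ((L : ℝ) * x) ^ 3 ≤
        (2 * u1 * v1 * u2 + u1 ^ 2 * v2) / (L : ℝ) ^ 3 * ((L : ℝ) * x) ^ 3 :=
          mul_le_mul_of_nonneg_right e (by positivity)
      _ = 2 * (x * u1) * (x * v1) * (x * u2) + (x * u1) ^ 2 * (x * v2) := by field_simp
      _ ≤ 2 * 2 * (2 * L) * 2 + 2 ^ 2 * (2 * (3 * L)) := by
          refine add_le_add ?_ ?_
          · exact mul_le_mul (mul_le_mul (by linarith) d1 (by positivity) (by positivity)) b2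
              (by positivity) (by positivity)
          · exact mul_le_mul (pow_le_pow_left₀ (by positivity) b1 2) d2 (by positivity)
              (by positivity)
      _ = 40 * L := by ring

lemma cube_le (y b c d : ℝ) (hy : 0 ≤ y) (hb : 0 ≤ b) (h1 : b ≤ c) (h2 : b * y ^ 3 ≤ d) :
    b * (1 + y) ^ 3 ≤ 4 * (c + d) := by
  have h3 : (1 + y) ^ 3 ≤ 4 * (1 + y ^ 3) := by
    nlinarith [mul_nonneg (by linarith : 0 ≤ 1 + y) (sq_nonneg (1 - y))]
  calc b * (1 + y) ^ 3 ≤ b * (4 * (1 + y ^ 3)) := mul_le_mul_of_nonneg_left h3 hb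
    _ = 4 * (b + b * y ^ 3) := by ring
    _ ≤ 4 * (c + d) := by linarith

lemma G_bound (L M : ℕ) (ζ z : ℂ) (hL : 1 ≤ L) (hM : 1 ≤ M) (hζ : ‖ζ‖ = 1) (hz : ‖z‖ < 1) :
    ‖deriv (fun w : ℂ => w ^ M * kern L ((starRingEnd ℂ) ζ * w)) z‖ *
      (1 + (L : ℝ) * ‖1 - (starRingEnd ℂ) ζ * z‖) ^ 3 ≤ 220 * (M + L) * ‖z‖ ^ (M - 1) := by
  have hL0 : (0 : ℝ) < L := by exact_mod_cast hL
  have hζ' : ‖(starRingEnd ℂ) ζ‖ = 1 := by rw [RCLike.norm_conj, hζ]
  generalize (starRingEnd ℂ) ζ = c at hζ'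
  have hcz : ‖c * z‖ ≤ 1 := by rw [norm_mul, hζ', one_mul]; exact hz.le
  have hd1 : HasDerivAt (fun w : ℂ => kern L (c * w)) (deriv (kern L) (c * z) * c) z := by
    have h1 : HasDerivAt (kern L) (deriv (kern L) (c * z)) (c * z) :=
      (kern_hasDeriv L (c * z)).differentiableAt.hasDerivAt
    have h2 : HasDerivAt (fun w : ℂ => c * w) c z := by
      simpa using (hasDerivAt_id z).const_mul c
    exact h1.comp z h2
  have hd := ((hasDerivAt_pow M z).fun_mul hd1).deriv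
  rw [hd]
  obtain ⟨k1, k2⟩ := kern_bound L hL (c * z) hcz
  obtain ⟨k3, k4⟩ := kern_deriv_bound L hL (c * z) hcz
  have y0 : 0 ≤ (L : ℝ) * ‖1 - c * z‖ := by positivity
  have q1 := cube_le _ _ _ _ y0 (norm_nonneg _) k1 k2
  have q2 := cube_le _ _ _ _ y0 (norm_nonneg _) k3 k4
  have n1 : ‖(M : ℂ) * z ^ (M - 1) * kern L (c * z) + z ^ M * (deriv (kern L) (c * z) * c)‖ ≤
      ‖z‖ ^ (M - 1) * (M * ‖kern L (c * z)‖ + ‖deriv (kern L) (c * z)‖) := by
    refine (norm_add_le _ _).trans ?_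
    simp only [norm_mul, norm_pow, Complex.norm_natCast, hζ', mul_one]
    have : ‖z‖ ^ M ≤ ‖z‖ ^ (M - 1) := pow_le_pow_of_le_one (norm_nonneg _) hz.le (by omega)
    have h5 : ‖z‖ ^ M * ‖deriv (kern L) (c * z)‖ ≤ ‖z‖ ^ (M - 1) * ‖deriv (kern L) (c * z)‖ :=
      mul_le_mul_of_nonneg_right this (norm_nonneg _)
    nlinarith
  have hM0 : (0 : ℝ) ≤ M := Nat.cast_nonneg _
  set Y := (1 + (L : ℝ) * ‖1 - c * z‖) ^ 3 with hY
  have hY0 : 0 ≤ Y := by positivity
  calc _ ≤ ‖z‖ ^ (M - 1) * (M * ‖kern L (c * z)‖ + ‖deriv (kern L) (c * z)‖) * Y :=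
        mul_le_mul_of_nonneg_right n1 hY0
    _ = ‖z‖ ^ (M - 1) * (M * (‖kern L (c * z)‖ * Y) + ‖deriv (kern L) (c * z)‖ * Y) := by ring
    _ ≤ ‖z‖ ^ (M - 1) * (M * (4 * (3 + 8)) + 4 * (15 * L + 40 * L)) := by
        refine mul_le_mul_of_nonneg_left (add_le_add (mul_le_mul_of_nonneg_left q1 hM0) q2)
          (by positivity)
    _ ≤ ‖z‖ ^ (M - 1) * (220 * (M + L)) := by
        refine mul_le_mul_of_nonneg_left ?_ (by positivity)
        nlinarith
    _ = 220 * (M + L) * ‖z‖ ^ (M - 1) := by ring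

lemma lower_x (r θ : ℝ) (hr : 0 ≤ r) (hθ : |θ| ≤ π) :
    |θ| / π ≤ ‖1 - (r : ℂ) * Complex.exp (Complex.I * θ)‖ := by
  have h1 : ‖(1 : ℂ) - Complex.exp (Complex.I * θ)‖ ≤
      2 * ‖1 - (r : ℂ) * Complex.exp (Complex.I * θ)‖ := by
    have h2 : |1 - r| ≤ ‖1 - (r : ℂ) * Complex.exp (Complex.I * θ)‖ := by
      have := abs_norm_sub_norm_le (1 : ℂ) ((r : ℂ) * Complex.exp (Complex.I * θ))
      rw [norm_one, norm_mul, Complex.norm_exp_I_mul_ofReal, mul_one, Complex.norm_real,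
        Real.norm_eq_abs, abs_of_nonneg hr] at this
      exact this
    have h3 : (1 : ℂ) - Complex.exp (Complex.I * θ) =
        (1 - (r : ℂ) * Complex.exp (Complex.I * θ)) +
          ((r - 1 : ℝ) : ℂ) * Complex.exp (Complex.I * θ) := by push_cast; ring
    rw [h3]
    refine (norm_add_le _ _).trans ?_
    rw [norm_mul, Complex.norm_exp_I_mul_ofReal, mul_one, Complex.norm_real, Real.norm_eq_abs,
      abs_sub_comm]
    linarith
  have h4 : 2 * |θ| / π ≤ ‖(1 : ℂ) - Complex.exp (Complex.I * θ)‖ := by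
    rw [norm_sub_rev, Complex.norm_exp_I_mul_ofReal_sub_one, Real.norm_eq_abs, abs_mul, abs_two]
    have h5 : |Real.sin (θ / 2)| = Real.sin (|θ| / 2) := by
      rcases le_total 0 θ with h | h
      · rw [abs_of_nonneg h] at hθ ⊢
        exact abs_of_nonneg (Real.sin_nonneg_of_nonneg_of_le_pi (by positivity) (by linarith [Real.pi_pos]))
      · rw [abs_of_nonpos h] at hθ ⊢
        have : θ / 2 = -(-θ / 2) := by ring
        rw [this, Real.sin_neg, abs_neg]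
        exact abs_of_nonneg (Real.sin_nonneg_of_nonneg_of_le_pi (by linarith) (by linarith [Real.pi_pos]))
    rw [h5]
    have h6 := Real.mul_le_sin (x := |θ| / 2) (by positivity) (by linarith)
    have h7 : 2 * |θ| / π = 2 * (2 / π * (|θ| / 2)) := by ring
    rw [h7]
    linarith
  have h8 : |θ| / π = (2 * |θ| / π) / 2 := by ring
  rw [h8]
  linarith

lemma radial (M : ℕ) (hM : 1 ≤ M) :
    ∫⁻ r : ℝ, (Ioo (0 : ℝ) 1).indicator (fun r => ENNReal.ofReal (r ^ (2 * M - 1))) r =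
      ENNReal.ofReal (1 / (2 * M)) := by
  rw [lintegral_indicator measurableSet_Ioo]
  have hint : IntegrableOn (fun r : ℝ => r ^ (2 * M - 1)) (Ioo 0 1) :=
    ((continuous_pow _).integrableOn_Icc (a := 0) (b := 1)).mono_set Ioo_subset_Icc_self
  rw [← ofReal_integral_eq_lintegral_ofReal hint]
  · congr 1
    rw [← integral_Ioc_eq_integral_Ioo, ← intervalIntegral.integral_of_le zero_le_one,
      integral_pow]
    have : 2 * M - 1 + 1 = 2 * M := by omega
    rw [one_pow, zero_pow (by omega), Nat.cast_sub (by omega : 1 ≤ 2 * M)]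
    push_cast
    ring
  · refine (ae_restrict_mem measurableSet_Ioo).mono fun r hr => ?_
    exact pow_nonneg hr.1.le _

lemma angular (L : ℕ) (hL : 1 ≤ L) :
    ∫⁻ θ : ℝ, ENNReal.ofReal ((1 + ((L : ℝ) / π * θ) ^ 2)⁻¹) = ENNReal.ofReal (π ^ 2 / L) := by
  have hL0 : (0 : ℝ) < L := by exact_mod_cast hL
  have hc : (L : ℝ) / π ≠ 0 := by positivity
  have hint : Integrable (fun θ : ℝ => (1 + ((L : ℝ) / π * θ) ^ 2)⁻¹) :=
    integrable_inv_one_add_sq.comp_mul_left' hc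
  rw [← ofReal_integral_eq_lintegral_ofReal hint]
  · congr 1
    rw [Measure.integral_comp_mul_left (fun y : ℝ => (1 + y ^ 2)⁻¹), integral_univ_inv_one_add_sq,
      abs_of_pos (by positivity), smul_eq_mul]
    field_simp
  · exact Filter.Eventually.of_forall fun θ => by positivity

/-- the weight -/
noncomputable def wt (L M : ℕ) (z : ℂ) : ℝ :=
  ‖z‖ ^ (2 * M - 2) * ((1 + (L : ℝ) * ‖1 - z‖) ^ 2)⁻¹

lemma wt_nonneg (L M : ℕ) (z : ℂ) : 0 ≤ wt L M z := by unfold wt; positivity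

lemma wt_int (L M : ℕ) (hL : 1 ≤ L) (hM : 1 ≤ M) :
    ∫⁻ z in ball (0 : ℂ) 1, ENNReal.ofReal (wt L M z) ≤ ENNReal.ofReal (π ^ 2 / (2 * M * L)) := by
  have hL0 : (0 : ℝ) < L := by exact_mod_cast hL
  have hM0 : (0 : ℝ) < M := by exact_mod_cast hM
  rw [← lintegral_indicator measurableSet_ball, ← Complex.lintegral_comp_polarCoord_symm]
  have hmt : MeasurableSet polarCoord.target := polarCoord.open_target.measurableSet
  calc _ ≤ ∫⁻ p in polarCoord.target, (Ioo (0 : ℝ) 1).indicator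
          (fun r => ENNReal.ofReal (r ^ (2 * M - 1))) p.1 *
          ENNReal.ofReal ((1 + ((L : ℝ) / π * p.2) ^ 2)⁻¹) := by
        refine setLIntegral_mono' hmt fun p hp => ?_
        rw [polarCoord_target] at hp
        obtain ⟨hp1, hp2⟩ := hp
        have hp1' : 0 < p.1 := hp1
        by_cases hlt : p.1 < 1
        · have hb : Complex.polarCoord.symm p ∈ ball (0 : ℂ) 1 := by
            rw [mem_ball_zero_iff, Complex.norm_polarCoord_symm, abs_of_pos hp1']; exact hlt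
          have hm : p.1 ∈ Ioo (0 : ℝ) 1 := ⟨hp1', hlt⟩
          rw [indicator_of_mem hb, indicator_of_mem hm,
            smul_eq_mul, ← ENNReal.ofReal_mul hp1'.le, ← ENNReal.ofReal_mul (by positivity)]
          refine ENNReal.ofReal_le_ofReal ?_
          unfold wt
          rw [Complex.norm_polarCoord_symm, abs_of_pos hp1']
          have e1 : p.1 * (p.1 ^ (2 * M - 2) * ((1 + (L : ℝ) *
              ‖1 - Complex.polarCoord.symm p‖) ^ 2)⁻¹) = p.1 ^ (2 * M - 1) * ((1 + (L : ℝ) *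
              ‖1 - Complex.polarCoord.symm p‖) ^ 2)⁻¹ := by
            rw [← mul_assoc, ← pow_succ']
            congr 2
            omega
          rw [e1]
          refine mul_le_mul_of_nonneg_left ?_ (by positivity)
          refine inv_anti₀ (by positivity) ?_
          have e2 : Complex.polarCoord.symm p = (p.1 : ℂ) * Complex.exp (Complex.I * p.2) := by
            rw [Complex.polarCoord_symm_apply, mul_comm Complex.I, Complex.exp_mul_I]
            push_cast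
            rfl
          have h1 := lower_x p.1 p.2 hp1'.le (abs_le.mpr ⟨hp2.1.le, hp2.2.le⟩)
          rw [← e2] at h1
          have h2 : (L : ℝ) / π * |p.2| ≤ (L : ℝ) * ‖1 - Complex.polarCoord.symm p‖ := by
            calc (L : ℝ) / π * |p.2| = L * (|p.2| / π) := by ring
              _ ≤ _ := mul_le_mul_of_nonneg_left h1 hL0.le
          have h3 : 0 ≤ (L : ℝ) / π * |p.2| := by positivity
          have h4 : ((L : ℝ) / π * p.2) ^ 2 = ((L : ℝ) / π * |p.2|) ^ 2 := by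
            rw [mul_pow, mul_pow, sq_abs]
          rw [h4]
          nlinarith
        · have hb : Complex.polarCoord.symm p ∉ ball (0 : ℂ) 1 := by
            rw [mem_ball_zero_iff, Complex.norm_polarCoord_symm, abs_of_pos hp1']; exact hlt
          rw [indicator_of_notMem hb]
          simp
    _ ≤ ∫⁻ p : ℝ × ℝ, (Ioo (0 : ℝ) 1).indicator
          (fun r => ENNReal.ofReal (r ^ (2 * M - 1))) p.1 *
          ENNReal.ofReal ((1 + ((L : ℝ) / π * p.2) ^ 2)⁻¹) := setLIntegral_le_lintegral _ _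
    _ = (∫⁻ r : ℝ, (Ioo (0 : ℝ) 1).indicator (fun r => ENNReal.ofReal (r ^ (2 * M - 1))) r) *
          ∫⁻ θ : ℝ, ENNReal.ofReal ((1 + ((L : ℝ) / π * θ) ^ 2)⁻¹) := by
        rw [Measure.volume_eq_prod]
        exact lintegral_prod_mul (μ := (volume : Measure ℝ)) (ν := (volume : Measure ℝ))
          (f := (Ioo (0 : ℝ) 1).indicator (fun r => ENNReal.ofReal (r ^ (2 * M - 1))))
          (g := fun θ : ℝ => ENNReal.ofReal ((1 + ((L : ℝ) / π * θ) ^ 2)⁻¹))
          ((Measurable.indicator (by fun_prop) measurableSet_Ioo).aemeasurable) (by fun_prop)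
    _ = ENNReal.ofReal (1 / (2 * M)) * ENNReal.ofReal (π ^ 2 / L) := by
        rw [radial M hM, angular L hL]
    _ = ENNReal.ofReal (π ^ 2 / (2 * M * L)) := by
        rw [← ENNReal.ofReal_mul (by positivity)]
        congr 1
        field_simp

lemma wt_rot (L M : ℕ) (hL : 1 ≤ L) (hM : 1 ≤ M) (c : ℂ) (hc : ‖c‖ = 1) :
    ∫⁻ z in ball (0 : ℂ) 1, ENNReal.ofReal (wt L M (c * z)) ≤
      ENNReal.ofReal (π ^ 2 / (2 * M * L)) := by
  refine le_trans (le_of_eq ?_) (wt_int L M hL hM)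
  obtain ⟨a, ha⟩ : ∃ a : Circle, (a : ℂ) = c := ⟨⟨c, mem_sphere_zero_iff_norm.2 hc⟩, rfl⟩
  have hmp := (rotation a).measurePreserving
  rw [← lintegral_indicator measurableSet_ball, ← lintegral_indicator measurableSet_ball]
  refine Eq.trans ?_ (hmp.lintegral_comp_emb (rotation a).toHomeomorph.measurableEmbedding _)
  congr 1
  funext z
  have h1 : rotation a z = c * z := by rw [rotation_apply, ha]
  rw [h1]
  have h2 : c * z ∈ ball (0 : ℂ) 1 ↔ z ∈ ball (0 : ℂ) 1 := by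
    rw [mem_ball_zero_iff, mem_ball_zero_iff, norm_mul, hc, one_mul]
  by_cases hz : z ∈ ball (0 : ℂ) 1
  · rw [indicator_of_mem hz, indicator_of_mem (h2.mpr hz)]
  · rw [indicator_of_notMem hz, indicator_of_notMem (fun h => hz (h2.mp h))]

theorem kern_energy : ∃ C : ℝ, 0 ≤ C ∧ ∀ (L M : ℕ) (ζ : ℂ) (Λ : ℝ), 1 ≤ L → 1 ≤ M → ‖ζ‖ = 1 →
    0 ≤ Λ →
    ∫⁻ z in {z : ℂ | ‖z‖ < 1 ∧ Λ < (L : ℝ) * ‖1 - (starRingEnd ℂ) ζ * z‖},
      ENNReal.ofReal (‖deriv (fun w : ℂ => w ^ M * kern L ((starRingEnd ℂ) ζ * w)) z‖ ^ 2)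
      ≤ ENNReal.ofReal (C * ((M : ℝ) + L) ^ 2 / (M * L) * (1 / (1 + Λ) ^ 4)) := by
  refine ⟨220 ^ 2 * (π ^ 2 / 2), by positivity, fun L M ζ Λ hL hM hζ hΛ => ?_⟩
  have hL0 : (0 : ℝ) < L := by exact_mod_cast hL
  have hM0 : (0 : ℝ) < M := by exact_mod_cast hM
  have hζ' : ‖(starRingEnd ℂ) ζ‖ = 1 := by rw [RCLike.norm_conj, hζ]
  have hmeas : MeasurableSet {z : ℂ | ‖z‖ < 1 ∧ Λ < (L : ℝ) * ‖1 - (starRingEnd ℂ) ζ * z‖} := by
    apply IsOpen.measurableSet
    refine IsOpen.inter ?_ ?_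
    · exact isOpen_lt continuous_norm continuous_const
    · exact isOpen_lt continuous_const
        (continuous_const.mul ((continuous_const.sub (continuous_const.mul continuous_id)).norm))
  set K : ℝ := 220 ^ 2 * ((M : ℝ) + L) ^ 2 * (1 / (1 + Λ) ^ 4) with hK
  have hK0 : 0 ≤ K := by positivity
  calc _ ≤ ∫⁻ z in {z : ℂ | ‖z‖ < 1 ∧ Λ < (L : ℝ) * ‖1 - (starRingEnd ℂ) ζ * z‖},
        ENNReal.ofReal K * ENNReal.ofReal (wt L M ((starRingEnd ℂ) ζ * z)) := by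
        refine setLIntegral_mono' hmeas fun z hz => ?_
        rw [← ENNReal.ofReal_mul hK0]
        refine ENNReal.ofReal_le_ofReal ?_
        obtain ⟨hz1, hz2⟩ := hz
        have g := G_bound L M ζ z hL hM hζ hz1
        set y := (L : ℝ) * ‖1 - (starRingEnd ℂ) ζ * z‖ with hy
        set n := ‖deriv (fun w : ℂ => w ^ M * kern L ((starRingEnd ℂ) ζ * w)) z‖ with hn
        have hn0 : 0 ≤ n := norm_nonneg _
        have hy0 : 0 ≤ y := by positivity
        have e1 : wt L M ((starRingEnd ℂ) ζ * z) = ‖z‖ ^ (2 * M - 2) * ((1 + y) ^ 2)⁻¹ := by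
          unfold wt; rw [norm_mul, hζ', one_mul]
        have e2 : ‖z‖ ^ (2 * M - 2) = (‖z‖ ^ (M - 1)) ^ 2 := by
          rw [← pow_mul]; congr 1; omega
        rw [e1, e2]
        have g2 : n ≤ 220 * (M + L) * ‖z‖ ^ (M - 1) / (1 + y) ^ 3 := by
          rw [le_div_iff₀ (by positivity)]; exact g
        calc n ^ 2 ≤ (220 * (M + L) * ‖z‖ ^ (M - 1) / (1 + y) ^ 3) ^ 2 :=
              pow_le_pow_left₀ hn0 g2 2
          _ = 220 ^ 2 * (M + L) ^ 2 * (1 / (1 + y) ^ 4) * ((‖z‖ ^ (M - 1)) ^ 2 *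
                ((1 + y) ^ 2)⁻¹) := by field_simp
          _ ≤ K * ((‖z‖ ^ (M - 1)) ^ 2 * ((1 + y) ^ 2)⁻¹) := by
              refine mul_le_mul_of_nonneg_right ?_ (by positivity)
              rw [hK]
              refine mul_le_mul_of_nonneg_left ?_ (by positivity)
              refine one_div_le_one_div_of_le (by positivity) ?_
              exact pow_le_pow_left₀ (by positivity) (by linarith) 4
    _ = ENNReal.ofReal K * ∫⁻ z in {z : ℂ | ‖z‖ < 1 ∧ Λ < (L : ℝ) * ‖1 - (starRingEnd ℂ) ζ * z‖},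
          ENNReal.ofReal (wt L M ((starRingEnd ℂ) ζ * z)) :=
        lintegral_const_mul' _ _ ENNReal.ofReal_ne_top
    _ ≤ ENNReal.ofReal K * ∫⁻ z in ball (0 : ℂ) 1,
          ENNReal.ofReal (wt L M ((starRingEnd ℂ) ζ * z)) := by
        refine mul_le_mul_right (lintegral_mono_set ?_) _
        intro z hz
        rw [mem_ball_zero_iff]; exact hz.1
    _ ≤ ENNReal.ofReal K * ENNReal.ofReal (π ^ 2 / (2 * M * L)) :=
        mul_le_mul_right (wt_rot L M hL hM _ hζ') _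
    _ = _ := by
        rw [← ENNReal.ofReal_mul hK0]
        congr 1
        rw [hK]
        field_simp

end Kern

end MeanVal
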