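import Mathlib
import Pool.Agent.Helper772.MV.Defs
import Pool.Agent.Helper772.MV.Kern

open MeasureTheory Metric Set
open scoped ENNReal Real

namespace MeanVal

namespace Osc



theorem kern_bound (L : ℕ) (hL : 1 ≤ L) (z : ℂ) (hz : ‖z‖ ≤ 1) :
    ‖kern L z‖ ≤ 3 ∧ ‖kern L z‖ * ((L : ℝ) * ‖1 - z‖) ^ 3 ≤ 8 :=
  Kern.kern_bound L hL z hz

theorem kern_energy : ∃ C : ℝ, 0 ≤ C ∧ ∀ (L M : ℕ) (ζ : ℂ) (Λ : ℝ), 1 ≤ L → 1 ≤ M → ‖ζ‖ = 1 →
    0 ≤ Λ →
    ∫⁻ z in {z : ℂ | ‖z‖ < 1 ∧ Λ < (L : ℝ) * ‖1 - (starRingEnd ℂ) ζ * z‖},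
      ENNReal.ofReal (‖deriv (fun w : ℂ => w ^ M * kern L ((starRingEnd ℂ) ζ * w)) z‖ ^ 2)
      ≤ ENNReal.ofReal (C * ((M : ℝ) + L) ^ 2 / (M * L) * (1 / (1 + Λ) ^ 4)) :=
  Kern.kern_energy

/-- the oscillating term: pointwise and energy bounds relative to a carrier -/
theorem osc_term : ∃ C : ℝ, 0 < C ∧ ∀ (car : ℂ → ℂ) (L M : ℕ) (ζ : ℂ) (X T E : ℝ),
    1 ≤ L → L ≤ M → ‖ζ‖ = 1 → 0 < X → 0 < T → T ≤ 1 → 0 < E →
    (∀ z ∈ ball (0:ℂ) 1,
      E * (1 + (L : ℝ) * ‖1 - (starRingEnd ℂ) ζ * z‖) ^ (-(2 * T)) ≤ ‖car z‖) →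
    (∀ z ∈ ball (0:ℂ) 1, ‖(X : ℂ) * L * z ^ M * kern L ((starRingEnd ℂ) ζ * z)‖ ≤
      C * (X * L / E) * ‖car z‖) ∧
    (∀ R : ℝ, 0 < R → ∫⁻ z in {z : ℂ | z ∈ ball (0:ℂ) 1 ∧ ‖car z‖ < R},
      ENNReal.ofReal (‖deriv (fun z => (X : ℂ) * L * z ^ M * kern L ((starRingEnd ℂ) ζ * z)) z‖ ^ 2)
      ≤ ENNReal.ofReal (C * (X ^ 2 * L * M / E ^ 2) * R ^ 2)) := by
  obtain ⟨C0, hC0, hen⟩ := kern_energy
  refine ⟨64 + 4 * C0, by linarith, ?_⟩
  intro car L M ζ X T E hL hLM hζ hX hT hT1 hE hcar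
  have hLR : (1 : ℝ) ≤ L := by exact_mod_cast hL
  have hLMR : (L : ℝ) ≤ M := by exact_mod_cast hLM
  have hMR : (1 : ℝ) ≤ M := hLR.trans hLMR
  constructor
  · intro z hz
    obtain ⟨x, hx⟩ : ∃ x : ℝ, x = (L : ℝ) * ‖1 - (starRingEnd ℂ) ζ * z‖ := ⟨_, rfl⟩
    have hx0 : 0 ≤ x := by rw [hx]; positivity
    have hz1 : ‖z‖ < 1 := by simpa using hz
    have hzz : ‖(starRingEnd ℂ) ζ * z‖ ≤ 1 := by
      rw [norm_mul, RCLike.norm_conj, hζ, one_mul]
      exact hz1.le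
    obtain ⟨k1, k2⟩ := kern_bound L hL _ hzz
    have h1 := hcar z hz
    rw [← hx] at h1 k2
    obtain ⟨κ, hκ⟩ : ∃ κ : ℝ, κ = ‖kern L ((starRingEnd ℂ) ζ * z)‖ := ⟨_, rfl⟩
    have hκ0 : 0 ≤ κ := by rw [hκ]; exact norm_nonneg _
    rw [← hκ] at k1 k2
    have h2 : κ * (1 + x) ^ 3 ≤ 64 := by
      rcases le_total x 1 with h | h
      · have h3 : (1 + x) ^ 3 ≤ 2 ^ 3 := pow_le_pow_left₀ (by linarith) (by linarith) 3
        calc κ * (1 + x) ^ 3 ≤ 3 * 2 ^ 3 := mul_le_mul k1 h3 (by positivity) (by norm_num)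
          _ ≤ 64 := by norm_num
      · have h3 : (1 + x) ^ 3 ≤ (2 * x) ^ 3 := pow_le_pow_left₀ (by linarith) (by linarith) 3
        calc κ * (1 + x) ^ 3 ≤ κ * (2 * x) ^ 3 := mul_le_mul_of_nonneg_left h3 hκ0
          _ = 8 * (κ * x ^ 3) := by ring
          _ ≤ 64 := by linarith
    have h4 : (1 + x) ^ (2 * T) ≤ (1 + x) ^ 3 := by
      rw [← Real.rpow_natCast]
      apply Real.rpow_le_rpow_of_exponent_le (by linarith)
      push_cast
      linarith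
    have hpos : 0 < (1 + x) ^ (2 * T) := Real.rpow_pos_of_pos (by linarith) _
    have h5 : κ * (1 + x) ^ (2 * T) ≤ 64 := (mul_le_mul_of_nonneg_left h4 hκ0).trans h2
    have h6 : E ≤ ‖car z‖ * (1 + x) ^ (2 * T) := by
      rw [Real.rpow_neg (by linarith), ← div_eq_mul_inv, div_le_iff₀ hpos] at h1
      exact h1
    have h7 : κ * E ≤ 64 * ‖car z‖ := by
      calc κ * E ≤ κ * (‖car z‖ * (1 + x) ^ (2 * T)) := mul_le_mul_of_nonneg_left h6 hκ0
        _ = (κ * (1 + x) ^ (2 * T)) * ‖car z‖ := by ring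
        _ ≤ 64 * ‖car z‖ := mul_le_mul_of_nonneg_right h5 (norm_nonneg _)
    have h8 : ‖(X : ℂ) * L * z ^ M * kern L ((starRingEnd ℂ) ζ * z)‖ ≤ X * L * κ := by
      rw [norm_mul, norm_mul, norm_mul, Complex.norm_real, Complex.norm_natCast, ← hκ, norm_pow,
        Real.norm_eq_abs, abs_of_pos hX]
      have h9 : ‖z‖ ^ M ≤ 1 := pow_le_one₀ (norm_nonneg _) hz1.le
      have h10 : X * L * ‖z‖ ^ M ≤ X * L * 1 := mul_le_mul_of_nonneg_left h9 (by positivity)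
      rw [mul_one] at h10
      exact mul_le_mul_of_nonneg_right h10 hκ0
    refine h8.trans ?_
    have h11 : κ ≤ 64 * ‖car z‖ / E := by
      rw [le_div_iff₀ hE]; exact h7
    have h12 : 0 ≤ X * L * (‖car z‖ / E) := by positivity
    calc X * L * κ ≤ X * L * (64 * ‖car z‖ / E) := mul_le_mul_of_nonneg_left h11 (by positivity)
      _ = 64 * (X * L * (‖car z‖ / E)) := by ring
      _ ≤ (64 + 4 * C0) * (X * L * (‖car z‖ / E)) :=
          mul_le_mul_of_nonneg_right (by linarith) h12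
      _ = (64 + 4 * C0) * (X * L / E) * ‖car z‖ := by ring
  · intro R hR
    have hΛ : ∃ Λ : ℝ, 0 ≤ Λ ∧ (∀ z ∈ ball (0:ℂ) 1, ‖car z‖ < R →
        Λ < (L : ℝ) * ‖1 - (starRingEnd ℂ) ζ * z‖) ∧ 1 / (1 + Λ) ^ 4 ≤ R ^ 2 / E ^ 2 := by
      rcases le_or_gt E R with h | h
      · refine ⟨0, le_rfl, ?_, ?_⟩
        · intro z hz _
          have hz1 : ‖z‖ < 1 := by simpa using hz
          have h1 : (1 : ℂ) - (starRingEnd ℂ) ζ * z ≠ 0 := by
            intro h0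
            have h2 : (starRingEnd ℂ) ζ * z = 1 := (sub_eq_zero.1 h0).symm
            have h3 : ‖(starRingEnd ℂ) ζ * z‖ = 1 := by rw [h2, norm_one]
            rw [norm_mul, RCLike.norm_conj, hζ, one_mul] at h3
            linarith
          have h2 : 0 < ‖(1 : ℂ) - (starRingEnd ℂ) ζ * z‖ := norm_pos_iff.2 h1
          positivity
        · rw [le_div_iff₀ (by positivity)]
          have h2 : E ^ 2 ≤ R ^ 2 := pow_le_pow_left₀ hE.le h 2
          norm_num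
          exact h2
      · have hER : 1 < E / R := by rw [lt_div_iff₀ hR]; linarith
        have hY1 : 1 ≤ (E / R) ^ (1 / (2 * T)) :=
          Real.one_le_rpow hER.le (by positivity)
        refine ⟨(E / R) ^ (1 / (2 * T)) - 1, by linarith, ?_, ?_⟩
        · intro z hz hzR
          obtain ⟨x, hx⟩ : ∃ x : ℝ, x = (L : ℝ) * ‖1 - (starRingEnd ℂ) ζ * z‖ := ⟨_, rfl⟩
          have hx0 : 0 ≤ x := by rw [hx]; positivity
          have h1 := hcar z hz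
          rw [← hx] at h1 ⊢
          have hpos : 0 < (1 + x) ^ (2 * T) := Real.rpow_pos_of_pos (by linarith) _
          have h2 : E * (1 + x) ^ (-(2 * T)) < R := lt_of_le_of_lt h1 hzR
          rw [Real.rpow_neg (by linarith), ← div_eq_mul_inv, div_lt_iff₀ hpos] at h2
          have h3 : E / R < (1 + x) ^ (2 * T) := by
            rw [div_lt_iff₀ hR]; linarith
          have h4 : (E / R) ^ (1 / (2 * T)) < ((1 + x) ^ (2 * T)) ^ (1 / (2 * T)) :=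
            Real.rpow_lt_rpow (by positivity) h3 (by positivity)
          rw [← Real.rpow_mul (by linarith), mul_one_div_cancel (by positivity),
            Real.rpow_one] at h4
          linarith
        · have h1 : 1 + ((E / R) ^ (1 / (2 * T)) - 1) = (E / R) ^ (1 / (2 * T)) := by ring
          rw [h1]
          have h2 : (E / R) ^ 2 ≤ ((E / R) ^ (1 / (2 * T))) ^ 4 := by
            rw [← Real.rpow_natCast ((E / R) ^ (1 / (2 * T))) 4, ← Real.rpow_mul (by positivity),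
              ← Real.rpow_natCast (E / R) 2]
            apply Real.rpow_le_rpow_of_exponent_le hER.le
            push_cast
            rw [div_mul_eq_mul_div, le_div_iff₀ (by positivity)]
            linarith
          have h3 : 0 < (E / R) ^ 2 := by positivity
          calc 1 / ((E / R) ^ (1 / (2 * T))) ^ 4 ≤ 1 / (E / R) ^ 2 :=
                one_div_le_one_div_of_le h3 h2
            _ = R ^ 2 / E ^ 2 := by rw [div_pow, one_div_div]
    obtain ⟨Λ, hΛ0, hΛ1, hΛ2⟩ := hΛ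
    have hder : ∀ z : ℂ, ‖deriv (fun z => (X : ℂ) * L * z ^ M *
        kern L ((starRingEnd ℂ) ζ * z)) z‖ ^ 2 = (X ^ 2 * (L : ℝ) ^ 2) *
        ‖deriv (fun w : ℂ => w ^ M * kern L ((starRingEnd ℂ) ζ * w)) z‖ ^ 2 := by
      intro z
      have e1 : (fun z : ℂ => (X : ℂ) * L * z ^ M * kern L ((starRingEnd ℂ) ζ * z)) =
          fun z => ((X : ℂ) * L) * (z ^ M * kern L ((starRingEnd ℂ) ζ * z)) := by
        funext w; ring
      rw [e1, deriv_const_mul_field, norm_mul, norm_mul, Complex.norm_real, Complex.norm_natCast,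
        Real.norm_eq_abs, abs_of_pos hX, mul_pow, mul_pow]
    have hsub : {z : ℂ | z ∈ ball (0:ℂ) 1 ∧ ‖car z‖ < R} ⊆
        {z : ℂ | ‖z‖ < 1 ∧ Λ < (L : ℝ) * ‖1 - (starRingEnd ℂ) ζ * z‖} := by
      rintro z ⟨hz, hzR⟩
      exact ⟨by simpa using hz, hΛ1 z hz hzR⟩
    have hM0 : (0 : ℝ) < M := by linarith
    have hL0 : (0 : ℝ) < L := by linarith
    calc ∫⁻ z in {z : ℂ | z ∈ ball (0:ℂ) 1 ∧ ‖car z‖ < R},
          ENNReal.ofReal (‖deriv (fun z => (X : ℂ) * L * z ^ M *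
            kern L ((starRingEnd ℂ) ζ * z)) z‖ ^ 2)
        ≤ ∫⁻ z in {z : ℂ | ‖z‖ < 1 ∧ Λ < (L : ℝ) * ‖1 - (starRingEnd ℂ) ζ * z‖},
          ENNReal.ofReal (‖deriv (fun z => (X : ℂ) * L * z ^ M *
            kern L ((starRingEnd ℂ) ζ * z)) z‖ ^ 2) := lintegral_mono_set hsub
      _ = ∫⁻ z in {z : ℂ | ‖z‖ < 1 ∧ Λ < (L : ℝ) * ‖1 - (starRingEnd ℂ) ζ * z‖},
          ENNReal.ofReal (X ^ 2 * (L : ℝ) ^ 2) * ENNReal.ofReal
            (‖deriv (fun w : ℂ => w ^ M * kern L ((starRingEnd ℂ) ζ * w)) z‖ ^ 2) := by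
          refine lintegral_congr fun z => ?_
          rw [hder, ENNReal.ofReal_mul (by positivity)]
      _ = ENNReal.ofReal (X ^ 2 * (L : ℝ) ^ 2) *
          ∫⁻ z in {z : ℂ | ‖z‖ < 1 ∧ Λ < (L : ℝ) * ‖1 - (starRingEnd ℂ) ζ * z‖},
            ENNReal.ofReal
            (‖deriv (fun w : ℂ => w ^ M * kern L ((starRingEnd ℂ) ζ * w)) z‖ ^ 2) :=
          lintegral_const_mul' _ _ ENNReal.ofReal_ne_top
      _ ≤ ENNReal.ofReal (X ^ 2 * (L : ℝ) ^ 2) *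
          ENNReal.ofReal (C0 * ((M : ℝ) + L) ^ 2 / (M * L) * (1 / (1 + Λ) ^ 4)) :=
          mul_le_mul_right (hen L M ζ Λ hL (hL.trans hLM) hζ hΛ0) _
      _ = ENNReal.ofReal ((X ^ 2 * (L : ℝ) ^ 2) *
          (C0 * ((M : ℝ) + L) ^ 2 / (M * L) * (1 / (1 + Λ) ^ 4))) :=
          (ENNReal.ofReal_mul (by positivity)).symm
      _ ≤ ENNReal.ofReal ((64 + 4 * C0) * (X ^ 2 * L * M / E ^ 2) * R ^ 2) := by
          apply ENNReal.ofReal_le_ofReal
          have h1 : ((M : ℝ) + L) ^ 2 ≤ 4 * (M : ℝ) ^ 2 := by nlinarith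
          have h2 : C0 * ((M : ℝ) + L) ^ 2 / (M * L) ≤ C0 * (4 * (M : ℝ) ^ 2) / (M * L) :=
            div_le_div_of_nonneg_right (mul_le_mul_of_nonneg_left h1 hC0) (by positivity)
          have h3 : C0 * ((M : ℝ) + L) ^ 2 / (M * L) * (1 / (1 + Λ) ^ 4) ≤
              C0 * (4 * (M : ℝ) ^ 2) / (M * L) * (R ^ 2 / E ^ 2) :=
            mul_le_mul h2 hΛ2 (by positivity) (by positivity)
          have h4 : (X ^ 2 * (L : ℝ) ^ 2) * (C0 * (4 * (M : ℝ) ^ 2) / (M * L) * (R ^ 2 / E ^ 2)) =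
              (4 * C0) * (X ^ 2 * L * M / E ^ 2) * R ^ 2 := by
            field_simp
          refine (mul_le_mul_of_nonneg_left h3 (by positivity)).trans ?_
          rw [h4]
          have h5 : 0 ≤ (X ^ 2 * L * M / E ^ 2) * R ^ 2 := by positivity
          nlinarith

end Osc

end MeanVal
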