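import Mathlib
import Pool.Agent.Helper772.MV.Defs

open MeasureTheory Metric Set
open scoped ENNReal Real

namespace MeanVal

namespace ProfArea




theorem prof_meas (J : ℕ) (e θ : ℕ → ℝ) : Measurable (prof J e θ) := by
  unfold prof
  refine Complex.measurable_exp.comp ?_
  refine Finset.measurable_sum _ (fun k _ => ?_)
  refine Measurable.const_mul ?_ _
  exact (Complex.measurable_log.comp (measurable_id.add_const _)).sub
    (Complex.measurable_log.comp (measurable_id.add_const _))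

/-- radial derivative of the squared modulus -/
theorem radial (H Y : ℂ → ℂ) (u : ℂ) (hu1 : ‖u‖ = 1) (hu : 0 < u.re)
    (hdiff : ∀ q : ℂ, 0 < q.re → DifferentiableAt ℂ H q)
    (hder : ∀ q : ℂ, 0 < q.re → q * deriv H q = -2 * Y q * H q) (s : ℝ) (hs : 0 < s) :
    HasDerivAt (fun s : ℝ => ‖H (s * u)‖ ^ 2)
      (-(4 * ‖H (s * u)‖ ^ 2 * (Y (s * u)).re / s)) s ∧
    s * ‖deriv H (s * u)‖ ^ 2 = 4 * ‖H (s * u)‖ ^ 2 * ‖Y (s * u)‖ ^ 2 / s := by
  have hq : 0 < ((s : ℂ) * u).re := by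
    rw [Complex.re_ofReal_mul]
    exact mul_pos hs hu
  have h1 : HasDerivAt (fun s : ℝ => (s : ℂ) * u) u s := by
    have := (Complex.ofRealCLM.hasDerivAt (x := s)).mul_const u
    simpa using this
  have h2 : HasDerivAt (fun s : ℝ => H (s * u)) (deriv H (s * u) * u) s :=
    (hdiff _ hq).hasDerivAt.comp_of_eq s h1 rfl
  have h3 := h2.norm_sq
  have hsc : (s : ℂ) ≠ 0 := by exact_mod_cast hs.ne'
  have e1 : deriv H (s * u) * u = -2 * Y (s * u) * H (s * u) / s := by
    have := hder _ hq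
    field_simp
    linear_combination this
  constructor
  · have e2 : 2 * inner ℝ (H (s * u)) (deriv H (s * u) * u) =
        -(4 * ‖H (s * u)‖ ^ 2 * (Y (s * u)).re / s) := by
      rw [Complex.inner, e1]
      have e3 : -2 * Y (s * u) * H (s * u) / s * (starRingEnd ℂ) (H (s * u)) =
          ((-2 * ‖H (s * u)‖ ^ 2 / s : ℝ) : ℂ) * Y (s * u) := by
        have e4 := Complex.mul_conj (H (s * u))
        rw [Complex.normSq_eq_norm_sq] at e4
        push_cast at e4 ⊢
        field_simp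
        linear_combination (-Y (s * u)) * e4
      rw [e3, Complex.re_ofReal_mul]
      ring
    rw [← e2]
    exact h3
  · have hn : ‖(s : ℂ) * u‖ = s := by
      rw [norm_mul, hu1, mul_one, Complex.norm_real, Real.norm_of_nonneg hs.le]
    have e5 := congrArg (fun z => ‖z‖ ^ 2) (hder _ hq)
    simp only [norm_mul, norm_neg, Complex.norm_ofNat] at e5
    rw [norm_mul] at hn
    rw [hn] at e5
    field_simp
    nlinarith [e5]

theorem inner_est (J : ℕ) (H Y : ℂ → ℂ) (θ : ℕ → ℝ) (ε : ℝ) (β : ℕ → ℝ) (hε : 0 ≤ ε) (hJ : 1 ≤ J)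
    (hθ : ∀ k < J, 0 < θ k) (hH : Measurable H)
    (hdiff : ∀ q : ℂ, 0 < q.re → DifferentiableAt ℂ H q)
    (hder : ∀ q : ℂ, 0 < q.re → q * deriv H q = -2 * Y q * H q)
    (hb : ∀ q : ℂ, 0 < q.re → 1 ≤ ‖H q‖ ∧ ‖H q‖ ≤ β J)
    (hβ0 : β 0 = 1) (hβ : ∀ k < J, β k ≤ β (k + 1))
    (hY : ∀ k < J, ∀ q : ℂ, 0 < q.re → ‖H q‖ < β (k + 1) ∨ k + 1 = J →
      ‖Y q‖ ^ 2 ≤ (1 + ε) * θ k * (Y q).re)
    (hYpos : ∀ q : ℂ, 0 < q.re → 0 < (Y q).re)
    (R : ℝ) (hR : 1 ≤ R) (u : ℂ) (hu1 : ‖u‖ = 1) (hu : 0 < u.re) :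
    ∫⁻ s in {s : ℝ | 0 < s ∧ ‖H (s * u)‖ < R}, ENNReal.ofReal (s * ‖deriv H (s * u)‖ ^ 2)
      ≤ ENNReal.ofReal ((1 + ε) *
        ∑ k ∈ Finset.range J, θ k * (min R (β (k + 1)) ^ 2 - min R (β k) ^ 2)) := by
  set h : ℝ → ℝ := fun s => ‖H (s * u)‖ with hh
  have hhm : Measurable h := by
    have : Measurable (fun s : ℝ => (s : ℂ) * u) :=
      (Complex.measurable_ofReal).mul_const u
    exact (hH.comp this).norm
  have hq : ∀ s : ℝ, 0 < s → 0 < ((s : ℂ) * u).re := by
    intro s hs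
    rw [Complex.re_ofReal_mul]
    exact mul_pos hs hu
  have hβ1 : ∀ k ≤ J, 1 ≤ β k := by
    intro k
    induction k with
    | zero => intro _; rw [hβ0]
    | succ k ih => intro hk; exact (ih (by omega)).trans (hβ k (by omega))
  set N' : ℝ → ℝ := fun s => -(4 * ‖H (s * u)‖ ^ 2 * (Y (s * u)).re / s) with hN'
  have hder' : ∀ s : ℝ, 0 < s → HasDerivAt (fun s => h s ^ 2) (N' s) s :=
    fun s hs => (radial H Y u hu1 hu hdiff hder s hs).1
  have hN'neg : ∀ s : ℝ, 0 < s → N' s < 0 := by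
    intro s hs
    have h1 := hYpos _ (hq s hs)
    have h2 : 1 ≤ ‖H (s * u)‖ := (hb _ (hq s hs)).1
    have h3 : 0 < 4 * ‖H (s * u)‖ ^ 2 * (Y (s * u)).re / s := by positivity
    show -(4 * ‖H (s * u)‖ ^ 2 * (Y (s * u)).re / s) < 0
    linarith
  have hanti : AntitoneOn (fun s => h s ^ 2) (Ioi 0) := by
    apply StrictAntiOn.antitoneOn
    apply strictAntiOn_of_deriv_neg (convex_Ioi 0)
    · intro s hs
      exact (hder' s hs).continuousAt.continuousWithinAt
    · intro s hs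
      rw [interior_Ioi] at hs
      rw [(hder' s hs).deriv]
      exact hN'neg s hs
  let A : Fin J → Set ℝ := fun k => {s | 0 < s ∧ β k ≤ h s ∧ h s < R ∧
    (h s < β ((k : ℕ) + 1) ∨ (k : ℕ) + 1 = J)}
  have hAm : ∀ k, MeasurableSet (A k) := by
    intro k
    have e : A k = Ioi 0 ∩ ((h ⁻¹' Ici (β k)) ∩ ((h ⁻¹' Iio R) ∩
        ((h ⁻¹' Iio (β ((k : ℕ) + 1))) ∪ {_s | (k : ℕ) + 1 = J}))) := by
      ext s
      rfl
    rw [e]
    exact measurableSet_Ioi.inter ((hhm measurableSet_Ici).inter ((hhm measurableSet_Iio).inter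
      ((hhm measurableSet_Iio).union (MeasurableSet.const _))))
  have hcov : {s : ℝ | 0 < s ∧ ‖H (s * u)‖ < R} ⊆ ⋃ k, A k := by
    rintro s ⟨hs, hsR⟩
    set k := Nat.findGreatest (fun k => β k ≤ h s) (J - 1) with hk
    have hk0 : β 0 ≤ h s := by rw [hβ0]; exact (hb _ (hq s hs)).1
    have hk1 : β k ≤ h s :=
      Nat.findGreatest_spec (P := fun k => β k ≤ h s) (Nat.zero_le (J - 1)) hk0
    have hk2 : k ≤ J - 1 := Nat.findGreatest_le _
    refine mem_iUnion.2 ⟨⟨k, by omega⟩, hs, hk1, hsR, ?_⟩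
    by_cases hkJ : k + 1 = J
    · exact Or.inr hkJ
    · left
      by_contra hcon
      rw [not_lt] at hcon
      exact Nat.findGreatest_is_greatest (P := fun k => β k ≤ h s) (n := J - 1) (k := k + 1)
        (by omega) (by omega) hcon
  have hbound : ∀ k : Fin J, ∫⁻ s in A k, ENNReal.ofReal (s * ‖deriv H (s * u)‖ ^ 2) ≤
      ENNReal.ofReal ((1 + ε) * (θ k * (min R (β ((k : ℕ) + 1)) ^ 2 - min R (β k) ^ 2))) := by
    intro k
    have hθk := hθ k k.2
    have h1 : ∫⁻ s in A k, ENNReal.ofReal (s * ‖deriv H (s * u)‖ ^ 2) ≤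
        ∫⁻ s in A k, ENNReal.ofReal ((1 + ε) * θ k) * ENNReal.ofReal (- N' s) := by
      apply setLIntegral_mono' (hAm k)
      rintro s ⟨hs, hs1, hs2, hs3⟩
      rw [← ENNReal.ofReal_mul (by positivity)]
      apply ENNReal.ofReal_le_ofReal
      rw [(radial H Y u hu1 hu hdiff hder s hs).2]
      have h4 := hY k k.2 _ (hq s hs) hs3
      show 4 * ‖H (s * u)‖ ^ 2 * ‖Y (s * u)‖ ^ 2 / s ≤
        (1 + ε) * θ k * -(-(4 * ‖H (s * u)‖ ^ 2 * (Y (s * u)).re / s))
      have h5 : (1 + ε) * θ k * -(-(4 * ‖H (s * u)‖ ^ 2 * (Y (s * u)).re / s)) =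
        4 * ‖H (s * u)‖ ^ 2 * ((1 + ε) * θ k * (Y (s * u)).re) / s := by ring
      rw [h5]
      gcongr
    refine h1.trans ?_
    rw [lintegral_const_mul' _ _ ENNReal.ofReal_ne_top,
      lintegral_deriv_eq_volume_image_of_antitoneOn (f := fun s => h s ^ 2) (hAm k)
        (fun s hs => (hder' s hs.1).hasDerivWithinAt) (hanti.mono (fun s hs => hs.1))]
    have himg : volume ((fun s => h s ^ 2) '' A k) ≤
        ENNReal.ofReal (min R (β ((k : ℕ) + 1)) ^ 2 - min R (β k) ^ 2) := by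
      by_cases hkR : β k ≤ R
      · have hsub : (fun s => h s ^ 2) '' A k ⊆
            Icc (min R (β k) ^ 2) (min R (β ((k : ℕ) + 1)) ^ 2) := by
          rintro _ ⟨s, ⟨hs, hs1, hs2, hs3⟩, rfl⟩
          have hh1 : 1 ≤ h s := (hb _ (hq s hs)).1
          have hk1 := hβ1 k k.2.le
          rw [min_eq_right hkR]
          constructor
          · show β k ^ 2 ≤ h s ^ 2
            exact pow_le_pow_left₀ (by linarith) hs1 2
          · show h s ^ 2 ≤ min R (β ((k : ℕ) + 1)) ^ 2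
            apply pow_le_pow_left₀ (by linarith)
            apply le_min hs2.le
            rcases hs3 with h6 | h6
            · exact h6.le
            · rw [h6]
              exact (hb _ (hq s hs)).2
        refine (measure_mono hsub).trans ?_
        rw [Real.volume_Icc]
      · have hem : A k = ∅ := by
          ext s
          constructor
          · rintro ⟨hs, hs1, hs2, hs3⟩
            exact absurd (hs1.trans hs2.le) hkR
          · exact fun h => h.elim
        rw [hem]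
        simp
    calc ENNReal.ofReal ((1 + ε) * θ k) * volume ((fun s => h s ^ 2) '' A k)
        ≤ ENNReal.ofReal ((1 + ε) * θ k) *
          ENNReal.ofReal (min R (β ((k : ℕ) + 1)) ^ 2 - min R (β k) ^ 2) := by gcongr
      _ = _ := by
        rw [← ENNReal.ofReal_mul (by positivity)]
        congr 1
        ring
  calc ∫⁻ s in {s : ℝ | 0 < s ∧ ‖H (s * u)‖ < R}, ENNReal.ofReal (s * ‖deriv H (s * u)‖ ^ 2)
      ≤ ∫⁻ s in ⋃ k, A k, ENNReal.ofReal (s * ‖deriv H (s * u)‖ ^ 2) :=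
        lintegral_mono_set hcov
    _ ≤ ∑' k, ∫⁻ s in A k, ENNReal.ofReal (s * ‖deriv H (s * u)‖ ^ 2) := lintegral_iUnion_le _ _
    _ = ∑ k, ∫⁻ s in A k, ENNReal.ofReal (s * ‖deriv H (s * u)‖ ^ 2) := tsum_fintype _
    _ ≤ ∑ k : Fin J, ENNReal.ofReal
        ((1 + ε) * (θ k * (min R (β ((k : ℕ) + 1)) ^ 2 - min R (β k) ^ 2))) :=
        Finset.sum_le_sum (fun k _ => hbound k)
    _ = ENNReal.ofReal ((1 + ε) *
        ∑ k ∈ Finset.range J, θ k * (min R (β (k + 1)) ^ 2 - min R (β k) ^ 2)) := by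
      rw [← ENNReal.ofReal_sum_of_nonneg]
      · congr 1
        rw [Finset.mul_sum, Finset.sum_range]
      · intro k _
        have hθk := hθ k k.2
        have hk1 := hβ1 k k.2.le
        have h7 : min R (β k) ≤ min R (β ((k : ℕ) + 1)) := min_le_min_left _ (hβ k k.2)
        have h8 : 0 ≤ min R (β k) := le_min (by linarith) (by linarith)
        have h9 : min R (β k) ^ 2 ≤ min R (β ((k : ℕ) + 1)) ^ 2 := pow_le_pow_left₀ h8 h7 2
        exact mul_nonneg (by linarith) (mul_nonneg hθk.le (by linarith))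


/-- area estimate on the right half plane, phase by phase -/
theorem prof_area (J : ℕ) (e θ : ℕ → ℝ) (ε : ℝ) (β : ℕ → ℝ) (hε : 0 ≤ ε) (hJ : 1 ≤ J)
    (he : ∀ k ≤ J, 0 < e k) (hdec : ∀ k < J, e (k + 1) ≤ e k) (hθ : ∀ k < J, 0 < θ k)
    (hdiff : ∀ q : ℂ, 0 < q.re → DifferentiableAt ℂ (prof J e θ) q)
    (hder : ∀ q : ℂ, 0 < q.re → q * deriv (prof J e θ) q = -2 * profY J e θ q * prof J e θ q)
    (hb : ∀ q : ℂ, 0 < q.re → 1 ≤ ‖prof J e θ q‖ ∧ ‖prof J e θ q‖ ≤ β J)
    (hlim : ∀ η : ℝ, 0 < η → ∃ S : ℝ, ∀ q : ℂ, 0 < q.re → S ≤ ‖q‖ → ‖prof J e θ q‖ ≤ 1 + η)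
    (hβ0 : β 0 = 1) (hβ : ∀ k < J, β k ≤ β (k + 1))
    (hY : ∀ k < J, ∀ q : ℂ, 0 < q.re → ‖prof J e θ q‖ < β (k + 1) ∨ k + 1 = J →
      ‖profY J e θ q‖ ^ 2 ≤ (1 + ε) * θ k * (profY J e θ q).re)
    (hYpos : ∀ q : ℂ, 0 < q.re → 0 < (profY J e θ q).re)
    (R : ℝ) (hR : 1 ≤ R) :
    ∫⁻ q in {q : ℂ | 0 < q.re ∧ ‖prof J e θ q‖ < R}, ENNReal.ofReal (‖deriv (prof J e θ) q‖ ^ 2)
      ≤ ENNReal.ofReal (π * (1 + ε) *
        ∑ k ∈ Finset.range J, θ k * (min R (β (k + 1)) ^ 2 - min R (β k) ^ 2)) := by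
  set H := prof J e θ with hHdef
  set Y := profY J e θ with hYdef
  have hH : Measurable H := prof_meas J e θ
  set C : ℝ := (1 + ε) * ∑ k ∈ Finset.range J, θ k * (min R (β (k + 1)) ^ 2 - min R (β k) ^ 2)
    with hC
  set S : Set ℂ := {q : ℂ | 0 < q.re ∧ ‖H q‖ < R} with hS
  have hSm : MeasurableSet S := by
    have e1 : S = (Complex.re ⁻¹' Ioi 0) ∩ ((fun q => ‖H q‖) ⁻¹' Iio R) := rfl
    rw [e1]
    exact (Complex.measurable_re measurableSet_Ioi).inter (hH.norm measurableSet_Iio)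
  set g : ℂ → ℝ≥0∞ := fun q => ENNReal.ofReal (‖deriv H q‖ ^ 2) with hg
  have hgm : Measurable g := ((measurable_deriv H).norm.pow_const 2).ennreal_ofReal
  have hFm : Measurable (S.indicator g) := hgm.indicator hSm
  show ∫⁻ q in S, g q ≤ _
  rw [← lintegral_indicator hSm, ← Complex.lintegral_comp_polarCoord_symm]
  have hpm : Measurable (fun p : ℝ × ℝ => Complex.polarCoord.symm p) := by
    have : (fun p : ℝ × ℝ => Complex.polarCoord.symm p) =
        fun p : ℝ × ℝ => (p.1 : ℂ) * (Real.cos p.2 + Real.sin p.2 * Complex.I) := by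
      funext p
      exact Complex.polarCoord_symm_apply p
    rw [this]
    fun_prop
  have ht : polarCoord.target = Ioi (0 : ℝ) ×ˢ Ioo (-π) π := rfl
  rw [ht, Measure.volume_eq_prod, ← Measure.prod_restrict]
  have hm : Measurable (fun p : ℝ × ℝ => ENNReal.ofReal p.1 •
      (S.indicator g) (Complex.polarCoord.symm p)) := by
    simp only [smul_eq_mul]
    exact (measurable_fst.ennreal_ofReal).mul (hFm.comp hpm)
  rw [lintegral_prod_symm' _ hm]
  have hinner : ∀ φ ∈ Ioo (-π) π, ∫⁻ s in Ioi (0 : ℝ), ENNReal.ofReal ((s, φ) : ℝ × ℝ).1 •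
      (S.indicator g) (Complex.polarCoord.symm (s, φ)) ≤
      (Ioo (-(π / 2)) (π / 2)).indicator (fun _ => ENNReal.ofReal C) φ := by
    intro φ hφ
    set u : ℂ := Real.cos φ + Real.sin φ * Complex.I with hu
    have hp : ∀ s : ℝ, Complex.polarCoord.symm (s, φ) = s * u := fun s =>
      Complex.polarCoord_symm_apply (s, φ)
    have hure : u.re = Real.cos φ := by
      rw [hu]
      simp only [Complex.add_re, Complex.ofReal_re, Complex.re_ofReal_mul, Complex.I_re,
        mul_zero, add_zero]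
    have hu1 : ‖u‖ = 1 := by
      have : u = Complex.exp (φ * Complex.I) := by
        rw [hu, Complex.exp_mul_I]
        push_cast
        ring
      rw [this, Complex.norm_exp_ofReal_mul_I]
    by_cases hφ2 : φ ∈ Ioo (-(π / 2)) (π / 2)
    · rw [indicator_of_mem hφ2]
      have hcos : 0 < u.re := by
        rw [hure]
        exact Real.cos_pos_of_mem_Ioo hφ2
      refine le_trans ?_ (inner_est J H Y θ ε β hε hJ hθ hH hdiff hder hb hβ0 hβ hY hYpos R hR u hu1 hcos)
      set B : Set ℝ := {s : ℝ | 0 < s ∧ ‖H (s * u)‖ < R} with hB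
      calc ∫⁻ s in Ioi (0 : ℝ), ENNReal.ofReal ((s, φ) : ℝ × ℝ).1 •
            (S.indicator g) (Complex.polarCoord.symm (s, φ))
          ≤ ∫⁻ s in Ioi (0 : ℝ), B.indicator
            (fun s => ENNReal.ofReal (s * ‖deriv H (s * u)‖ ^ 2)) s := by
            apply setLIntegral_mono' measurableSet_Ioi
            intro s hs
            rw [hp, smul_eq_mul]
            by_cases hsS : (s : ℂ) * u ∈ S
            · rw [indicator_of_mem hsS, indicator_of_mem (show s ∈ B from ⟨hs, hsS.2⟩)]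
              show ENNReal.ofReal s * ENNReal.ofReal (‖deriv H (s * u)‖ ^ 2) ≤ _
              rw [← ENNReal.ofReal_mul (le_of_lt hs)]
            · rw [indicator_of_notMem hsS, mul_zero]
              exact bot_le
        _ ≤ ∫⁻ s in B, ENNReal.ofReal (s * ‖deriv H (s * u)‖ ^ 2) ∂(volume.restrict (Ioi 0)) :=
            lintegral_indicator_le _ _
        _ ≤ ∫⁻ s in B, ENNReal.ofReal (s * ‖deriv H (s * u)‖ ^ 2) :=
            lintegral_mono' (Measure.restrict_mono le_rfl Measure.restrict_le_self) le_rfl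
    · rw [indicator_of_notMem hφ2]
      have hcos : u.re ≤ 0 := by
        rw [hure]
        rw [mem_Ioo, not_and_or, not_lt, not_lt] at hφ2
        rcases hφ2 with h1 | h1
        · rw [← Real.cos_neg]
          apply Real.cos_nonpos_of_pi_div_two_le_of_le (by linarith)
          linarith [hφ.1, Real.pi_pos]
        · apply Real.cos_nonpos_of_pi_div_two_le_of_le h1
          linarith [hφ.2, Real.pi_pos]
      have hz : ∫⁻ s in Ioi (0 : ℝ), ENNReal.ofReal ((s, φ) : ℝ × ℝ).1 •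
            (S.indicator g) (Complex.polarCoord.symm (s, φ)) ≤ ∫⁻ s in Ioi (0 : ℝ), 0 := by
        apply setLIntegral_mono' measurableSet_Ioi
        intro s hs
        rw [hp, indicator_of_notMem]
        · simp
        · rintro ⟨h1, -⟩
          rw [Complex.re_ofReal_mul] at h1
          have : s * u.re ≤ 0 := mul_nonpos_of_nonneg_of_nonpos (le_of_lt hs) hcos
          linarith
      simpa using hz
  calc ∫⁻ φ in Ioo (-π) π, ∫⁻ s in Ioi (0 : ℝ), ENNReal.ofReal ((s, φ) : ℝ × ℝ).1 •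
        (S.indicator g) (Complex.polarCoord.symm (s, φ))
      ≤ ∫⁻ φ in Ioo (-π) π, (Ioo (-(π / 2)) (π / 2)).indicator (fun _ => ENNReal.ofReal C) φ :=
        setLIntegral_mono' measurableSet_Ioo hinner
    _ ≤ ∫⁻ φ, (Ioo (-(π / 2)) (π / 2)).indicator (fun _ => ENNReal.ofReal C) φ :=
        setLIntegral_le_lintegral _ _
    _ = ENNReal.ofReal C * volume (Ioo (-(π / 2)) (π / 2)) := by
        rw [lintegral_indicator measurableSet_Ioo, setLIntegral_const]
    _ = ENNReal.ofReal (π * (1 + ε) *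
        ∑ k ∈ Finset.range J, θ k * (min R (β (k + 1)) ^ 2 - min R (β k) ^ 2)) := by
        rw [Real.volume_Ioo, show π / 2 - -(π / 2) = π by ring, mul_comm,
          ← ENNReal.ofReal_mul Real.pi_pos.le]
        congr 1
        rw [hC]
        ring

end ProfArea

end MeanVal
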