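import Mathlib
import Pool.Agent.Helper772.MV.Defs

open MeasureTheory Metric Set
open scoped ENNReal Real

namespace MeanVal

namespace ProfBasic




theorem pr_mono {J : ℕ} {e : ℕ → ℝ} (hdec : ∀ k < J, e (k + 1) ≤ e k) {k m : ℕ} (hkm : k ≤ m)
    (hm : m ≤ J) : e m ≤ e k := by
  induction m, hkm using Nat.le_induction with
  | base => exact le_rfl
  | succ m hkm ih => exact (hdec m (by omega)).trans (ih (by omega))

theorem pr_re {J : ℕ} {e : ℕ → ℝ} (hdec : ∀ k < J, e (k + 1) ≤ e k) {q : ℂ} (hq : -(e J) < q.re)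
    {k : ℕ} (hk : k ≤ J) : 0 < (q + (e k : ℂ)).re := by
  have := pr_mono hdec hk le_rfl
  rw [Complex.add_re, Complex.ofReal_re]
  linarith

theorem pr_sq (q : ℂ) (a : ℝ) : ‖q + (a : ℂ)‖ ^ 2 = ‖q‖ ^ 2 + 2 * a * q.re + a ^ 2 := by
  rw [← Complex.normSq_eq_norm_sq, ← Complex.normSq_eq_norm_sq, Complex.normSq_apply,
    Complex.normSq_apply]
  simp
  ring

theorem pr_le {q : ℂ} (hq : 0 ≤ q.re) {a b : ℝ} (hb : 0 ≤ b) (hab : b ≤ a) :
    ‖q + (b : ℂ)‖ ≤ ‖q + (a : ℂ)‖ := by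
  refine le_of_sq_le_sq ?_ (norm_nonneg _)
  rw [pr_sq, pr_sq]
  nlinarith [mul_nonneg (sub_nonneg.2 hab) hq]

theorem pr_ratio {q : ℂ} (hq : 0 ≤ q.re) {a b : ℝ} (hb : 0 ≤ b) (hab : b ≤ a) :
    ‖q + (a : ℂ)‖ * b ≤ ‖q + (b : ℂ)‖ * a := by
  have ha : 0 ≤ a := hb.trans hab
  refine le_of_sq_le_sq ?_ (by positivity)
  rw [mul_pow, mul_pow, pr_sq, pr_sq]
  have h1 : 0 ≤ ‖q‖ ^ 2 * (a ^ 2 - b ^ 2) :=
    mul_nonneg (sq_nonneg _) (by nlinarith)
  have h2 : 0 ≤ a * b * q.re * (a - b) :=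
    mul_nonneg (mul_nonneg (mul_nonneg ha hb) hq) (sub_nonneg.2 hab)
  nlinarith

theorem pr_factor {J : ℕ} {e θ : ℕ → ℝ} (he : ∀ k ≤ J, 0 < e k) (hθ : ∀ k < J, 0 ≤ θ k)
    (hdec : ∀ k < J, e (k + 1) ≤ e k) {q : ℂ} (hq : 0 ≤ q.re) {k : ℕ} (hk : k < J) :
    1 ≤ (‖q + (e k : ℂ)‖ / ‖q + (e (k + 1) : ℂ)‖) ^ (2 * θ k) ∧
      (‖q + (e k : ℂ)‖ / ‖q + (e (k + 1) : ℂ)‖) ^ (2 * θ k) ≤ (e k / e (k + 1)) ^ (2 * θ k) := by
  have h1 : 0 < e (k + 1) := he (k + 1) (by omega)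
  have h2 : 0 < ‖q + (e (k + 1) : ℂ)‖ := by
    rw [norm_pos_iff]
    intro h
    have := congrArg Complex.re h
    rw [Complex.add_re, Complex.ofReal_re, Complex.zero_re] at this
    linarith
  have h3 := pr_le hq h1.le (hdec k hk)
  have h4 := pr_ratio hq h1.le (hdec k hk)
  have h5 := hθ k hk
  constructor
  · refine Real.one_le_rpow ?_ (by positivity)
    rw [one_le_div h2]
    exact h3
  · refine Real.rpow_le_rpow (by positivity) ?_ (by positivity)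
    rw [div_le_div_iff₀ h2 h1]
    linarith

theorem one_le_prod_real {ι : Type*} (s : Finset ι) (f : ι → ℝ) (h : ∀ i ∈ s, 1 ≤ f i) :
    1 ≤ ∏ i ∈ s, f i := by
  have := Finset.prod_le_prod (s := s) (f := fun _ => (1 : ℝ)) (g := f) (fun _ _ => zero_le_one) h
  simpa using this

theorem prof_norm (J : ℕ) (e θ : ℕ → ℝ) (he : ∀ k ≤ J, 0 < e k) (hθ : ∀ k < J, 0 ≤ θ k)
    (hdec : ∀ k < J, e (k + 1) ≤ e k) (q : ℂ) (hq : -(e J) < q.re) :
    ‖prof J e θ q‖ = ∏ k ∈ Finset.range J,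
      (‖q + (e k : ℂ)‖ / ‖q + (e (k + 1) : ℂ)‖) ^ (2 * θ k) := by
  have hpos : ∀ k ≤ J, 0 < ‖q + (e k : ℂ)‖ := by
    intro k hk
    rw [norm_pos_iff]
    intro h
    have h1 := pr_re hdec hq hk
    rw [h, Complex.zero_re] at h1
    exact lt_irrefl _ h1
  unfold prof
  rw [Complex.norm_exp, Complex.re_sum, Real.exp_sum]
  refine Finset.prod_congr rfl fun k hk => ?_
  rw [Finset.mem_range] at hk
  have h1 := hpos k hk.le
  have h2 := hpos (k + 1) hk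
  have h3 : (2 * (θ k : ℂ) * (Complex.log (q + (e k : ℂ)) - Complex.log (q + (e (k + 1) : ℂ)))).re =
      2 * θ k * (Real.log ‖q + (e k : ℂ)‖ - Real.log ‖q + (e (k + 1) : ℂ)‖) := by
    have h4 : (2 * (θ k : ℂ)) = ((2 * θ k : ℝ) : ℂ) := by push_cast; ring
    rw [h4, Complex.re_ofReal_mul, Complex.sub_re, Complex.log_re, Complex.log_re]
  rw [h3, Real.rpow_def_of_pos (div_pos h1 h2), Real.log_div h1.ne' h2.ne', mul_comm]

theorem prof_hasDerivAt (J : ℕ) (e θ : ℕ → ℝ) (he : ∀ k ≤ J, 0 < e k)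
    (hdec : ∀ k < J, e (k + 1) ≤ e k) (q : ℂ) (hq : -(e J) < q.re) :
    HasDerivAt (prof J e θ) ((∑ k ∈ Finset.range J, 2 * (θ k : ℂ) *
      (1 / (q + (e k : ℂ)) - 1 / (q + (e (k + 1) : ℂ)))) * prof J e θ q) q := by
  have hlog : ∀ k ≤ J, HasDerivAt (fun q : ℂ => Complex.log (q + (e k : ℂ)))
      (1 / (q + (e k : ℂ))) q := by
    intro k hk
    have h1 : q + (e k : ℂ) ∈ Complex.slitPlane := Or.inl (pr_re hdec hq hk)
    exact ((hasDerivAt_id q).add_const (e k : ℂ)).clog h1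
  have hsum : HasDerivAt (fun q : ℂ => ∑ k ∈ Finset.range J, 2 * (θ k : ℂ) *
      (Complex.log (q + (e k : ℂ)) - Complex.log (q + (e (k + 1) : ℂ))))
      (∑ k ∈ Finset.range J, 2 * (θ k : ℂ) *
        (1 / (q + (e k : ℂ)) - 1 / (q + (e (k + 1) : ℂ)))) q := by
    refine HasDerivAt.fun_sum fun k hk => ?_
    rw [Finset.mem_range] at hk
    exact ((hlog k hk.le).sub (hlog (k + 1) hk)).const_mul _
  have h2 := hsum.cexp
  rw [mul_comm] at h2
  exact h2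

theorem prof_deriv_eq (J : ℕ) (e θ : ℕ → ℝ) (he : ∀ k ≤ J, 0 < e k)
    (hdec : ∀ k < J, e (k + 1) ≤ e k) (q : ℂ) (hq : 0 < q.re) :
    q * deriv (prof J e θ) q = -2 * profY J e θ q * prof J e θ q := by
  have h1 := he J le_rfl
  have h2 := prof_hasDerivAt J e θ he hdec q (by linarith)
  rw [h2.deriv]
  unfold profY
  rw [← mul_assoc]
  congr 1
  rw [Finset.mul_sum, Finset.mul_sum]
  refine Finset.sum_congr rfl fun k _ => ?_
  ring

theorem prof_bounds (J : ℕ) (e θ : ℕ → ℝ) (he : ∀ k ≤ J, 0 < e k) (hθ : ∀ k < J, 0 ≤ θ k)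
    (hdec : ∀ k < J, e (k + 1) ≤ e k) (q : ℂ) (hq : 0 ≤ q.re) :
    1 ≤ ‖prof J e θ q‖ ∧ ‖prof J e θ q‖ ≤ lev e θ J := by
  have h1 := he J le_rfl
  rw [prof_norm J e θ he hθ hdec q (by linarith)]
  constructor
  · exact one_le_prod_real _ _ fun k hk => (pr_factor he hθ hdec hq (Finset.mem_range.1 hk)).1
  · exact Finset.prod_le_prod (fun k hk =>
      zero_le_one.trans (pr_factor he hθ hdec hq (Finset.mem_range.1 hk)).1)
      fun k hk => (pr_factor he hθ hdec hq (Finset.mem_range.1 hk)).2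

theorem prof_lower (J : ℕ) (e θ : ℕ → ℝ) (he : ∀ k ≤ J, 0 < e k) (hθ : ∀ k < J, 0 ≤ θ k)
    (hdec : ∀ k < J, e (k + 1) ≤ e k) (B : ℝ) (hB : 0 ≤ B) (k : ℕ) (hk : k ≤ J)
    (q : ℂ) (hq : 0 ≤ q.re) (hqB : ‖q‖ ≤ B * e k) :
    (B + 1) ^ (-(2 * ∑ j ∈ Finset.range k, θ j)) * lev e θ k ≤ ‖prof J e θ q‖ := by
  have h1 := he J le_rfl
  rw [prof_norm J e θ he hθ hdec q (by linarith), ← Finset.prod_range_mul_prod_Ico _ hk]
  have hB1 : 0 < B + 1 := by linarith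
  have h2 : 1 ≤ ∏ j ∈ Finset.Ico k J,
      (‖q + (e j : ℂ)‖ / ‖q + (e (j + 1) : ℂ)‖) ^ (2 * θ j) :=
    one_le_prod_real _ _ fun j hj => (pr_factor he hθ hdec hq (Finset.mem_Ico.1 hj).2).1
  have h3 : (B + 1) ^ (-(2 * ∑ j ∈ Finset.range k, θ j)) * lev e θ k ≤
      ∏ j ∈ Finset.range k, (‖q + (e j : ℂ)‖ / ‖q + (e (j + 1) : ℂ)‖) ^ (2 * θ j) := by
    have h4 : (B + 1) ^ (-(2 * ∑ j ∈ Finset.range k, θ j)) =
        ∏ j ∈ Finset.range k, (B + 1) ^ (-(2 * θ j)) := by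
      rw [← Real.rpow_sum_of_pos hB1]
      congr 1
      rw [Finset.mul_sum, Finset.sum_neg_distrib]
    unfold lev
    rw [h4, ← Finset.prod_mul_distrib]
    refine Finset.prod_le_prod (fun j hj => ?_) fun j hj => ?_
    · rw [Finset.mem_range] at hj
      have h5 := he j (by omega)
      have h6 := he (j + 1) (by omega)
      positivity
    · rw [Finset.mem_range] at hj
      have h5 := he j (by omega)
      have h6 := he (j + 1) (by omega)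
      have h7 := hθ j (by omega)
      have h8 : e j ≤ ‖q + (e j : ℂ)‖ := by
        refine le_trans ?_ (Complex.re_le_norm _)
        rw [Complex.add_re, Complex.ofReal_re]
        linarith
      have h9 : ‖q + (e (j + 1) : ℂ)‖ ≤ (B + 1) * e (j + 1) := by
        refine (norm_add_le _ _).trans ?_
        rw [Complex.norm_real, Real.norm_of_nonneg h6.le]
        have h10 : e k ≤ e (j + 1) := pr_mono hdec (by omega) hk
        have h11 : B * e k ≤ B * e (j + 1) := mul_le_mul_of_nonneg_left h10 hB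
        linarith
      have h12 : 0 < ‖q + (e (j + 1) : ℂ)‖ := by
        have : e (j + 1) ≤ ‖q + (e (j + 1) : ℂ)‖ := by
          refine le_trans ?_ (Complex.re_le_norm _)
          rw [Complex.add_re, Complex.ofReal_re]
          linarith
        linarith
      rw [Real.rpow_neg hB1.le, ← Real.inv_rpow hB1.le, ← Real.mul_rpow (by positivity) (by positivity)]
      refine Real.rpow_le_rpow (by positivity) ?_ (by positivity)
      rw [inv_mul_eq_div, div_div, div_le_div_iff₀ (by positivity) h12]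
      calc e j * ‖q + (e (j + 1) : ℂ)‖ ≤ ‖q + (e j : ℂ)‖ * ((B + 1) * e (j + 1)) :=
            mul_le_mul h8 h9 (norm_nonneg _) (norm_nonneg _)
        _ = ‖q + (e j : ℂ)‖ * (e (j + 1) * (B + 1)) := by ring
  have h0 : 0 ≤ (B + 1) ^ (-(2 * ∑ j ∈ Finset.range k, θ j)) * lev e θ k := by
    refine mul_nonneg (by positivity) (Finset.prod_nonneg fun j hj => ?_)
    rw [Finset.mem_range] at hj
    have h5 := he j (by omega)
    have h6 := he (j + 1) (by omega)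
    positivity
  calc _ = ((B + 1) ^ (-(2 * ∑ j ∈ Finset.range k, θ j)) * lev e θ k) * 1 := (mul_one _).symm
    _ ≤ _ := mul_le_mul h3 h2 zero_le_one (h0.trans h3)

theorem pr_norm_le {q : ℂ} (hq : 0 ≤ q.re) {t : ℝ} (ht : 0 ≤ t) : ‖q‖ ≤ ‖q + (t : ℂ)‖ := by
  have := pr_le hq le_rfl ht
  simpa using this

theorem pr_log {q : ℂ} (hq : 0 ≤ q.re) (hq0 : q ≠ 0) {a b : ℝ} (hb : 0 < b) (hab : b ≤ a) :
    ‖Complex.log (q + (a : ℂ)) - Complex.log (q + (b : ℂ))‖ ≤ (a - b) / ‖q‖ := by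
  have hqn : 0 < ‖q‖ := norm_pos_iff.2 hq0
  have h1 : ∀ t ∈ Set.Icc b a, HasDerivWithinAt (fun t : ℝ => Complex.log (q + (t : ℂ)))
      (1 / (q + (t : ℂ))) (Set.Icc b a) t := by
    intro t ht
    have ht0 : 0 < t := hb.trans_le ht.1
    have h2 : q + (t : ℂ) ∈ Complex.slitPlane := by
      refine Or.inl ?_
      rw [Complex.add_re, Complex.ofReal_re]
      linarith
    have h3 : HasDerivAt (fun t : ℝ => q + (t : ℂ)) 1 t :=
      (Complex.ofRealCLM.hasDerivAt (x := t)).const_add q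
    exact (h3.clog_real h2).hasDerivWithinAt
  have h2 : ∀ t ∈ Set.Icc b a, ‖1 / (q + (t : ℂ))‖ ≤ 1 / ‖q‖ := by
    intro t ht
    rw [norm_div, norm_one]
    exact one_div_le_one_div_of_le hqn (pr_norm_le hq (hb.le.trans ht.1))
  have h3 := (convex_Icc b a).norm_image_sub_le_of_norm_hasDerivWithin_le h1 h2
    (Set.left_mem_Icc.2 hab) (Set.right_mem_Icc.2 hab)
  rw [Real.norm_of_nonneg (sub_nonneg.2 hab)] at h3
  calc _ ≤ 1 / ‖q‖ * (a - b) := h3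
    _ = (a - b) / ‖q‖ := by ring

theorem pr_inv {q : ℂ} (hq : 0 ≤ q.re) (hq0 : q ≠ 0) {a b : ℝ} (hb : 0 < b) (hab : b ≤ a) :
    ‖1 / (q + (a : ℂ)) - 1 / (q + (b : ℂ))‖ ≤ (a - b) / ‖q‖ ^ 2 := by
  have hqn : 0 < ‖q‖ := norm_pos_iff.2 hq0
  have h1 := pr_norm_le hq (hb.le.trans hab)
  have h2 := pr_norm_le hq hb.le
  have h3 : q + (a : ℂ) ≠ 0 := norm_pos_iff.1 (hqn.trans_le h1)
  have h4 : q + (b : ℂ) ≠ 0 := norm_pos_iff.1 (hqn.trans_le h2)
  have h5 : 1 / (q + (a : ℂ)) - 1 / (q + (b : ℂ)) =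
      -(((a - b : ℝ) : ℂ) / ((q + (a : ℂ)) * (q + (b : ℂ)))) := by
    field_simp
    push_cast
    ring
  rw [h5, norm_neg, norm_div, norm_mul, Complex.norm_real, Real.norm_of_nonneg (sub_nonneg.2 hab)]
  refine div_le_div_of_nonneg_left (sub_nonneg.2 hab) (by positivity) ?_
  rw [sq]
  exact mul_le_mul h1 h2 hqn.le (norm_nonneg _)

theorem pr_tele {J : ℕ} {e θ : ℕ → ℝ} (he : ∀ k ≤ J, 0 < e k) (hθ : ∀ k < J, 0 ≤ θ k)
    (hdec : ∀ k < J, e (k + 1) ≤ e k) {T : ℝ} (hT : ∀ k < J, θ k ≤ T) (hT0 : 0 ≤ T) (c : ℝ)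
    (hc : 0 ≤ c) (x : ℕ → ℂ) (hx : ∀ k < J, ‖x k‖ ≤ (e k - e (k + 1)) * c) :
    ‖∑ k ∈ Finset.range J, 2 * (θ k : ℂ) * x k‖ ≤ 2 * T * e 0 * c := by
  have h1 : ∀ k ∈ Finset.range J, ‖2 * (θ k : ℂ) * x k‖ ≤ 2 * T * c * (e k - e (k + 1)) := by
    intro k hk
    rw [Finset.mem_range] at hk
    have h2 : ‖2 * (θ k : ℂ)‖ = 2 * θ k := by
      rw [norm_mul, Complex.norm_real, Real.norm_of_nonneg (hθ k hk)]
      simp
    rw [norm_mul, h2]
    have h3 := hθ k hk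
    have h4 := sub_nonneg.2 (hdec k hk)
    calc 2 * θ k * ‖x k‖ ≤ 2 * T * ((e k - e (k + 1)) * c) :=
          mul_le_mul (by linarith [hT k hk]) (hx k hk) (norm_nonneg _) (by positivity)
      _ = 2 * T * c * (e k - e (k + 1)) := by ring
  refine (norm_sum_le _ _).trans ((Finset.sum_le_sum h1).trans ?_)
  rw [← Finset.mul_sum, Finset.sum_range_sub']
  have h5 := he J le_rfl
  have h6 : 0 ≤ 2 * T * c := by positivity
  nlinarith [mul_nonneg h6 h5.le]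

/-- far field -/
theorem prof_far (J : ℕ) (e θ : ℕ → ℝ) (he : ∀ k ≤ J, 0 < e k) (hθ : ∀ k < J, 0 ≤ θ k)
    (hdec : ∀ k < J, e (k + 1) ≤ e k) (T : ℝ) (hT : ∀ k < J, θ k ≤ T) (hT0 : 0 ≤ T)
    (q : ℂ) (hq : 0 ≤ q.re) (hq0 : q ≠ 0) (hsmall : 2 * T * e 0 ≤ ‖q‖) :
    ‖prof J e θ q - 1‖ ≤ 4 * T * e 0 / ‖q‖ ∧
    ‖deriv (prof J e θ) q‖ ≤ 6 * T * e 0 / ‖q‖ ^ 2 := by
  have hqn : 0 < ‖q‖ := norm_pos_iff.2 hq0
  have heJ := he J le_rfl
  have he0 := he 0 (Nat.zero_le _)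
  have hE : ‖∑ k ∈ Finset.range J, 2 * (θ k : ℂ) *
      (Complex.log (q + (e k : ℂ)) - Complex.log (q + (e (k + 1) : ℂ)))‖ ≤
      2 * T * e 0 * (1 / ‖q‖) := by
    refine pr_tele he hθ hdec hT hT0 _ (by positivity) _ fun k hk => ?_
    refine (pr_log hq hq0 (he (k + 1) hk) (hdec k hk)).trans (le_of_eq ?_)
    ring
  have hS : ‖∑ k ∈ Finset.range J, 2 * (θ k : ℂ) *
      (1 / (q + (e k : ℂ)) - 1 / (q + (e (k + 1) : ℂ)))‖ ≤ 2 * T * e 0 * (1 / ‖q‖ ^ 2) := by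
    refine pr_tele he hθ hdec hT hT0 _ (by positivity) _ fun k hk => ?_
    refine (pr_inv hq hq0 (he (k + 1) hk) (hdec k hk)).trans (le_of_eq ?_)
    ring
  have h1 : 2 * T * e 0 * (1 / ‖q‖) ≤ 1 := by
    rw [mul_one_div, div_le_one hqn]
    exact hsmall
  have hE1 := hE.trans h1
  constructor
  · unfold prof
    refine (Complex.norm_exp_sub_one_le hE1).trans ?_
    calc _ ≤ 2 * (2 * T * e 0 * (1 / ‖q‖)) := by linarith
      _ = 4 * T * e 0 / ‖q‖ := by ring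
  · rw [(prof_hasDerivAt J e θ he hdec q (by linarith)).deriv, norm_mul]
    have h2 : ‖prof J e θ q‖ ≤ 3 := by
      unfold prof
      refine (Complex.norm_exp_le_exp_norm _).trans ?_
      refine (Real.exp_le_exp.2 hE1).trans ?_
      have := Real.exp_one_lt_d9
      norm_num at this ⊢
      linarith
    calc _ ≤ (2 * T * e 0 * (1 / ‖q‖ ^ 2)) * 3 :=
          mul_le_mul hS h2 (norm_nonneg _) (by positivity)
      _ = 6 * T * e 0 / ‖q‖ ^ 2 := by ring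

end ProfBasic

end MeanVal
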