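import Mathlib
import Pool.Agent.Helper772.MV.Defs

open MeasureTheory Metric Set
open scoped ENNReal Real

namespace MeanVal

namespace ProfGrowth




theorem norm_prof_eq (J : ℕ) (e θ : ℕ → ℝ) (q : ℂ) :
    ‖prof J e θ q‖ = Real.exp (∑ k ∈ Finset.range J,
      2 * θ k * (Real.log ‖q + (e k : ℂ)‖ - Real.log ‖q + (e (k + 1) : ℂ)‖)) := by
  unfold prof
  rw [Complex.norm_exp, Complex.re_sum]
  congr 1
  apply Finset.sum_congr rfl
  intro k _
  have h : (2 * (θ k : ℂ)) = ((2 * θ k : ℝ) : ℂ) := by push_cast; ring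
  rw [h, Complex.re_ofReal_mul, Complex.sub_re, Complex.log_re, Complex.log_re]

theorem lev_eq_exp (J : ℕ) (e θ : ℕ → ℝ) (he : ∀ k ≤ J, 0 < e k) :
    lev e θ J = Real.exp (∑ k ∈ Finset.range J, 2 * θ k * (Real.log (e k) - Real.log (e (k + 1)))) := by
  unfold lev
  rw [Real.exp_sum]
  apply Finset.prod_congr rfl
  intro k hk
  have hk' : k < J := Finset.mem_range.mp hk
  have h1 := he k hk'.le
  have h2 := he (k + 1) hk'
  rw [Real.rpow_def_of_pos (div_pos h1 h2), Real.log_div h1.ne' h2.ne']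
  congr 1; ring

theorem norm_add_pos (q : ℂ) (a : ℝ) (h : 0 < q.re + a) : 0 < ‖q + (a : ℂ)‖ := by
  apply norm_pos_iff.mpr
  intro h0
  have : (q + (a : ℂ)).re = 0 := by rw [h0]; rfl
  simp at this
  linarith

theorem normSq_add (q : ℂ) (a : ℝ) :
    ‖q + (a : ℂ)‖ ^ 2 = (q.re + a) ^ 2 + q.im ^ 2 := by
  rw [← Complex.normSq_eq_norm_sq, Complex.normSq_apply]
  simp
  ring

/-- monotonicity of `log |q + a| - log a` -/
theorem step_mono (q : ℂ) (hq : 0 ≤ q.re) {a b : ℝ} (ha : 0 < a) (hab : a ≤ b) :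
    Real.log ‖q + (b : ℂ)‖ - Real.log b ≤ Real.log ‖q + (a : ℂ)‖ - Real.log a := by
  have hb : 0 < b := lt_of_lt_of_le ha hab
  have pa := norm_add_pos q a (by linarith)
  have pb := norm_add_pos q b (by linarith)
  rw [← Real.log_div pb.ne' hb.ne', ← Real.log_div pa.ne' ha.ne']
  apply Real.log_le_log (div_pos pb hb)
  rw [div_le_div_iff₀ hb ha]
  refine (sq_le_sq₀ (by positivity) (by positivity)).mp ?_
  · rw [mul_pow, mul_pow, normSq_add, normSq_add]
    have h1 : 0 ≤ q.im ^ 2 := sq_nonneg _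
    have h2 : a ^ 2 ≤ b ^ 2 := by nlinarith
    have h3 : (q.re + b) * a ≤ (q.re + a) * b := by nlinarith
    have h4 : 0 ≤ (q.re + b) * a := by positivity
    have h5 : ((q.re + b) * a) ^ 2 ≤ ((q.re + a) * b) ^ 2 := by
      apply pow_le_pow_left₀ h4 h3
    nlinarith

theorem prof_growth (J : ℕ) (e θ : ℕ → ℝ) (he : ∀ k ≤ J, 0 < e k) (hθ : ∀ k < J, 0 ≤ θ k)
    (hdec : ∀ k < J, e (k + 1) ≤ e k) (T : ℝ) (hT0 : 0 ≤ T) (hT : ∀ k < J, θ k ≤ T)
    (q : ℂ) (hq : 0 ≤ q.re) :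
    lev e θ J * (1 + ‖q‖ / e J) ^ (-(2 * T)) ≤ ‖prof J e θ q‖ := by
  have hJ := he J le_rfl
  have hpos : 0 < 1 + ‖q‖ / e J := by positivity
  rw [norm_prof_eq, lev_eq_exp J e θ he, Real.rpow_def_of_pos hpos, ← Real.exp_add]
  apply Real.exp_le_exp.mpr
  set g : ℕ → ℝ := fun k => Real.log ‖q + (e k : ℂ)‖ - Real.log (e k) with hg
  have key : ∑ k ∈ Finset.range J, 2 * θ k * (Real.log (e k) - Real.log (e (k + 1))) -
      ∑ k ∈ Finset.range J,
      2 * θ k * (Real.log ‖q + (e k : ℂ)‖ - Real.log ‖q + (e (k + 1) : ℂ)‖) =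
      ∑ k ∈ Finset.range J, 2 * θ k * (g (k + 1) - g k) := by
    rw [← Finset.sum_sub_distrib]
    apply Finset.sum_congr rfl
    intro k _
    simp only [hg]; ring
  have h1 : ∑ k ∈ Finset.range J, 2 * θ k * (g (k + 1) - g k) ≤
      ∑ k ∈ Finset.range J, 2 * T * (g (k + 1) - g k) := by
    apply Finset.sum_le_sum
    intro k hk
    have hk' : k < J := Finset.mem_range.mp hk
    have h2 : 0 ≤ g (k + 1) - g k := by
      have := step_mono q hq (he (k + 1) hk') (hdec k hk')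
      simp only [hg]; linarith
    have h3 := hT k hk'
    nlinarith
  rw [← Finset.mul_sum, Finset.sum_range_sub] at h1
  have h4 : 0 ≤ g 0 := by
    simp only [hg]
    have h0 := he 0 (Nat.zero_le _)
    have : e 0 ≤ ‖q + (e 0 : ℂ)‖ := by
      calc e 0 ≤ (q + (e 0 : ℂ)).re := by simp; exact hq
        _ ≤ _ := Complex.re_le_norm _
    have := Real.log_le_log h0 this
    linarith
  have h5 : g J ≤ Real.log (1 + ‖q‖ / e J) := by
    simp only [hg]
    rw [← Real.log_div (norm_add_pos q (e J) (by linarith)).ne' hJ.ne']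
    apply Real.log_le_log (div_pos (norm_add_pos q (e J) (by linarith)) hJ)
    rw [div_le_iff₀ hJ]
    have : ‖q + (e J : ℂ)‖ ≤ ‖q‖ + ‖(e J : ℂ)‖ := norm_add_le _ _
    rw [Complex.norm_of_nonneg hJ.le] at this
    have h6 : (1 + ‖q‖ / e J) * e J = e J + ‖q‖ := by field_simp
    rw [h6]; linarith
  have h6 : 2 * T * (g J - g 0) ≤ 2 * T * Real.log (1 + ‖q‖ / e J) := by
    apply mul_le_mul_of_nonneg_left _ (by linarith)
    linarith
  nlinarith

/-- version without `0 ≤ T`, for `1 ≤ J` -/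
theorem prof_growth' (J : ℕ) (e θ : ℕ → ℝ) (hJ1 : 1 ≤ J) (he : ∀ k ≤ J, 0 < e k)
    (hθ : ∀ k < J, 0 ≤ θ k)
    (hdec : ∀ k < J, e (k + 1) ≤ e k) (T : ℝ) (hT : ∀ k < J, θ k ≤ T)
    (q : ℂ) (hq : 0 ≤ q.re) :
    lev e θ J * (1 + ‖q‖ / e J) ^ (-(2 * T)) ≤ ‖prof J e θ q‖ :=
  prof_growth J e θ he hθ hdec T ((hθ 0 (by omega)).trans (hT 0 (by omega))) hT q hq

theorem e_le_of_dec (J : ℕ) (e : ℕ → ℝ) (hdec : ∀ k < J, e (k + 1) ≤ e k) :
    ∀ k ≤ J, e k ≤ e 0 := by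
  intro k
  induction k with
  | zero => intro _; exact le_rfl
  | succ n ih => intro h; exact (hdec n h).trans (ih (by omega))

theorem e_ge_of_dec (J : ℕ) (e : ℕ → ℝ) (hdec : ∀ k < J, e (k + 1) ≤ e k) :
    ∀ k ≤ J, e J ≤ e k := by
  intro k hk
  obtain ⟨m, rfl⟩ := Nat.exists_eq_add_of_le hk
  clear hk
  induction m with
  | zero => exact le_rfl
  | succ n ih =>
    have h1 := hdec (k + n) (by omega)
    have h2 := ih (fun j hj => hdec j (by omega))
    exact h1.trans h2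

theorem prof_big (J : ℕ) (e θ : ℕ → ℝ) (he : ∀ k ≤ J, 0 < e k) (he1 : e 0 ≤ 1)
    (hθ : ∀ k < J, 0 ≤ θ k)
    (hdec : ∀ k < J, e (k + 1) ≤ e k) (q : ℂ) (hq : -(e J) / 2 ≤ q.re) (hq3 : ‖q‖ ≤ 3) :
    ‖prof J e θ q‖ ≤ (8 / e J) ^ (2 * ∑ k ∈ Finset.range J, θ k) := by
  have hJ := he J le_rfl
  have hpos : 0 < 8 / e J := by positivity
  rw [norm_prof_eq, Real.rpow_def_of_pos hpos]
  apply Real.exp_le_exp.mpr
  rw [Finset.mul_sum, Finset.mul_sum]
  apply Finset.sum_le_sum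
  intro k hk
  have hk' : k < J := Finset.mem_range.mp hk
  have h1 := he k hk'.le
  have h2 := he (k + 1) hk'
  have h3 := e_le_of_dec J e hdec k hk'.le
  have h4 := e_ge_of_dec J e hdec (k + 1) hk'
  have h4' := e_ge_of_dec J e hdec k hk'.le
  have pa := norm_add_pos q (e k) (by linarith)
  have pb := norm_add_pos q (e (k + 1)) (by linarith)
  have h5 : ‖q + (e k : ℂ)‖ ≤ 4 := by
    have : ‖q + (e k : ℂ)‖ ≤ ‖q‖ + ‖(e k : ℂ)‖ := norm_add_le _ _
    rw [Complex.norm_of_nonneg h1.le] at this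
    linarith
  have h6 : e J / 2 ≤ ‖q + (e (k + 1) : ℂ)‖ := by
    calc e J / 2 ≤ (q + (e (k + 1) : ℂ)).re := by simp; linarith
      _ ≤ _ := Complex.re_le_norm _
  have h7 : Real.log ‖q + (e k : ℂ)‖ - Real.log ‖q + (e (k + 1) : ℂ)‖ ≤ Real.log (8 / e J) := by
    rw [← Real.log_div pa.ne' pb.ne']
    apply Real.log_le_log (div_pos pa pb)
    rw [div_le_div_iff₀ pb hJ]
    nlinarith
  have h8 := hθ k hk'
  nlinarith

theorem re_block (q : ℂ) (hq : 0 < q.re) {a b : ℝ} (ha : 0 < a) (hab : a ≤ b) :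
    0 ≤ (q / (q + (a : ℂ)) - q / (q + (b : ℂ))).re ∧
    (a < b → 0 < (q / (q + (a : ℂ)) - q / (q + (b : ℂ))).re) := by
  have hb : 0 < b := lt_of_lt_of_le ha hab
  have key : ∀ c : ℝ, 0 < c → (q / (q + (c : ℂ))).re =
      (q.re ^ 2 + q.im ^ 2 + c * q.re) / ((q.re + c) ^ 2 + q.im ^ 2) := by
    intro c hc
    rw [Complex.div_re, Complex.normSq_apply]
    simp
    have : 0 < (q.re + c) * (q.re + c) + q.im * q.im := by
      have h5 : 0 < q.re + c := by linarith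
      nlinarith [mul_pos h5 h5, mul_self_nonneg q.im]
    have h2 : 0 < (q.re + c) ^ 2 + q.im ^ 2 := by positivity
    field_simp
    ring
  rw [Complex.sub_re, key a ha, key b hb]
  have h1 : 0 < (q.re + a) ^ 2 + q.im ^ 2 := by positivity
  have h2 : 0 < (q.re + b) ^ 2 + q.im ^ 2 := by positivity
  have h3 : (q.re ^ 2 + q.im ^ 2 + a * q.re) / ((q.re + a) ^ 2 + q.im ^ 2) -
      (q.re ^ 2 + q.im ^ 2 + b * q.re) / ((q.re + b) ^ 2 + q.im ^ 2) =
      (b - a) * ((q.re ^ 2 + q.im ^ 2) * q.re + (a + b) * (q.re ^ 2 + q.im ^ 2) + a * b * q.re) /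
      (((q.re + a) ^ 2 + q.im ^ 2) * ((q.re + b) ^ 2 + q.im ^ 2)) := by
    field_simp
    ring
  rw [h3]
  have h4 : 0 < ((q.re ^ 2 + q.im ^ 2) * q.re + (a + b) * (q.re ^ 2 + q.im ^ 2) + a * b * q.re) := by
    positivity
  constructor
  · apply div_nonneg _ (by positivity)
    apply mul_nonneg (by linarith) h4.le
  · intro h
    apply div_pos _ (by positivity)
    apply mul_pos (by linarith) h4

theorem profY_re_pos (J : ℕ) (e θ : ℕ → ℝ) (hJ : 1 ≤ J) (he : ∀ k ≤ J, 0 < e k)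
    (hθ : ∀ k < J, 0 < θ k) (hdec : ∀ k < J, e (k + 1) ≤ e k) (hstr : e J < e 0)
    (q : ℂ) (hq : 0 < q.re) : 0 < (profY J e θ q).re := by
  unfold profY
  rw [Complex.re_sum]
  apply Finset.sum_pos'
  · intro k hk
    have hk' : k < J := Finset.mem_range.mp hk
    rw [Complex.re_ofReal_mul]
    exact mul_nonneg (hθ k hk').le (re_block q hq (he (k + 1) hk') (hdec k hk')).1
  · have : ∃ k < J, e (k + 1) < e k := by
      by_contra hcon
      push Not at hcon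
      have h : ∀ k ≤ J, e 0 ≤ e k := by
        intro k
        induction k with
        | zero => intro _; exact le_rfl
        | succ n ih => intro h; exact (ih (by omega)).trans (hcon n h)
      exact absurd (h J le_rfl) (not_le.mpr hstr)
    obtain ⟨k, hk', hlt⟩ := this
    refine ⟨k, Finset.mem_range.mpr hk', ?_⟩
    rw [Complex.re_ofReal_mul]
    exact mul_pos (hθ k hk') ((re_block q hq (he (k + 1) hk') (hdec k hk')).2 hlt)

end ProfGrowth

end MeanVal
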