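import Mathlib
import Pool.Agent.Helper772.MV.Defs

open MeasureTheory Metric Set
open scoped ENNReal Real

namespace MeanVal

namespace ProfY




theorem blk_eq_h (a b : ℝ) (q : ℂ) (ha : q + (a : ℂ) ≠ 0) (hb : q + (b : ℂ) ≠ 0) :
    q / (q + (a : ℂ)) - q / (q + (b : ℂ)) = q * ((b : ℂ) - a) / ((q + a) * (q + b)) := by
  field_simp
  ring

theorem ne_h (a : ℝ) (ha : 0 < a) (q : ℂ) (hq : 0 < q.re) : q + (a : ℂ) ≠ 0 := by
  intro h
  have := congrArg Complex.re h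
  simp at this
  linarith

theorem normSq_pos_h (a : ℝ) (ha : 0 < a) (q : ℂ) (hq : 0 < q.re) :
    0 < Complex.normSq (q + (a : ℂ)) := Complex.normSq_pos.2 (ne_h a ha q hq)

/-- difference of increments -/
noncomputable def dd (θ : ℕ → ℝ) (j : ℕ) : ℝ := if j = 0 then θ 0 else θ j - θ (j - 1)

theorem dd_sum_h (θ : ℕ → ℝ) (n : ℕ) : ∑ j ∈ Finset.range (n + 1), dd θ j = θ n := by
  induction n with
  | zero => simp [dd]
  | succ n ih =>
    rw [Finset.sum_range_succ, ih]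
    simp [dd]

theorem abel_h (J : ℕ) (e θ : ℕ → ℝ) (q : ℂ) :
    profY J e θ q = ∑ j ∈ Finset.range J, (dd θ j : ℂ) *
      (q / (q + (e J : ℂ)) - q / (q + (e j : ℂ))) := by
  induction J with
  | zero => simp [profY]
  | succ J ih =>
    have h1 : profY (J + 1) e θ q = profY J e θ q +
        (θ J : ℂ) * (q / (q + (e (J + 1) : ℂ)) - q / (q + (e J : ℂ))) := by
      unfold profY
      rw [Finset.sum_range_succ]
    have h2 : ∀ j, (dd θ j : ℂ) * (q / (q + (e (J + 1) : ℂ)) - q / (q + (e j : ℂ))) =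
        (dd θ j : ℂ) * (q / (q + (e J : ℂ)) - q / (q + (e j : ℂ))) +
        (dd θ j : ℂ) * (q / (q + (e (J + 1) : ℂ)) - q / (q + (e J : ℂ))) := by
      intro j; ring
    rw [h1, ih, Finset.sum_congr rfl (fun j _ => h2 j), Finset.sum_add_distrib,
      ← Finset.sum_mul, Finset.sum_range_succ]
    have h3 : ∑ i ∈ Finset.range (J + 1), (dd θ i : ℂ) = (θ J : ℂ) := by
      rw [← dd_sum_h θ J]
      push_cast
      rfl
    rw [h3]
    ring

theorem conv_h {ι : Type*} (s : Finset ι) (w : ι → ℝ) (X : ι → ℂ) (hw : ∀ i ∈ s, 0 ≤ w i)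
    (hX : ∀ i ∈ s, ‖X i‖ ^ 2 ≤ (X i).re) :
    ‖∑ i ∈ s, (w i : ℂ) * X i‖ ^ 2 ≤ (∑ i ∈ s, w i) * (∑ i ∈ s, (w i : ℂ) * X i).re := by
  have h1 : ‖∑ i ∈ s, (w i : ℂ) * X i‖ ≤ ∑ i ∈ s, w i * ‖X i‖ := by
    refine (norm_sum_le _ _).trans (le_of_eq (Finset.sum_congr rfl fun i hi => ?_))
    rw [norm_mul, Complex.norm_real, Real.norm_of_nonneg (hw i hi)]
  have h2 : (∑ i ∈ s, w i * ‖X i‖) ^ 2 ≤ (∑ i ∈ s, w i) * ∑ i ∈ s, w i * ‖X i‖ ^ 2 := by
    refine Finset.sum_sq_le_sum_mul_sum_of_sq_eq_mul s hw (fun i hi => ?_) (fun i _ => by ring)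
    exact mul_nonneg (hw i hi) (by positivity)
  have h3 : ∑ i ∈ s, w i * ‖X i‖ ^ 2 ≤ (∑ i ∈ s, (w i : ℂ) * X i).re := by
    rw [Complex.re_sum]
    refine Finset.sum_le_sum fun i hi => ?_
    rw [Complex.re_ofReal_mul]
    exact mul_le_mul_of_nonneg_left (hX i hi) (hw i hi)
  have h4 : 0 ≤ ∑ i ∈ s, w i := Finset.sum_nonneg hw
  calc ‖∑ i ∈ s, (w i : ℂ) * X i‖ ^ 2 ≤ (∑ i ∈ s, w i * ‖X i‖) ^ 2 :=
        pow_le_pow_left₀ (norm_nonneg _) h1 2
    _ ≤ _ := h2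
    _ ≤ _ := mul_le_mul_of_nonneg_left h3 h4

theorem dec_h (J : ℕ) (e : ℕ → ℝ) (hdec : ∀ k < J, e (k + 1) ≤ e k) (i j : ℕ) (hij : i ≤ j)
    (hj : j ≤ J) : e j ≤ e i := by
  induction j with
  | zero =>
    have : i = 0 := by omega
    rw [this]
  | succ j ih =>
    rcases Nat.eq_or_lt_of_le hij with h | h
    · rw [h]
    · exact (hdec j (by omega)).trans (ih (by omega) (by omega))

theorem dd_nonneg_h (J : ℕ) (θ : ℕ → ℝ) (h0 : 0 ≤ θ 0) (hmono : ∀ k, k + 1 < J → θ k ≤ θ (k + 1))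
    (j : ℕ) (hj : j < J) : 0 ≤ dd θ j := by
  unfold dd
  split_ifs with h
  · exact h0
  · obtain ⟨i, rfl⟩ : ∃ i, j = i + 1 := ⟨j - 1, by omega⟩
    have := hmono i hj
    rw [Nat.add_sub_cancel]
    linarith

/-- all partial blocks lie in the disc `|X - 1/2| ≤ 1/2` -/
theorem block_disc (a b : ℝ) (ha : 0 < a) (hab : a ≤ b) (q : ℂ) (hq : 0 < q.re) :
    ‖q / (q + (a : ℂ)) - q / (q + (b : ℂ))‖ ^ 2 ≤
      (q / (q + (a : ℂ)) - q / (q + (b : ℂ))).re := by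
  have hb : 0 < b := lt_of_lt_of_le ha hab
  rw [blk_eq_h a b q (ne_h a ha q hq) (ne_h b hb q hq)]
  obtain ⟨D, hD⟩ : ∃ D : ℂ, D = (q + a) * (q + b) := ⟨_, rfl⟩
  rw [← hD]
  have hN : 0 < Complex.normSq D := by
    rw [hD, Complex.normSq_mul]
    exact mul_pos (normSq_pos_h a ha q hq) (normSq_pos_h b hb q hq)
  rw [Complex.sq_norm, Complex.normSq_div, Complex.div_re, ← add_div, div_le_div_iff_of_pos_right hN]
  rw [Complex.normSq_apply, hD]
  simp only [Complex.mul_re, Complex.mul_im, Complex.add_re, Complex.add_im, Complex.ofReal_re,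
    Complex.ofReal_im, Complex.sub_re, Complex.sub_im]
  obtain ⟨x, hx⟩ : ∃ x, x = q.re := ⟨_, rfl⟩
  obtain ⟨y, hy⟩ : ∃ y, y = q.im := ⟨_, rfl⟩
  rw [← hx, ← hy]
  rw [← hx] at hq
  have e1 : x * (b - a) * ((x + a) * (x + b) - (y + 0) * (y + 0)) +
      y * (b - a) * ((x + a) * (y + 0) + (y + 0) * (x + b)) -
      (x * (b - a) * (x * (b - a)) + y * (b - a) * (y * (b - a))) =
      (b - a) * ((x ^ 2 + y ^ 2) * x + 2 * a * (x ^ 2 + y ^ 2) + a * b * x) := by ring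
  have e2 : 0 ≤ (b - a) * ((x ^ 2 + y ^ 2) * x + 2 * a * (x ^ 2 + y ^ 2) + a * b * x) := by
    have : 0 ≤ b - a := by linarith
    positivity
  have e3 : (x * (b - a) - y * (0 - 0)) = x * (b - a) := by ring
  have e4 : (x * (0 - 0) + y * (b - a)) = y * (b - a) := by ring
  rw [e3, e4]
  linarith

theorem profY_last (J : ℕ) (e θ : ℕ → ℝ) (hJ : 1 ≤ J) (he : ∀ k ≤ J, 0 < e k)
    (hθ0 : 0 < θ 0) (hmono : ∀ k, k + 1 < J → θ k ≤ θ (k + 1))
    (hdec : ∀ k < J, e (k + 1) ≤ e k) (q : ℂ) (hq : 0 < q.re) :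
    ‖profY J e θ q‖ ^ 2 ≤ θ (J - 1) * (profY J e θ q).re := by
  have hpos : ∀ k ≤ J, 0 < e k := he
  rw [abel_h]
  have h1 := conv_h (Finset.range J) (dd θ)
    (fun j => q / (q + (e J : ℂ)) - q / (q + (e j : ℂ)))
    (fun j hj => dd_nonneg_h J θ hθ0.le hmono j (Finset.mem_range.1 hj))
    (fun j hj => block_disc (e J) (e j) (hpos J le_rfl)
      (dec_h J e hdec j J (Finset.mem_range.1 hj).le le_rfl) q hq)
  obtain ⟨n, rfl⟩ : ∃ n, J = n + 1 := ⟨J - 1, by omega⟩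
  rw [dd_sum_h] at h1
  exact h1

set_option maxHeartbeats 2000000 in
theorem profY_mid (θ₀ T ε : ℝ) (hθ₀ : 0 < θ₀) (hT : θ₀ ≤ T) (hε : 0 < ε) :
    ∃ B : ℝ, 1 ≤ B ∧ ∀ (J : ℕ) (e θ : ℕ → ℝ) (k : ℕ), 1 ≤ k → k ≤ J →
      (∀ j ≤ J, 0 < e j) → θ₀ ≤ θ 0 → (∀ j, j + 1 < J → θ j ≤ θ (j + 1)) → (∀ j < J, θ j ≤ T) →
      (∀ j < J, e (j + 1) ≤ e j) → 2 * e J ≤ e 0 → B * e k ≤ e 0 →
      ∀ q : ℂ, 0 < q.re → B * e k ≤ ‖q‖ →
      ‖profY J e θ q‖ ^ 2 ≤ (1 + ε) * θ (k - 1) * (profY J e θ q).re := by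
  obtain ⟨m, hm⟩ : ∃ m : ℝ, m = min 1 (ε / 3) := ⟨_, rfl⟩
  have hm0 : 0 < m := by rw [hm]; positivity
  have hm1 : m ≤ 1 := by rw [hm]; exact min_le_left _ _
  have hm2 : m ≤ ε / 3 := by rw [hm]; exact min_le_right _ _
  have hT0 : 0 < T := by linarith
  obtain ⟨B, hB⟩ : ∃ B : ℝ, B = 1 + 8 * T / (θ₀ * m) := ⟨_, rfl⟩
  have hB1 : 1 ≤ B := by
    rw [hB]
    have : 0 ≤ 8 * T / (θ₀ * m) := by positivity
    linarith
  have hBm : 8 * T ≤ m * θ₀ * B := by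
    have : 8 * T / (θ₀ * m) ≤ B := by rw [hB]; linarith
    rw [div_le_iff₀ (by positivity)] at this
    linarith
  refine ⟨B, hB1, fun J e θ k hk hkJ he hθ hmono hθT hdec heJ hBk q hq hBq => ?_⟩
  have hθ00 : 0 < θ 0 := by linarith
  have hdd : ∀ j, j < J → 0 ≤ dd θ j := fun j hj => dd_nonneg_h J θ hθ00.le hmono j hj
  obtain ⟨X, hX⟩ : ∃ X : ℕ → ℂ, ∀ j, X j = q / (q + (e J : ℂ)) - q / (q + (e j : ℂ)) :=
    ⟨_, fun _ => rfl⟩
  have hle : ∀ j, j ≤ J → e J ≤ e j := fun j hj => dec_h J e hdec j J hj le_rfl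
  have hXD : ∀ j, j ≤ J → ‖X j‖ ^ 2 ≤ (X j).re := by
    intro j hj
    rw [hX]
    exact block_disc (e J) (e j) (he J le_rfl) (hle j hj) q hq
  have hXre : ∀ j, j ≤ J → 0 ≤ (X j).re := fun j hj => le_trans (by positivity) (hXD j hj)
  have hs0 : 0 < ‖q‖ := by
    rw [norm_pos_iff]
    intro h
    rw [h] at hq
    simp at hq
  obtain ⟨s, hs⟩ : ∃ s, s = ‖q‖ := ⟨_, rfl⟩
  rw [← hs] at hs0 hBq
  have hs2 : s ^ 2 = q.re ^ 2 + q.im ^ 2 := by
    rw [hs, Complex.sq_norm, Complex.normSq_apply]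
    ring
  have hYeq : profY J e θ q = ∑ j ∈ Finset.range J, (dd θ j : ℂ) * X j := by
    rw [abel_h]
    exact Finset.sum_congr rfl fun j _ => by rw [hX]
  obtain ⟨Y1, hY1⟩ : ∃ Y1 : ℂ, Y1 = ∑ j ∈ Finset.range k, (dd θ j : ℂ) * X j := ⟨_, rfl⟩
  obtain ⟨Z, hZ⟩ : ∃ Z : ℂ, Z = ∑ j ∈ Finset.Ico k J, (dd θ j : ℂ) * X j := ⟨_, rfl⟩
  have hY : profY J e θ q = Y1 + Z := by
    rw [hYeq, hY1, hZ, Finset.range_eq_Ico, Finset.range_eq_Ico]
    exact (Finset.sum_Ico_consecutive _ (Nat.zero_le _) hkJ).symm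
  have hsumk : ∑ j ∈ Finset.range k, dd θ j = θ (k - 1) := by
    obtain ⟨n, rfl⟩ : ∃ n, k = n + 1 := ⟨k - 1, by omega⟩
    rw [dd_sum_h, Nat.add_sub_cancel]
  have hθk : 0 < θ (k - 1) := by
    rw [← hsumk]
    have h1 : dd θ 0 ≤ ∑ j ∈ Finset.range k, dd θ j :=
      Finset.single_le_sum (f := dd θ) (fun j hj => hdd j (by
        have := Finset.mem_range.1 hj
        omega)) (Finset.mem_range.2 (by omega))
    have h2 : dd θ 0 = θ 0 := by simp [dd]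
    linarith
  have hY1D : ‖Y1‖ ^ 2 ≤ θ (k - 1) * Y1.re := by
    rw [← hsumk, hY1]
    exact conv_h (Finset.range k) (dd θ) X (fun j hj => hdd j (by
        have := Finset.mem_range.1 hj
        omega)) (fun j hj => hXD j (by
        have := Finset.mem_range.1 hj
        omega))
  have hZre : 0 ≤ Z.re := by
    rw [hZ, Complex.re_sum]
    refine Finset.sum_nonneg fun j hj => ?_
    rw [Complex.re_ofReal_mul]
    have := Finset.mem_Ico.1 hj
    exact mul_nonneg (hdd j this.2) (hXre j this.2.le)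
  -- bound of Z
  have hge : ∀ a : ℝ, 0 < a → s ≤ ‖q + (a : ℂ)‖ := by
    intro a ha
    refine le_of_sq_le_sq ?_ (norm_nonneg _)
    rw [Complex.sq_norm, Complex.normSq_apply, hs2]
    simp only [Complex.add_re, Complex.add_im, Complex.ofReal_re, Complex.ofReal_im]
    nlinarith [mul_pos hq ha]
  have hXb : ∀ j, k ≤ j → j < J → ‖X j‖ ≤ e k / s := by
    intro j hkj hjJ
    have hej := he j hjJ.le
    have heJ0 := he J le_rfl
    rw [hX, blk_eq_h _ _ q (ne_h _ heJ0 q hq) (ne_h _ hej q hq), norm_div, norm_mul, norm_mul]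
    have h1 : ‖(e j : ℂ) - (e J : ℂ)‖ = e j - e J := by
      rw [← Complex.ofReal_sub, Complex.norm_real, Real.norm_of_nonneg]
      linarith [hle j hjJ.le]
    rw [h1, ← hs]
    have h2 : s * s ≤ ‖q + (e J : ℂ)‖ * ‖q + (e j : ℂ)‖ :=
      mul_le_mul (hge _ heJ0) (hge _ hej) hs0.le (norm_nonneg _)
    have h3 : e j - e J ≤ e k := by
      have := dec_h J e hdec k j hkj hjJ.le
      linarith
    rw [div_le_div_iff₀ (lt_of_lt_of_le (by positivity) h2) hs0]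
    have h4 : 0 ≤ e j - e J := by linarith [hle j hjJ.le]
    have h5 : 0 < e k := he k hkJ
    calc s * (e j - e J) * s = (e j - e J) * (s * s) := by ring
      _ ≤ e k * (s * s) := mul_le_mul_of_nonneg_right h3 (by positivity)
      _ ≤ e k * (‖q + (e J : ℂ)‖ * ‖q + (e j : ℂ)‖) := mul_le_mul_of_nonneg_left h2 h5.le
  have hZb : ‖Z‖ ≤ T * (e k / s) := by
    have hek := he k hkJ
    have h1 : ‖Z‖ ≤ ∑ j ∈ Finset.Ico k J, dd θ j * (e k / s) := by
      rw [hZ]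
      refine (norm_sum_le _ _).trans (Finset.sum_le_sum fun j hj => ?_)
      have hj' := Finset.mem_Ico.1 hj
      rw [norm_mul, Complex.norm_real, Real.norm_of_nonneg (hdd j hj'.2)]
      exact mul_le_mul_of_nonneg_left (hXb j hj'.1 hj'.2) (hdd j hj'.2)
    rw [← Finset.sum_mul] at h1
    refine h1.trans (mul_le_mul_of_nonneg_right ?_ (by positivity))
    have h2 : ∑ j ∈ Finset.Ico k J, dd θ j ≤ ∑ j ∈ Finset.range J, dd θ j := by
      refine Finset.sum_le_sum_of_subset_of_nonneg ?_ fun j hj _ => hdd j (Finset.mem_range.1 hj)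
      intro j hj
      exact Finset.mem_range.2 (Finset.mem_Ico.1 hj).2
    obtain ⟨n, rfl⟩ : ∃ n, J = n + 1 := ⟨J - 1, by omega⟩
    rw [dd_sum_h] at h2
    exact h2.trans (hθT n (by omega))
  -- lower bound of Y1
  have he0 : 0 < e 0 := he 0 (Nat.zero_le _)
  have hrot : ∀ j, j ≤ J → 0 ≤ ((q + (e 0 : ℂ)) * X j).re := by
    intro j hj
    have hej := he j hj
    have heJ0 := he J le_rfl
    have hj0 : e j ≤ e 0 := dec_h J e hdec 0 j (Nat.zero_le _) hj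
    have hJj := hle j hj
    rw [hX, blk_eq_h _ _ q (ne_h _ heJ0 q hq) (ne_h _ hej q hq), mul_div_assoc']
    rw [Complex.div_re, ← add_div]
    refine div_nonneg ?_ (Complex.normSq_nonneg _)
    obtain ⟨a, ha⟩ : ∃ a, a = e J := ⟨_, rfl⟩
    obtain ⟨b, hb⟩ : ∃ b, b = e j := ⟨_, rfl⟩
    obtain ⟨c, hc⟩ : ∃ c, c = e 0 := ⟨_, rfl⟩
    obtain ⟨x, hx⟩ : ∃ x, x = q.re := ⟨_, rfl⟩
    obtain ⟨y, hy⟩ : ∃ y, y = q.im := ⟨_, rfl⟩
    rw [← ha] at heJ0 hJj ⊢
    rw [← hb] at hej hJj hj0 ⊢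
    rw [← hc] at hj0 he0 ⊢
    rw [← hx] at hq
    simp only [Complex.mul_re, Complex.mul_im, Complex.add_re, Complex.add_im, Complex.ofReal_re,
      Complex.ofReal_im, Complex.sub_re, Complex.sub_im]
    rw [← hx, ← hy]
    have key : 0 ≤ (b - a) * ((x ^ 2 + y ^ 2) ^ 2 + (x ^ 2 + y ^ 2) * (b + c) * x +
        a * x * (x ^ 2 + y ^ 2 + b * c) + a * b * x ^ 2 + a * c * (x ^ 2 + y ^ 2) +
        b * c * x ^ 2 + b * (c - a) * y ^ 2) := by
      have h1 : 0 ≤ b - a := by linarith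
      have h2 : 0 ≤ c - a := by linarith
      positivity
    refine le_trans key (le_of_eq ?_)
    ring
  have hrot0 : e 0 / 4 ≤ ((q + (e 0 : ℂ)) * X 0).re := by
    have heJ0 := he J le_rfl
    have hn := ne_h _ heJ0 q hq
    have hn0 := ne_h _ he0 q hq
    have h1 : (q + (e 0 : ℂ)) * X 0 = (((e 0 - e J : ℝ) : ℂ)) * (q / (q + (e J : ℂ))) := by
      rw [hX, blk_eq_h _ _ q hn hn0]
      push_cast
      field_simp
    rw [h1, Complex.re_ofReal_mul]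
    have heJs : e J ≤ s := by
      have h3 := hle k hkJ
      have h4 := he k hkJ
      nlinarith
    have h2 : 1 / 2 ≤ (q / (q + (e J : ℂ))).re := by
      have hN := normSq_pos_h _ heJ0 q hq
      rw [Complex.div_re, ← add_div, div_le_div_iff₀ (by norm_num) hN, Complex.normSq_apply]
      simp only [Complex.add_re, Complex.add_im, Complex.ofReal_re, Complex.ofReal_im]
      nlinarith
    have h3 : e 0 / 2 ≤ e 0 - e J := by linarith
    calc e 0 / 4 = (e 0 / 2) * (1 / 2) := by ring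
      _ ≤ (e 0 - e J) * (q / (q + (e J : ℂ))).re :=
          mul_le_mul h3 h2 (by norm_num) (by linarith)
  have hY1b : θ₀ * (e 0 / 4) ≤ (s + e 0) * ‖Y1‖ := by
    have h1 : θ₀ * (e 0 / 4) ≤ ((q + (e 0 : ℂ)) * Y1).re := by
      have h2 : ((q + (e 0 : ℂ)) * Y1).re =
          ∑ j ∈ Finset.range k, dd θ j * ((q + (e 0 : ℂ)) * X j).re := by
        rw [hY1, Finset.mul_sum, Complex.re_sum]
        refine Finset.sum_congr rfl fun j _ => ?_
        rw [← Complex.re_ofReal_mul]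
        congr 1
        ring
      rw [h2]
      have h3 : dd θ 0 * ((q + (e 0 : ℂ)) * X 0).re ≤
          ∑ j ∈ Finset.range k, dd θ j * ((q + (e 0 : ℂ)) * X j).re :=
        Finset.single_le_sum (f := fun j => dd θ j * ((q + (e 0 : ℂ)) * X j).re)
          (fun j hj => by
            have := Finset.mem_range.1 hj
            exact mul_nonneg (hdd j (by omega)) (hrot j (by omega))) (Finset.mem_range.2 (by omega))
      refine le_trans ?_ h3
      have h4 : dd θ 0 = θ 0 := by simp [dd]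
      rw [h4]
      exact mul_le_mul hθ hrot0 (by positivity) hθ00.le
    refine h1.trans ((Complex.re_le_norm _).trans ?_)
    rw [norm_mul]
    refine mul_le_mul_of_nonneg_right ?_ (norm_nonneg _)
    refine (norm_add_le _ _).trans ?_
    rw [Complex.norm_real, Real.norm_of_nonneg he0.le, ← hs]
  have hZY : ‖Z‖ ≤ m * ‖Y1‖ := by
    have hek := he k hkJ
    have h1 : B * (e k * (s + e 0)) ≤ 2 * (e 0 * s) := by
      have a1 : B * e k * s ≤ e 0 * s := mul_le_mul_of_nonneg_right hBk hs0.le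
      have a2 : B * e k * e 0 ≤ s * e 0 := mul_le_mul_of_nonneg_right hBq he0.le
      nlinarith
    have hse : 0 < s + e 0 := by linarith
    have h2 : e k / s ≤ 2 * e 0 / (B * (s + e 0)) := by
      rw [div_le_div_iff₀ hs0 (by positivity)]
      linarith
    have h3 : ‖Z‖ ≤ T * (2 * e 0 / (B * (s + e 0))) :=
      hZb.trans (mul_le_mul_of_nonneg_left h2 hT0.le)
    have h4 : T * (2 * e 0 / (B * (s + e 0))) ≤ m * ‖Y1‖ := by
      rw [mul_div_assoc', div_le_iff₀ (by positivity)]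
      have h5 : m * B * (θ₀ * (e 0 / 4)) ≤ m * B * ((s + e 0) * ‖Y1‖) :=
        mul_le_mul_of_nonneg_left hY1b (by positivity)
      have h6 : 8 * T * (e 0 / 4) ≤ m * θ₀ * B * (e 0 / 4) :=
        mul_le_mul_of_nonneg_right hBm (by positivity)
      nlinarith
    exact h3.trans h4
  rw [hY]
  have hYn : ‖Y1 + Z‖ ≤ (1 + m) * ‖Y1‖ := by
    refine (norm_add_le _ _).trans ?_
    linarith
  have hre : Y1.re ≤ (Y1 + Z).re := by
    rw [Complex.add_re]
    linarith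
  have hY1re : 0 ≤ Y1.re := by
    have : 0 ≤ θ (k - 1) * Y1.re := le_trans (by positivity) hY1D
    exact (mul_nonneg_iff_of_pos_left hθk).1 this
  calc ‖Y1 + Z‖ ^ 2 ≤ ((1 + m) * ‖Y1‖) ^ 2 := pow_le_pow_left₀ (norm_nonneg _) hYn 2
    _ = (1 + m) ^ 2 * ‖Y1‖ ^ 2 := by ring
    _ ≤ (1 + ε) * ‖Y1‖ ^ 2 := by
        refine mul_le_mul_of_nonneg_right ?_ (by positivity)
        nlinarith
    _ ≤ (1 + ε) * (θ (k - 1) * Y1.re) := mul_le_mul_of_nonneg_left hY1D (by positivity)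
    _ ≤ (1 + ε) * (θ (k - 1) * (Y1 + Z).re) := by gcongr
    _ = (1 + ε) * θ (k - 1) * (Y1 + Z).re := by ring

end ProfY

end MeanVal
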