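import Mathlib
import Pool.Agent.Helper772.MV.Defs
import Pool.Agent.Helper772.MV.ProfBasic
import Pool.Agent.Helper772.MV.ProfY
import Pool.Agent.Helper772.MV.ProfArea
import Pool.Agent.Helper772.MV.ProfGrowth

open MeasureTheory Metric Set
open scoped ENNReal Real

namespace MeanVal

theorem e_mono {J : ℕ} {e : ℕ → ℝ} (hdec : ∀ k < J, e (k + 1) ≤ e k) {i j : ℕ} (hij : i ≤ j)
    (hj : j ≤ J) : e j ≤ e i := by
  induction j, hij using Nat.le_induction with
  | base => exact le_rfl
  | succ j hij ih => exact (hdec j (by omega)).trans (ih (by omega))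

/-- area estimate for a profile with a slow first phase, uniform constants -/
theorem profile_package (δ ε : ℝ) (hδ : 0 < δ) (hδ1 : δ ≤ 1) (hε : 0 < ε) (Jm : ℕ) :
    ∃ c : ℝ, 0 < c ∧ c ≤ 1 / 4 ∧ ∀ (J : ℕ) (e θ β : ℕ → ℝ), 1 ≤ J → J ≤ Jm →
      (∀ k ≤ J, 0 < e k) → (∀ k < J, e (k + 1) ≤ e k) → θ 0 = δ →
      (∀ k, k + 1 < J → θ k ≤ θ (k + 1)) → (∀ k < J, θ k ≤ 1) → e 1 ≤ c * e 0 →
      β 0 = 1 → (∀ k < J, β k ≤ β (k + 1)) → (∀ k, 1 ≤ k → k < J → β k ≤ c * lev e θ k) →
      lev e θ J ≤ β J → ∀ R : ℝ,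
      ∫⁻ q in {q : ℂ | 0 < q.re ∧ ‖prof J e θ q‖ < R}, ENNReal.ofReal (‖deriv (prof J e θ) q‖ ^ 2)
        ≤ ENNReal.ofReal (π * (1 + ε) *
          ∑ k ∈ Finset.range J, θ k * (min R (β (k + 1)) ^ 2 - min R (β k) ^ 2)) := by
  obtain ⟨B, hB1, hB⟩ := ProfY.profY_mid δ 1 ε hδ hδ1 hε
  have hB0 : 0 < B := by linarith
  set c : ℝ := min (1 / 4) (min (1 / B) ((B + 1) ^ (-(2 * (Jm : ℝ))))) with hc
  have hcpos : 0 < c := by
    refine lt_min (by norm_num) (lt_min (by positivity) ?_)
    exact Real.rpow_pos_of_pos (by linarith) _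
  have hc4 : c ≤ 1 / 4 := min_le_left _ _
  have hcB : c ≤ 1 / B := (min_le_right _ _).trans (min_le_left _ _)
  have hcp : c ≤ (B + 1) ^ (-(2 * (Jm : ℝ))) := (min_le_right _ _).trans (min_le_right _ _)
  refine ⟨c, hcpos, hc4, ?_⟩
  intro J e θ β hJ hJm he hdec hθ0 hmono hθ1 hslow hβ0 hβ hβc hβJ R
  have hθlow : ∀ k < J, δ ≤ θ k := by
    intro k hk
    induction k with
    | zero => rw [hθ0]
    | succ k ih => exact (ih (by omega)).trans (hmono k hk)
  have hθpos : ∀ k < J, 0 < θ k := fun k hk => hδ.trans_le (hθlow k hk)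
  have hθnn : ∀ k < J, 0 ≤ θ k := fun k hk => (hθpos k hk).le
  have he0 : 0 < e 0 := he 0 (by omega)
  have heJ1 : e J ≤ e 1 := e_mono hdec hJ le_rfl
  have hreJ : ∀ q : ℂ, 0 < q.re → -(e J) < q.re := by
    intro q hq; have := he J le_rfl; linarith
  by_cases hR : 1 ≤ R
  swap
  · have hempty : {q : ℂ | 0 < q.re ∧ ‖prof J e θ q‖ < R} = ∅ := by
      ext q
      simp only [mem_setOf_eq, mem_empty_iff_false, iff_false, not_and, not_lt]
      intro hq
      have := (ProfBasic.prof_bounds J e θ he hθnn hdec q hq.le).1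
      linarith
    rw [hempty]
    simp
  refine ProfArea.prof_area J e θ ε β hε.le hJ he hdec hθpos ?_ ?_ ?_ ?_ hβ0 hβ ?_ ?_ R hR
  · intro q hq
    exact (ProfBasic.prof_hasDerivAt J e θ he hdec q (hreJ q hq)).differentiableAt
  · intro q hq
    exact ProfBasic.prof_deriv_eq J e θ he hdec q hq
  · intro q hq
    have h := ProfBasic.prof_bounds J e θ he hθnn hdec q hq.le
    exact ⟨h.1, h.2.trans hβJ⟩
  · intro η hη
    refine ⟨max (2 * e 0) (4 * e 0 / η) + 1, fun q hq hqS => ?_⟩
    have h1 : 2 * e 0 ≤ ‖q‖ := by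
      have := le_max_left (2 * e 0) (4 * e 0 / η); linarith
    have h2 : 4 * e 0 / η ≤ ‖q‖ := by
      have := le_max_right (2 * e 0) (4 * e 0 / η); linarith
    have hq0 : q ≠ 0 := by
      intro h; rw [h] at hq; simp at hq
    have hqn : 0 < ‖q‖ := norm_pos_iff.2 hq0
    have h3 := (ProfBasic.prof_far J e θ he hθnn hdec 1 hθ1 zero_le_one q hq.le hq0 (by linarith)).1
    have h4 : 4 * 1 * e 0 / ‖q‖ ≤ η := by
      rw [div_le_iff₀ hη] at h2
      rw [div_le_iff₀ hqn]; linarith
    have h5 : ‖prof J e θ q‖ ≤ ‖prof J e θ q - 1‖ + 1 := by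
      have := norm_add_le (prof J e θ q - 1) 1
      simpa using this
    linarith
  · intro k hk q hq hcase
    rcases Nat.lt_or_ge (k + 1) J with hk1 | hk1
    · rcases hcase with hcase | hcase
      swap
      · omega
      have hlow : B * e (k + 1) ≤ ‖q‖ := by
        by_contra hcon
        push Not at hcon
        have h1 := ProfBasic.prof_lower J e θ he hθnn hdec B hB0.le (k + 1) hk1.le q hq.le hcon.le
        have hlevpos : 0 < lev e θ (k + 1) := by
          unfold lev
          apply Finset.prod_pos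
          intro j hj
          have hj' := Finset.mem_range.1 hj
          exact Real.rpow_pos_of_pos (div_pos (he j (by omega)) (he (j + 1) (by omega))) _
        have h2 : c * lev e θ (k + 1) ≤
            (B + 1) ^ (-(2 * ∑ j ∈ Finset.range (k + 1), θ j)) * lev e θ (k + 1) := by
          apply mul_le_mul_of_nonneg_right _ hlevpos.le
          refine hcp.trans ?_
          apply Real.rpow_le_rpow_of_exponent_le (by linarith)
          have h3 : ∑ j ∈ Finset.range (k + 1), θ j ≤ ∑ j ∈ Finset.range (k + 1), (1:ℝ) :=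
            Finset.sum_le_sum fun j hj => hθ1 j (by have := Finset.mem_range.1 hj; omega)
          simp only [Finset.sum_const, Finset.card_range, nsmul_eq_mul, mul_one] at h3
          have h4 : ((k + 1 : ℕ) : ℝ) ≤ Jm := by exact_mod_cast (by omega : k + 1 ≤ Jm)
          linarith
        have h5 := hβc (k + 1) (by omega) hk1
        linarith
      have h6 := hB J e θ (k + 1) (by omega) hk1.le he (by rw [hθ0]) hmono hθ1 hdec
        (by
          have : c * e 0 ≤ 1 / 4 * e 0 := mul_le_mul_of_nonneg_right hc4 he0.le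
          linarith)
        (by
          have h7 : e (k + 1) ≤ e 1 := e_mono hdec (by omega) (by omega)
          have h8 : c * e 0 ≤ 1 / B * e 0 := mul_le_mul_of_nonneg_right hcB he0.le
          have h9 : e (k + 1) ≤ 1 / B * e 0 := by linarith
          calc B * e (k + 1) ≤ B * (1 / B * e 0) := mul_le_mul_of_nonneg_left h9 hB0.le
            _ = e 0 := by field_simp) q hq hlow
      simpa using h6
    · have hkJ : k = J - 1 := by omega
      have h1 := ProfY.profY_last J e θ hJ he (by rw [hθ0]; exact hδ) hmono hdec q hq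
      rw [hkJ]
      have h2 : 0 ≤ θ (J - 1) * (profY J e θ q).re := (sq_nonneg _).trans h1
      nlinarith
  · intro q hq
    refine ProfGrowth.profY_re_pos J e θ hJ he hθpos hdec ?_ q hq
    have : c * e 0 ≤ 1 / 4 * e 0 := mul_le_mul_of_nonneg_right hc4 he0.le
    linarith

end MeanVal
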