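import Mathlib
import Pool.Agent.Helper772.MV.Defs
import Pool.Agent.Helper772.MV.Package
import Pool.Agent.Helper772.MV.AreaAsm
import Pool.Agent.Helper772.MV.Osc
import Pool.Agent.Helper772.MV.HankelDFT
import Pool.Agent.Helper772.MV.Kern

open MeasureTheory Metric Set
open scoped ENNReal Real

namespace MeanVal

/-- scales -/
noncomputable def scl (d a : ℝ) (x : ℕ → ℝ) (N : ℝ) : ℕ → ℝ
  | 0 => d
  | k + 1 => d * a * N ^ (-(∑ i ∈ Finset.range k, x i))

/-- rates with the slow phase in front -/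
def rat (δ : ℝ) (θ : ℕ → ℝ) : ℕ → ℝ
  | 0 => δ
  | k + 1 => θ k

theorem scl_pos {d a : ℝ} {x : ℕ → ℝ} {N : ℝ} (hd : 0 < d) (ha : 0 < a) (hN : 1 ≤ N) (k : ℕ) :
    0 < scl d a x N k := by
  cases k with
  | zero => exact hd
  | succ k =>
    exact mul_pos (mul_pos hd ha) (Real.rpow_pos_of_pos (by linarith) _)

theorem scl_dec {d a : ℝ} {x : ℕ → ℝ} {N : ℝ} (hd : 0 < d) (ha : 0 < a) (ha1 : a ≤ 1) (hN : 1 ≤ N)
    (k : ℕ) (hx : ∀ i < k, 0 ≤ x i) : scl d a x N (k + 1) ≤ scl d a x N k := by
  cases k with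
  | zero =>
    simp only [scl, Finset.range_zero, Finset.sum_empty, neg_zero, Real.rpow_zero, mul_one]
    nlinarith
  | succ k =>
    simp only [scl]
    apply mul_le_mul_of_nonneg_left _ (by positivity)
    apply Real.rpow_le_rpow_of_exponent_le hN
    rw [Finset.sum_range_succ]
    have := hx k (by omega)
    linarith

theorem scl_one {d a : ℝ} {x : ℕ → ℝ} {N : ℝ} : scl d a x N 1 = d * a := by
  simp [scl]

theorem lev_scl {d a δ : ℝ} {x θ h : ℕ → ℝ} {N : ℝ} (hd : 0 < d) (ha : 0 < a) (hN : 1 ≤ N)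
    (k : ℕ) (hx : ∀ i < k, 2 * θ i * x i = h i) :
    lev (scl d a x N) (rat δ θ) (k + 1) = (1 / a) ^ (2 * δ) * N ^ (∑ i ∈ Finset.range k, h i) := by
  have hN0 : 0 < N := by linarith
  induction k with
  | zero =>
    simp only [lev, Finset.prod_range_one, rat, Finset.range_zero, Finset.sum_empty,
      Real.rpow_zero, mul_one, scl_one]
    congr 1
    simp only [scl]
    simp
    field_simp
  | succ k ih =>
    have ih' := ih (fun i hi => hx i (by omega))
    unfold lev at ih' ⊢
    rw [Finset.prod_range_succ, ih', mul_assoc, Finset.sum_range_succ, Real.rpow_add hN0]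
    congr 2
    simp only [scl, rat]
    rw [Finset.sum_range_succ]
    have h1 : d * a * N ^ (-(∑ i ∈ Finset.range k, x i)) /
        (d * a * N ^ (-(∑ i ∈ Finset.range k, x i + x k))) = N ^ (x k) := by
      rw [mul_div_mul_left _ _ (by positivity), ← Real.rpow_sub hN0]
      congr 1
      ring
    rw [h1, ← Real.rpow_mul hN0.le]
    congr 1
    have := hx k (by omega)
    linarith

end MeanVal
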