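import Mathlib
import Pool.Agent.Helper772.MV.Defs
import Pool.Agent.Helper772.MV.Step1
import Pool.Agent.Helper772.MV.NumTotal

open MeasureTheory Metric Set
open scoped ENNReal Real

namespace MeanVal

/-- thresholds -/
noncomputable def bet (C : ℝ) (h : ℕ → ℝ) (N : ℝ) : ℕ → ℝ
  | 0 => 1
  | k + 1 => C * N ^ (∑ i ∈ Finset.range k, h i)

theorem bet_mono {C N : ℝ} {h : ℕ → ℝ} (hC : 1 ≤ C) (hN : 1 ≤ N) (hh : ∀ j, 0 < h j) (k : ℕ) :
    bet C h N k ≤ bet C h N (k + 1) := by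
  cases k with
  | zero => simpa [bet] using hC
  | succ k =>
    simp only [bet]
    apply mul_le_mul_of_nonneg_left _ (by linarith)
    apply Real.rpow_le_rpow_of_exponent_le hN
    rw [Finset.sum_range_succ]
    have := hh k
    linarith

theorem bet_pos {C N : ℝ} {h : ℕ → ℝ} (hC : 0 < C) (hN : 1 ≤ N) (k : ℕ) :
    0 < bet C h N k := by
  cases k with
  | zero => simp [bet]
  | succ k =>
    simp only [bet]
    exact mul_pos hC (Real.rpow_pos_of_pos (by linarith) _)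

theorem area_final (m Jm : ℕ) (J : ℕ → ℕ) (θ : ℕ → ℕ → ℝ) (q p₁ p₂ δ ε₁ M₀ C N : ℝ) (h : ℕ → ℝ)
    (f g : ℂ → ℂ) (W : ℕ → ℝ) (hJ : ∀ l ≤ m, J l ≤ Jm) (hq0 : 0 ≤ q) (hq : q ≤ p₁) (hδ0 : 0 ≤ δ)
    (hδε : δ ≤ ε₁) (hε₁ : 0 < ε₁) (hh : ∀ j, 0 < h j) (hN : 1 ≤ N)
    (hθ : ∀ l ≤ m, ∀ j < J l, 0 ≤ θ l j)
    (hsum : ∀ j, ∑ l ∈ Finset.range (m + 1), (if j < J l then θ l j else 0) ≤ q)
    (hM0 : 0 < M₀) (hC : M₀ ≤ C) (hW0 : ∀ l ≤ m, 0 < W l) (hWM : ∀ l ≤ m, W l ≤ M₀)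
    (hp : (1 + ε₁) ^ 4 * (p₁ + (m + 1) * ε₁) + ε₁ / π ≤ p₂)
    (hfM : ∀ z : ℂ, ‖z‖ < 1 → ‖f z‖ < M₀) (hfab : AreaBound p₁ f)
    (hgd : DifferentiableOn ℂ g (ball 0 1))
    (hfin : ∀ R : ℝ, 0 < R → ∫⁻ z in ball (0:ℂ) 1 ∩ g ⁻¹' ball (0:ℂ) R, ‖deriv g z‖ₑ ^ 2 ≤
        ENNReal.ofReal (1 + ε₁) *
          ((∫⁻ z in ball (0:ℂ) 1 ∩ f ⁻¹' ball (0:ℂ) ((1 + ε₁) * R), ‖deriv f z‖ₑ ^ 2) +
            ∑ l ∈ Finset.range (m + 1), ENNReal.ofReal (W l ^ 2) *
              ENNReal.ofReal (π * (1 + ε₁) * ∑ k ∈ Finset.range (J l + 1), rat δ (θ l) k *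
                (min ((1 + ε₁) * R / W l) (bet (C / W l) h N (k + 1)) ^ 2 -
                  min ((1 + ε₁) * R / W l) (bet (C / W l) h N k) ^ 2))) +
          ENNReal.ofReal (ε₁ * R ^ 2)) :
    AreaBound p₂ g := by
  refine ⟨hgd, fun R hR => (hfin R hR).trans ?_⟩
  have hpi := Real.pi_pos
  set R' : ℝ := (1 + ε₁) * R with hR'
  have hR'0 : 0 < R' := by positivity
  -- f part
  have hp₁0 : 0 ≤ p₁ := hq0.trans hq
  have hfpart : ∫⁻ z in ball (0:ℂ) 1 ∩ f ⁻¹' ball (0:ℂ) R', ‖deriv f z‖ₑ ^ 2 ≤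
      ENNReal.ofReal (π * (p₁ * min R' M₀ ^ 2)) := by
    rcases le_total R' M₀ with h1 | h1
    · rw [min_eq_left h1]
      have := hfab.2 R' hR'0
      rwa [mul_assoc] at this
    · rw [min_eq_right h1]
      have h2 := hfab.2 M₀ hM0
      rw [mul_assoc] at h2
      refine le_trans (lintegral_mono_set ?_) h2
      intro z hz
      refine ⟨hz.1, ?_⟩
      simp only [mem_preimage, mem_ball, dist_zero_right]
      exact hfM z (by simpa using hz.1)
  set S : ℕ → ℝ := fun l => ∑ k ∈ Finset.range (J l + 1), rat δ (θ l) k *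
                (min (R' / W l) (bet (C / W l) h N (k + 1)) ^ 2 -
                  min (R' / W l) (bet (C / W l) h N k) ^ 2) with hS
  have hS0 : ∀ l ≤ m, 0 ≤ S l := by
    intro l hl
    apply Finset.sum_nonneg
    intro k hk
    have hk' := Finset.mem_range.1 hk
    apply mul_nonneg
    · cases k with
      | zero => exact hδ0
      | succ k => exact hθ l hl k (by omega)
    · rw [sub_nonneg]
      have hCW : 1 ≤ C / W l := by
        rw [le_div_iff₀ (hW0 l hl)]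
        linarith [hWM l hl]
      apply pow_le_pow_left₀
      · exact le_min (div_nonneg hR'0.le (hW0 l hl).le) (bet_pos (by linarith) hN k).le
      · exact min_le_min_left _ (bet_mono hCW hN hh k)
  have hnum := NumTotal.numeric_total m Jm J θ q p₁ δ ε₁ M₀ W (bet C h N) R' hJ hq0 hq hδ0 hε₁.le
    hR'0 hθ (fun j _ => hsum j)
    (by
      intro k hk
      obtain ⟨k', rfl⟩ : ∃ k', k = k' + 1 := ⟨k - 1, by omega⟩
      simp only [bet]
      apply mul_le_mul_of_nonneg_left _ (by linarith)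
      apply Real.rpow_le_rpow_of_exponent_le hN
      rw [Finset.sum_range_succ]
      have := hh k'
      linarith) hM0 (by simpa [bet] using hC) hW0
    (by
      intro l hl
      simp only [bet, Finset.range_zero, Finset.sum_empty, Real.rpow_zero, mul_one]
      linarith [hWM l hl])
  have hSeq : ∀ l ≤ m, S l = δ * (min (R' / W l) (bet C h N 1 / W l) ^ 2 - min (R' / W l) 1 ^ 2) +
        ∑ j ∈ Finset.range (J l), θ l j *
          (min (R' / W l) (bet C h N (j + 2) / W l) ^ 2 -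
            min (R' / W l) (bet C h N (j + 1) / W l) ^ 2) := by
    intro l hl
    have hb : ∀ k, bet (C / W l) h N (k + 1) = bet C h N (k + 1) / W l := by
      intro k
      simp only [bet]
      ring
    simp only [hS]
    rw [Finset.sum_range_succ']
    rw [add_comm]
    congr 1
    · simp only [rat, hb]
      simp only [bet]
    · apply Finset.sum_congr rfl
      intro k _
      simp only [rat, hb]
  have hsumR : ∑ l ∈ Finset.range (m + 1), ENNReal.ofReal (W l ^ 2) *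
              ENNReal.ofReal (π * (1 + ε₁) * S l) =
      ENNReal.ofReal (π * ∑ l ∈ Finset.range (m + 1), W l ^ 2 * ((1 + ε₁) * S l)) := by
    rw [Finset.mul_sum, ENNReal.ofReal_sum_of_nonneg]
    · apply Finset.sum_congr rfl
      intro l hl
      rw [← ENNReal.ofReal_mul (by positivity)]
      congr 1
      ring
    · intro l hl
      have := hS0 l (by have := Finset.mem_range.1 hl; omega)
      positivity
  have hT0 : 0 ≤ ∑ l ∈ Finset.range (m + 1), W l ^ 2 * ((1 + ε₁) * S l) := by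
    apply Finset.sum_nonneg
    intro l hl
    have := hS0 l (by have := Finset.mem_range.1 hl; omega)
    positivity
  have hnum' : p₁ * min R' M₀ ^ 2 + ∑ l ∈ Finset.range (m + 1), W l ^ 2 * ((1 + ε₁) * S l) ≤
      (1 + ε₁) * (p₁ + (m + 1) * δ) * R' ^ 2 := by
    refine le_trans (le_of_eq ?_) hnum
    congr 1
    apply Finset.sum_congr rfl
    intro l hl
    rw [hSeq l (by have := Finset.mem_range.1 hl; omega)]
  calc _ ≤ ENNReal.ofReal (1 + ε₁) * (ENNReal.ofReal (π * (p₁ * min R' M₀ ^ 2)) +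
        ENNReal.ofReal (π * ∑ l ∈ Finset.range (m + 1), W l ^ 2 * ((1 + ε₁) * S l))) +
        ENNReal.ofReal (ε₁ * R ^ 2) := by
        rw [← hsumR]
        gcongr
    _ = ENNReal.ofReal ((1 + ε₁) * (π * (p₁ * min R' M₀ ^ 2 +
        ∑ l ∈ Finset.range (m + 1), W l ^ 2 * ((1 + ε₁) * S l))) + ε₁ * R ^ 2) := by
        rw [← ENNReal.ofReal_add (by positivity) (by positivity),
          ← ENNReal.ofReal_mul (by positivity), ← ENNReal.ofReal_add (by positivity) (by positivity)]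
        congr 1
        ring
    _ ≤ ENNReal.ofReal (π * p₂ * R ^ 2) := by
        apply ENNReal.ofReal_le_ofReal
        have h1 : (1 + ε₁) * (π * (p₁ * min R' M₀ ^ 2 +
            ∑ l ∈ Finset.range (m + 1), W l ^ 2 * ((1 + ε₁) * S l))) ≤
            (1 + ε₁) * (π * ((1 + ε₁) * (p₁ + (m + 1) * δ) * R' ^ 2)) := by
          gcongr
        have h2 : (1 + ε₁) * (π * ((1 + ε₁) * (p₁ + (m + 1) * δ) * R' ^ 2)) ≤
            π * ((1 + ε₁) ^ 4 * (p₁ + (m + 1) * ε₁)) * R ^ 2 := by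
          have : (1 + ε₁) * (π * ((1 + ε₁) * (p₁ + (m + 1) * δ) * R' ^ 2)) =
              π * ((1 + ε₁) ^ 4 * (p₁ + (m + 1) * δ)) * R ^ 2 := by
            rw [hR']; ring
          rw [this]
          gcongr
        have h3 : π * ((1 + ε₁) ^ 4 * (p₁ + (m + 1) * ε₁)) * R ^ 2 + ε₁ * R ^ 2 =
            π * ((1 + ε₁) ^ 4 * (p₁ + (m + 1) * ε₁) + ε₁ / π) * R ^ 2 := by
          field_simp
        have h4 : π * ((1 + ε₁) ^ 4 * (p₁ + (m + 1) * ε₁) + ε₁ / π) * R ^ 2 ≤ π * p₂ * R ^ 2 := by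
          gcongr
        linarith

end MeanVal
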