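import Mathlib
import Pool.Agent.Helper772.MV.Defs

open MeasureTheory Metric Set
open scoped ENNReal Real

namespace MeanVal

namespace CarCoeff




theorem exp_pow_aux (η : ℝ) (h0 : 0 < η) (h1 : η ≤ 1) (N : ℕ) :
    1 / (1 + η / 2) ^ N ≤ Real.exp (-(N * η / 4)) := by
  have h2 : 1 - η / 4 ≤ Real.exp (-(η / 4)) := Real.one_sub_le_exp_neg _
  have h3 : 1 ≤ (1 + η / 2) * Real.exp (-(η / 4)) := by
    have h4 : (1 + η / 2) * (1 - η / 4) ≤ (1 + η / 2) * Real.exp (-(η / 4)) :=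
      mul_le_mul_of_nonneg_left h2 (by linarith)
    nlinarith
  have h5 : 1 / (1 + η / 2) ≤ Real.exp (-(η / 4)) := by
    rw [div_le_iff₀ (by linarith)]
    linarith
  have h6 : (1 / (1 + η / 2)) ^ N ≤ (Real.exp (-(η / 4))) ^ N :=
    pow_le_pow_left₀ (by positivity) h5 N
  rw [← Real.exp_nat_mul] at h6
  rw [one_div_pow] at h6
  refine h6.trans (le_of_eq ?_)
  congr 1
  ring

theorem car_coeff (m : ℕ) (f : ℂ → ℂ) (ρf : ℝ) (hρf : 1 < ρf)
    (hf : DifferentiableOn ℂ f (ball (0:ℂ) ρf)) :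
    ∃ A : ℝ, 0 ≤ A ∧ ∀ (H : ℕ → ℂ → ℂ) (ζ : ℕ → ℂ) (η G : ℝ), 0 < η → η ≤ 1 →
      η ≤ (ρf - 1) / 2 → 1 ≤ G → (∀ l ≤ m, ‖ζ l‖ = 1) →
      (∀ l ≤ m, ∀ q : ℂ, -η < q.re → DifferentiableAt ℂ (H l) q) →
      (∀ l ≤ m, ∀ q : ℂ, -η / 2 ≤ q.re → ‖q‖ ≤ 3 → ‖H l q‖ ≤ G) →
      ∀ N : ℕ, ‖coeff (fun z => f z * ∏ l ∈ Finset.range (m + 1),
          H l (1 - (starRingEnd ℂ) (ζ l) * z)) N‖ ≤ A * G ^ (m + 1) * Real.exp (-(N * η / 4)) := by
  have hcomp : IsCompact (closedBall (0:ℂ) (1 + (ρf - 1) / 4)) := isCompact_closedBall _ _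
  have hsub : closedBall (0:ℂ) (1 + (ρf - 1) / 4) ⊆ ball (0:ℂ) ρf :=
    closedBall_subset_ball (by linarith)
  obtain ⟨B, hB⟩ := hcomp.exists_bound_of_continuousOn (hf.continuousOn.mono hsub)
  refine ⟨max B 0, le_max_right _ _, ?_⟩
  intro H ζ η G hη0 hη1 hηρ hG hζ hH hHb N
  set ρ : ℝ := 1 + η / 2 with hρ
  have hρpos : 0 < ρ := by rw [hρ]; linarith
  have hρle : ρ ≤ 1 + (ρf - 1) / 4 := by rw [hρ]; linarith
  have hcz : ∀ l ≤ m, ∀ z : ℂ, ‖z‖ ≤ ρ → ‖(starRingEnd ℂ) (ζ l) * z‖ ≤ ρ := by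
    intro l hl z hz
    rw [norm_mul, RCLike.norm_conj, hζ l hl, one_mul]
    exact hz
  have hq : ∀ l ≤ m, ∀ z : ℂ, ‖z‖ ≤ ρ → -η / 2 ≤ (1 - (starRingEnd ℂ) (ζ l) * z).re := by
    intro l hl z hz
    have h1 := (Complex.re_le_norm ((starRingEnd ℂ) (ζ l) * z)).trans (hcz l hl z hz)
    rw [Complex.sub_re, Complex.one_re]
    rw [hρ] at h1
    linarith
  have hq3 : ∀ l ≤ m, ∀ z : ℂ, ‖z‖ ≤ ρ → ‖1 - (starRingEnd ℂ) (ζ l) * z‖ ≤ 3 := by
    intro l hl z hz
    have h1 := norm_sub_le (1 : ℂ) ((starRingEnd ℂ) (ζ l) * z)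
    have h2 := hcz l hl z hz
    rw [norm_one] at h1
    rw [hρ] at h2
    linarith
  have hdiff : ∀ z ∈ closedBall (0:ℂ) ρ, DifferentiableAt ℂ (fun z => f z * ∏ l ∈ Finset.range (m + 1),
          H l (1 - (starRingEnd ℂ) (ζ l) * z)) z := by
    intro z hz
    have hz' : ‖z‖ ≤ ρ := by simpa using hz
    refine DifferentiableAt.mul ?_ ?_
    · exact hf.differentiableAt (isOpen_ball.mem_nhds (hsub (closedBall_subset_closedBall hρle hz)))
    · have : DifferentiableAt ℂ (∏ l ∈ Finset.range (m + 1),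
          (fun z => H l (1 - (starRingEnd ℂ) (ζ l) * z))) z := by
        refine DifferentiableAt.finsetProd ?_
        intro l hl
        have hl' : l ≤ m := Nat.lt_succ_iff.1 (Finset.mem_range.1 hl)
        have h1 : DifferentiableAt ℂ (H l) (1 - (starRingEnd ℂ) (ζ l) * z) :=
          hH l hl' _ (by have := hq l hl' z hz'; linarith)
        have h2 : DifferentiableAt ℂ (fun z : ℂ => 1 - (starRingEnd ℂ) (ζ l) * z) z := by fun_prop
        exact h1.comp z h2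
      have h3 : (fun z => ∏ l ∈ Finset.range (m + 1), H l (1 - (starRingEnd ℂ) (ζ l) * z)) =
          (∏ l ∈ Finset.range (m + 1), (fun z => H l (1 - (starRingEnd ℂ) (ζ l) * z))) := by
        funext w
        rw [Finset.prod_apply]
      rw [h3]
      exact this
  have hdc : DiffContOnCl ℂ (fun z => f z * ∏ l ∈ Finset.range (m + 1),
          H l (1 - (starRingEnd ℂ) (ζ l) * z)) (ball (0:ℂ) ρ) := by
    refine DifferentiableOn.diffContOnCl ?_
    intro z hz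
    exact (hdiff z (closure_ball_subset_closedBall hz)).differentiableWithinAt
  have hbd : ∀ z ∈ sphere (0:ℂ) ρ, ‖f z * ∏ l ∈ Finset.range (m + 1),
          H l (1 - (starRingEnd ℂ) (ζ l) * z)‖ ≤ max B 0 * G ^ (m + 1) := by
    intro z hz
    have hz1 : ‖z‖ = ρ := by simpa using hz
    have hz2 : ‖z‖ ≤ ρ := hz1.le
    rw [norm_mul]
    have h1 : ‖f z‖ ≤ max B 0 := by
      refine (hB z ?_).trans (le_max_left _ _)
      rw [mem_closedBall, dist_zero_right]
      linarith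
    have h2 : ‖∏ l ∈ Finset.range (m + 1), H l (1 - (starRingEnd ℂ) (ζ l) * z)‖ ≤ G ^ (m + 1) := by
      rw [norm_prod]
      calc ∏ l ∈ Finset.range (m + 1), ‖H l (1 - (starRingEnd ℂ) (ζ l) * z)‖
          ≤ ∏ _l ∈ Finset.range (m + 1), G := by
            refine Finset.prod_le_prod (fun _ _ => norm_nonneg _) ?_
            intro l hl
            have hl' : l ≤ m := Nat.lt_succ_iff.1 (Finset.mem_range.1 hl)
            exact hHb l hl' _ (hq l hl' z hz2) (hq3 l hl' z hz2)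
        _ = G ^ (m + 1) := by rw [Finset.prod_const, Finset.card_range]
    exact mul_le_mul h1 h2 (norm_nonneg _) (le_max_right _ _)
  have hmain := Complex.norm_iteratedDeriv_le_of_forall_mem_sphere_norm_le N hρpos hdc hbd
  unfold coeff
  rw [norm_div, Complex.norm_natCast, div_le_iff₀ (by positivity)]
  refine hmain.trans ?_
  have h9 := exp_pow_aux η hη0 hη1 N
  have h10 : (0:ℝ) ≤ max B 0 * G ^ (m + 1) := mul_nonneg (le_max_right _ _) (by positivity)
  calc (N.factorial : ℝ) * (max B 0 * G ^ (m + 1)) / ρ ^ N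
      = (max B 0 * G ^ (m + 1)) * (1 / ρ ^ N) * N.factorial := by ring
    _ ≤ (max B 0 * G ^ (m + 1)) * Real.exp (-(N * η / 4)) * N.factorial := by
      gcongr

theorem coeff_poly (P : Polynomial ℂ) (n : ℕ) : coeff (fun z => P.eval z) n = P.coeff n := by
  have h : ∀ k : ℕ, iteratedDeriv k (fun z : ℂ => P.eval z) =
      fun z => (Polynomial.derivative^[k] P).eval z := by
    intro k
    induction k with
    | zero => simp
    | succ k ih =>
      rw [iteratedDeriv_succ, ih]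
      ext z
      rw [Polynomial.deriv, Function.iterate_succ_apply']
  unfold coeff
  rw [h n]
  simp only
  rw [← Polynomial.coeff_zero_eq_eval_zero, Polynomial.coeff_iterate_derivative, zero_add,
    Nat.descFactorial_self, nsmul_eq_mul]
  have hfac : (n.factorial : ℂ) ≠ 0 := by exact_mod_cast n.factorial_ne_zero
  rw [mul_div_cancel_left₀ _ hfac]

theorem osc_coeff (m L M n : ℕ) (hL : 1 ≤ L) (hm : 2 * m + 1 ≤ L) (hn : M + 2 * L = n)
    (ζ : ℂ) (hζ : ‖ζ‖ = 1) (X : ℝ)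
    (hk : ∃ κ : ℕ → ℂ, (∀ z : ℂ, kern L z = ∑ s ∈ Finset.range (5 * L), κ s * z ^ s) ∧
      ∀ s : ℕ, 2 * L - 2 ≤ s → s ≤ 3 * L - 1 → κ s = 1 / (L : ℂ)) (s : ℕ) (hs : s ≤ 2 * m) :
    coeff (fun z : ℂ => (X : ℂ) * L * z ^ M * kern L ((starRingEnd ℂ) ζ * z)) (n + s) =
      X * (starRingEnd ℂ) ζ ^ (2 * L + s) := by
  obtain ⟨κ, hκ1, hκ2⟩ := hk
  set P : Polynomial ℂ := ∑ j ∈ Finset.range (5 * L),
    Polynomial.monomial (M + j) ((X : ℂ) * L * κ j * (starRingEnd ℂ) ζ ^ j) with hP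
  have h1 : (fun z : ℂ => (X : ℂ) * L * z ^ M * kern L ((starRingEnd ℂ) ζ * z)) =
      fun z => P.eval z := by
    ext z
    rw [hκ1, hP, Polynomial.eval_finsetSum, Finset.mul_sum]
    refine Finset.sum_congr rfl fun j _ => ?_
    rw [Polynomial.eval_monomial, mul_pow, pow_add]
    ring
  rw [h1, coeff_poly, hP, Polynomial.finsetSum_coeff]
  rw [Finset.sum_eq_single (2 * L + s)]
  · rw [Polynomial.coeff_monomial, if_pos (by omega), hκ2 _ (by omega) (by omega)]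
    have hL' : (L : ℂ) ≠ 0 := by
      exact_mod_cast (by omega : L ≠ 0)
    field_simp
  · intro j _ hj
    rw [Polynomial.coeff_monomial, if_neg (by omega)]
  · intro hj
    exfalso
    apply hj
    rw [Finset.mem_range]
    omega

end CarCoeff

end MeanVal
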