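import Mathlib
import Pool.Agent.Helper772.MV.Defs

open MeasureTheory Metric Set
open scoped ENNReal Real

namespace MeanVal

namespace Cert


theorem cert_aux (p : ℝ) (hp : 0 < p) (N : ℕ) : ∀ (lam σ u : Fin N → ℝ), (∀ i, 0 ≤ u i) →
    Monotone u →
    (∀ j, (∑ i, if j ≤ i then lam i else 0) ≤ (∑ i, if j ≤ i then σ i else 0) ^ 2 / (2 * p)) →
    ∑ i, lam i * u i ≤ (∑ i, ∑ j, σ i * σ j * min (u i) (u j)) / (2 * p) := by
  induction N with
  | zero => intro lam σ u _ _ _; simp
  | succ N ih =>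
    intro lam σ u hu hm ht
    have h0 := ht 0
    simp only [Fin.zero_le, if_true] at h0
    have hIH := ih (fun i => lam i.succ) (fun i => σ i.succ) (fun i => u i.succ - u 0)
      (fun i => sub_nonneg.mpr (hm (Fin.zero_le _)))
      (fun i j hij => sub_le_sub_right (hm (Fin.succ_le_succ_iff.mpr hij)) _) (fun j => by
        have h := ht j.succ
        rw [Fin.sum_univ_succ, Fin.sum_univ_succ] at h
        have hz : ¬ (j.succ ≤ 0) := by
          rw [Fin.le_zero_iff]
          exact Fin.succ_ne_zero j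
        simp only [hz, if_false, zero_add, Fin.succ_le_succ_iff] at h
        exact h)
    have hQ : ∑ i, ∑ j, σ i * σ j * min (u i) (u j) = (∑ i, σ i) ^ 2 * u 0 +
        ∑ i : Fin N, ∑ j : Fin N, σ i.succ * σ j.succ * min (u i.succ - u 0) (u j.succ - u 0) := by
      have e1 : ∀ i j : Fin (N + 1), σ i * σ j * min (u i) (u j) =
          σ i * σ j * u 0 + σ i * σ j * min (u i - u 0) (u j - u 0) := by
        intro i j
        rw [min_sub_sub_right]
        ring
      simp_rw [e1, Finset.sum_add_distrib]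
      congr 1
      · rw [sq, Finset.sum_mul_sum, Finset.sum_mul]
        apply Finset.sum_congr rfl
        intro i _
        rw [Finset.sum_mul]
      · rw [Fin.sum_univ_succ]
        have h1 : ∑ j, σ 0 * σ j * min (u 0 - u 0) (u j - u 0) = 0 :=
          Finset.sum_eq_zero (fun j _ => by
            rw [sub_self, min_eq_left (sub_nonneg.mpr (hm (Fin.zero_le j)))]
            ring)
        rw [h1, zero_add]
        apply Finset.sum_congr rfl
        intro i _
        rw [Fin.sum_univ_succ, sub_self,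
          min_eq_right (sub_nonneg.mpr (hm (Fin.zero_le i.succ)))]
        ring
    have hL : ∑ i, lam i * u i = (∑ i, lam i) * u 0 +
        ∑ i : Fin N, lam i.succ * (u i.succ - u 0) := by
      have e1 : ∀ i : Fin (N + 1), lam i * u i = lam i * u 0 + lam i * (u i - u 0) := by
        intro i
        ring
      simp_rw [e1]
      rw [Finset.sum_add_distrib, ← Finset.sum_mul]
      congr 1
      rw [Fin.sum_univ_succ, sub_self, mul_zero, zero_add]
    rw [hL, hQ, add_div]
    have h2 : (∑ i, lam i) * u 0 ≤ (∑ i, σ i) ^ 2 * u 0 / (2 * p) := by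
      calc (∑ i, lam i) * u 0 ≤ ((∑ i, σ i) ^ 2 / (2 * p)) * u 0 :=
            mul_le_mul_of_nonneg_right h0 (hu 0)
        _ = (∑ i, σ i) ^ 2 * u 0 / (2 * p) := by ring
    exact add_le_add h2 hIH

theorem cert_ineq (N : ℕ) (p κ t V C₁ C₂ : ℝ) (hp : 0 < p) (hκ : κ ≤ 1)
    (lam μ σ : Fin N → ℝ) (hlam : ∀ i, 0 ≤ lam i) (hlam1 : ∑ i, lam i = 1)
    (hμ : ∀ i, 0 ≤ μ i) (hσ : ∀ i, 0 ≤ σ i) (hsq : ∀ i, σ i ^ 2 = lam i / 2 + μ i)
    (htail : ∀ j, ∑ i ∈ Finset.univ.filter (fun i => j ≤ i), lam i ≤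
      (∑ i ∈ Finset.univ.filter (fun i => j ≤ i), σ i) ^ 2 / (2 * p))
    (hpair : ∀ i k, i ≠ k → 2 * σ i * σ k ≤ lam i + lam k)
    (u τ : Fin N → ℝ) (s : Fin N → Fin N → ℝ) (hu0 : ∀ i, 0 ≤ u i) (hmono : Monotone u)
    (hsymm : ∀ i k, s i k = s k i) (hslow : ∀ i k, - Real.log 2 ≤ s i k)
    (hdiag : ∀ i, s i i = τ i) (hτt : ∀ i, τ i ≤ t)
    (h1 : ∀ i, V + ∑ k ∈ Finset.univ.erase i, s i k - C₁ ≤ u i - τ i / 2)
    (h2 : κ * ∑ i, ∑ j, σ i * σ j * min (u i) (u j) ≤
      2 * p * (∑ i, ∑ j, σ i * σ j * s i j) + C₂) :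
    V ≤ (∑ i, μ i) * t + (1 - κ) * (∑ i, ∑ j, σ i * σ j * min (u i) (u j)) / (2 * p)
      + C₁ + C₂ / (2 * p) + 2 * (N : ℝ) ^ 2 := by
  have hA := cert_aux p hp N lam σ u hu0 hmono (fun j => by
    rw [← Finset.sum_filter, ← Finset.sum_filter]
    exact htail j)
  set Q := ∑ i, ∑ j, σ i * σ j * min (u i) (u j) with hQ
  set T := ∑ i, ∑ j, σ i * σ j * s i j with hT
  have hlamle : ∀ i, lam i ≤ 1 := by
    intro i
    rw [← hlam1]
    exact Finset.single_le_sum (fun j _ => hlam j) (Finset.mem_univ i)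
  -- step 2
  have hB : V + ∑ i, lam i * (∑ k, s i k - τ i) - C₁ ≤
      ∑ i, lam i * u i - ∑ i, lam i * τ i / 2 := by
    have h3 : ∑ i, lam i * (V + (∑ k, s i k - τ i) - C₁) ≤ ∑ i, lam i * (u i - τ i / 2) := by
      apply Finset.sum_le_sum
      intro i _
      apply mul_le_mul_of_nonneg_left _ (hlam i)
      have h4 := h1 i
      have h5 : ∑ k ∈ Finset.univ.erase i, s i k = ∑ k, s i k - τ i := by
        rw [← Finset.sum_erase_add Finset.univ _ (Finset.mem_univ i), hdiag i]
        ring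
      rw [h5] at h4
      exact h4
    have e1 : ∑ i, lam i * (V + (∑ k, s i k - τ i) - C₁) =
        V + ∑ i, lam i * (∑ k, s i k - τ i) - C₁ := by
      have : ∀ i, lam i * (V + (∑ k, s i k - τ i) - C₁) =
          lam i * (V - C₁) + lam i * (∑ k, s i k - τ i) := by
        intro i
        ring
      simp_rw [this]
      rw [Finset.sum_add_distrib, ← Finset.sum_mul, hlam1]
      ring
    have e2 : ∑ i, lam i * (u i - τ i / 2) = ∑ i, lam i * u i - ∑ i, lam i * τ i / 2 := by
      rw [← Finset.sum_sub_distrib]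
      apply Finset.sum_congr rfl
      intro i _
      ring
    rw [e1, e2] at h3
    exact h3
  -- step 3
  have hC : Q / (2 * p) ≤ T + C₂ / (2 * p) + (1 - κ) * Q / (2 * p) := by
    have h2p : 0 < 2 * p := by linarith
    have h3 : κ * Q / (2 * p) ≤ (2 * p * T + C₂) / (2 * p) := by
      apply div_le_div_of_nonneg_right h2 h2p.le
    have e1 : (2 * p * T + C₂) / (2 * p) = T + C₂ / (2 * p) := by
      field_simp
    have e2 : Q / (2 * p) = κ * Q / (2 * p) + (1 - κ) * Q / (2 * p) := by
      ring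
    rw [e1] at h3
    linarith
  -- step 4
  have hlog : Real.log 2 ≤ 1 := by
    have := Real.log_two_lt_d9
    linarith
  have hD : ∑ i, ∑ k, (2 * σ i * σ k - lam i - lam k) * s i k / 2 ≤
      ∑ i, ∑ k, ((if i = k then (μ i * t - lam i * τ i / 2) else 0) + 1) := by
    apply Finset.sum_le_sum
    intro i _
    apply Finset.sum_le_sum
    intro k _
    by_cases hik : i = k
    · subst hik
      simp only [if_true]
      rw [hdiag i]
      have h3 := hsq i
      have h4 : μ i * τ i ≤ μ i * t := mul_le_mul_of_nonneg_left (hτt i) (hμ i)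
      have h5 : (2 * σ i * σ i - lam i - lam i) * τ i / 2 = (σ i ^ 2 - lam i) * τ i := by ring
      rw [h5, h3]
      nlinarith [h4]
    · simp only [hik, if_false, zero_add]
      have h3 := hpair i k hik
      have h4 := hslow i k
      have h5 := mul_nonneg (hσ i) (hσ k)
      have h6 := hlamle i
      have h7 := hlamle k
      have h8 : 0 ≤ Real.log 2 := Real.log_nonneg (by norm_num)
      have h9 : (lam i + lam k - 2 * σ i * σ k) * (- s i k) ≤
          (lam i + lam k - 2 * σ i * σ k) * Real.log 2 := by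
        apply mul_le_mul_of_nonneg_left _ (by linarith)
        linarith
      have h10 : (lam i + lam k - 2 * σ i * σ k) * Real.log 2 ≤ 2 * 1 := by
        apply mul_le_mul _ hlog h8 (by norm_num)
        linarith
      have h11 : (2 * σ i * σ k - lam i - lam k) * s i k / 2 =
          (lam i + lam k - 2 * σ i * σ k) * (- s i k) / 2 := by ring
      rw [h11]
      linarith
  have hE : ∑ i, ∑ k, ((if i = k then (μ i * t - lam i * τ i / 2) else 0) + (1 : ℝ)) =
      (∑ i, μ i) * t - ∑ i, lam i * τ i / 2 + (N : ℝ) ^ 2 := by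
    simp only [Finset.sum_add_distrib, Finset.sum_ite_eq, Finset.mem_univ, if_true,
      Finset.sum_const, Finset.card_univ, Fintype.card_fin, nsmul_eq_mul, mul_one,
      Finset.sum_sub_distrib, Finset.sum_mul]
    ring
  have hF : ∑ i, ∑ k, (2 * σ i * σ k - lam i - lam k) * s i k / 2 =
      T - ∑ i, lam i * ∑ k, s i k := by
    have e1 : ∀ i k, (2 * σ i * σ k - lam i - lam k) * s i k / 2 =
        σ i * σ k * s i k - (lam i * s i k / 2 + lam k * s i k / 2) := by
      intro i k
      ring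
    simp_rw [e1, Finset.sum_sub_distrib, Finset.sum_add_distrib]
    have e2 : ∑ i, ∑ k, lam k * s i k / 2 = ∑ i, ∑ k, lam i * s i k / 2 := by
      rw [Finset.sum_comm]
      apply Finset.sum_congr rfl
      intro i _
      apply Finset.sum_congr rfl
      intro k _
      rw [hsymm k i]
    rw [e2, ← hT]
    have e3 : ∑ i, lam i * ∑ k, s i k =
        ∑ i, ∑ k, lam i * s i k / 2 + ∑ i, ∑ k, lam i * s i k / 2 := by
      rw [← Finset.sum_add_distrib]
      apply Finset.sum_congr rfl
      intro i _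
      rw [← Finset.sum_add_distrib, Finset.mul_sum]
      apply Finset.sum_congr rfl
      intro k _
      ring
    rw [e3]
  have hG : ∑ i, lam i * (∑ k, s i k - τ i) =
      ∑ i, lam i * ∑ k, s i k - (∑ i, lam i * τ i / 2 + ∑ i, lam i * τ i / 2) := by
    rw [← Finset.sum_add_distrib, ← Finset.sum_sub_distrib]
    apply Finset.sum_congr rfl
    intro i _
    ring
  rw [hF, hE] at hD
  rw [hG] at hB
  have hN : 0 ≤ (N : ℝ) ^ 2 := by positivity
  linarith

end Cert

end MeanVal
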