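import Mathlib
import Pool.Agent.Helper772.MV.Defs

open MeasureTheory Metric Set
open scoped ENNReal Real

namespace MeanVal

namespace Chain


theorem chain_ineq (N : ℕ) : ∃ C : ℝ, 0 ≤ C ∧ ∀ (E : Fin N → ℝ) (b s : Fin N → Fin N → ℝ) (V : ℝ),
    (∀ i k, s i k = s k i) → (∀ i k, i ≠ k → s i k - Real.log 2 ≤ b i k) →
    (∀ i k l, i ≠ k → i ≠ l → k ≠ l → min (s i k) (s i l) - Real.log 2 ≤ s k l) →
    (∀ i l, i < l → E l - ∑ k ∈ Finset.univ.filter (fun k => k < i), b l k ≤
        E i - ∑ k ∈ Finset.univ.filter (fun k => k < i), b i k) →
    (∀ i, V ≤ E i - ∑ k ∈ Finset.univ.filter (fun k => k < i), b i k) →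
    ∀ i, V + ∑ k ∈ Finset.univ.erase i, s i k - C ≤ E i := by
  classical
  have hL : 0 ≤ Real.log 2 := Real.log_nonneg (by norm_num)
  refine ⟨2 * N * Real.log 2 * N + N * Real.log 2, by positivity, ?_⟩
  intro E b s V hsym hb hult hgreedy hV
  obtain ⟨L, hLd⟩ : ∃ L : ℝ, L = Real.log 2 := ⟨_, rfl⟩
  rw [← hLd] at hL hb hult ⊢
  have claim : ∀ n : ℕ, ∀ i : Fin N, N - i.val ≤ n →
      V + ∑ k, (if i < k then s i k else 0) - 2 * N * L * n ≤
        E i - ∑ k ∈ Finset.univ.filter (fun k => k < i), b i k := by
    intro n
    induction n with
    | zero => intro i hi; exact absurd i.2 (by omega)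
    | succ n ih =>
      intro i hi
      by_cases hex : ∃ l, i < l
      · obtain ⟨l, hl, hmax⟩ := Finset.exists_max_image (Finset.univ.filter (fun l => i < l))
          (fun l => s i l) (by
            obtain ⟨l, hl⟩ := hex
            exact ⟨l, Finset.mem_filter.mpr ⟨Finset.mem_univ _, hl⟩⟩)
        have hil : i < l := (Finset.mem_filter.mp hl).2
        have hmax' : ∀ k, i < k → s i k ≤ s i l := fun k hk =>
          hmax k (Finset.mem_filter.mpr ⟨Finset.mem_univ _, hk⟩)
        have h1 := hgreedy i l hil
        have hil' : i.val < l.val := hil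
        have h2 := ih l (by omega)
        have h3 : ∑ k, (if i < Equiv.swap i l k then s i (Equiv.swap i l k) else 0) =
            ∑ k, (if i < k then s i k else 0) :=
          Equiv.sum_comp (Equiv.swap i l) (fun k => if i < k then s i k else 0)
        have h4 : ∑ k, ((if i < Equiv.swap i l k then s i (Equiv.swap i l k) else 0) - 2 * L) ≤
            ∑ k, ((if l < k then s l k else 0) + (if k < l then b l k else 0) -
              (if k < i then b l k else 0)) := by
          apply Finset.sum_le_sum
          intro k _
          by_cases hki : k = i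
          · subst hki
            rw [Equiv.swap_apply_left, if_pos hil, if_neg (not_lt.mpr hil.le), if_pos hil,
              if_neg (lt_irrefl _)]
            have h5 := hb l k hil.ne'
            rw [hsym l k] at h5
            linarith
          · by_cases hkl : k = l
            · subst hkl
              rw [Equiv.swap_apply_right, if_neg (lt_irrefl i), if_neg (lt_irrefl k),
                if_neg (lt_irrefl k), if_neg (not_lt.mpr hil.le)]
              linarith
            · rw [Equiv.swap_apply_of_ne_of_ne hki hkl]
              rcases lt_or_gt_of_ne hki with h5 | h5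
              · rw [if_neg (not_lt.mpr h5.le), if_neg (not_lt.mpr (h5.trans hil).le),
                  if_pos (h5.trans hil), if_pos h5]
                linarith
              · rw [if_pos h5]
                have h6 := hmax' k h5
                have h7 := hult i l k hil.ne h5.ne (Ne.symm hkl)
                rw [min_eq_right h6] at h7
                rcases lt_or_gt_of_ne hkl with h8 | h8
                · rw [if_neg (not_lt.mpr h8.le), if_pos h8, if_neg (not_lt.mpr h5.le)]
                  have h9 := hb l k (Ne.symm hkl)
                  linarith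
                · rw [if_pos h8, if_neg (not_lt.mpr h8.le), if_neg (not_lt.mpr h5.le)]
                  linarith
        rw [Finset.sum_sub_distrib, h3, Finset.sum_const, Finset.card_univ, Fintype.card_fin,
          nsmul_eq_mul, Finset.sum_sub_distrib, Finset.sum_add_distrib, ← Finset.sum_filter,
          ← Finset.sum_filter, ← Finset.sum_filter, ← Finset.sum_filter] at h4
        rw [← Finset.sum_filter] at h2 ⊢
        push_cast
        linarith
      · have h0 : ∑ k, (if i < k then s i k else 0) = 0 :=
          Finset.sum_eq_zero fun k _ => if_neg fun hk => hex ⟨k, hk⟩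
        rw [h0]
        have h1 := hV i
        have h2 : 0 ≤ 2 * N * L * ((n + 1 : ℕ) : ℝ) := by positivity
        linarith
  intro i
  have h1 := claim N i (by omega)
  have h2 : ∑ k, ((if k ≠ i then s i k else 0) - L) ≤
      ∑ k, ((if i < k then s i k else 0) + (if k < i then b i k else 0)) := by
    apply Finset.sum_le_sum
    intro k _
    by_cases hki : k = i
    · subst hki
      rw [if_neg (by simp), if_neg (lt_irrefl _), if_neg (lt_irrefl _)]
      linarith
    · rw [if_pos hki]
      rcases lt_or_gt_of_ne hki with h5 | h5
      · rw [if_neg (not_lt.mpr h5.le), if_pos h5]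
        have h6 := hb i k (Ne.symm hki)
        linarith
      · rw [if_pos h5, if_neg (not_lt.mpr h5.le)]
        linarith
  rw [Finset.sum_sub_distrib, Finset.sum_const, Finset.card_univ, Fintype.card_fin,
    nsmul_eq_mul, Finset.sum_add_distrib, ← Finset.sum_filter, ← Finset.sum_filter,
    ← Finset.sum_filter, Finset.filter_ne'] at h2
  rw [← Finset.sum_filter] at h1
  linarith

end Chain

end MeanVal
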