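import Mathlib
import Pool.Agent.Helper772.MV.Defs

open MeasureTheory Metric Set
open scoped ENNReal Real

namespace MeanVal

namespace CoeffEst



/-- the polynomial factor -/
noncomputable def PP {m : ℕ} (ζ : Fin m → ℂ) (z : ℂ) : ℂ := ∏ l, (z - ζ l)

/-- sum of squares of the terms of the logarithmic derivative -/
noncomputable def h2 {m : ℕ} (f : ℂ → ℂ) (ζ : Fin m → ℂ) (z : ℂ) : ℝ :=
  (‖deriv f z‖ / ‖f z‖) ^ 2 + ∑ l, 1 / ‖z - ζ l‖ ^ 2

theorem PP_diff {m : ℕ} (ζ : Fin m → ℂ) : Differentiable ℂ (PP ζ) := by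
  unfold PP
  fun_prop

theorem PP_norm {m : ℕ} (ζ : Fin m → ℂ) (z : ℂ) : ‖PP ζ z‖ = ∏ l, ‖z - ζ l‖ := by
  unfold PP
  rw [norm_prod]

theorem PP_le {m : ℕ} (ζ : Fin m → ℂ) (hζ : ∀ l, ‖ζ l‖ = 1) (z : ℂ) (hz : ‖z‖ ≤ 1) :
    ‖PP ζ z‖ ≤ 2 ^ m := by
  rw [PP_norm]
  calc ∏ l, ‖z - ζ l‖ ≤ ∏ _l : Fin m, (2:ℝ) := by
        apply Finset.prod_le_prod (fun l _ => norm_nonneg _)
        intro l _
        refine (norm_sub_le _ _).trans ?_
        rw [hζ l]
        linarith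
    _ = 2 ^ m := by simp

theorem h2_nonneg {m : ℕ} (f : ℂ → ℂ) (ζ : Fin m → ℂ) (z : ℂ) : 0 ≤ h2 f ζ z := by
  unfold h2
  positivity

theorem deriv_g_bound {m : ℕ} {r₁ : ℝ} (f : ℂ → ℂ) (hd : DifferentiableOn ℂ f (ball 0 1))
    (hz : ∀ z : ℂ, r₁ ≤ ‖z‖ → ‖z‖ < 1 → f z ≠ 0) (ζ : Fin m → ℂ) (hζ : ∀ l, ‖ζ l‖ = 1)
    (z : ℂ) (h1 : r₁ ≤ ‖z‖) (h1' : ‖z‖ < 1) :
    ‖deriv (fun z => f z * PP ζ z) z‖ ^ 2 ≤
      (m + 1) * ‖f z * PP ζ z‖ ^ 2 * h2 f ζ z := by
  have hfz := hz z h1 h1'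
  have hne : ∀ l, z - ζ l ≠ 0 := by
    intro l h
    rw [sub_eq_zero] at h
    rw [h, hζ l] at h1'
    exact lt_irrefl _ h1'
  have hP : PP ζ z ≠ 0 := by
    unfold PP
    exact Finset.prod_ne_zero_iff.mpr fun l _ => hne l
  have hfd : DifferentiableAt ℂ f z := hd.differentiableAt (isOpen_ball.mem_nhds (by simpa using h1'))
  have e1 := logDeriv_mul z hfz hP hfd (PP_diff ζ z)
  have e2 : logDeriv (PP ζ) z = ∑ l, 1 / (z - ζ l) := by
    have := logDeriv_prod (s := Finset.univ) (f := fun (l : Fin m) (w : ℂ) => w - ζ l) (x := z)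
      (fun l _ => hne l) (fun l _ => by fun_prop)
    have h3 : logDeriv (PP ζ) z = logDeriv (fun x => ∏ i, (x - ζ i)) z := rfl
    rw [h3, this]
    refine Finset.sum_congr rfl fun l _ => ?_
    rw [logDeriv_apply]
    simp
  have hg : f z * PP ζ z ≠ 0 := mul_ne_zero hfz hP
  have e3 : deriv (fun z => f z * PP ζ z) z =
      (f z * PP ζ z) * (deriv f z / f z + ∑ l, 1 / (z - ζ l)) := by
    rw [← e2, ← logDeriv_apply f, ← e1, logDeriv_apply]
    field_simp
  rw [e3, norm_mul, mul_pow]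
  have e4 : ‖deriv f z / f z + ∑ l, 1 / (z - ζ l)‖ ^ 2 ≤ (m + 1) * h2 f ζ z := by
    set u : Fin (m + 1) → ℝ := Fin.cons (‖deriv f z‖ / ‖f z‖) (fun l => 1 / ‖z - ζ l‖) with hu
    have g1 : ‖deriv f z / f z + ∑ l, 1 / (z - ζ l)‖ ≤ ∑ i, u i := by
      rw [Fin.sum_univ_succ]
      simp only [hu, Fin.cons_zero, Fin.cons_succ]
      refine (norm_add_le _ _).trans ?_
      rw [norm_div]
      gcongr
      refine (norm_sum_le _ _).trans (le_of_eq ?_)
      refine Finset.sum_congr rfl fun l _ => ?_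
      rw [norm_div, norm_one]
    have g2 : ‖deriv f z / f z + ∑ l, 1 / (z - ζ l)‖ ^ 2 ≤ (∑ i, u i) ^ 2 :=
      pow_le_pow_left₀ (norm_nonneg _) g1 2
    have g3 := sq_sum_le_card_mul_sum_sq (s := Finset.univ) (f := u)
    refine (g2.trans g3).trans (le_of_eq ?_)
    rw [Finset.card_univ, Fintype.card_fin, Fin.sum_univ_succ]
    simp only [hu, Fin.cons_zero, Fin.cons_succ, h2]
    push_cast
    congr 2
    refine Finset.sum_congr rfl fun l _ => ?_
    rw [div_pow, one_pow]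
  calc ‖f z * PP ζ z‖ ^ 2 * ‖deriv f z / f z + ∑ l, 1 / (z - ζ l)‖ ^ 2
      ≤ ‖f z * PP ζ z‖ ^ 2 * ((m + 1) * h2 f ζ z) := by gcongr
    _ = _ := by ring

theorem E_bound {m : ℕ} {r₁ C₁ : ℝ} (hr₁ : 0 < r₁) (hC₁ : 0 ≤ C₁) (f : ℂ → ℂ)
    (hd : DifferentiableOn ℂ f (ball 0 1)) (hz : ∀ z : ℂ, r₁ ≤ ‖z‖ → ‖z‖ < 1 → f z ≠ 0)
    (hEn : ∀ n : ℕ, 2 ≤ n → ∫⁻ z in {z : ℂ | r₁ < ‖z‖ ∧ ‖z‖ < 1 - 1 / (n:ℝ)},
        ENNReal.ofReal ((‖deriv f z‖ / ‖f z‖) ^ 2) ≤ ENNReal.ofReal (C₁ * (1 + Real.log n)))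
    (hPole : ∀ ζ : ℂ, ‖ζ‖ = 1 → ∀ n : ℕ, 2 ≤ n →
      ∫⁻ z in ball (0:ℂ) (1 - 1 / (n:ℝ)), ENNReal.ofReal (1 / ‖z - ζ‖ ^ 2)
        ≤ ENNReal.ofReal (2 * π * Real.log (2 * n)))
    (n : ℕ) (hn : 2 ≤ n) (ζ : Fin m → ℂ) (hζ : ∀ l, ‖ζ l‖ = 1) :
    ∫⁻ z in {z : ℂ | r₁ < ‖z‖ ∧ ‖z‖ < 1 - 1 / (n:ℝ)}, ENNReal.ofReal (h2 f ζ z) ≤
      ENNReal.ofReal ((C₁ + 2 * π * m) * (1 + Real.log n)) := by
  have hpi := Real.pi_pos
  have hn0 : (0:ℝ) < n := by positivity
  have hlog : 0 ≤ Real.log n := Real.log_nonneg (by exact_mod_cast (by omega : 1 ≤ n))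
  set A : Set ℂ := {z : ℂ | r₁ < ‖z‖ ∧ ‖z‖ < 1 - 1 / (n:ℝ)} with hA
  have hn1 : (1:ℝ) - 1 / n < 1 := by
    have : (0:ℝ) < 1 / n := by positivity
    linarith
  have hAm : MeasurableSet A := by
    have : A = (fun z : ℂ => ‖z‖) ⁻¹' (Ioo r₁ (1 - 1 / (n:ℝ))) := rfl
    rw [this]
    exact (isOpen_Ioo.preimage continuous_norm).measurableSet
  have hm0 : ∀ z ∈ A, z ∈ ball (0:ℂ) 1 := by
    intro z hzA
    rw [mem_ball_zero_iff]
    exact hzA.2.trans hn1
  have hae : AEMeasurable (fun z => ENNReal.ofReal ((‖deriv f z‖ / ‖f z‖) ^ 2))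
      (volume.restrict A) := by
    apply ContinuousOn.aemeasurable _ hAm
    apply ENNReal.continuous_ofReal.comp_continuousOn
    have c1 : ContinuousOn (deriv f) A := (hd.deriv isOpen_ball).continuousOn.mono hm0
    have c2 : ContinuousOn f A := hd.continuousOn.mono hm0
    apply ContinuousOn.pow
    apply ContinuousOn.div c1.norm c2.norm
    intro z hzA
    exact norm_ne_zero_iff.mpr (hz z hzA.1.le (hzA.2.trans hn1))
  have hbe : ∀ l : Fin m, Measurable (fun z : ℂ => ENNReal.ofReal (1 / ‖z - ζ l‖ ^ 2)) := by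
    intro l
    fun_prop
  have h1 : ∀ z, ENNReal.ofReal (h2 f ζ z) = ENNReal.ofReal ((‖deriv f z‖ / ‖f z‖) ^ 2) +
      ∑ l, ENNReal.ofReal (1 / ‖z - ζ l‖ ^ 2) := by
    intro z
    unfold h2
    rw [ENNReal.ofReal_add (by positivity) (by positivity), ENNReal.ofReal_sum_of_nonneg]
    intro l _
    positivity
  simp only [h1]
  rw [lintegral_add_left' hae, lintegral_finsetSum' _ (fun l _ => (hbe l).aemeasurable)]
  have h3 : ∑ l, ∫⁻ z in A, ENNReal.ofReal (1 / ‖z - ζ l‖ ^ 2) ≤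
      ∑ _l : Fin m, ENNReal.ofReal (2 * π * (1 + Real.log n)) := by
    apply Finset.sum_le_sum
    intro l _
    calc ∫⁻ z in A, ENNReal.ofReal (1 / ‖z - ζ l‖ ^ 2)
        ≤ ∫⁻ z in ball (0:ℂ) (1 - 1 / (n:ℝ)), ENNReal.ofReal (1 / ‖z - ζ l‖ ^ 2) := by
          apply lintegral_mono_set
          intro z hzA
          rw [mem_ball_zero_iff]
          exact hzA.2
      _ ≤ ENNReal.ofReal (2 * π * Real.log (2 * n)) := hPole _ (hζ l) n hn
      _ ≤ _ := by
          apply ENNReal.ofReal_le_ofReal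
          apply mul_le_mul_of_nonneg_left _ (by positivity)
          rw [Real.log_mul (by norm_num) hn0.ne']
          linarith [Real.log_two_lt_d9]
  calc _ ≤ ENNReal.ofReal (C₁ * (1 + Real.log n)) +
        ∑ _l : Fin m, ENNReal.ofReal (2 * π * (1 + Real.log n)) := add_le_add (hEn n hn) h3
    _ = ENNReal.ofReal ((C₁ + 2 * π * m) * (1 + Real.log n)) := by
        rw [← ENNReal.ofReal_sum_of_nonneg (fun _ _ => by positivity),
          ← ENNReal.ofReal_add (by positivity) (by positivity)]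
        congr 1
        rw [Finset.sum_const, Finset.card_univ, Fintype.card_fin, nsmul_eq_mul]
        ring

theorem polar_bound (g : ℂ → ℂ) (a r L : ℝ) (ha : 0 ≤ a) (har : a ≤ r) (hr : r ≤ 1)
    (hL : 0 ≤ L)
    (h : ∀ ρ, a < ρ → ρ < r → ∫⁻ θ in Ioo (-π) π,
      ENNReal.ofReal (‖g (ρ * Complex.exp (θ * Complex.I))‖ ^ 2) ≤ ENNReal.ofReal L) :
    ∫⁻ z in {z : ℂ | a < ‖z‖ ∧ ‖z‖ < r}, ENNReal.ofReal (‖g z‖ ^ 2) ≤
      ENNReal.ofReal ((r - a) * L) := by
  set A : Set ℂ := {z : ℂ | a < ‖z‖ ∧ ‖z‖ < r} with hA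
  have hAm : MeasurableSet A := by
    have : A = (fun z : ℂ => ‖z‖) ⁻¹' (Ioo a r) := rfl
    rw [this]
    exact (isOpen_Ioo.preimage continuous_norm).measurableSet
  rw [← lintegral_indicator hAm, ← Complex.lintegral_comp_polarCoord_symm, polarCoord_target,
    Measure.volume_eq_prod, ← Measure.prod_restrict]
  refine (lintegral_prod_le _).trans ?_
  have h1 : ∀ ρ ∈ Ioi (0:ℝ), ∫⁻ θ in Ioo (-π) π, ENNReal.ofReal ρ •
      A.indicator (fun z => ENNReal.ofReal (‖g z‖ ^ 2)) (Complex.polarCoord.symm (ρ, θ)) ≤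
      (Ioo a r).indicator (fun _ => ENNReal.ofReal L) ρ := by
    intro ρ hρ
    have hρ0 : 0 < ρ := hρ
    have e1 : ∀ θ : ℝ, Complex.polarCoord.symm (ρ, θ) = ρ * Complex.exp (θ * Complex.I) := by
      intro θ
      rw [Complex.polarCoord_symm_apply, Complex.exp_mul_I]
      push_cast
      ring
    have e2 : ∀ θ : ℝ, ‖(ρ : ℂ) * Complex.exp (θ * Complex.I)‖ = ρ := by
      intro θ
      rw [norm_mul, Complex.norm_exp_ofReal_mul_I, mul_one, Complex.norm_real, Real.norm_eq_abs,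
        abs_of_pos hρ0]
    by_cases hmem : ρ ∈ Ioo a r
    · rw [Set.indicator_of_mem hmem]
      have e3 : ∀ θ : ℝ, ENNReal.ofReal ρ • A.indicator (fun z => ENNReal.ofReal (‖g z‖ ^ 2))
          (Complex.polarCoord.symm (ρ, θ)) ≤
          ENNReal.ofReal (‖g (ρ * Complex.exp (θ * Complex.I))‖ ^ 2) := by
        intro θ
        have : (ρ : ℂ) * Complex.exp (θ * Complex.I) ∈ A := by
          simp only [hA, mem_ofPred_eq, e2]
          exact hmem
        rw [e1, Set.indicator_of_mem this, smul_eq_mul]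
        calc _ ≤ 1 * ENNReal.ofReal (‖g (ρ * Complex.exp (θ * Complex.I))‖ ^ 2) := by
              gcongr
              rw [← ENNReal.ofReal_one]
              exact ENNReal.ofReal_le_ofReal (hmem.2.le.trans hr)
          _ = _ := one_mul _
      exact (lintegral_mono e3).trans (h ρ hmem.1 hmem.2)
    · rw [Set.indicator_of_notMem hmem]
      apply le_of_eq
      rw [lintegral_eq_zero_iff' ]
      · refine Filter.Eventually.of_forall fun θ => ?_
        have : (ρ : ℂ) * Complex.exp (θ * Complex.I) ∉ A := by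
          simp only [hA, mem_ofPred_eq, e2]
          exact hmem
        simp only [e1, Set.indicator_of_notMem this, smul_zero, Pi.zero_apply]
      · have : (fun θ : ℝ => ENNReal.ofReal ρ • A.indicator (fun z => ENNReal.ofReal (‖g z‖ ^ 2))
            (Complex.polarCoord.symm (ρ, θ))) = fun _ => 0 := by
          ext θ
          have : (ρ : ℂ) * Complex.exp (θ * Complex.I) ∉ A := by
            simp only [hA, mem_ofPred_eq, e2]
            exact hmem
          simp only [e1, Set.indicator_of_notMem this, smul_zero]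
        rw [this]
        exact aemeasurable_const
  refine (setLIntegral_mono' measurableSet_Ioi h1).trans ?_
  calc ∫⁻ ρ in Ioi 0, (Ioo a r).indicator (fun _ => ENNReal.ofReal L) ρ
      ≤ ∫⁻ ρ, (Ioo a r).indicator (fun _ => ENNReal.ofReal L) ρ := setLIntegral_le_lintegral _ _
    _ = ENNReal.ofReal ((r - a) * L) := by
        rw [lintegral_indicator measurableSet_Ioo, setLIntegral_const, Real.volume_Ioo,
          ← ENNReal.ofReal_mul hL, mul_comm]

theorem ax1 (r z : ℝ) (hr : 0 ≤ r) (hr1 : r < 1) : r ^ 2 - z ^ 2 ≤ 1 := by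
  nlinarith [sq_nonneg z]
theorem ax2 (r z : ℝ) (hz : 0 ≤ z) (hzr : z ≤ r) : 0 ≤ r ^ 2 - z ^ 2 := by nlinarith
theorem ax3 (r z : ℝ) (hr : 0 ≤ r) (hr1 : r < 1) : r ^ 2 - z ^ 2 ≤ 2 * (1 - z) := by
  nlinarith [sq_nonneg (1 - z)]
theorem ax4 (r : ℝ) (hr : 3 / 4 ≤ r) : 4 ≤ 8 * r ^ 2 := by nlinarith
theorem ax5 (r : ℝ) (h0 : 0 < r) (hr : r < 1) : r ^ 2 ≤ 1 := by nlinarith
theorem ax6 (M t s : ℝ) (hs : 0 ≤ s) (h : s ^ 2 = M) (ht : t = 1 + s) : M ≤ t ^ 2 := by
  rw [ht]; nlinarith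

theorem coeff_estimate (r₁ C₁ : ℝ) (hr₁ : 0 < r₁) (hr₁' : r₁ < 1) (hC₁ : 0 ≤ C₁) (f : ℂ → ℂ)
    (hd : DifferentiableOn ℂ f (ball 0 1)) (hz : ∀ z : ℂ, r₁ ≤ ‖z‖ → ‖z‖ < 1 → f z ≠ 0)
    (hEn : ∀ n : ℕ, 2 ≤ n → ∫⁻ z in {z : ℂ | r₁ < ‖z‖ ∧ ‖z‖ < 1 - 1 / (n:ℝ)},
        ENNReal.ofReal ((‖deriv f z‖ / ‖f z‖) ^ 2) ≤ ENNReal.ofReal (C₁ * (1 + Real.log n)))
    (hPole : ∀ ζ : ℂ, ‖ζ‖ = 1 → ∀ n : ℕ, 2 ≤ n →
      ∫⁻ z in ball (0:ℂ) (1 - 1 / (n:ℝ)), ENNReal.ofReal (1 / ‖z - ζ‖ ^ 2)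
        ≤ ENNReal.ofReal (2 * π * Real.log (2 * n)))
    (hLP : ∀ g : ℂ → ℂ, DifferentiableOn ℂ g (ball 0 1) → ∀ r ρ : ℝ, 0 < r → r < 1 → 0 ≤ ρ →
      ρ ≤ r → ∫⁻ θ in Ioo (-π) π, ENNReal.ofReal (‖g (ρ * Complex.exp (θ * Complex.I))‖ ^ 2) ≤
      ENNReal.ofReal (2 * π * ‖g 0‖ ^ 2) + ENNReal.ofReal (4 / r ^ 2) *
        ∫⁻ z in ball (0:ℂ) r, ENNReal.ofReal (‖deriv g z‖ ^ 2 * (r ^ 2 - ‖z‖ ^ 2)))
    (m k : ℕ) (C₂ : ℝ) (hC₂ : 0 ≤ C₂)
    (hAnn : ∀ (g : ℂ → ℂ), DifferentiableOn ℂ g (ball 0 1) → ∀ n N : ℕ, 4 ≤ n → n ≤ N →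
      N ≤ n + k → ENNReal.ofReal ‖coeff g N‖ ≤ ENNReal.ofReal C₂ *
      ∫⁻ z in {z : ℂ | 1 - 2 / (n:ℝ) < ‖z‖ ∧ ‖z‖ < 1 - 1 / (n:ℝ)}, ENNReal.ofReal ‖deriv g z‖) :
    ∃ C : ℝ, 0 ≤ C ∧ ∀ n : ℕ, 2 ≤ n → ∀ ζ : Fin m → ℂ, (∀ l, ‖ζ l‖ = 1) → ∀ M : ℝ, 0 ≤ M →
      (∀ z : ℂ, r₁ ≤ ‖z‖ → ‖z‖ ≤ 1 - 1 / (n:ℝ) →
        (‖f z‖ * ∏ l, ‖z - ζ l‖) ^ 2 * (1 - ‖z‖) ≤ M) →
      ∀ N : ℕ, n ≤ N → N ≤ n + k →
        ‖coeff (fun z => f z * ∏ l, (z - ζ l)) N‖ ≤
          C * (1 + Real.log n) * (1 + Real.sqrt M) / Real.sqrt n := by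
  have hpi := Real.pi_pos
  obtain ⟨B, hB0, hB⟩ : ∃ B : ℝ, 0 ≤ B ∧ ∀ z : ℂ, ‖z‖ ≤ (1 + r₁) / 2 → ‖f z‖ ≤ B := by
    have hc : ContinuousOn f (closedBall 0 ((1 + r₁) / 2)) :=
      hd.continuousOn.mono (closedBall_subset_ball (by linarith))
    obtain ⟨B, hB⟩ := (isCompact_closedBall (0:ℂ) _).exists_bound_of_continuousOn hc
    exact ⟨max B 0, le_max_right _ _, fun z hz => (hB z (by simpa using hz)).trans
      (le_max_left _ _)⟩
  obtain ⟨n0, hn0⟩ := exists_nat_gt (max 4 (2 / (1 - r₁)))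
  have hn04 : (4:ℝ) < n0 := (le_max_left _ _).trans_lt hn0
  have hn0r : 2 / (1 - r₁) < n0 := (le_max_right _ _).trans_lt hn0
  have h1r : 0 < 1 - r₁ := by linarith
  set G1 : ℝ := B * 2 ^ m / ((1 - r₁) / 2) with hG1
  have hG1n : 0 ≤ G1 := by positivity
  set K0 : ℝ := C₁ + 2 * π * m with hK0
  have hK0n : 0 ≤ K0 := by positivity
  set K1 : ℝ := 2 * π * ‖f 0‖ ^ 2 + 8 * (G1 ^ 2 * π) + 16 * (m + 1) * K0 with hK1
  have hK1n : 0 ≤ K1 := by positivity
  set B2 : ℝ := B * 2 ^ m * 2 ^ (n0 + k) with hB2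
  have hB2n : 0 ≤ B2 := by positivity
  refine ⟨C₂ * ((K1 + (m + 1) * K0) / 2) + √n0 * B2, by positivity, ?_⟩
  intro n hn ζ hζ M hM hsup N hN1 hN2
  set g : ℂ → ℂ := fun z => f z * ∏ l, (z - ζ l) with hg
  have hg' : g = fun z => f z * PP ζ z := rfl
  have hgd : DifferentiableOn ℂ g (ball 0 1) := by
    rw [hg']
    exact hd.mul (PP_diff ζ).differentiableOn
  have hgn : ∀ z, ‖g z‖ = ‖f z‖ * ∏ l, ‖z - ζ l‖ := by
    intro z
    simp only [hg]
    rw [norm_mul, norm_prod]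
  have hgB : ∀ z : ℂ, ‖z‖ ≤ (1 + r₁) / 2 → ‖g z‖ ≤ B * 2 ^ m := by
    intro z hz1
    rw [hg']
    simp only
    rw [norm_mul]
    exact mul_le_mul (hB z hz1) (PP_le ζ hζ z (by linarith)) (norm_nonneg _) hB0
  have hnpos : (0:ℝ) < n := by positivity
  have hlog : 0 ≤ Real.log n := Real.log_nonneg (by exact_mod_cast (by omega : 1 ≤ n))
  have hsM : 0 ≤ √M := Real.sqrt_nonneg M
  have hsn : 0 < √(n:ℝ) := Real.sqrt_pos.mpr hnpos
  rcases lt_or_ge n n0 with hlt | hge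
  · -- small n
    have h1 : ‖iteratedDeriv N g 0‖ ≤ N.factorial * (B * 2 ^ m) / (1 / 2) ^ N := by
      apply Complex.norm_iteratedDeriv_le_of_forall_mem_sphere_norm_le N (by norm_num)
      · apply DifferentiableOn.diffContOnCl
        rw [closure_ball _ (by norm_num)]
        exact hgd.mono (closedBall_subset_ball (by norm_num))
      · intro z hz1
        rw [mem_sphere_zero_iff_norm] at hz1
        exact hgB z (by linarith)
    have hfac : (0:ℝ) < N.factorial := by exact_mod_cast N.factorial_pos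
    have h2 : ‖coeff g N‖ ≤ B2 := by
      unfold coeff
      rw [norm_div, Complex.norm_natCast, div_le_iff₀ hfac]
      refine h1.trans ?_
      have e1 : (N.factorial : ℝ) * (B * 2 ^ m) / (1 / 2) ^ N =
          (B * 2 ^ m * 2 ^ N) * N.factorial := by
        rw [one_div, inv_pow, div_inv_eq_mul]
        ring
      rw [e1, hB2]
      have e2 : (2:ℝ) ^ N ≤ 2 ^ (n0 + k) := pow_le_pow_right₀ (by norm_num) (by omega)
      gcongr
    refine h2.trans ?_
    rw [le_div_iff₀ hsn]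
    have h3 : √(n:ℝ) ≤ √(n0:ℝ) := Real.sqrt_le_sqrt (by exact_mod_cast hlt.le)
    have h4 : 0 ≤ C₂ * ((K1 + (m + 1) * K0) / 2) := by positivity
    calc B2 * √(n:ℝ) ≤ B2 * √(n0:ℝ) := by gcongr
      _ ≤ (C₂ * ((K1 + (m + 1) * K0) / 2) + √n0 * B2) * 1 * 1 := by linarith
      _ ≤ _ := by
          gcongr
          · linarith
          · linarith
  · -- large n
    have hn5 : (5:ℝ) ≤ n := by
      have : 4 < n0 := by exact_mod_cast hn04
      exact_mod_cast (by omega : 5 ≤ n)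
    have hninv : 1 / (n:ℝ) ≤ 1 / 5 := one_div_le_one_div_of_le (by norm_num) hn5
    have hninv0 : 0 < 1 / (n:ℝ) := by positivity
    set r : ℝ := 1 - 1 / (n:ℝ) with hr
    have hr34 : 3 / 4 ≤ r := by rw [hr]; linarith
    have hr1 : r < 1 := by rw [hr]; linarith
    have hr1n : r₁ < 1 - 2 / (n:ℝ) := by
      have e1 : 2 / (n:ℝ) < 1 - r₁ := by
        rw [div_lt_iff₀ hnpos]
        have e2 : 2 / (1 - r₁) < n := hn0r.trans_le (by exact_mod_cast hge)
        rw [div_lt_iff₀ h1r] at e2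
        linarith
      linarith
    have har : 1 - 2 / (n:ℝ) < r := by
      have : 2 / (n:ℝ) = 2 * (1 / n) := by ring
      rw [hr, this]; linarith
    have ha0 : 0 ≤ 1 - 2 / (n:ℝ) := by linarith
    set Λ : ℝ := K0 * (1 + Real.log n) with hΛ
    have hΛn : 0 ≤ Λ := by positivity
    set A : Set ℂ := {z : ℂ | r₁ < ‖z‖ ∧ ‖z‖ < r} with hA
    have hE : ∫⁻ z in A, ENNReal.ofReal (h2 f ζ z) ≤ ENNReal.ofReal Λ :=
      E_bound hr₁ hC₁ f hd hz hEn hPole n hn ζ hζ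
    have hAm : MeasurableSet A := by
      have : A = (fun z : ℂ => ‖z‖) ⁻¹' (Ioo r₁ r) := rfl
      rw [this]
      exact (isOpen_Ioo.preimage continuous_norm).measurableSet
    have hdg : ∀ z ∈ A, ‖deriv g z‖ ^ 2 ≤ (m + 1) * ‖g z‖ ^ 2 * h2 f ζ z := by
      intro z hzA
      exact deriv_g_bound f hd hz ζ hζ z hzA.1.le (hzA.2.trans hr1)
    -- X
    have hX : ∫⁻ z in ball (0:ℂ) r, ENNReal.ofReal (‖deriv g z‖ ^ 2 * (r ^ 2 - ‖z‖ ^ 2)) ≤
        ENNReal.ofReal (G1 ^ 2 * π + 2 * (m + 1) * M * Λ) := by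
      have hsub : ball (0:ℂ) r ⊆ closedBall 0 r₁ ∪ A := by
        intro z hzb
        rw [mem_ball_zero_iff] at hzb
        rcases le_or_gt ‖z‖ r₁ with h | h
        · left; rwa [mem_closedBall_zero_iff]
        · right; exact ⟨h, hzb⟩
      have hin : ∫⁻ z in closedBall (0:ℂ) r₁,
          ENNReal.ofReal (‖deriv g z‖ ^ 2 * (r ^ 2 - ‖z‖ ^ 2)) ≤ ENNReal.ofReal (G1 ^ 2 * π) := by
        calc ∫⁻ z in closedBall (0:ℂ) r₁, ENNReal.ofReal (‖deriv g z‖ ^ 2 * (r ^ 2 - ‖z‖ ^ 2))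
            ≤ ∫⁻ _z in closedBall (0:ℂ) r₁, ENNReal.ofReal (G1 ^ 2) := by
              apply setLIntegral_mono' measurableSet_closedBall
              intro z hzb
              rw [mem_closedBall_zero_iff] at hzb
              apply ENNReal.ofReal_le_ofReal
              have e1 : ‖deriv g z‖ ≤ G1 := by
                have hRpos : 0 < (1 - r₁) / 2 := by positivity
                apply Complex.norm_deriv_le_of_forall_mem_sphere_norm_le hRpos
                · apply DifferentiableOn.diffContOnCl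
                  rw [closure_ball _ hRpos.ne']
                  apply hgd.mono
                  intro w hw
                  rw [mem_closedBall, dist_eq_norm] at hw
                  rw [mem_ball_zero_iff]
                  have := norm_le_norm_add_norm_sub' w z
                  linarith
                · intro w hw
                  rw [mem_sphere, dist_eq_norm] at hw
                  apply hgB
                  have := norm_le_norm_add_norm_sub' w z
                  linarith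
              have e2 : ‖deriv g z‖ ^ 2 ≤ G1 ^ 2 := pow_le_pow_left₀ (norm_nonneg _) e1 2
              have e3 : r ^ 2 - ‖z‖ ^ 2 ≤ 1 := ax1 _ _ (by linarith) hr1
              have e4 : 0 ≤ r ^ 2 - ‖z‖ ^ 2 := ax2 _ _ (norm_nonneg _) (by linarith)
              calc ‖deriv g z‖ ^ 2 * (r ^ 2 - ‖z‖ ^ 2) ≤ G1 ^ 2 * 1 :=
                    mul_le_mul e2 e3 e4 (by positivity)
                _ = G1 ^ 2 := mul_one _
          _ ≤ ENNReal.ofReal (G1 ^ 2 * π) := by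
              rw [setLIntegral_const, Complex.volume_closedBall, ENNReal.ofReal_mul (by positivity)]
              gcongr
              have e1 : ENNReal.ofReal r₁ ^ 2 ≤ 1 := by
                rw [← ENNReal.ofReal_pow hr₁.le, ← ENNReal.ofReal_one]
                apply ENNReal.ofReal_le_ofReal
                exact ax5 _ hr₁ hr₁'
              have e2 : ((NNReal.pi : NNReal) : ℝ≥0∞) = ENNReal.ofReal π := by
                rw [ENNReal.ofReal, ← NNReal.coe_real_pi, Real.toNNReal_coe]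
              rw [← e2]
              calc _ ≤ 1 * (NNReal.pi : ℝ≥0∞) := by gcongr
                _ = _ := one_mul _
      have hout : ∫⁻ z in A, ENNReal.ofReal (‖deriv g z‖ ^ 2 * (r ^ 2 - ‖z‖ ^ 2)) ≤
          ENNReal.ofReal (2 * (m + 1) * M * Λ) := by
        calc ∫⁻ z in A, ENNReal.ofReal (‖deriv g z‖ ^ 2 * (r ^ 2 - ‖z‖ ^ 2))
            ≤ ∫⁻ z in A, ENNReal.ofReal (2 * (m + 1) * M) * ENNReal.ofReal (h2 f ζ z) := by
              apply setLIntegral_mono' hAm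
              intro z hzA
              rw [← ENNReal.ofReal_mul (by positivity)]
              apply ENNReal.ofReal_le_ofReal
              have e1 := hdg z hzA
              have e2 := hsup z hzA.1.le hzA.2.le
              rw [← hgn z] at e2
              have hz0 := norm_nonneg z
              have hzr : ‖z‖ < r := hzA.2
              have e3 : r ^ 2 - ‖z‖ ^ 2 ≤ 2 * (1 - ‖z‖) := ax3 _ _ (by linarith) hr1
              have e4 : 0 ≤ r ^ 2 - ‖z‖ ^ 2 := ax2 _ _ hz0 hzr.le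
              have e5 := h2_nonneg f ζ z
              calc ‖deriv g z‖ ^ 2 * (r ^ 2 - ‖z‖ ^ 2)
                  ≤ ((m + 1) * ‖g z‖ ^ 2 * h2 f ζ z) * (2 * (1 - ‖z‖)) :=
                    mul_le_mul e1 e3 e4 (by positivity)
                _ = (2 * (m + 1) * h2 f ζ z) * (‖g z‖ ^ 2 * (1 - ‖z‖)) := by ring
                _ ≤ (2 * (m + 1) * h2 f ζ z) * M := by gcongr
                _ = 2 * (m + 1) * M * h2 f ζ z := by ring
          _ = ENNReal.ofReal (2 * (m + 1) * M) * ∫⁻ z in A, ENNReal.ofReal (h2 f ζ z) :=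
              lintegral_const_mul' _ _ ENNReal.ofReal_ne_top
          _ ≤ ENNReal.ofReal (2 * (m + 1) * M) * ENNReal.ofReal Λ := by gcongr
          _ = ENNReal.ofReal (2 * (m + 1) * M * Λ) := (ENNReal.ofReal_mul (by positivity)).symm
      calc _ ≤ ∫⁻ z in closedBall (0:ℂ) r₁ ∪ A,
            ENNReal.ofReal (‖deriv g z‖ ^ 2 * (r ^ 2 - ‖z‖ ^ 2)) := lintegral_mono_set hsub
        _ ≤ _ := lintegral_union_le _ _ _
        _ ≤ ENNReal.ofReal (G1 ^ 2 * π) + ENNReal.ofReal (2 * (m + 1) * M * Λ) :=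
            add_le_add hin hout
        _ = _ := (ENNReal.ofReal_add (by positivity) (by positivity)).symm
    have hg0 : ‖g 0‖ = ‖f 0‖ := by
      rw [hgn]
      have : ∀ l, ‖(0:ℂ) - ζ l‖ = 1 := by
        intro l
        rw [zero_sub, norm_neg, hζ l]
      simp only [this, Finset.prod_const_one, mul_one]
    set L : ℝ := 2 * π * ‖f 0‖ ^ 2 + 8 * (G1 ^ 2 * π + 2 * (m + 1) * M * Λ) with hL
    have hLn : 0 ≤ L := by positivity
    have hcirc : ∀ ρ, 1 - 2 / (n:ℝ) < ρ → ρ < r → ∫⁻ θ in Ioo (-π) π,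
        ENNReal.ofReal (‖g (ρ * Complex.exp (θ * Complex.I))‖ ^ 2) ≤ ENNReal.ofReal L := by
      intro ρ h1 h2'
      refine (hLP g hgd r ρ (by linarith) hr1 (by linarith) h2'.le).trans ?_
      rw [hg0, hL, ENNReal.ofReal_add (by positivity) (by positivity)]
      gcongr
      rw [ENNReal.ofReal_mul (by norm_num)]
      refine mul_le_mul' ?_ hX
      apply ENNReal.ofReal_le_ofReal
      rw [div_le_iff₀ (by positivity)]
      exact ax4 r hr34
    have hY := polar_bound g (1 - 2 / (n:ℝ)) r L ha0 har.le hr1.le hLn hcirc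
    have hra : r - (1 - 2 / (n:ℝ)) = 1 / n := by rw [hr]; ring
    rw [hra] at hY
    set An : Set ℂ := {z : ℂ | 1 - 2 / (n:ℝ) < ‖z‖ ∧ ‖z‖ < r} with hAn
    have hAnA : An ⊆ A := fun z hzA => ⟨hr1n.trans hzA.1, hzA.2⟩
    have hAnm : MeasurableSet An := by
      have : An = (fun z : ℂ => ‖z‖) ⁻¹' (Ioo (1 - 2 / (n:ℝ)) r) := rfl
      rw [this]
      exact (isOpen_Ioo.preimage continuous_norm).measurableSet
    set lam : ℝ := √(n:ℝ) / (1 + √M) with hlam
    have hlampos : 0 < lam := by positivity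
    have hZ : ∫⁻ z in An, ENNReal.ofReal ‖deriv g z‖ ≤
        ENNReal.ofReal (lam / 2 * (1 / n * L) + (m + 1) / (2 * lam) * Λ) := by
      calc ∫⁻ z in An, ENNReal.ofReal ‖deriv g z‖
          ≤ ∫⁻ z in An, (ENNReal.ofReal (lam / 2) * ENNReal.ofReal (‖g z‖ ^ 2) +
            ENNReal.ofReal ((m + 1) / (2 * lam)) * ENNReal.ofReal (h2 f ζ z)) := by
            apply setLIntegral_mono' hAnm
            intro z hzA
            have e5 := h2_nonneg f ζ z
            rw [← ENNReal.ofReal_mul (by positivity), ← ENNReal.ofReal_mul (by positivity),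
              ← ENNReal.ofReal_add (by positivity) (by positivity)]
            apply ENNReal.ofReal_le_ofReal
            have e1 := hdg z (hAnA hzA)
            rw [← pow_le_pow_iff_left₀ (norm_nonneg _) (by positivity) two_ne_zero]
            refine e1.trans ?_
            have e6 : (lam / 2 * ‖g z‖ ^ 2 + (m + 1) / (2 * lam) * h2 f ζ z) ^ 2 -
                (m + 1) * ‖g z‖ ^ 2 * h2 f ζ z =
                (lam / 2 * ‖g z‖ ^ 2 - (m + 1) / (2 * lam) * h2 f ζ z) ^ 2 := by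
              field_simp
              ring
            have e7 := sq_nonneg (lam / 2 * ‖g z‖ ^ 2 - (m + 1) / (2 * lam) * h2 f ζ z)
            linarith
        _ = (∫⁻ z in An, ENNReal.ofReal (lam / 2) * ENNReal.ofReal (‖g z‖ ^ 2)) +
            (∫⁻ z in An, ENNReal.ofReal ((m + 1) / (2 * lam)) * ENNReal.ofReal (h2 f ζ z)) := by
            apply lintegral_add_left'
            apply ContinuousOn.aemeasurable _ hAnm
            have c1 : ContinuousOn g An := hgd.continuousOn.mono (fun z hzA => by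
              rw [mem_ball_zero_iff]
              exact hzA.2.trans hr1)
            have c2 : ContinuousOn (fun z => ENNReal.ofReal (lam / 2 * ‖g z‖ ^ 2)) An :=
              ENNReal.continuous_ofReal.comp_continuousOn (continuousOn_const.mul (c1.norm.pow 2))
            refine c2.congr ?_
            intro z _
            beta_reduce
            rw [ENNReal.ofReal_mul (by positivity)]
        _ = ENNReal.ofReal (lam / 2) * (∫⁻ z in An, ENNReal.ofReal (‖g z‖ ^ 2)) +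
            ENNReal.ofReal ((m + 1) / (2 * lam)) * (∫⁻ z in An, ENNReal.ofReal (h2 f ζ z)) := by
            rw [lintegral_const_mul' _ _ ENNReal.ofReal_ne_top,
              lintegral_const_mul' _ _ ENNReal.ofReal_ne_top]
        _ ≤ ENNReal.ofReal (lam / 2) * ENNReal.ofReal (1 / n * L) +
            ENNReal.ofReal ((m + 1) / (2 * lam)) * ENNReal.ofReal Λ := by
            gcongr
            exact (lintegral_mono_set hAnA).trans hE
        _ = _ := by
            rw [← ENNReal.ofReal_mul (by positivity), ← ENNReal.ofReal_mul (by positivity),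
              ← ENNReal.ofReal_add (by positivity) (by positivity)]
    have hn4 : 4 ≤ n := by
      have : 4 < n0 := by exact_mod_cast hn04
      omega
    have hfin := (hAnn g hgd n N hn4 hN1 hN2).trans (mul_le_mul_right hZ (ENNReal.ofReal C₂))
    rw [← ENNReal.ofReal_mul hC₂, ENNReal.ofReal_le_ofReal_iff (by positivity)] at hfin
    refine hfin.trans ?_
    -- final numeric estimate
    set t : ℝ := 1 + √M with ht
    have ht1 : 1 ≤ t := by rw [ht]; linarith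
    have htM : M ≤ t ^ 2 := ax6 _ _ _ hsM (Real.sq_sqrt hM) ht
    set q : ℝ := 1 + Real.log n with hq
    have hq1 : 1 ≤ q := by rw [hq]; linarith
    have hLb : L ≤ K1 * q * t ^ 2 := by
      have hqt : 1 ≤ q * t ^ 2 := by
        have : 1 ≤ t ^ 2 := one_le_pow₀ ht1
        nlinarith
      have e1 : 2 * π * ‖f 0‖ ^ 2 + 8 * (G1 ^ 2 * π) ≤
          (2 * π * ‖f 0‖ ^ 2 + 8 * (G1 ^ 2 * π)) * (q * t ^ 2) :=
        le_mul_of_one_le_right (by positivity) hqt
      have e2 : 16 * (m + 1) * K0 * q * M ≤ 16 * (m + 1) * K0 * q * t ^ 2 := by gcongr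
      have e3 : L = (2 * π * ‖f 0‖ ^ 2 + 8 * (G1 ^ 2 * π)) + 16 * (m + 1) * K0 * q * M := by
        rw [hL, hΛ]; ring
      have e4 : K1 * q * t ^ 2 = (2 * π * ‖f 0‖ ^ 2 + 8 * (G1 ^ 2 * π)) * (q * t ^ 2) +
          16 * (m + 1) * K0 * q * t ^ 2 := by
        rw [hK1]; ring
      rw [e3, e4]
      exact add_le_add e1 e2
    have hsn2 : √(n:ℝ) ^ 2 = n := Real.sq_sqrt hnpos.le
    have hterm1 : lam / 2 * (1 / n * L) ≤ K1 / 2 * q * t / √n := by
      have e1 : lam / 2 * (1 / n * L) = L / (2 * t * √n) := by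
        rw [hlam]
        nth_rewrite 2 [← hsn2]
        field_simp
      have e2 : K1 / 2 * q * t / √n = (K1 * q * t ^ 2) / (2 * t * √n) := by
        field_simp
      rw [e1, e2]
      gcongr
    have hterm2 : (m + 1) / (2 * lam) * Λ = (m + 1) * K0 / 2 * q * t / √n := by
      rw [hlam, hΛ]
      field_simp
    calc C₂ * (lam / 2 * (1 / n * L) + (m + 1) / (2 * lam) * Λ)
        ≤ C₂ * (K1 / 2 * q * t / √n + (m + 1) * K0 / 2 * q * t / √n) := by
          rw [hterm2]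
          gcongr
      _ = C₂ * ((K1 + (m + 1) * K0) / 2) * q * t / √n := by ring
      _ ≤ (C₂ * ((K1 + (m + 1) * K0) / 2) + √n0 * B2) * q * t / √n := by
          have : 0 ≤ √(n0:ℝ) * B2 := by positivity
          gcongr
          linarith

end CoeffEst

end MeanVal
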