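import Mathlib
import Pool.Agent.Helper772.MV.Defs

open MeasureTheory Metric Set
open scoped ENNReal Real

namespace MeanVal

namespace Cross


lemma polar_9943 (g : ℝ → ℝ≥0∞) (hg : Measurable g) (Θ : Set ℝ) (hΘ : MeasurableSet Θ) :
    ∫⁻ q : ℂ, {q : ℂ | Complex.arg q ∈ Θ}.indicator (fun q => g ‖q‖) q
      = (∫⁻ r in Ioi (0:ℝ), ENNReal.ofReal r * g r) * volume (Θ ∩ Ioo (-π) π) := by
  rw [← Complex.lintegral_comp_polarCoord_symm]
  have h1 : polarCoord.target = Ioi (0:ℝ) ×ˢ Ioo (-π) π := rfl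
  rw [h1]
  have h2 : ∀ p ∈ Ioi (0:ℝ) ×ˢ Ioo (-π) π, ENNReal.ofReal p.1 •
      ({q : ℂ | Complex.arg q ∈ Θ}.indicator (fun q => g ‖q‖) (Complex.polarCoord.symm p)) =
      (ENNReal.ofReal p.1 * g p.1) * Θ.indicator 1 p.2 := by
    rintro ⟨r, θ⟩ ⟨hr, hθ⟩
    have hr' : (0:ℝ) < r := hr
    have hθ' : θ ∈ Ioc (-π) π := ⟨hθ.1, hθ.2.le⟩
    have h3 : Complex.arg (Complex.polarCoord.symm (r, θ)) = θ := by
      rw [Complex.polarCoord_symm_apply]
      simpa using Complex.arg_mul_cos_add_sin_mul_I hr' hθ'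
    have h4 : ‖Complex.polarCoord.symm (r, θ)‖ = r := by
      rw [Complex.norm_polarCoord_symm]
      exact abs_of_pos hr'
    by_cases h5 : θ ∈ Θ
    · rw [indicator_of_mem (by show Complex.arg _ ∈ Θ; rw [h3]; exact h5),
        indicator_of_mem h5, h4]
      simp
    · rw [indicator_of_notMem (by show ¬ (Complex.arg _ ∈ Θ); rw [h3]; exact h5),
        indicator_of_notMem h5]
      simp
  rw [setLIntegral_congr_fun (measurableSet_Ioi.prod measurableSet_Ioo) h2]
  rw [Measure.volume_eq_prod, ← Measure.prod_restrict,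
    lintegral_prod_mul (f := fun r => ENNReal.ofReal r * g r) (g := Θ.indicator 1)]
  · rw [lintegral_indicator_one hΘ, Measure.restrict_apply hΘ]
  · exact (ENNReal.measurable_ofReal.mul hg).aemeasurable
  · exact (measurable_one.indicator hΘ).aemeasurable

lemma trans_9943 (ζ : ℂ) (hζ : ‖ζ‖ = 1) (F : ℂ → ℝ≥0∞) (hF : Measurable F) :
    ∫⁻ w : ℂ, F (1 - (starRingEnd ℂ) ζ * w) = ∫⁻ q, F q := by
  have hc : ‖-(starRingEnd ℂ) ζ‖ = 1 := by rw [norm_neg, RCLike.norm_conj, hζ]
  have hm : MeasurePreserving (fun w : ℂ => 1 + (-(starRingEnd ℂ) ζ) * w) volume volume := by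
    have h1 := (rotation (⟨-(starRingEnd ℂ) ζ, mem_sphere_zero_iff_norm.mpr hc⟩ :
      Circle)).measurePreserving
    exact (measurePreserving_add_left volume (1:ℂ)).comp h1
  rw [← hm.lintegral_comp hF]
  apply lintegral_congr
  intro w
  congr 1
  ring

lemma ang_9943 (g : ℝ → ℝ≥0∞) (hg : Measurable g) (Θ : Set ℝ) (hΘ : MeasurableSet Θ) :
    Measurable (fun q : ℂ => {q : ℂ | Complex.arg q ∈ Θ}.indicator (fun q => g ‖q‖) q) := by
  apply Measurable.indicator (hg.comp measurable_norm)
  exact Complex.measurable_arg hΘ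

lemma int1_9943 (A x₀ : ℝ) (hA : 0 < A) (hA2 : A ≤ 2) (hx : x₀ ≤ 1) :
    ∫⁻ r in Ioi (0:ℝ), ENNReal.ofReal r *
      (Ioo A x₀).indicator (fun r => ENNReal.ofReal (1 / r ^ 2)) r ≤
      ENNReal.ofReal (Real.log (2 / A)) := by
  have h1 : ∀ r ∈ Ioi (0:ℝ), ENNReal.ofReal r *
      (Ioo A x₀).indicator (fun r => ENNReal.ofReal (1 / r ^ 2)) r =
      (Ioo A x₀).indicator (fun r => ENNReal.ofReal (1 / r)) r := by
    intro r hr
    have hr' : (0:ℝ) < r := hr
    by_cases h : r ∈ Ioo A x₀
    · rw [indicator_of_mem h, indicator_of_mem h, ← ENNReal.ofReal_mul hr'.le]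
      congr 1
      field_simp
    · rw [indicator_of_notMem h, indicator_of_notMem h, mul_zero]
  rw [setLIntegral_congr_fun measurableSet_Ioi h1]
  refine (setLIntegral_le_lintegral _ _).trans ?_
  rw [lintegral_indicator measurableSet_Ioo]
  rcases le_or_gt x₀ A with h | h
  · rw [Ioo_eq_empty (not_lt.mpr h)]
    simp
  · have hx0 : 0 < x₀ := hA.trans h
    have hint : IntegrableOn (fun r : ℝ => 1 / r) (Ioc A x₀) := by
      have h2 : IntervalIntegrable (fun r : ℝ => 1 / r) volume A x₀ := by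
        apply intervalIntegral.intervalIntegrable_one_div
        · intro r hr
          rw [uIcc_of_le h.le] at hr
          exact (hA.trans_le hr.1).ne'
        · exact continuousOn_id
      exact (intervalIntegrable_iff_integrableOn_Ioc_of_le h.le).mp h2
    calc ∫⁻ r in Ioo A x₀, ENNReal.ofReal (1 / r) ≤ ∫⁻ r in Ioc A x₀, ENNReal.ofReal (1 / r) :=
          lintegral_mono_set Ioo_subset_Ioc_self
      _ = ENNReal.ofReal (∫ r in Ioc A x₀, 1 / r) := by
          rw [ofReal_integral_eq_lintegral_ofReal hint]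
          refine (ae_restrict_iff' measurableSet_Ioc).mpr (Filter.Eventually.of_forall ?_)
          intro r hr
          have : 0 < r := hA.trans hr.1
          simp only [Pi.zero_apply]
          positivity
      _ = ENNReal.ofReal (Real.log (x₀ / A)) := by
          rw [← intervalIntegral.integral_of_le h.le, integral_one_div_of_pos hA hx0]
      _ ≤ ENNReal.ofReal (Real.log (2 / A)) := by
          apply ENNReal.ofReal_le_ofReal
          apply Real.log_le_log (by positivity)
          apply div_le_div_of_nonneg_right _ hA.le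
          linarith

lemma int2_9943 (A : ℝ) (hA : 0 < A) :
    ∫⁻ r in Ioi (0:ℝ), ENNReal.ofReal r *
      (Iic A).indicator (fun r => ENNReal.ofReal (1 / r)) r ≤ ENNReal.ofReal A := by
  have h1 : ∀ r ∈ Ioi (0:ℝ), ENNReal.ofReal r *
      (Iic A).indicator (fun r => ENNReal.ofReal (1 / r)) r =
      (Ioc 0 A).indicator (fun _ => (1:ℝ≥0∞)) r := by
    intro r hr
    have hr' : (0:ℝ) < r := hr
    by_cases h : r ≤ A
    · rw [indicator_of_mem (show r ∈ Iic A from h),
        indicator_of_mem (show r ∈ Ioc 0 A from ⟨hr', h⟩), ← ENNReal.ofReal_mul hr'.le]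
      rw [mul_one_div_cancel hr'.ne', ENNReal.ofReal_one]
    · rw [indicator_of_notMem (show r ∉ Iic A from h),
        indicator_of_notMem (show r ∉ Ioc 0 A from fun h' => h h'.2), mul_zero]
  rw [setLIntegral_congr_fun measurableSet_Ioi h1]
  refine (setLIntegral_le_lintegral _ _).trans ?_
  rw [lintegral_indicator measurableSet_Ioc]
  simp

theorem cross_integral (th : ℝ) (hth : 0 < th) (hth2 : th < π / 2) :
    ∃ C : ℝ, 0 ≤ C ∧ ∀ (ζ ζ' : ℂ) (a a' x₀ : ℝ), ‖ζ‖ = 1 → ‖ζ'‖ = 1 → 0 < a → 0 < a' →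
      a < x₀ → a' < x₀ → x₀ ≤ 1 →
      ∫⁻ w in sector ζ a x₀ th ∩ sector ζ' a' x₀ th,
        ENNReal.ofReal (1 / (‖1 - (starRingEnd ℂ) ζ * w‖ * ‖1 - (starRingEnd ℂ) ζ' * w‖))
        ≤ ENNReal.ofReal (2 * th * Real.log (1 / max (max a a') ‖ζ - ζ'‖) + C) := by
  have hlog2 : 0 < Real.log 2 := Real.log_pos (by norm_num)
  have hpi := Real.pi_pos
  refine ⟨8 * π + 2 * th * Real.log 2, by positivity, ?_⟩
  intro ζ ζ' a a' x₀ hζ hζ' ha ha' hax ha'x hx
  set A : ℝ := max (max a a') ‖ζ - ζ'‖ with hAdef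
  have haA : a ≤ A := (le_max_left a a').trans (le_max_left _ _)
  have haA' : a' ≤ A := (le_max_right a a').trans (le_max_left _ _)
  have hDA : ‖ζ - ζ'‖ ≤ A := le_max_right _ _
  have hA : 0 < A := ha.trans_le haA
  have hA2 : A ≤ 2 := by
    refine max_le (max_le (by linarith) (by linarith)) ?_
    calc ‖ζ - ζ'‖ ≤ ‖ζ‖ + ‖ζ'‖ := norm_sub_le _ _
      _ = 2 := by rw [hζ, hζ']; norm_num
  have hAcase : A = a ∨ A = a' ∨ A = ‖ζ - ζ'‖ := by
    rcases max_choice (max a a') ‖ζ - ζ'‖ with h | h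
    · rcases max_choice a a' with h' | h'
      · left; rw [hAdef, h, h']
      · right; left; rw [hAdef, h, h']
    · right; right; rw [hAdef, h]
  set F : ℂ → ℝ≥0∞ := fun q => {q : ℂ | Complex.arg q ∈ Ioo (-th) th}.indicator
    (fun q => (Ioo A x₀).indicator (fun r => ENNReal.ofReal (1 / r ^ 2)) ‖q‖) q with hF
  set G : ℂ → ℝ≥0∞ := fun q => {q : ℂ | Complex.arg q ∈ (univ : Set ℝ)}.indicator
    (fun q => (Iic A).indicator (fun r => ENNReal.ofReal (1 / r)) ‖q‖) q with hG
  have hg1 : Measurable (fun r : ℝ =>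
      (Ioo A x₀).indicator (fun r => ENNReal.ofReal (1 / r ^ 2)) r) := by
    apply Measurable.indicator _ measurableSet_Ioo
    fun_prop
  have hg2 : Measurable (fun r : ℝ =>
      (Iic A).indicator (fun r => ENNReal.ofReal (1 / r)) r) := by
    apply Measurable.indicator _ measurableSet_Iic
    fun_prop
  have hFm : Measurable F := ang_9943 _ hg1 _ measurableSet_Ioo
  have hGm : Measurable G := ang_9943 _ hg2 _ MeasurableSet.univ
  have hFi : ∫⁻ q, F q ≤ ENNReal.ofReal (Real.log (2 / A)) * ENNReal.ofReal (2 * th) := by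
    rw [hF, polar_9943 _ hg1 _ measurableSet_Ioo]
    refine mul_le_mul' (int1_9943 A x₀ hA hA2 hx) ?_
    refine (measure_mono inter_subset_left).trans ?_
    rw [Real.volume_Ioo]
    apply ENNReal.ofReal_le_ofReal
    linarith
  have hGi : ∫⁻ q, G q ≤ ENNReal.ofReal A * ENNReal.ofReal (2 * π) := by
    rw [hG, polar_9943 _ hg2 _ MeasurableSet.univ]
    refine mul_le_mul' (int2_9943 A hA) ?_
    refine (measure_mono inter_subset_right).trans ?_
    rw [Real.volume_Ioo]
    apply ENNReal.ofReal_le_ofReal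
    linarith
  set T : ℂ → ℂ := fun w => 1 - (starRingEnd ℂ) ζ * w with hT
  set T' : ℂ → ℂ := fun w => 1 - (starRingEnd ℂ) ζ' * w with hT'
  have hTm : Measurable T := by fun_prop
  have hTm' : Measurable T' := by fun_prop
  have hnorm : ∀ z : ℂ, ‖z‖ = 1 → ∀ w, ‖1 - (starRingEnd ℂ) z * w‖ = ‖z - w‖ := by
    intro z hz w
    have h1 : (starRingEnd ℂ) z * z = 1 := by
      rw [mul_comm, Complex.mul_conj, Complex.normSq_eq_norm_sq, hz]
      norm_num
    have h2 : 1 - (starRingEnd ℂ) z * w = (starRingEnd ℂ) z * (z - w) := by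
      rw [mul_sub, h1]
    rw [h2, norm_mul, RCLike.norm_conj, hz, one_mul]
  have hpt : ∀ w ∈ sector ζ a x₀ th ∩ sector ζ' a' x₀ th,
      ENNReal.ofReal (1 / (‖1 - (starRingEnd ℂ) ζ * w‖ * ‖1 - (starRingEnd ℂ) ζ' * w‖)) ≤
      ENNReal.ofReal (1 / 2) * (F (T w) + F (T' w)) +
        ENNReal.ofReal (2 / A) * (G (T w) + G (T' w)) := by
    rintro w ⟨⟨h1, h2, h3⟩, ⟨h1', h2', h3'⟩⟩
    set x := ‖1 - (starRingEnd ℂ) ζ * w‖ with hxdef
    set y := ‖1 - (starRingEnd ℂ) ζ' * w‖ with hydef
    have hx0 : 0 < x := ha.trans h1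
    have hy0 : 0 < y := ha'.trans h1'
    have hxy : ‖ζ - ζ'‖ ≤ x + y := by
      rw [hxdef, hydef, hnorm ζ hζ, hnorm ζ' hζ', norm_sub_rev ζ' w]
      calc ‖ζ - ζ'‖ = ‖(ζ - w) + (w - ζ')‖ := by congr 1; ring
        _ ≤ _ := norm_add_le _ _
    by_cases hboth : A < x ∧ A < y
    · have hF1 : F (T w) = ENNReal.ofReal (1 / x ^ 2) := by
        simp only [hF]
        rw [indicator_of_mem (show T w ∈ {q : ℂ | Complex.arg q ∈ Ioo (-th) th} from
          abs_lt.mp h3), indicator_of_mem (show ‖T w‖ ∈ Ioo A x₀ from ⟨hboth.1, h2⟩)]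
      have hF2 : F (T' w) = ENNReal.ofReal (1 / y ^ 2) := by
        simp only [hF]
        rw [indicator_of_mem (show T' w ∈ {q : ℂ | Complex.arg q ∈ Ioo (-th) th} from
          abs_lt.mp h3'), indicator_of_mem (show ‖T' w‖ ∈ Ioo A x₀ from ⟨hboth.2, h2'⟩)]
      refine le_trans ?_ le_self_add
      rw [hF1, hF2, ← ENNReal.ofReal_add (by positivity) (by positivity),
        ← ENNReal.ofReal_mul (by norm_num)]
      apply ENNReal.ofReal_le_ofReal
      have h4 : 1 / (x * y) = (1 / x) * (1 / y) := by field_simp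
      have h5 : 1 / 2 * (1 / x ^ 2 + 1 / y ^ 2) = ((1 / x) ^ 2 + (1 / y) ^ 2) / 2 := by
        field_simp
      rw [h4, h5]
      nlinarith [sq_nonneg (1 / x - 1 / y)]
    · refine le_trans ?_ le_add_self
      have hM : A / 2 ≤ max x y := by
        rcases hAcase with h | h | h
        · exact le_trans (by linarith) (le_max_left x y)
        · exact le_trans (by linarith) (le_max_right x y)
        · rcases le_total x y with hle | hle
          · rw [max_eq_right hle]; linarith
          · rw [max_eq_left hle]; linarith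
      rcases le_total x y with hle | hle
      · have hxA : x ≤ A := by
          by_contra hcon
          push Not at hcon
          exact hboth ⟨hcon, hcon.trans_le hle⟩
        rw [max_eq_right hle] at hM
        have hG1 : G (T w) = ENNReal.ofReal (1 / x) := by
          simp only [hG]
          rw [indicator_of_mem (show T w ∈ {q : ℂ | Complex.arg q ∈ (univ : Set ℝ)} from
            mem_univ _), indicator_of_mem (show ‖T w‖ ∈ Iic A from hxA)]
        refine le_trans ?_ (mul_le_mul_right le_self_add _)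
        rw [hG1, ← ENNReal.ofReal_mul (by positivity)]
        apply ENNReal.ofReal_le_ofReal
        rw [div_mul_div_comm, mul_one, div_le_div_iff₀ (by positivity) (by positivity)]
        nlinarith
      · have hyA : y ≤ A := by
          by_contra hcon
          push Not at hcon
          exact hboth ⟨hcon.trans_le hle, hcon⟩
        rw [max_eq_left hle] at hM
        have hG1 : G (T' w) = ENNReal.ofReal (1 / y) := by
          simp only [hG]
          rw [indicator_of_mem (show T' w ∈ {q : ℂ | Complex.arg q ∈ (univ : Set ℝ)} from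
            mem_univ _), indicator_of_mem (show ‖T' w‖ ∈ Iic A from hyA)]
        refine le_trans ?_ (mul_le_mul_right le_add_self _)
        rw [hG1, ← ENNReal.ofReal_mul (by positivity)]
        apply ENNReal.ofReal_le_ofReal
        rw [div_mul_div_comm, mul_one, div_le_div_iff₀ (by positivity) (by positivity)]
        nlinarith
  have hFT : Measurable (fun w => F (T w)) := hFm.comp hTm
  have hFT' : Measurable (fun w => F (T' w)) := hFm.comp hTm'
  have hGT : Measurable (fun w => G (T w)) := hGm.comp hTm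
  have hGT' : Measurable (fun w => G (T' w)) := hGm.comp hTm'
  have hBm : Measurable (fun w => ENNReal.ofReal (1 / 2) * (F (T w) + F (T' w)) +
        ENNReal.ofReal (2 / A) * (G (T w) + G (T' w))) := by
    fun_prop
  have hlogA : 0 ≤ Real.log (2 / A) := Real.log_nonneg (by rw [le_div_iff₀ hA]; linarith)
  calc ∫⁻ w in sector ζ a x₀ th ∩ sector ζ' a' x₀ th,
        ENNReal.ofReal (1 / (‖1 - (starRingEnd ℂ) ζ * w‖ * ‖1 - (starRingEnd ℂ) ζ' * w‖))
      ≤ ∫⁻ w in sector ζ a x₀ th ∩ sector ζ' a' x₀ th,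
        (ENNReal.ofReal (1 / 2) * (F (T w) + F (T' w)) +
        ENNReal.ofReal (2 / A) * (G (T w) + G (T' w))) := setLIntegral_mono hBm hpt
    _ ≤ ∫⁻ w, (ENNReal.ofReal (1 / 2) * (F (T w) + F (T' w)) +
        ENNReal.ofReal (2 / A) * (G (T w) + G (T' w))) := setLIntegral_le_lintegral _ _
    _ = ENNReal.ofReal (1 / 2) * ((∫⁻ q, F q) + (∫⁻ q, F q)) +
        ENNReal.ofReal (2 / A) * ((∫⁻ q, G q) + (∫⁻ q, G q)) := by
      have hs1 : Measurable (fun w => F (T w) + F (T' w)) := hFT.add hFT'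
      have hs2 : Measurable (fun w => G (T w) + G (T' w)) := hGT.add hGT'
      have hs3 : Measurable (fun w => ENNReal.ofReal (1 / 2) * (F (T w) + F (T' w))) :=
        hs1.const_mul _
      rw [lintegral_add_left hs3, lintegral_const_mul _ hs1,
        lintegral_const_mul _ hs2, lintegral_add_left hFT, lintegral_add_left hGT,
        trans_9943 ζ hζ F hFm, trans_9943 ζ' hζ' F hFm, trans_9943 ζ hζ G hGm,
        trans_9943 ζ' hζ' G hGm]
    _ ≤ ENNReal.ofReal (1 / 2) * (ENNReal.ofReal (Real.log (2 / A)) * ENNReal.ofReal (2 * th) +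
          ENNReal.ofReal (Real.log (2 / A)) * ENNReal.ofReal (2 * th)) +
        ENNReal.ofReal (2 / A) * (ENNReal.ofReal A * ENNReal.ofReal (2 * π) +
          ENNReal.ofReal A * ENNReal.ofReal (2 * π)) := by
      gcongr
    _ = ENNReal.ofReal (2 * th * Real.log (1 / A) + (8 * π + 2 * th * Real.log 2)) := by
      rw [← ENNReal.ofReal_mul hlogA, ← ENNReal.ofReal_mul hA.le,
        ← ENNReal.ofReal_add (by positivity) (by positivity),
        ← ENNReal.ofReal_add (by positivity) (by positivity),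
        ← ENNReal.ofReal_mul (by norm_num), ← ENNReal.ofReal_mul (by positivity),
        ← ENNReal.ofReal_add (by positivity) (by positivity)]
      congr 1
      rw [Real.log_div (by norm_num) hA.ne', Real.log_div (by norm_num) hA.ne', Real.log_one]
      field_simp
      ring

end Cross

end MeanVal
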