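import Mathlib
import Pool.Agent.Helper772.MV.Defs

open MeasureTheory Metric Set
open scoped ENNReal Real

namespace MeanVal

namespace Energy




theorem layer_int {x b : ℝ} (hx : 0 < x) (hxb : x ≤ b) :
    ENNReal.ofReal (1 / x ^ 2) ≤ ENNReal.ofReal (1 / b ^ 2) +
      ∫⁻ ρ in Ioo x b, ENNReal.ofReal (2 / ρ ^ 3) := by
  have hb : 0 < b := lt_of_lt_of_le hx hxb
  have hcont : ContinuousOn (fun ρ : ℝ => 2 / ρ ^ 3) (Icc x b) := by
    apply ContinuousOn.div continuousOn_const (by fun_prop)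
    intro ρ hρ
    exact pow_ne_zero _ (lt_of_lt_of_le hx hρ.1).ne'
  have hint : IntegrableOn (fun ρ : ℝ => 2 / ρ ^ 3) (Icc x b) := hcont.integrableOn_Icc
  have h1 : ∫ ρ in x..b, 2 / ρ ^ 3 = 1 / x ^ 2 - 1 / b ^ 2 := by
    have hder : ∀ ρ ∈ uIcc x b, HasDerivAt (fun ρ : ℝ => - (ρ ^ 2)⁻¹) (2 / ρ ^ 3) ρ := by
      intro ρ hρ
      rw [uIcc_of_le hxb] at hρ
      have hρ0 : ρ ≠ 0 := (lt_of_lt_of_le hx hρ.1).ne'
      have h := ((hasDerivAt_pow 2 ρ).inv (pow_ne_zero 2 hρ0)).neg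
      refine h.congr_deriv ?_
      push_cast
      field_simp
      try ring
    rw [intervalIntegral.integral_eq_sub_of_hasDerivAt hder]
    · rw [one_div, one_div]; ring
    · rw [intervalIntegrable_iff_integrableOn_Ioc_of_le hxb]
      exact hint.mono_set Ioc_subset_Icc_self
  have h2 : ∫⁻ ρ in Ioo x b, ENNReal.ofReal (2 / ρ ^ 3) = ENNReal.ofReal (1 / x ^ 2 - 1 / b ^ 2) := by
    rw [← h1, intervalIntegral.integral_of_le hxb, integral_Ioc_eq_integral_Ioo]
    rw [ofReal_integral_eq_lintegral_ofReal (hint.mono_set Ioo_subset_Icc_self)]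
    filter_upwards [ae_restrict_mem measurableSet_Ioo] with ρ hρ
    have : 0 < ρ := hx.trans hρ.1
    show (0:ℝ) ≤ 2 / ρ ^ 3
    positivity
  rw [h2, ← ENNReal.ofReal_add (by positivity)]
  · exact le_of_eq (by congr 1; ring)
  · rw [sub_nonneg]
    apply one_div_le_one_div_of_le (by positivity)
    exact pow_le_pow_left₀ hx.le hxb 2

theorem log_int {a b c : ℝ} (ha : 0 < a) (hab : a ≤ b) (hc : 0 ≤ c) :
    ∫⁻ ρ in Ioo a b, ENNReal.ofReal (c / ρ) = ENNReal.ofReal (c * Real.log (b / a)) := by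
  have hb : 0 < b := lt_of_lt_of_le ha hab
  have hcont : ContinuousOn (fun ρ : ℝ => c / ρ) (Icc a b) := by
    apply ContinuousOn.div continuousOn_const (by fun_prop)
    intro ρ hρ
    exact (lt_of_lt_of_le ha hρ.1).ne'
  have hint : IntegrableOn (fun ρ : ℝ => c / ρ) (Icc a b) := hcont.integrableOn_Icc
  have h1 : ∫ ρ in a..b, c / ρ = c * Real.log (b / a) := by
    have : (fun ρ : ℝ => c / ρ) = fun ρ => c * ρ⁻¹ := by
      funext ρ; rw [div_eq_mul_inv]
    rw [this, intervalIntegral.integral_const_mul, integral_inv_of_pos ha hb]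
  rw [← h1, intervalIntegral.integral_of_le hab, integral_Ioc_eq_integral_Ioo,
    ofReal_integral_eq_lintegral_ofReal (hint.mono_set Ioo_subset_Icc_self)]
  filter_upwards [ae_restrict_mem measurableSet_Ioo] with ρ hρ
  have : 0 < ρ := ha.trans hρ.1
  show (0:ℝ) ≤ c / ρ
  positivity

theorem energy_le {p : ℝ} (hp : 0 < p) {f : ℂ → ℂ} (hf : AreaBound p f) {a b : ℝ}
    (ha : 0 < a) (hab : a ≤ b) :
    ∫⁻ z in {z : ℂ | z ∈ ball (0:ℂ) 1 ∧ a < ‖f z‖ ∧ ‖f z‖ < b},
      ENNReal.ofReal ((‖deriv f z‖ / ‖f z‖) ^ 2)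
      ≤ ENNReal.ofReal (π * p * (1 + 2 * Real.log (b / a))) := by
  classical
  have hb : 0 < b := lt_of_lt_of_le ha hab
  have hfc : ContinuousOn f (ball (0:ℂ) 1) := hf.1.continuousOn
  let F : ℂ → ℂ := (ball (0:ℂ) 1).piecewise f (fun _ => 0)
  have hF : Measurable F := hfc.measurable_piecewise continuousOn_const measurableSet_ball
  have hFf : ∀ z ∈ ball (0:ℂ) 1, F z = f z := fun z hz => Set.piecewise_eq_of_mem _ _ _ hz
  have hg : Measurable (fun z : ℂ => ‖deriv f z‖ₑ ^ 2) := ((measurable_deriv f).enorm).pow_const 2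
  set S : Set ℂ := {z : ℂ | z ∈ ball (0:ℂ) 1 ∧ a < ‖f z‖ ∧ ‖f z‖ < b} with hS
  have hSS : S = ball (0:ℂ) 1 ∩ (F ⁻¹' {w : ℂ | a < ‖w‖ ∧ ‖w‖ < b}) := by
    ext z
    constructor
    · rintro ⟨h1, h2⟩
      refine ⟨h1, ?_⟩
      show a < ‖F z‖ ∧ ‖F z‖ < b
      rw [hFf z h1]; exact h2
    · rintro ⟨h1, h2⟩
      refine ⟨h1, ?_⟩
      have h3 : a < ‖F z‖ ∧ ‖F z‖ < b := h2
      rw [hFf z h1] at h3; exact h3
  have hSm : MeasurableSet S := by
    rw [hSS]
    refine measurableSet_ball.inter (hF ?_)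
    exact ((isOpen_lt continuous_const continuous_norm).inter
      (isOpen_lt continuous_norm continuous_const)).measurableSet
  let Φ : ℂ → ℝ → ℝ≥0∞ := fun z ρ =>
    ({q : ℂ × ℝ | ‖F q.1‖ < q.2}.indicator (fun q => ENNReal.ofReal (2 / q.2 ^ 3)) (z, ρ)) *
      ‖deriv f z‖ₑ ^ 2
  have hΦ : Measurable (Function.uncurry Φ) := by
    have h1 : MeasurableSet {q : ℂ × ℝ | ‖F q.1‖ < q.2} :=
      measurableSet_lt (hF.comp measurable_fst).norm measurable_snd
    have h2 : Measurable (fun q : ℂ × ℝ => ENNReal.ofReal (2 / q.2 ^ 3)) := by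
      apply Measurable.ennreal_ofReal
      exact measurable_const.div (measurable_snd.pow_const 3)
    exact (h2.indicator h1).mul (hg.comp measurable_fst)
  -- pointwise bound
  have hpt : ∀ z ∈ S, ENNReal.ofReal ((‖deriv f z‖ / ‖f z‖) ^ 2) ≤
      ENNReal.ofReal (1 / b ^ 2) * ‖deriv f z‖ₑ ^ 2 + ∫⁻ ρ in Ioo a b, Φ z ρ := by
    rintro z ⟨hz, haz, hzb⟩
    have hfz : 0 < ‖f z‖ := ha.trans haz
    have e1 : ENNReal.ofReal ((‖deriv f z‖ / ‖f z‖) ^ 2) =
        ENNReal.ofReal (1 / ‖f z‖ ^ 2) * ‖deriv f z‖ₑ ^ 2 := by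
      rw [← ofReal_norm_eq_enorm, ← ENNReal.ofReal_pow (norm_nonneg _),
        ← ENNReal.ofReal_mul (by positivity)]
      congr 1
      field_simp
    have e2 : ∫⁻ ρ in Ioo a b, Φ z ρ =
        (∫⁻ ρ in Ioo (‖f z‖) b, ENNReal.ofReal (2 / ρ ^ 3)) * ‖deriv f z‖ₑ ^ 2 := by
      show ∫⁻ ρ in Ioo a b, _ * ‖deriv f z‖ₑ ^ 2 = _
      rw [lintegral_mul_const']
      · congr 1
        have e3 : (fun ρ : ℝ => {q : ℂ × ℝ | ‖F q.1‖ < q.2}.indicator
            (fun q => ENNReal.ofReal (2 / q.2 ^ 3)) (z, ρ)) =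
            (Ioi (‖f z‖)).indicator (fun ρ : ℝ => ENNReal.ofReal (2 / ρ ^ 3)) := by
          funext ρ
          by_cases h : ‖f z‖ < ρ
          · have h' : ‖F z‖ < ρ := by rw [hFf z hz]; exact h
            rw [Set.indicator_of_mem (show (z, ρ) ∈ {q : ℂ × ℝ | ‖F q.1‖ < q.2} from h'),
              Set.indicator_of_mem (show ρ ∈ Ioi ‖f z‖ from h)]
          · have h' : ¬ ‖F z‖ < ρ := by rw [hFf z hz]; exact h
            rw [Set.indicator_of_notMem (show (z, ρ) ∉ {q : ℂ × ℝ | ‖F q.1‖ < q.2} from h'),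
              Set.indicator_of_notMem (show ρ ∉ Ioi ‖f z‖ from h)]
        rw [e3, lintegral_indicator measurableSet_Ioi, Measure.restrict_restrict measurableSet_Ioi]
        congr 2
        ext ρ
        simp only [mem_inter_iff, mem_Ioi, mem_Ioo]
        constructor
        · rintro ⟨h1, h2, h3⟩; exact ⟨h1, h3⟩
        · rintro ⟨h1, h2⟩; exact ⟨h1, haz.trans h1, h2⟩
      · exact ENNReal.pow_ne_top enorm_ne_top
    rw [e1, e2, ← add_mul]
    exact mul_le_mul' (layer_int hfz hzb.le) le_rfl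
  calc ∫⁻ z in S, ENNReal.ofReal ((‖deriv f z‖ / ‖f z‖) ^ 2)
      ≤ ∫⁻ z in S, (ENNReal.ofReal (1 / b ^ 2) * ‖deriv f z‖ₑ ^ 2 + ∫⁻ ρ in Ioo a b, Φ z ρ) :=
        setLIntegral_mono' hSm hpt
    _ = (∫⁻ z in S, ENNReal.ofReal (1 / b ^ 2) * ‖deriv f z‖ₑ ^ 2) +
          ∫⁻ z in S, ∫⁻ ρ in Ioo a b, Φ z ρ := lintegral_add_left (hg.const_mul _) _
    _ ≤ ENNReal.ofReal (π * p) + ENNReal.ofReal (2 * (π * p) * Real.log (b / a)) := by
        refine add_le_add ?_ ?_
        · rw [lintegral_const_mul _ hg]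
          have h1 : ∫⁻ z in S, ‖deriv f z‖ₑ ^ 2 ≤ ENNReal.ofReal (π * p * b ^ 2) := by
            refine le_trans (lintegral_mono_set ?_) (hf.2 b hb)
            rintro z ⟨h1, _, h3⟩
            exact ⟨h1, by simpa using h3⟩
          refine (mul_le_mul' le_rfl h1).trans ?_
          rw [← ENNReal.ofReal_mul (by positivity)]
          apply ENNReal.ofReal_le_ofReal
          apply le_of_eq
          field_simp
        · rw [lintegral_lintegral_swap hΦ.aemeasurable]
          rw [← log_int ha hab (by positivity)]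
          refine setLIntegral_mono' measurableSet_Ioo ?_
          intro ρ hρ
          have hρ0 : 0 < ρ := ha.trans hρ.1
          have e4 : ∀ z, Φ z ρ = ENNReal.ofReal (2 / ρ ^ 3) *
              ({z : ℂ | ‖F z‖ < ρ}.indicator (fun z => ‖deriv f z‖ₑ ^ 2) z) := by
            intro z
            by_cases h : ‖F z‖ < ρ
            · show ({q : ℂ × ℝ | ‖F q.1‖ < q.2}.indicator _ (z, ρ)) * _ = _
              rw [Set.indicator_of_mem (show (z, ρ) ∈ {q : ℂ × ℝ | ‖F q.1‖ < q.2} from h),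
                Set.indicator_of_mem (show z ∈ {z : ℂ | ‖F z‖ < ρ} from h)]
            · show ({q : ℂ × ℝ | ‖F q.1‖ < q.2}.indicator _ (z, ρ)) * _ = _
              rw [Set.indicator_of_notMem (show (z, ρ) ∉ {q : ℂ × ℝ | ‖F q.1‖ < q.2} from h),
                Set.indicator_of_notMem (show z ∉ {z : ℂ | ‖F z‖ < ρ} from h), zero_mul, mul_zero]
          have hmF : MeasurableSet {z : ℂ | ‖F z‖ < ρ} := measurableSet_lt hF.norm measurable_const
          simp_rw [e4]
          rw [lintegral_const_mul _ (hg.indicator hmF), lintegral_indicator hmF,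
            Measure.restrict_restrict hmF]
          have h5 : ∫⁻ z in {z : ℂ | ‖F z‖ < ρ} ∩ S, ‖deriv f z‖ₑ ^ 2 ≤
              ENNReal.ofReal (π * p * ρ ^ 2) := by
            refine le_trans (lintegral_mono_set ?_) (hf.2 ρ hρ0)
            rintro z ⟨h1, h2, _⟩
            have h3 : ‖F z‖ < ρ := h1
            rw [hFf z h2] at h3
            exact ⟨h2, by simpa using h3⟩
          refine (mul_le_mul' le_rfl h5).trans ?_
          rw [← ENNReal.ofReal_mul (by positivity)]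
          apply ENNReal.ofReal_le_ofReal
          apply le_of_eq
          field_simp
    _ = ENNReal.ofReal (π * p * (1 + 2 * Real.log (b / a))) := by
        rw [← ENNReal.ofReal_add (by positivity)]
        · congr 1; ring
        · have : 0 ≤ Real.log (b / a) := Real.log_nonneg (by rw [le_div_iff₀ ha]; linarith)
          positivity

end Energy

end MeanVal
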