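import Mathlib
import Pool.Agent.Helper772.MV.Defs

open MeasureTheory Metric Set
open scoped ENNReal Real

namespace MeanVal

namespace Greedy


theorem greedy_points (K : Set ℂ) (hK : IsCompact K) (hne : K.Nonempty) (h0 : ∀ z ∈ K, z ≠ 0)
    (F : ℂ → ℝ) (hF : ContinuousOn F K) :
    ∃ z : ℕ → ℂ, (∀ i, z i ∈ K) ∧ ∀ i, ∀ w ∈ K,
      F w * ∏ l ∈ Finset.range i, ‖w - z l / (‖z l‖ : ℂ)‖ ≤
        F (z i) * ∏ l ∈ Finset.range i, ‖z i - z l / (‖z l‖ : ℂ)‖ := by
  have hex : ∀ (i : ℕ) (z : ℕ → ℂ), ∃ w0 : ℂ, w0 ∈ K ∧ ∀ w ∈ K,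
      F w * ∏ l ∈ Finset.range i, ‖w - z l / (‖z l‖ : ℂ)‖ ≤
        F w0 * ∏ l ∈ Finset.range i, ‖w0 - z l / (‖z l‖ : ℂ)‖ := by
    intro i z
    have hc : ContinuousOn (fun w : ℂ => F w * ∏ l ∈ Finset.range i, ‖w - z l / (‖z l‖ : ℂ)‖) K := by
      refine hF.mul ?_
      apply Continuous.continuousOn
      fun_prop
    obtain ⟨w0, hw0, hmax⟩ := hK.exists_isMaxOn hne hc
    exact ⟨w0, hw0, fun w hw => hmax hw⟩
  choose m hmK hm using hex
  let zs : ℕ → (ℕ → ℂ) := fun n =>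
    Nat.rec (fun _ => (0 : ℂ)) (fun n ih => Function.update ih n (m n ih)) n
  have hzs : ∀ n, zs (n + 1) = Function.update (zs n) n (m n (zs n)) := fun n => rfl
  have key : ∀ i l, l < i → zs i l = m l (zs l) := by
    intro i
    induction i with
    | zero => intro l hl; omega
    | succ i ih =>
      intro l hl
      rw [hzs]
      by_cases h : l = i
      · subst h
        rw [Function.update_self]
      · rw [Function.update_of_ne h]
        exact ih l (by omega)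
  refine ⟨fun n => m n (zs n), fun i => hmK _ _, fun i w hw => ?_⟩
  have h1 := hm i (zs i) w hw
  have h2 : ∀ v : ℂ, ∏ l ∈ Finset.range i, ‖v - zs i l / (‖zs i l‖ : ℂ)‖ =
      ∏ l ∈ Finset.range i, ‖v - m l (zs l) / (‖m l (zs l)‖ : ℂ)‖ := by
    intro v
    apply Finset.prod_congr rfl
    intro l hl
    rw [key i l (Finset.mem_range.1 hl)]
  rw [h2, h2] at h1
  exact h1

end Greedy

end MeanVal
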