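import Mathlib
import Pool.Agent.Helper772.MV.Defs

open MeasureTheory Metric Set
open scoped ENNReal Real

namespace MeanVal

namespace LP


theorem intexp_10059 (k : ℤ) :
    ∫ θ in (-π)..π, Complex.exp (k * θ * Complex.I) = if k = 0 then 2 * (π : ℂ) else 0 := by
  by_cases hk : k = 0
  · subst hk
    simp
    ring
  · rw [if_neg hk]
    have hc : (k : ℂ) * Complex.I ≠ 0 := by
      apply mul_ne_zero _ Complex.I_ne_zero
      exact_mod_cast hk
    have h1 : ∀ θ : ℝ, Complex.exp (k * θ * Complex.I) = Complex.exp ((k * Complex.I) * θ) := by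
      intro θ
      congr 1
      ring
    simp_rw [h1]
    rw [integral_exp_mul_complex hc]
    have h2 : Complex.exp (k * Complex.I * (π : ℝ)) =
        Complex.exp (k * Complex.I * ((-π : ℝ) : ℂ)) * Complex.exp (k * (2 * π * Complex.I)) := by
      rw [← Complex.exp_add]
      congr 1
      push_cast
      ring
    rw [h2, Complex.exp_int_mul_two_pi_mul_I, mul_one, sub_self, zero_div]

theorem bnd_10059 (a : ℂ) (k : ℤ) (θ : ℝ) : ‖a * Complex.exp (k * θ * Complex.I)‖ = ‖a‖ := by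
  have h1 : (k : ℂ) * θ * Complex.I = ((k * θ : ℝ) : ℂ) * Complex.I := by push_cast; ring
  rw [norm_mul, h1, Complex.norm_exp_ofReal_mul_I, mul_one]

theorem pars_10059 (a : ℕ → ℂ) (ha : Summable fun n => ‖a n‖) (F : ℝ → ℂ)
    (hF : ∀ θ : ℝ, HasSum (fun n : ℕ => a n * Complex.exp ((n : ℤ) * θ * Complex.I)) (F θ)) :
    Continuous F ∧ HasSum (fun n => 2 * π * ‖a n‖ ^ 2) (∫ θ in (-π)..π, ‖F θ‖ ^ 2) := by
  have hFt : F = fun θ : ℝ => ∑' n, a n * Complex.exp ((n : ℤ) * θ * Complex.I) := by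
    funext θ
    exact (hF θ).tsum_eq.symm
  have hFc : Continuous F := by
    rw [hFt]
    refine continuous_tsum (fun n => by fun_prop) ha ?_
    intro n θ
    exact (bnd_10059 _ _ _).le
  refine ⟨hFc, ?_⟩
  -- Fourier coefficients
  have h1 : ∀ n : ℕ, ∫ θ in (-π)..π, F θ * Complex.exp ((-(n : ℤ) : ℤ) * θ * Complex.I) =
      2 * π * a n := by
    intro n
    have h2 : HasSum (fun m : ℕ => ∫ θ in (-π)..π, a m * Complex.exp (((m : ℤ) - n : ℤ) * θ * Complex.I))
        (∫ θ in (-π)..π, F θ * Complex.exp ((-(n : ℤ) : ℤ) * θ * Complex.I)) := by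
      apply intervalIntegral.hasSum_integral_of_dominated_convergence (fun m _ => ‖a m‖)
      · intro m
        exact (by fun_prop : Continuous fun θ : ℝ =>
          a m * Complex.exp (((m : ℤ) - n : ℤ) * θ * Complex.I)).aestronglyMeasurable
      · intro m
        exact Filter.Eventually.of_forall fun θ _ => (bnd_10059 _ _ _).le
      · exact Filter.Eventually.of_forall fun θ _ => ha
      · exact intervalIntegrable_const
      · refine Filter.Eventually.of_forall fun θ _ => ?_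
        have h3 := (hF θ).mul_right (Complex.exp ((-(n : ℤ) : ℤ) * θ * Complex.I))
        refine h3.congr_fun ?_
        intro m
        rw [mul_assoc (a m), ← Complex.exp_add]
        congr 2
        push_cast
        ring
    have h4 : HasSum (fun m : ℕ => ∫ θ in (-π)..π, a m * Complex.exp (((m : ℤ) - n : ℤ) * θ * Complex.I))
        (2 * π * a n) := by
      have h5 : ∀ m : ℕ, ∫ θ in (-π)..π, a m * Complex.exp (((m : ℤ) - n : ℤ) * θ * Complex.I) =
          if m = n then 2 * π * a n else 0 := by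
        intro m
        rw [intervalIntegral.integral_const_mul, intexp_10059]
        by_cases h : m = n
        · subst h
          simp
          ring
        · rw [if_neg h, if_neg (by omega), mul_zero]
      simp_rw [h5]
      exact hasSum_ite_eq n _
    exact h2.unique h4
  have hFb : ∀ θ, ‖F θ‖ ≤ ∑' m, ‖a m‖ := by
    intro θ
    rw [← (hF θ).tsum_eq]
    have h6 : ∀ n : ℕ, ‖a n * Complex.exp ((n : ℤ) * θ * Complex.I)‖ = ‖a n‖ :=
      fun n => bnd_10059 _ _ _
    calc ‖∑' n : ℕ, a n * Complex.exp ((n : ℤ) * θ * Complex.I)‖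
        ≤ ∑' n : ℕ, ‖a n * Complex.exp ((n : ℤ) * θ * Complex.I)‖ :=
          norm_tsum_le_tsum_norm (by simp_rw [h6]; exact ha)
      _ = _ := by simp_rw [h6]
  have h7 : HasSum (fun n : ℕ => ∫ θ in (-π)..π, (starRingEnd ℂ) (a n) *
      (F θ * Complex.exp ((-(n : ℤ) : ℤ) * θ * Complex.I)))
      (∫ θ in (-π)..π, ((‖F θ‖ ^ 2 : ℝ) : ℂ)) := by
    apply intervalIntegral.hasSum_integral_of_dominated_convergence
      (fun n _ => ‖a n‖ * ∑' m, ‖a m‖)
    · intro m
      exact (by fun_prop : Continuous fun θ : ℝ => (starRingEnd ℂ) (a m) *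
        (F θ * Complex.exp ((-(m : ℤ) : ℤ) * θ * Complex.I))).aestronglyMeasurable
    · intro n
      refine Filter.Eventually.of_forall fun θ _ => ?_
      rw [norm_mul, bnd_10059, RCLike.norm_conj]
      exact mul_le_mul_of_nonneg_left (hFb θ) (norm_nonneg _)
    · exact Filter.Eventually.of_forall fun θ _ => ha.mul_right _
    · exact intervalIntegrable_const
    · refine Filter.Eventually.of_forall fun θ _ => ?_
      have h8 : HasSum (fun n : ℕ => (starRingEnd ℂ) (a n * Complex.exp ((n : ℤ) * θ * Complex.I)))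
          ((starRingEnd ℂ) (F θ)) := (Complex.hasSum_conj').2 (hF θ)
      have h9 := h8.mul_right (F θ)
      rw [Complex.conj_mul'] at h9
      push_cast
      refine h9.congr_fun ?_
      intro n
      rw [map_mul, ← Complex.exp_conj]
      have h10 : (starRingEnd ℂ) (((n : ℤ) : ℂ) * θ * Complex.I) = (-(n : ℤ) : ℤ) * θ * Complex.I := by
        rw [map_mul, map_mul, Complex.conj_I, Complex.conj_ofReal]
        simp
      rw [h10]
      push_cast
      ring_nf
  have h11 : ∀ n : ℕ, ∫ θ in (-π)..π, (starRingEnd ℂ) (a n) *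
      (F θ * Complex.exp ((-(n : ℤ) : ℤ) * θ * Complex.I)) = ((2 * π * ‖a n‖ ^ 2 : ℝ) : ℂ) := by
    intro n
    rw [intervalIntegral.integral_const_mul, h1]
    have h12 : (starRingEnd ℂ) (a n) * (2 * π * a n) = 2 * π * ((starRingEnd ℂ) (a n) * a n) := by ring
    rw [h12, Complex.conj_mul']
    push_cast
    ring
  simp_rw [h11] at h7
  rw [intervalIntegral.integral_ofReal] at h7
  exact Complex.hasSum_ofReal.1 h7

theorem pars2_10059 (h : ℂ → ℂ) (hh : DifferentiableOn ℂ h (ball 0 1)) (s : ℝ) (hs : 0 ≤ s)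
    (hs1 : s < 1) :
    ∫⁻ θ in Ioo (-π) π, ENNReal.ofReal (‖h (s * Complex.exp (θ * Complex.I))‖ ^ 2) =
      ∑' n, ENNReal.ofReal (2 * π * (‖coeff h n‖ ^ 2 * s ^ (2 * n))) := by
  have hnorm : ∀ θ : ℝ, ‖(s : ℂ) * Complex.exp (θ * Complex.I)‖ = s := by
    intro θ
    rw [norm_mul, Complex.norm_exp_ofReal_mul_I, mul_one, Complex.norm_real, Real.norm_of_nonneg hs]
  have hF : ∀ θ : ℝ, HasSum (fun n : ℕ => (coeff h n * (s : ℂ) ^ n) *
      Complex.exp ((n : ℤ) * θ * Complex.I)) (h (s * Complex.exp (θ * Complex.I))) := by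
    intro θ
    have h1 : (s : ℂ) * Complex.exp (θ * Complex.I) ∈ ball (0 : ℂ) 1 := by
      rw [mem_ball_zero_iff, hnorm]
      exact hs1
    have h2 := Complex.hasSum_taylorSeries_on_ball hh h1
    refine h2.congr_fun ?_
    intro n
    rw [sub_zero, mul_pow, ← Complex.exp_nat_mul, coeff, smul_eq_mul, smul_eq_mul]
    have h3 : ((n : ℤ) : ℂ) * θ * Complex.I = n * (θ * Complex.I) := by
      push_cast
      ring
    rw [h3]
    field_simp
  have ha : Summable fun n => ‖coeff h n * (s : ℂ) ^ n‖ := by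
    have h1 := (hF 0).summable.norm
    refine h1.congr ?_
    intro n
    exact bnd_10059 _ _ _
  obtain ⟨hc, hsum⟩ := pars_10059 _ ha _ hF
  have hnn : ∀ n, 0 ≤ 2 * π * ‖coeff h n * (s : ℂ) ^ n‖ ^ 2 := by
    intro n
    positivity
  have h4 : ∫⁻ θ in Ioo (-π) π, ENNReal.ofReal (‖h (s * Complex.exp (θ * Complex.I))‖ ^ 2) =
      ENNReal.ofReal (∫ θ in (-π)..π, ‖h (s * Complex.exp (θ * Complex.I))‖ ^ 2) := by
    rw [intervalIntegral.integral_of_le (by linarith [Real.pi_pos]),
      integral_Ioc_eq_integral_Ioo, ofReal_integral_eq_lintegral_ofReal]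
    · exact ((hc.norm.pow 2).integrableOn_Icc).mono_set Ioo_subset_Icc_self
    · exact Filter.Eventually.of_forall fun θ => by positivity
  rw [h4, ← hsum.tsum_eq, ENNReal.ofReal_tsum_of_nonneg hnn hsum.summable]
  apply tsum_congr
  intro n
  congr 2
  rw [norm_mul, norm_pow, Complex.norm_real, Real.norm_of_nonneg hs, mul_pow, ← pow_mul, mul_comm n 2]

theorem polar_10059 (G : ℂ → ℝ≥0∞) (hG : Measurable G) (r : ℝ) :
    ∫⁻ z in ball (0 : ℂ) r, G z = ∫⁻ s in Ioo 0 r, ∫⁻ θ in Ioo (-π) π,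
      ENNReal.ofReal s * G (s * Complex.exp (θ * Complex.I)) := by
  rw [← lintegral_indicator measurableSet_ball, ← Complex.lintegral_comp_polarCoord_symm]
  have h1 : ∀ p : ℝ × ℝ, Complex.polarCoord.symm p = p.1 * Complex.exp (p.2 * Complex.I) := by
    intro p
    rw [Complex.polarCoord_symm_apply, Complex.exp_mul_I, Complex.ofReal_cos, Complex.ofReal_sin]
  have h2 : ∫⁻ p in polarCoord.target, ENNReal.ofReal p.1 •
      (ball (0 : ℂ) r).indicator G (Complex.polarCoord.symm p) =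
      ∫⁻ p in Ioi (0 : ℝ) ×ˢ Ioo (-π) π, (Iio r ×ˢ univ).indicator
        (fun p : ℝ × ℝ => ENNReal.ofReal p.1 * G (p.1 * Complex.exp (p.2 * Complex.I))) p := by
    refine setLIntegral_congr_fun (measurableSet_Ioi.prod measurableSet_Ioo) ?_
    rintro ⟨s, θ⟩ hp
    have hs : 0 < s := hp.1
    show ENNReal.ofReal s • (ball (0 : ℂ) r).indicator G (Complex.polarCoord.symm (s, θ)) = _
    rw [h1 (s, θ)]
    simp only
    have hn : ‖(s : ℂ) * Complex.exp (θ * Complex.I)‖ = s := by
      rw [norm_mul, Complex.norm_exp_ofReal_mul_I, mul_one, Complex.norm_real,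
        Real.norm_of_nonneg hs.le]
    by_cases hsr : s < r
    · rw [indicator_of_mem (by rw [mem_ball_zero_iff, hn]; exact hsr),
        indicator_of_mem (by exact ⟨hsr, mem_univ _⟩), smul_eq_mul]
    · rw [indicator_of_notMem (by rw [mem_ball_zero_iff, hn]; exact hsr),
        indicator_of_notMem (by exact fun h => hsr h.1), smul_zero]
  rw [h2, lintegral_indicator (measurableSet_Iio.prod MeasurableSet.univ),
    Measure.restrict_restrict (measurableSet_Iio.prod MeasurableSet.univ), Set.prod_inter_prod,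
    univ_inter, inter_comm, Ioi_inter_Iio, Measure.volume_eq_prod, ← Measure.prod_restrict,
    lintegral_prod]
  apply Measurable.aemeasurable
  fun_prop

theorem coeff_deriv_10059 (g : ℂ → ℂ) (n : ℕ) :
    coeff (deriv g) n = (n + 1) * coeff g (n + 1) := by
  unfold coeff
  rw [← iteratedDeriv_succ', Nat.factorial_succ]
  have h1 : ((n : ℂ) + 1) ≠ 0 := by exact_mod_cast Nat.succ_ne_zero n
  have h2 : ((n.factorial : ℕ) : ℂ) ≠ 0 := by exact_mod_cast Nat.factorial_ne_zero n
  push_cast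
  field_simp

theorem radial_10059 (r : ℝ) (hr : 0 < r) (n : ℕ) :
    ∫⁻ s in Ioo 0 r, ENNReal.ofReal (s ^ (2 * n + 1) * (r ^ 2 - s ^ 2)) =
      ENNReal.ofReal (r ^ (2 * n + 4) / (2 * (n + 1) * (n + 2))) := by
  have h1 : ∫ s in (0 : ℝ)..r, s ^ (2 * n + 1) * (r ^ 2 - s ^ 2) =
      r ^ (2 * n + 4) / (2 * (n + 1) * (n + 2)) := by
    have h2 : ∀ s : ℝ, s ^ (2 * n + 1) * (r ^ 2 - s ^ 2) =
        r ^ 2 * s ^ (2 * n + 1) - s ^ (2 * n + 3) := by
      intro s
      ring
    simp_rw [h2]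
    rw [intervalIntegral.integral_sub (Continuous.intervalIntegrable (by fun_prop) _ _)
      (Continuous.intervalIntegrable (by fun_prop) _ _),
      intervalIntegral.integral_const_mul, integral_pow, integral_pow]
    push_cast
    have h3 : (0 : ℝ) ^ (2 * n + 1 + 1) = 0 := by simp
    have h4 : (0 : ℝ) ^ (2 * n + 3 + 1) = 0 := by simp
    rw [h3, h4]
    field_simp
    ring
  rw [← h1, intervalIntegral.integral_of_le hr.le, integral_Ioc_eq_integral_Ioo,
    ofReal_integral_eq_lintegral_ofReal]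
  · exact (Continuous.integrableOn_Icc (by fun_prop)).mono_set Ioo_subset_Icc_self
  · refine (ae_restrict_iff' measurableSet_Ioo).2 (Filter.Eventually.of_forall fun s hs => ?_)
    have : s ^ 2 ≤ r ^ 2 := pow_le_pow_left₀ hs.1.le hs.2.le 2
    exact mul_nonneg (pow_nonneg hs.1.le _) (by linarith)

theorem littlewood_paley (g : ℂ → ℂ) (hg : DifferentiableOn ℂ g (ball 0 1)) (r ρ : ℝ)
    (hr : 0 < r) (hr1 : r < 1) (hρ : 0 ≤ ρ) (hρr : ρ ≤ r) :
    ∫⁻ θ in Ioo (-π) π, ENNReal.ofReal (‖g (ρ * Complex.exp (θ * Complex.I))‖ ^ 2) ≤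
      ENNReal.ofReal (2 * π * ‖g 0‖ ^ 2) + ENNReal.ofReal (4 / r ^ 2) *
        ∫⁻ z in ball (0:ℂ) r, ENNReal.ofReal (‖deriv g z‖ ^ 2 * (r ^ 2 - ‖z‖ ^ 2)) := by
  have hdg : DifferentiableOn ℂ (deriv g) (ball 0 1) := hg.deriv isOpen_ball
  have hπ : 0 < π := Real.pi_pos
  have hD : ∫⁻ z in ball (0:ℂ) r, ENNReal.ofReal (‖deriv g z‖ ^ 2 * (r ^ 2 - ‖z‖ ^ 2)) =
      ∑' n, ENNReal.ofReal (2 * π * ‖coeff (deriv g) n‖ ^ 2) *
        ENNReal.ofReal (r ^ (2 * n + 4) / (2 * (n + 1) * (n + 2))) := by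
    rw [polar_10059 _ (by
      have := measurable_deriv g
      fun_prop)]
    have h1 : ∀ s ∈ Ioo 0 r, ∫⁻ θ in Ioo (-π) π, ENNReal.ofReal s *
        ENNReal.ofReal (‖deriv g (s * Complex.exp (θ * Complex.I))‖ ^ 2 *
          (r ^ 2 - ‖(s : ℂ) * Complex.exp (θ * Complex.I)‖ ^ 2)) =
        ∑' n, ENNReal.ofReal (2 * π * ‖coeff (deriv g) n‖ ^ 2) *
          ENNReal.ofReal (s ^ (2 * n + 1) * (r ^ 2 - s ^ 2)) := by
      intro s hs
      have hs0 : 0 ≤ s := hs.1.le
      have hsr : s ^ 2 ≤ r ^ 2 := pow_le_pow_left₀ hs0 hs.2.le 2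
      have hrs : 0 ≤ r ^ 2 - s ^ 2 := by linarith
      have h2 : ∀ θ : ℝ, ENNReal.ofReal s *
          ENNReal.ofReal (‖deriv g (s * Complex.exp (θ * Complex.I))‖ ^ 2 *
            (r ^ 2 - ‖(s : ℂ) * Complex.exp (θ * Complex.I)‖ ^ 2)) =
          ENNReal.ofReal (s * (r ^ 2 - s ^ 2)) *
            ENNReal.ofReal (‖deriv g (s * Complex.exp (θ * Complex.I))‖ ^ 2) := by
        intro θ
        have hn : ‖(s : ℂ) * Complex.exp (θ * Complex.I)‖ = s := by
          rw [norm_mul, Complex.norm_exp_ofReal_mul_I, mul_one, Complex.norm_real,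
            Real.norm_of_nonneg hs0]
        rw [hn, ← ENNReal.ofReal_mul hs0, ← ENNReal.ofReal_mul (mul_nonneg hs0 hrs)]
        congr 1
        ring
      simp_rw [h2]
      rw [lintegral_const_mul' _ _ ENNReal.ofReal_ne_top,
        pars2_10059 _ hdg s hs0 (hs.2.trans hr1), ← ENNReal.tsum_mul_left]
      apply tsum_congr
      intro n
      rw [← ENNReal.ofReal_mul (mul_nonneg hs0 hrs), ← ENNReal.ofReal_mul (by positivity)]
      congr 1
      ring
    rw [setLIntegral_congr_fun measurableSet_Ioo h1, lintegral_tsum (fun n => by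
      apply Measurable.aemeasurable
      fun_prop)]
    apply tsum_congr
    intro n
    rw [lintegral_const_mul' _ _ ENNReal.ofReal_ne_top, radial_10059 r hr n]
  rw [hD, pars2_10059 g hg ρ hρ (lt_of_le_of_lt hρr hr1),
    tsum_eq_zero_add' ENNReal.summable, ← ENNReal.tsum_mul_left]
  have h0 : coeff g 0 = g 0 := by
    unfold coeff
    simp
  apply add_le_add
  · rw [h0]
    simp
  · apply ENNReal.tsum_le_tsum
    intro n
    rw [coeff_deriv_10059, ← ENNReal.ofReal_mul (by positivity), ← ENNReal.ofReal_mul (by positivity)]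
    apply ENNReal.ofReal_le_ofReal
    have hnn : ‖((n : ℂ) + 1) * coeff g (n + 1)‖ = (n + 1) * ‖coeff g (n + 1)‖ := by
      rw [norm_mul]
      congr 1
      have : ((n : ℂ) + 1) = ((n + 1 : ℕ) : ℂ) := by push_cast; ring
      rw [this, Complex.norm_natCast]
      push_cast
      ring
    rw [hnn]
    have hpow : ρ ^ (2 * (n + 1)) ≤ r ^ (2 * (n + 1)) := pow_le_pow_left₀ hρ hρr _
    have e1 : 4 / r ^ 2 * (2 * π * (((n : ℝ) + 1) * ‖coeff g (n + 1)‖) ^ 2 *
        (r ^ (2 * n + 4) / (2 * (n + 1) * (n + 2)))) =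
        2 * π * ‖coeff g (n + 1)‖ ^ 2 * r ^ (2 * (n + 1)) * (2 * (n + 1) / (n + 2)) := by
      field_simp
      ring
    rw [e1]
    have e2 : (1 : ℝ) ≤ 2 * (n + 1) / (n + 2) := by
      rw [le_div_iff₀ (by positivity)]
      have : (0 : ℝ) ≤ n := by positivity
      linarith
    calc 2 * π * (‖coeff g (n + 1)‖ ^ 2 * ρ ^ (2 * (n + 1)))
        ≤ 2 * π * (‖coeff g (n + 1)‖ ^ 2 * r ^ (2 * (n + 1))) := by
          apply mul_le_mul_of_nonneg_left _ (by positivity)
          apply mul_le_mul_of_nonneg_left hpow (by positivity)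
      _ = 2 * π * ‖coeff g (n + 1)‖ ^ 2 * r ^ (2 * (n + 1)) * 1 := by ring
      _ ≤ _ := by
          apply mul_le_mul_of_nonneg_left e2
          positivity

end LP

end MeanVal
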