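import Mathlib
import Pool.Agent.Helper772.MV.Defs

open MeasureTheory Metric Set
open scoped ENNReal Real

namespace MeanVal

namespace LogDeriv





noncomputable def tau (U t : ℝ) : ℝ := max 0 (t * (U - t))

theorem tau_cont (U : ℝ) : Continuous (tau U) := by unfold tau; fun_prop

theorem tau_nonneg (U t : ℝ) : 0 ≤ tau U t := le_max_left _ _

theorem tau_le (U t : ℝ) : tau U t ≤ U ^ 2 / 4 :=
  max_le (by positivity) (by nlinarith [sq_nonneg (t - U / 2)])

theorem tau_zero {U t : ℝ} (hU : 0 < U) (h : ¬ (0 < t ∧ t < U)) : tau U t = 0 := by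
  unfold tau
  apply max_eq_left
  rw [not_and_or, not_lt, not_lt] at h
  rcases h with h | h
  · exact mul_nonpos_of_nonpos_of_nonneg h (by linarith)
  · exact mul_nonpos_of_nonneg_of_nonpos (by linarith) (by linarith)

theorem tau_int {U : ℝ} (hU : 0 < U) : ∫ t in (0:ℝ)..U, tau U t = U ^ 3 / 6 := by
  have h1 : ∫ t in (0:ℝ)..U, tau U t = ∫ t in (0:ℝ)..U, t * (U - t) := by
    apply intervalIntegral.integral_congr
    intro t ht
    rw [uIcc_of_le hU.le] at ht
    exact max_eq_right (mul_nonneg ht.1 (by linarith [ht.2]))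
  have h2 : ∀ t ∈ uIcc 0 U, HasDerivAt (fun t : ℝ => U * (t ^ 2 / 2) - t ^ 3 / 3) (t * (U - t)) t := by
    intro t _
    have h3 : HasDerivAt (fun t : ℝ => t ^ 2 / 2) t t := by
      have := (hasDerivAt_pow 2 t).div_const 2
      refine this.congr_deriv ?_
      simp
    have h4 : HasDerivAt (fun t : ℝ => t ^ 3 / 3) (t ^ 2) t := by
      have := (hasDerivAt_pow 3 t).div_const 3
      refine this.congr_deriv ?_
      simp
    refine ((h3.const_mul U).sub h4).congr_deriv ?_
    ring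
  rw [h1, intervalIntegral.integral_eq_sub_of_hasDerivAt h2
    (Continuous.intervalIntegrable (by fun_prop) _ _)]
  ring

theorem circ {v : ℂ → ℂ} {ρ U s : ℝ} (hs : 0 < s) (hsρ : s < ρ) (hU : 0 < U)
    (hv : DifferentiableOn ℂ v (ball 0 ρ)) {z₁ z₂ : ℂ} (hz1 : ‖z₁‖ = s) (hz2 : ‖z₂‖ = s)
    (h1 : (v z₁).re ≤ 0) (h2 : U ≤ (v z₂).re) :
    (U ^ 3 / 6) ^ 2 / (2 * π) ≤ ∫ θ in (-π)..π, (tau U (v (circleMap 0 s θ)).re *
      (s * ‖deriv v (circleMap 0 s θ)‖)) ^ 2 := by
  have hpi := Real.pi_pos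
  have hmem : ∀ θ, circleMap 0 s θ ∈ ball (0:ℂ) ρ := by
    intro θ
    rw [mem_ball_zero_iff, norm_circleMap_zero, abs_of_pos hs]
    exact hsρ
  have hvc : Continuous (fun θ => v (circleMap 0 s θ)) :=
    hv.continuousOn.comp_continuous (continuous_circleMap 0 s) hmem
  have hdc : Continuous (fun θ => deriv v (circleMap 0 s θ)) :=
    (hv.deriv isOpen_ball).continuousOn.comp_continuous (continuous_circleMap 0 s) hmem
  set h : ℝ → ℝ := fun θ => (v (circleMap 0 s θ)).re with hh
  set h' : ℝ → ℝ := fun θ => (deriv v (circleMap 0 s θ) * (circleMap 0 s θ * Complex.I)).re with hh'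
  have hhd : ∀ θ, HasDerivAt h (h' θ) θ := by
    intro θ
    have e1 : HasDerivAt v (deriv v (circleMap 0 s θ)) (circleMap 0 s θ) :=
      (hv.differentiableAt (isOpen_ball.mem_nhds (hmem θ))).hasDerivAt
    have e2 := e1.comp θ (hasDerivAt_circleMap 0 s θ)
    exact Complex.reCLM.hasFDerivAt.comp_hasDerivAt θ e2
  have hh'c : Continuous h' := by
    simp only [hh']
    exact Complex.continuous_re.comp (hdc.mul ((continuous_circleMap 0 s).mul continuous_const))
  have hhc : Continuous h := Complex.continuous_re.comp hvc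
  have hh'b : ∀ θ, |h' θ| ≤ s * ‖deriv v (circleMap 0 s θ)‖ := by
    intro θ
    refine (Complex.abs_re_le_norm _).trans ?_
    rw [norm_mul, norm_mul, norm_circleMap_zero, abs_of_pos hs, Complex.norm_I]
    apply le_of_eq
    ring
  -- the primitive
  set T : ℝ → ℝ := fun x => ∫ t in (0:ℝ)..x, tau U t with hT
  have hTd : ∀ x, HasDerivAt T (tau U x) x := fun x =>
    ((tau_cont U).integral_hasStrictDerivAt 0 x).hasDerivAt
  have harg : ∀ z : ℂ, ‖z‖ = s → circleMap 0 s (Complex.arg z) = z := by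
    intro z hz
    rw [circleMap_zero, ← hz]
    exact Complex.norm_mul_exp_arg_mul_I z
  set θ₁ := Complex.arg z₁ with hθ1
  set θ₂ := Complex.arg z₂ with hθ2
  have e1 : h θ₁ ≤ 0 := by simp only [hh]; rw [harg z₁ hz1]; exact h1
  have e2 : U ≤ h θ₂ := by simp only [hh]; rw [harg z₂ hz2]; exact h2
  set F : ℝ → ℝ := fun θ => tau U (h θ) * h' θ with hF
  have hFc : Continuous F := ((tau_cont U).comp hhc).mul hh'c
  have e3 : ∫ θ in θ₁..θ₂, F θ = T (h θ₂) - T (h θ₁) := by
    apply intervalIntegral.integral_eq_sub_of_hasDerivAt (f := fun θ => T (h θ))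
    · intro θ _
      exact (hTd (h θ)).comp θ (hhd θ)
    · exact hFc.intervalIntegrable _ _
  have e4 : U ^ 3 / 6 ≤ T (h θ₂) - T (h θ₁) := by
    simp only [hT]
    rw [intervalIntegral.integral_interval_sub_left ((tau_cont U).intervalIntegrable _ _)
      ((tau_cont U).intervalIntegrable _ _), ← tau_int hU]
    apply intervalIntegral.integral_mono_interval e1 hU.le e2
    · exact Filter.Eventually.of_forall fun t => tau_nonneg U t
    · exact (tau_cont U).intervalIntegrable _ _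
  have hab : -π ≤ π := by linarith
  have e5 : |∫ θ in θ₁..θ₂, F θ| ≤ ∫ θ in (-π)..π, |F θ| := by
    have g1 := intervalIntegral.norm_integral_le_abs_integral_norm (f := F) (a := θ₁) (b := θ₂)
      (μ := volume)
    simp only [Real.norm_eq_abs] at g1
    refine g1.trans ?_
    have g2 := intervalIntegral.abs_integral_mono_interval (μ := volume) (f := fun θ => |F θ|)
      (a := θ₁) (b := θ₂) (c := -π) (d := π) (by
        rw [uIoc_of_le hab]
        exact Ioc_subset_Ioc (le_min (Complex.neg_pi_lt_arg z₁).le (Complex.neg_pi_lt_arg z₂).le)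
          (max_le (Complex.arg_le_pi z₁) (Complex.arg_le_pi z₂)))
      (Filter.Eventually.of_forall fun θ => abs_nonneg _)
      (hFc.abs.intervalIntegrable _ _)
    refine g2.trans (le_of_eq ?_)
    exact abs_of_nonneg (intervalIntegral.integral_nonneg hab fun θ _ => abs_nonneg _)
  set m := U ^ 3 / 6 with hm
  have hmpos : 0 < m := by positivity
  have e6 : m ≤ ∫ θ in (-π)..π, |F θ| := by
    refine e4.trans (le_trans ?_ e5)
    rw [e3]
    exact le_abs_self _
  have e7 : ∫ θ in (-π)..π, |F θ| ≤ ∫ θ in (-π)..π, (m / (4 * π) + (π / m) * F θ ^ 2) := by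
    apply intervalIntegral.integral_mono_on hab (hFc.abs.intervalIntegrable _ _)
      (Continuous.intervalIntegrable (by fun_prop) _ _)
    intro θ _
    have g1 : 0 ≤ (m / (4 * π)) * (1 - (2 * π / m) * |F θ|) ^ 2 := by positivity
    have g2 : (m / (4 * π)) * (1 - (2 * π / m) * |F θ|) ^ 2 =
        m / (4 * π) + (π / m) * |F θ| ^ 2 - |F θ| := by
      field_simp
      ring
    rw [g2, sq_abs] at g1
    linarith
  have e8 : ∫ θ in (-π)..π, (m / (4 * π) + (π / m) * F θ ^ 2) =
      m / 2 + (π / m) * ∫ θ in (-π)..π, F θ ^ 2 := by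
    rw [intervalIntegral.integral_add (Continuous.intervalIntegrable (by fun_prop) _ _)
      (Continuous.intervalIntegrable (by fun_prop) _ _), intervalIntegral.integral_const,
      intervalIntegral.integral_const_mul, smul_eq_mul]
    congr 1
    field_simp
    ring
  have e9 : m ^ 2 / (2 * π) ≤ ∫ θ in (-π)..π, F θ ^ 2 := by
    have g1 : m / 2 ≤ (π / m) * ∫ θ in (-π)..π, F θ ^ 2 := by linarith
    have g2 : (m / π) * (m / 2) ≤ (m / π) * ((π / m) * ∫ θ in (-π)..π, F θ ^ 2) :=
      mul_le_mul_of_nonneg_left g1 (by positivity)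
    have g3 : (m / π) * ((π / m) * ∫ θ in (-π)..π, F θ ^ 2) = ∫ θ in (-π)..π, F θ ^ 2 := by
      field_simp
    rw [g3] at g2
    refine le_trans (le_of_eq ?_) g2
    field_simp
  refine e9.trans ?_
  apply intervalIntegral.integral_mono_on hab (Continuous.intervalIntegrable (by fun_prop) _ _)
  · apply Continuous.intervalIntegrable
    exact (((tau_cont U).comp hhc).mul (continuous_const.mul hdc.norm)).pow 2
  · intro θ _
    simp only [hF]
    rw [mul_pow, mul_pow]
    apply mul_le_mul_of_nonneg_left _ (sq_nonneg _)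
    rw [← sq_abs (h' θ)]
    exact pow_le_pow_left₀ (abs_nonneg _) (hh'b θ) 2

theorem core {v : ℂ → ℂ} {ρ U A : ℝ} (hρ : 0 < ρ) (hU : 0 < U)
    (hv : DifferentiableOn ℂ v (ball 0 ρ)) (hv0 : v 0 = 0) (hA : 0 ≤ A)
    (hint : ∫⁻ z in {z | z ∈ ball (0:ℂ) ρ ∧ 0 < (v z).re ∧ (v z).re < U},
      ENNReal.ofReal (‖deriv v z‖ ^ 2) ≤ ENNReal.ofReal A) (hUA : A * 9 * π < U ^ 2) :
    ∃ s ∈ Ioo (ρ / 2) ρ, ∀ z : ℂ, ‖z‖ = s → (v z).re < U := by
  by_contra hcon
  push Not at hcon
  have hpi := Real.pi_pos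
  set Φ : ℂ → ℝ := fun z => (tau U (v z).re * ‖deriv v z‖) ^ 2 with hΦ
  have hΦc : ContinuousOn Φ (ball 0 ρ) := by
    have c1 : ContinuousOn (fun z => (v z).re) (ball 0 ρ) :=
      Complex.continuous_re.comp_continuousOn hv.continuousOn
    have c2 : ContinuousOn (deriv v) (ball 0 ρ) := (hv.deriv isOpen_ball).continuousOn
    exact (((tau_cont U).comp_continuousOn c1).mul c2.norm).pow 2
  set G : ℂ → ℝ≥0∞ := (ball (0:ℂ) ρ).indicator (fun z => ENNReal.ofReal (Φ z)) with hG
  have hGm : Measurable G := by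
    classical
    rw [hG, ← Set.piecewise_eq_indicator]
    exact ContinuousOn.measurable_piecewise (ENNReal.continuous_ofReal.comp_continuousOn hΦc)
      continuousOn_const measurableSet_ball
  -- upper bound
  have hup : ∫⁻ z, G z ≤ ENNReal.ofReal ((U ^ 2 / 4) ^ 2 * A) := by
    have h1 : ∀ z, G z ≤ ({z | z ∈ ball (0:ℂ) ρ ∧ 0 < (v z).re ∧ (v z).re < U}).indicator
        (fun z => ENNReal.ofReal ((U ^ 2 / 4) ^ 2) * ENNReal.ofReal (‖deriv v z‖ ^ 2)) z := by
      intro z
      by_cases hz : z ∈ ball (0:ℂ) ρ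
      · by_cases hz2 : 0 < (v z).re ∧ (v z).re < U
        · rw [hG, Set.indicator_of_mem hz, Set.indicator_of_mem (show z ∈ {z | z ∈ ball (0:ℂ) ρ ∧
            0 < (v z).re ∧ (v z).re < U} from ⟨hz, hz2⟩), ← ENNReal.ofReal_mul (by positivity)]
          apply ENNReal.ofReal_le_ofReal
          simp only [hΦ]
          rw [mul_pow]
          apply mul_le_mul_of_nonneg_right _ (sq_nonneg _)
          exact pow_le_pow_left₀ (tau_nonneg _ _) (tau_le _ _) 2
        · rw [hG, Set.indicator_of_mem hz]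
          have : Φ z = 0 := by
            simp only [hΦ]
            rw [tau_zero hU hz2]
            simp
          rw [this, ENNReal.ofReal_zero]
          exact zero_le
      · rw [hG, Set.indicator_of_notMem hz]
        exact zero_le
    calc ∫⁻ z, G z ≤ ∫⁻ z, ({z | z ∈ ball (0:ℂ) ρ ∧ 0 < (v z).re ∧ (v z).re < U}).indicator
            (fun z => ENNReal.ofReal ((U ^ 2 / 4) ^ 2) * ENNReal.ofReal (‖deriv v z‖ ^ 2)) z :=
          lintegral_mono h1
      _ ≤ ∫⁻ z in {z | z ∈ ball (0:ℂ) ρ ∧ 0 < (v z).re ∧ (v z).re < U},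
          ENNReal.ofReal ((U ^ 2 / 4) ^ 2) * ENNReal.ofReal (‖deriv v z‖ ^ 2) :=
          lintegral_indicator_le _ _
      _ = ENNReal.ofReal ((U ^ 2 / 4) ^ 2) * ∫⁻ z in {z | z ∈ ball (0:ℂ) ρ ∧ 0 < (v z).re ∧
          (v z).re < U}, ENNReal.ofReal (‖deriv v z‖ ^ 2) :=
          lintegral_const_mul' _ _ ENNReal.ofReal_ne_top
      _ ≤ ENNReal.ofReal ((U ^ 2 / 4) ^ 2) * ENNReal.ofReal A := by gcongr
      _ = ENNReal.ofReal ((U ^ 2 / 4) ^ 2 * A) := (ENNReal.ofReal_mul (by positivity)).symm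
  -- lower bound
  set m := U ^ 3 / 6 with hm
  have hmpos : 0 < m := by positivity
  have hcirc : ∀ s ∈ Ioo (ρ / 2) ρ, ENNReal.ofReal (m ^ 2 / (2 * π * ρ)) ≤
      ∫⁻ θ in Ioo (-π) π, ENNReal.ofReal s • G (Complex.polarCoord.symm (s, θ)) := by
    intro s hs
    have hs0 : 0 < s := by linarith [hs.1]
    obtain ⟨z₂, hz2, h2⟩ := hcon s hs
    have hsub : closedBall (0:ℂ) s ⊆ ball 0 ρ := closedBall_subset_ball hs.2
    -- a point with nonpositive real part
    have hz1 : ∃ z₁ : ℂ, ‖z₁‖ = s ∧ (v z₁).re ≤ 0 := by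
      have hd : DiffContOnCl ℂ (fun z => Complex.exp (-(v z))) (ball 0 s) := by
        apply DifferentiableOn.diffContOnCl
        rw [closure_ball _ hs0.ne']
        exact (hv.mono hsub).neg.cexp
      obtain ⟨z₁, hz, hmax⟩ := Complex.exists_mem_frontier_isMaxOn_norm Metric.isBounded_ball
        ⟨0, mem_ball_self hs0⟩ hd
      rw [frontier_ball _ hs0.ne', mem_sphere_zero_iff_norm] at hz
      refine ⟨z₁, hz, ?_⟩
      have h0 : (0:ℂ) ∈ closure (ball (0:ℂ) s) := subset_closure (mem_ball_self hs0)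
      have h3 := hmax h0
      simp only [Function.comp_apply, hv0,
        Complex.norm_exp, Complex.neg_re, Set.mem_ofPred_eq] at h3
      have h4 := Real.exp_le_exp.mp h3
      rw [Complex.zero_re] at h4
      linarith
    obtain ⟨z₁, hz1, h1⟩ := hz1
    have h3 := circ hs0 hs.2 hU hv hz1 hz2 h1 h2
    have hmem : ∀ θ, circleMap 0 s θ ∈ ball (0:ℂ) ρ := by
      intro θ
      rw [mem_ball_zero_iff, norm_circleMap_zero, abs_of_pos hs0]
      exact hs.2
    have hΦcc : Continuous (fun θ => Φ (circleMap 0 s θ)) :=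
      hΦc.comp_continuous (continuous_circleMap 0 s) hmem
    have h4 : ∀ θ, ENNReal.ofReal s • G (Complex.polarCoord.symm (s, θ)) =
        ENNReal.ofReal (s * Φ (circleMap 0 s θ)) := by
      intro θ
      have e1 : Complex.polarCoord.symm (s, θ) = circleMap 0 s θ := by
        rw [Complex.polarCoord_symm_apply, circleMap_zero, Complex.exp_mul_I]
        push_cast
        ring
      rw [e1, hG, Set.indicator_of_mem (hmem θ), smul_eq_mul, ← ENNReal.ofReal_mul hs0.le]
    simp only [h4]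
    have hcont : Continuous (fun θ => s * Φ (circleMap 0 s θ)) := continuous_const.mul hΦcc
    rw [← ofReal_integral_eq_lintegral_ofReal]
    · apply ENNReal.ofReal_le_ofReal
      rw [← integral_Ioc_eq_integral_Ioo, ← intervalIntegral.integral_of_le (by linarith)]
      have h5 : ∫ θ in (-π)..π, (tau U (v (circleMap 0 s θ)).re *
          (s * ‖deriv v (circleMap 0 s θ)‖)) ^ 2 = s * ∫ θ in (-π)..π, s * Φ (circleMap 0 s θ) := by
        rw [← intervalIntegral.integral_const_mul]
        apply intervalIntegral.integral_congr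
        intro θ _
        simp only [hΦ]
        ring
      rw [h5] at h3
      have h6 : m ^ 2 / (2 * π * ρ) ≤ m ^ 2 / (2 * π * s) := by
        apply div_le_div_of_nonneg_left (by positivity) (by positivity)
        apply mul_le_mul_of_nonneg_left hs.2.le (by positivity)
      refine h6.trans ?_
      rw [div_le_iff₀ (by positivity)] at h3 ⊢
      rw [← hm] at h3
      linarith
    · have h7 : IntegrableOn (fun θ => s * Φ (circleMap 0 s θ)) (Icc (-π) π) :=
        hcont.continuousOn.integrableOn_compact isCompact_Icc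
      exact h7.mono_set Ioo_subset_Icc_self
    · exact Filter.Eventually.of_forall fun θ => mul_nonneg hs0.le (sq_nonneg _)
  have hlow : ENNReal.ofReal (m ^ 2 / (4 * π)) ≤ ∫⁻ z, G z := by
    rw [← Complex.lintegral_comp_polarCoord_symm]
    have hpm : Measurable (fun p : ℝ × ℝ => ENNReal.ofReal p.1 • G (Complex.polarCoord.symm p)) := by
      have : Continuous (fun p : ℝ × ℝ => Complex.polarCoord.symm p) := by
        simp only [Complex.polarCoord_symm_apply]
        fun_prop
      exact (ENNReal.measurable_ofReal.comp measurable_fst).smul (hGm.comp this.measurable)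
    rw [polarCoord_target, Measure.volume_eq_prod, ← Measure.prod_restrict,
      lintegral_prod _ hpm.aemeasurable]
    calc ENNReal.ofReal (m ^ 2 / (4 * π)) = ∫⁻ _s in Ioo (ρ / 2) ρ,
          ENNReal.ofReal (m ^ 2 / (2 * π * ρ)) := by
          rw [setLIntegral_const, Real.volume_Ioo, ← ENNReal.ofReal_mul (by positivity)]
          congr 1
          field_simp
          ring
      _ ≤ ∫⁻ s in Ioo (ρ / 2) ρ, ∫⁻ θ in Ioo (-π) π,
          ENNReal.ofReal s • G (Complex.polarCoord.symm (s, θ)) :=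
          setLIntegral_mono' measurableSet_Ioo hcirc
      _ ≤ ∫⁻ s in Ioi 0, ∫⁻ θ in Ioo (-π) π,
          ENNReal.ofReal s • G (Complex.polarCoord.symm (s, θ)) := by
          apply lintegral_mono_set
          intro s hs
          have := hs.1
          simp only [mem_Ioi]
          linarith
  have hfin := hlow.trans hup
  rw [ENNReal.ofReal_le_ofReal_iff (by positivity)] at hfin
  rw [div_le_iff₀ (by positivity)] at hfin
  have h8 : m ^ 2 = U ^ 4 * U ^ 2 / 36 := by rw [hm]; ring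
  have h9 : (U ^ 2 / 4) ^ 2 * A * (4 * π) = U ^ 4 * (A * 9 * π) / 36 := by ring
  rw [h8, h9] at hfin
  have h10 : U ^ 4 * (A * 9 * π) < U ^ 4 * U ^ 2 := mul_lt_mul_of_pos_left hUA (by positivity)
  linarith

theorem logDeriv_bound {p : ℝ} (hp : 0 < p) :
    ∃ C : ℝ, 0 < C ∧ ∀ (f : ℂ → ℂ) (z₀ : ℂ) (ρ : ℝ), 0 < ρ → ball z₀ ρ ⊆ ball (0:ℂ) 1 →
      DifferentiableOn ℂ f (ball (0:ℂ) 1) →
      (∀ z ∈ ball z₀ ρ, f z ≠ 0) →
      (∀ a b : ℝ, 0 < a → a ≤ b →
        ∫⁻ z in {z : ℂ | z ∈ ball (0:ℂ) 1 ∧ a < ‖f z‖ ∧ ‖f z‖ < b},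
          ENNReal.ofReal ((‖deriv f z‖ / ‖f z‖) ^ 2)
          ≤ ENNReal.ofReal (π * p * (1 + 2 * Real.log (b / a)))) →
      ‖deriv f z₀‖ * ρ ≤ C * ‖f z₀‖ := by
  have hpi := Real.pi_pos
  set U : ℝ := 300 * (1 + p) with hUdef
  have hU : 0 < U := by positivity
  have hUA : (π * p * (1 + 2 * U)) * 9 * π < U ^ 2 := by
    have h1 : π < 3.15 := Real.pi_lt_d2
    have h2 : π * π < 10 := by nlinarith
    have h3 : (1:ℝ) ≤ U := by rw [hUdef]; nlinarith
    calc (π * p * (1 + 2 * U)) * 9 * π = (π * π) * (9 * p * (1 + 2 * U)) := by ring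
      _ ≤ 10 * (9 * p * (1 + 2 * U)) := by
          apply mul_le_mul_of_nonneg_right h2.le (by positivity)
      _ ≤ 10 * (9 * p * (U + 2 * U)) := by gcongr
      _ = 270 * p * U := by ring
      _ < 300 * (1 + p) * U := by
          apply mul_lt_mul_of_pos_right _ hU
          linarith
      _ = U ^ 2 := by rw [← hUdef]; ring
  refine ⟨16 * U, by positivity, ?_⟩
  intro f z₀ ρ hρ hsub hf hne harea
  have hz0 : z₀ ∈ ball z₀ ρ := mem_ball_self hρ
  have hf0 : f z₀ ≠ 0 := hne z₀ hz0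
  have hfb : DifferentiableOn ℂ f (ball z₀ ρ) := hf.mono hsub
  have hquot : DifferentiableOn ℂ (fun z => deriv f z / f z) (ball z₀ ρ) :=
    (hfb.deriv isOpen_ball).div hfb hne
  obtain ⟨w, hw0, hw⟩ := hquot.isExactOn_ball.with_val_at z₀ 0
  -- f = f z₀ * exp w
  have hfw : ∀ z ∈ ball z₀ ρ, f z = f z₀ * Complex.exp (w z) := by
    intro z hz
    have hconst : ∀ x ∈ ball z₀ ρ, HasDerivAt (fun z => f z * Complex.exp (-(w z))) 0 x := by
      intro x hx
      have e1 : HasDerivAt f (deriv f x) x :=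
        (hfb.differentiableAt (isOpen_ball.mem_nhds hx)).hasDerivAt
      have e2 := (hw x hx).neg.cexp
      refine (e1.mul e2).congr_deriv ?_
      have := hne x hx
      field_simp
      ring
    have h1 : f z * Complex.exp (-(w z)) = f z₀ * Complex.exp (-(w z₀)) := by
      apply (convex_ball z₀ ρ).is_const_of_fderivWithin_eq_zero (𝕜 := ℂ)
        (f := fun z => f z * Complex.exp (-(w z)))
        (fun x hx => (hconst x hx).differentiableAt.differentiableWithinAt) _ hz hz0
      intro x hx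
      rw [fderivWithin_of_isOpen isOpen_ball hx, (hconst x hx).hasFDerivAt.fderiv]
      ext
      simp
    rw [hw0, neg_zero, Complex.exp_zero, mul_one, Complex.exp_neg] at h1
    rw [← h1]
    have := Complex.exp_ne_zero (w z)
    field_simp
  -- translate
  set v : ℂ → ℂ := fun ζ => w (z₀ + ζ) with hv
  have hmem : ∀ ζ ∈ ball (0:ℂ) ρ, z₀ + ζ ∈ ball z₀ ρ := by
    intro ζ hζ
    rw [mem_ball_zero_iff] at hζ
    rw [mem_ball, dist_eq_norm, add_sub_cancel_left]
    exact hζ
  have hvd : ∀ ζ ∈ ball (0:ℂ) ρ, HasDerivAt v (deriv f (z₀ + ζ) / f (z₀ + ζ)) ζ := by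
    intro ζ hζ
    exact HasDerivAt.comp_const_add z₀ ζ (hw _ (hmem ζ hζ))
  have hvdiff : DifferentiableOn ℂ v (ball 0 ρ) :=
    fun ζ hζ => (hvd ζ hζ).differentiableAt.differentiableWithinAt
  have hv0 : v 0 = 0 := by simp only [hv, add_zero, hw0]
  have hnorm : ∀ ζ ∈ ball (0:ℂ) ρ, ‖f (z₀ + ζ)‖ = ‖f z₀‖ * Real.exp (v ζ).re := by
    intro ζ hζ
    rw [hfw _ (hmem ζ hζ), norm_mul, Complex.norm_exp]
  have hfpos : 0 < ‖f z₀‖ := norm_pos_iff.mpr hf0
  have hint : ∫⁻ z in {z | z ∈ ball (0:ℂ) ρ ∧ 0 < (v z).re ∧ (v z).re < U},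
      ENNReal.ofReal (‖deriv v z‖ ^ 2) ≤ ENNReal.ofReal (π * p * (1 + 2 * U)) := by
    have h1 := harea ‖f z₀‖ (‖f z₀‖ * Real.exp U) hfpos
      (le_mul_of_one_le_right hfpos.le (Real.one_le_exp hU.le))
    rw [mul_div_cancel_left₀ _ hfpos.ne', Real.log_exp] at h1
    refine le_trans ?_ h1
    set S1 : Set ℂ := {z | z ∈ ball (0:ℂ) ρ ∧ 0 < (v z).re ∧ (v z).re < U} with hS1
    set S2 : Set ℂ := {z : ℂ | z ∈ ball (0:ℂ) 1 ∧ ‖f z₀‖ < ‖f z‖ ∧ ‖f z‖ < ‖f z₀‖ * Real.exp U}
      with hS2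
    have hS1o : MeasurableSet S1 := by
      have c1 : ContinuousOn (fun z => (v z).re) (ball 0 ρ) :=
        Complex.continuous_re.comp_continuousOn hvdiff.continuousOn
      have : S1 = ball 0 ρ ∩ (fun z => (v z).re) ⁻¹' (Ioo 0 U) := by
        ext z
        simp only [hS1, mem_ofPred_eq, mem_inter_iff, mem_preimage, mem_Ioo]
      rw [this]
      exact (c1.isOpen_inter_preimage isOpen_ball isOpen_Ioo).measurableSet
    have hS2o : MeasurableSet S2 := by
      have c1 : ContinuousOn (fun z => ‖f z‖) (ball 0 1) := hf.continuousOn.norm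
      have : S2 = ball 0 1 ∩ (fun z => ‖f z‖) ⁻¹' (Ioo ‖f z₀‖ (‖f z₀‖ * Real.exp U)) := by
        ext z
        simp only [hS2, mem_ofPred_eq, mem_inter_iff, mem_preimage, mem_Ioo]
      rw [this]
      exact (c1.isOpen_inter_preimage isOpen_ball isOpen_Ioo).measurableSet
    have h2 : ∫⁻ z in S2, ENNReal.ofReal ((‖deriv f z‖ / ‖f z‖) ^ 2) =
        ∫⁻ z, S2.indicator (fun z => ENNReal.ofReal ((‖deriv f z‖ / ‖f z‖) ^ 2)) (z₀ + z) := by
      rw [lintegral_add_left_eq_self (S2.indicator fun z =>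
        ENNReal.ofReal ((‖deriv f z‖ / ‖f z‖) ^ 2)) z₀, lintegral_indicator hS2o]
    rw [h2, ← lintegral_indicator hS1o]
    apply lintegral_mono
    intro ζ
    by_cases hζ : ζ ∈ S1
    · have hζb : ζ ∈ ball (0:ℂ) ρ := hζ.1
      have hmem2 : z₀ + ζ ∈ S2 := by
        refine ⟨hsub (hmem ζ hζb), ?_, ?_⟩
        · rw [hnorm ζ hζb]
          have : 1 < Real.exp (v ζ).re := Real.one_lt_exp_iff.mpr hζ.2.1
          exact lt_mul_of_one_lt_right hfpos this
        · rw [hnorm ζ hζb]
          exact mul_lt_mul_of_pos_left (Real.exp_lt_exp.mpr hζ.2.2) hfpos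
      beta_reduce
      rw [Set.indicator_of_mem hζ, Set.indicator_of_mem hmem2, (hvd ζ hζb).deriv, norm_div]
    · rw [Set.indicator_of_notMem hζ]
      exact zero_le
  obtain ⟨s, hs, hsU⟩ := core hρ hU hvdiff hv0 (by positivity) hint hUA
  have hs0 : 0 < s := by linarith [hs.1]
  -- Re v ≤ U on the closed ball of radius s
  have hre : ∀ ζ : ℂ, ‖ζ‖ ≤ s → (v ζ).re ≤ U := by
    intro ζ hζ
    have hd : DiffContOnCl ℂ (fun z => Complex.exp (v z)) (ball 0 s) := by
      apply DifferentiableOn.diffContOnCl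
      rw [closure_ball _ hs0.ne']
      exact (hvdiff.mono (closedBall_subset_ball hs.2)).cexp
    have h1 := Complex.norm_le_of_forall_mem_frontier_norm_le (C := Real.exp U)
      Metric.isBounded_ball hd (by
        intro z hz
        rw [frontier_ball _ hs0.ne', mem_sphere_zero_iff_norm] at hz
        rw [Complex.norm_exp]
        exact Real.exp_le_exp.mpr (hsU z hz).le) (z := ζ) (by
        rw [closure_ball _ hs0.ne', mem_closedBall_zero_iff]
        exact hζ)
    rw [Complex.norm_exp] at h1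
    exact Real.exp_le_exp.mp h1
  -- Borel–Carathéodory
  have hbc : ∀ ζ : ℂ, ‖ζ‖ = s / 2 → ‖v ζ‖ ≤ 2 * U := by
    intro ζ hζ
    have hd : DifferentiableOn ℂ v (ball 0 s) := hvdiff.mono (ball_subset_ball hs.2.le)
    have h1 := Complex.borelCaratheodory_zero (M := U) (R := s) (z := ζ) hU hd
      (fun z hz => hre z (mem_ball_zero_iff.mp hz).le) hs0
      (by rw [mem_ball_zero_iff, hζ]; linarith) hv0
    rw [hζ] at h1
    refine h1.trans (le_of_eq ?_)
    have : s - s / 2 = s / 2 := by ring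
    rw [this]
    field_simp
  have hder : ‖deriv v 0‖ ≤ 2 * U / (s / 2) := by
    apply Complex.norm_deriv_le_of_forall_mem_sphere_norm_le (by positivity)
    · apply DifferentiableOn.diffContOnCl
      rw [closure_ball _ (by positivity)]
      exact hvdiff.mono (closedBall_subset_ball (by linarith [hs.2]))
    · intro z hz
      rw [mem_sphere_zero_iff_norm] at hz
      exact hbc z hz
  rw [(hvd 0 (mem_ball_self hρ)).deriv, add_zero, norm_div, div_le_iff₀ hfpos] at hder
  have h1 : ρ / 2 ≤ s := hs.1.le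
  have h2 : 2 * U / (s / 2) * ρ ≤ 8 * U := by
    have h3 : 2 * U / (s / 2) * ρ = 4 * U * ρ / s := by field_simp; ring
    rw [h3, div_le_iff₀ hs0]
    nlinarith
  calc ‖deriv f z₀‖ * ρ ≤ (2 * U / (s / 2) * ‖f z₀‖) * ρ := by gcongr
    _ = (2 * U / (s / 2) * ρ) * ‖f z₀‖ := by ring
    _ ≤ (8 * U) * ‖f z₀‖ := by gcongr
    _ ≤ 16 * U * ‖f z₀‖ := by
        have : 0 ≤ U * ‖f z₀‖ := by positivity
        nlinarith

end LogDeriv

end MeanVal
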