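import Mathlib
import Pool.Agent.Helper772.MV.Defs

open MeasureTheory Metric Set
open scoped ENNReal Real

namespace MeanVal

namespace Logs


theorem logf_bound (r₁ C₁ : ℝ) (hr₁ : 0 < r₁) (hr₁' : r₁ < 1) (hC₁ : 0 ≤ C₁) (f : ℂ → ℂ)
    (hd : DifferentiableOn ℂ f (ball 0 1))
    (hL : ∀ z : ℂ, r₁ ≤ ‖z‖ → ‖z‖ < 1 → f z ≠ 0 ∧ ‖deriv f z‖ * (1 - ‖z‖) ≤ C₁ * ‖f z‖) :
    ∃ C : ℝ, 0 ≤ C ∧ ∀ z : ℂ, r₁ ≤ ‖z‖ → ‖z‖ < 1 →
      |Real.log ‖f z‖| ≤ C + C₁ * Real.log (1 / (1 - ‖z‖)) := by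
  have hcont : ContinuousOn (fun z : ℂ => Real.log ‖f z‖) (sphere (0:ℂ) r₁) := by
    apply ContinuousOn.log
    · apply ContinuousOn.norm
      apply hd.continuousOn.mono
      intro z hz
      rw [mem_sphere_zero_iff_norm] at hz
      rw [mem_ball_zero_iff, hz]
      exact hr₁'
    · intro z hz
      rw [mem_sphere_zero_iff_norm] at hz
      have := (hL z hz.ge (hz ▸ hr₁')).1
      simpa using this
  obtain ⟨M, hM⟩ := (isCompact_sphere (0:ℂ) r₁).exists_bound_of_continuousOn hcont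
  refine ⟨max M 0, le_max_right _ _, ?_⟩
  intro z hz1 hz2
  have hzpos : 0 < ‖z‖ := lt_of_lt_of_le hr₁ hz1
  set ζ : ℂ := z / (‖z‖ : ℂ) with hζ
  have hζn : ‖ζ‖ = 1 := by
    rw [hζ, norm_div, Complex.norm_real, norm_norm]
    exact div_self hzpos.ne'
  have hzζ : z = (‖z‖ : ℂ) * ζ := by
    rw [hζ, mul_div_cancel₀]
    exact_mod_cast hzpos.ne'
  have hny : ∀ y : ℝ, 0 ≤ y → ‖(y : ℂ) * ζ‖ = y := by
    intro y hy
    rw [norm_mul, hζn, Complex.norm_real, Real.norm_of_nonneg hy, mul_one]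
  -- derivative of F
  have hF : ∀ y : ℝ, r₁ ≤ y → y < 1 →
      HasDerivAt (fun y : ℝ => f ((y : ℂ) * ζ)) (deriv f ((y : ℂ) * ζ) * ζ) y := by
    intro y hy1 hy2
    have hy0 : 0 ≤ y := hr₁.le.trans hy1
    have h1 : HasDerivAt f (deriv f ((y : ℂ) * ζ)) ((y : ℂ) * ζ) := by
      apply DifferentiableAt.hasDerivAt
      apply hd.differentiableAt
      apply isOpen_ball.mem_nhds
      rw [mem_ball_zero_iff, hny y hy0]
      exact hy2
    have h2 : HasDerivAt (fun y : ℝ => (y : ℂ) * ζ) ζ y := by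
      have := (Complex.ofRealCLM.hasDerivAt (x := y)).mul_const ζ
      simpa using this
    have h3 := HasDerivAt.scomp y h1 h2
    have h4 : ζ • deriv f ((y : ℂ) * ζ) = deriv f ((y : ℂ) * ζ) * ζ := by
      rw [smul_eq_mul, mul_comm]
    rw [h4] at h3
    exact h3
  have hne : ∀ y : ℝ, r₁ ≤ y → y < 1 → f ((y : ℂ) * ζ) ≠ 0 := by
    intro y hy1 hy2
    have hy0 : 0 ≤ y := hr₁.le.trans hy1
    exact (hL _ (by rw [hny y hy0]; exact hy1) (by rw [hny y hy0]; exact hy2)).1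
  have hlog : ∀ y : ℝ, r₁ ≤ y → y < 1 →
      HasDerivAt (fun y : ℝ => Real.log ‖f ((y : ℂ) * ζ)‖)
        ((inner ℝ (f ((y : ℂ) * ζ)) (deriv f ((y : ℂ) * ζ) * ζ)) / ‖f ((y : ℂ) * ζ)‖ ^ 2) y := by
    intro y hy1 hy2
    have h1 := (hF y hy1 hy2).norm_sq
    have hn : 0 < ‖f ((y : ℂ) * ζ)‖ := norm_pos_iff.2 (hne y hy1 hy2)
    have h2 := (h1.log (by positivity)).div_const 2
    have h3 : (fun y : ℝ => Real.log (‖f ((y : ℂ) * ζ)‖ ^ 2) / 2) =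
        fun y : ℝ => Real.log ‖f ((y : ℂ) * ζ)‖ := by
      funext t
      rw [Real.log_pow]
      push_cast
      ring
    rw [h3] at h2
    have h4 : (inner ℝ (f ((y : ℂ) * ζ)) (deriv f ((y : ℂ) * ζ) * ζ)) / ‖f ((y : ℂ) * ζ)‖ ^ 2 =
        2 * (inner ℝ (f ((y : ℂ) * ζ)) (deriv f ((y : ℂ) * ζ) * ζ)) / ‖f ((y : ℂ) * ζ)‖ ^ 2 / 2 := by
      rw [mul_div_assoc, mul_div_cancel_left₀]
      norm_num
    rw [h4]
    exact h2
  have hbd : ∀ y : ℝ, r₁ ≤ y → y < 1 →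
      ‖(inner ℝ (f ((y : ℂ) * ζ)) (deriv f ((y : ℂ) * ζ) * ζ)) / ‖f ((y : ℂ) * ζ)‖ ^ 2‖
        ≤ C₁ / (1 - y) := by
    intro y hy1 hy2
    have hy0 : 0 ≤ y := hr₁.le.trans hy1
    have hn : 0 < ‖f ((y : ℂ) * ζ)‖ := norm_pos_iff.2 (hne y hy1 hy2)
    have h1 := (hL _ (by rw [hny y hy0]; exact hy1) (by rw [hny y hy0]; exact hy2)).2
    rw [hny y hy0] at h1
    rw [norm_div, Real.norm_of_nonneg (by positivity : (0:ℝ) ≤ ‖f ((y : ℂ) * ζ)‖ ^ 2),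
      div_le_div_iff₀ (by positivity) (by linarith)]
    have h2 : ‖(inner ℝ (f ((y : ℂ) * ζ)) (deriv f ((y : ℂ) * ζ) * ζ))‖ ≤
        ‖f ((y : ℂ) * ζ)‖ * ‖deriv f ((y : ℂ) * ζ)‖ := by
      have := norm_inner_le_norm (𝕜 := ℝ) (f ((y : ℂ) * ζ)) (deriv f ((y : ℂ) * ζ) * ζ)
      rwa [norm_mul, hζn, mul_one] at this
    calc ‖(inner ℝ (f ((y : ℂ) * ζ)) (deriv f ((y : ℂ) * ζ) * ζ))‖ * (1 - y)
        ≤ (‖f ((y : ℂ) * ζ)‖ * ‖deriv f ((y : ℂ) * ζ)‖) * (1 - y) :=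
          mul_le_mul_of_nonneg_right h2 (by linarith)
      _ = ‖f ((y : ℂ) * ζ)‖ * (‖deriv f ((y : ℂ) * ζ)‖ * (1 - y)) := by ring
      _ ≤ ‖f ((y : ℂ) * ζ)‖ * (C₁ * ‖f ((y : ℂ) * ζ)‖) :=
          mul_le_mul_of_nonneg_left h1 hn.le
      _ = C₁ * ‖f ((y : ℂ) * ζ)‖ ^ 2 := by ring
  have hB : ∀ y : ℝ, y < 1 → HasDerivAt (fun y : ℝ => max M 0 + C₁ * Real.log (1 / (1 - y)))
      (C₁ / (1 - y)) y := by
    intro y hy
    have h1 : HasDerivAt (fun y : ℝ => 1 - y) (-1) y := by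
      simpa using (hasDerivAt_id y).const_sub 1
    have h2 := ((h1.log (by linarith : (1 - y) ≠ 0)).neg.const_mul C₁).const_add (max M 0)
    have h3 : (fun y : ℝ => max M 0 + C₁ * -Real.log (1 - y)) =
        fun y : ℝ => max M 0 + C₁ * Real.log (1 / (1 - y)) := by
      funext t
      rw [one_div, Real.log_inv]
    have h4 : C₁ * -(-1 / (1 - y)) = C₁ / (1 - y) := by ring
    rw [← h3, ← h4]
    exact h2
  have hfin := image_norm_le_of_norm_deriv_right_le_deriv_boundary'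
    (f := fun y : ℝ => Real.log ‖f ((y : ℂ) * ζ)‖) (a := r₁) (b := ‖z‖)
    (f' := fun y : ℝ =>
      (inner ℝ (f ((y : ℂ) * ζ)) (deriv f ((y : ℂ) * ζ) * ζ)) / ‖f ((y : ℂ) * ζ)‖ ^ 2)
    (fun y hy => (hlog y hy.1 (lt_of_le_of_lt hy.2 hz2)).continuousAt.continuousWithinAt)
    (fun y hy => (hlog y hy.1 (hy.2.trans hz2)).hasDerivWithinAt)
    (B := fun y : ℝ => max M 0 + C₁ * Real.log (1 / (1 - y)))
    (B' := fun y : ℝ => C₁ / (1 - y))
    (by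
      have h1 := hM ((r₁ : ℂ) * ζ) (by rw [mem_sphere_zero_iff_norm, hny r₁ hr₁.le])
      have h2 : 0 ≤ C₁ * Real.log (1 / (1 - r₁)) := by
        apply mul_nonneg hC₁
        apply Real.log_nonneg
        rw [le_div_iff₀ (by linarith)]
        linarith
      have h3 := le_max_left M 0
      show ‖Real.log ‖f ((r₁ : ℂ) * ζ)‖‖ ≤ max M 0 + C₁ * Real.log (1 / (1 - r₁))
      linarith)
    (fun y hy => (hB y (lt_of_le_of_lt hy.2 hz2)).continuousAt.continuousWithinAt)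
    (fun y hy => (hB y (hy.2.trans hz2)).hasDerivWithinAt)
    (fun y hy => hbd y hy.1 (hy.2.trans hz2))
  have h5 := hfin (right_mem_Icc.2 hz1)
  have h6 : ‖Real.log ‖f ((‖z‖ : ℂ) * ζ)‖‖ ≤ max M 0 + C₁ * Real.log (1 / (1 - ‖z‖)) := h5
  rw [← hzζ, Real.norm_eq_abs] at h6
  exact h6

theorem annulus_energy (p r₁ C₁ C₂ : ℝ) (hp : 0 < p) (hr₁ : 0 < r₁) (hr₁' : r₁ < 1)
    (hC₁ : 0 ≤ C₁) (hC₂ : 0 ≤ C₂) (f : ℂ → ℂ) (hd : DifferentiableOn ℂ f (ball 0 1))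
    (hE : ∀ a b : ℝ, 0 < a → a ≤ b →
        ∫⁻ z in {z : ℂ | z ∈ ball (0:ℂ) 1 ∧ a < ‖f z‖ ∧ ‖f z‖ < b},
          ENNReal.ofReal ((‖deriv f z‖ / ‖f z‖) ^ 2)
          ≤ ENNReal.ofReal (π * p * (1 + 2 * Real.log (b / a))))
    (hlog : ∀ z : ℂ, r₁ ≤ ‖z‖ → ‖z‖ < 1 → f z ≠ 0 ∧
      |Real.log ‖f z‖| ≤ C₂ + C₁ * Real.log (1 / (1 - ‖z‖))) :
    ∃ C : ℝ, 0 ≤ C ∧ ∀ n : ℕ, 2 ≤ n →
      ∫⁻ z in {z : ℂ | r₁ < ‖z‖ ∧ ‖z‖ < 1 - 1 / (n:ℝ)},
        ENNReal.ofReal ((‖deriv f z‖ / ‖f z‖) ^ 2) ≤ ENNReal.ofReal (C * (1 + Real.log n)) := by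
  refine ⟨π * p * (5 + 4 * C₂ + 4 * C₁), by positivity, ?_⟩
  intro n hn
  have hn0 : (0 : ℝ) < n := by
    have : 0 < n := by omega
    exact_mod_cast this
  have hn1 : (1 : ℝ) ≤ n := by
    have : 1 ≤ n := by omega
    exact_mod_cast this
  have hlogn : 0 ≤ Real.log n := Real.log_nonneg hn1
  set L : ℝ := C₂ + C₁ * Real.log n with hLdef
  have hL0 : 0 ≤ L := by positivity
  have hsub : {z : ℂ | r₁ < ‖z‖ ∧ ‖z‖ < 1 - 1 / (n:ℝ)} ⊆
      {z : ℂ | z ∈ ball (0:ℂ) 1 ∧ Real.exp (-L - 1) < ‖f z‖ ∧ ‖f z‖ < Real.exp (L + 1)} := by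
    rintro z ⟨hz1, hz2⟩
    have hinv : 0 < 1 / (n : ℝ) := by positivity
    have hz3 : ‖z‖ < 1 := by linarith
    obtain ⟨h1, h2⟩ := hlog z hz1.le hz3
    have h3 : Real.log (1 / (1 - ‖z‖)) ≤ Real.log n := by
      apply Real.log_le_log
      · apply one_div_pos.2
        linarith
      · rw [div_le_iff₀ (by linarith)]
        have h4 : 1 / (n : ℝ) < 1 - ‖z‖ := by linarith
        rw [div_lt_iff₀ hn0] at h4
        linarith
    have h5 : |Real.log ‖f z‖| ≤ L := h2.trans (by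
      rw [hLdef]
      have := mul_le_mul_of_nonneg_left h3 hC₁
      linarith)
    have h6 := abs_le.1 h5
    have hpos : 0 < ‖f z‖ := norm_pos_iff.2 h1
    refine ⟨by rw [mem_ball_zero_iff]; exact hz3, ?_, ?_⟩
    · rw [← Real.lt_log_iff_exp_lt hpos]
      linarith [h6.1]
    · rw [← Real.log_lt_iff_lt_exp hpos]
      linarith [h6.2]
  refine (lintegral_mono_set hsub).trans ?_
  refine (hE _ _ (Real.exp_pos _) (Real.exp_le_exp.2 (by linarith))).trans ?_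
  apply ENNReal.ofReal_le_ofReal
  rw [← Real.exp_sub, Real.log_exp, mul_assoc]
  have hpp : 0 ≤ π * p := by positivity
  have h7 : 1 + 2 * (L + 1 - (-L - 1)) ≤ (5 + 4 * C₂ + 4 * C₁) * (1 + Real.log n) := by
    rw [hLdef]
    nlinarith [mul_nonneg hC₂ hlogn, mul_nonneg hC₁ hlogn]
  calc π * (p * (1 + 2 * (L + 1 - (-L - 1)))) = (π * p) * (1 + 2 * (L + 1 - (-L - 1))) := by ring
    _ ≤ (π * p) * ((5 + 4 * C₂ + 4 * C₁) * (1 + Real.log n)) := mul_le_mul_of_nonneg_left h7 hpp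
    _ = π * p * (5 + 4 * C₂ + 4 * C₁) * (1 + Real.log n) := by ring

theorem pole_integral_aux_357 (n : ℕ) (hn : 2 ≤ n) :
    ∫⁻ w : ℂ, ({w : ℂ | 1 / (n:ℝ) < ‖w‖ ∧ ‖w‖ < 2}).indicator
      (fun w => ENNReal.ofReal (1 / ‖w‖ ^ 2)) w = ENNReal.ofReal (2 * π * Real.log (2 * n)) := by
  have hn0 : (0 : ℝ) < n := by
    have : 0 < n := by omega
    exact_mod_cast this
  have hn2 : (2 : ℝ) ≤ n := by exact_mod_cast hn
  have hinv : 0 < 1 / (n : ℝ) := by positivity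
  have hinv2 : 1 / (n : ℝ) ≤ 2 := by
    rw [div_le_iff₀ hn0]
    linarith
  rw [← Complex.lintegral_comp_polarCoord_symm, polarCoord_target]
  have h1 : ∫⁻ (q : ℝ × ℝ) in Ioi (0:ℝ) ×ˢ Ioo (-π) π, ENNReal.ofReal q.1 •
      ({w : ℂ | 1 / (n:ℝ) < ‖w‖ ∧ ‖w‖ < 2}).indicator
        (fun w => ENNReal.ofReal (1 / ‖w‖ ^ 2)) (Complex.polarCoord.symm q) =
      ∫⁻ (q : ℝ × ℝ) in Ioi (0:ℝ) ×ˢ Ioo (-π) π,
        ((Ioo (1 / (n:ℝ)) 2).indicator (fun r => ENNReal.ofReal (1 / r)) q.1) * (1 : ℝ≥0∞) := by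
    apply setLIntegral_congr_fun (measurableSet_Ioi.prod measurableSet_Ioo)
    rintro ⟨r, θ⟩ ⟨hr, -⟩
    have hr0 : 0 < r := hr
    simp only [smul_eq_mul, mul_one]
    by_cases hmem : r ∈ Ioo (1 / (n:ℝ)) 2
    · rw [indicator_of_mem hmem, indicator_of_mem]
      · rw [Complex.norm_polarCoord_symm, abs_of_pos hr0, ← ENNReal.ofReal_mul hr0.le]
        congr 1
        field_simp
      · simp only [mem_ofPred_eq, Complex.norm_polarCoord_symm, abs_of_pos hr0]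
        exact hmem
    · rw [indicator_of_notMem hmem, indicator_of_notMem, mul_zero]
      simp only [mem_ofPred_eq, Complex.norm_polarCoord_symm, abs_of_pos hr0]
      exact hmem
  rw [h1, Measure.volume_eq_prod, ← Measure.prod_restrict]
  rw [lintegral_prod_mul (f := (Ioo (1 / (n:ℝ)) 2).indicator (fun r => ENNReal.ofReal (1 / r)))
    (g := fun _ : ℝ => (1 : ℝ≥0∞))
    ((Measurable.indicator (by fun_prop) measurableSet_Ioo).aemeasurable)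
    aemeasurable_const]
  have h2 : ∫⁻ (θ : ℝ) in Ioo (-π) π, (1 : ℝ≥0∞) = ENNReal.ofReal (2 * π) := by
    rw [setLIntegral_one, Real.volume_Ioo]
    congr 1
    ring
  have h3 : ∫⁻ (r : ℝ) in Ioi (0:ℝ), (Ioo (1 / (n:ℝ)) 2).indicator
      (fun r => ENNReal.ofReal (1 / r)) r = ENNReal.ofReal (Real.log (2 * n)) := by
    rw [setLIntegral_indicator measurableSet_Ioo]
    have h4 : Ioo (1 / (n:ℝ)) 2 ∩ Ioi 0 = Ioo (1 / (n:ℝ)) 2 := by
      apply inter_eq_left.2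
      intro r hr
      exact hinv.trans hr.1
    rw [h4]
    have hint : IntervalIntegrable (fun x : ℝ => 1 / x) volume (1 / (n:ℝ)) 2 := by
      apply intervalIntegral.intervalIntegrable_one_div (f := fun x : ℝ => x)
      · intro x hx
        rw [uIcc_of_le hinv2] at hx
        exact (hinv.trans_le hx.1).ne'
      · exact continuousOn_id
    have hint2 : IntegrableOn (fun x : ℝ => 1 / x) (Ioo (1 / (n:ℝ)) 2) :=
      ((intervalIntegrable_iff_integrableOn_Ioc_of_le hinv2).1 hint).mono_set Ioo_subset_Ioc_self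
    rw [← ofReal_integral_eq_lintegral_ofReal hint2]
    · congr 1
      rw [← integral_Ioc_eq_integral_Ioo, ← intervalIntegral.integral_of_le hinv2,
        integral_one_div_of_pos hinv (by norm_num)]
      congr 1
      field_simp
    · filter_upwards [ae_restrict_mem measurableSet_Ioo] with x hx
      have : 0 < x := hinv.trans hx.1
      positivity
  rw [h2, h3, mul_comm, ← ENNReal.ofReal_mul (by positivity)]

theorem pole_integral (ζ : ℂ) (hζ : ‖ζ‖ = 1) (n : ℕ) (hn : 2 ≤ n) :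
    ∫⁻ z in ball (0:ℂ) (1 - 1 / (n:ℝ)), ENNReal.ofReal (1 / ‖z - ζ‖ ^ 2)
      ≤ ENNReal.ofReal (2 * π * Real.log (2 * n)) := by
  have hn0 : (0 : ℝ) < n := by
    have : 0 < n := by omega
    exact_mod_cast this
  have hinv : 0 < 1 / (n : ℝ) := by positivity
  rw [← pole_integral_aux_357 n hn, ← lintegral_indicator measurableSet_ball]
  refine le_trans ?_ (le_of_eq (lintegral_sub_right_eq_self (μ := (volume : Measure ℂ))
    (({w : ℂ | 1 / (n:ℝ) < ‖w‖ ∧ ‖w‖ < 2}).indicator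
      (fun w => ENNReal.ofReal (1 / ‖w‖ ^ 2))) ζ))
  apply lintegral_mono
  intro z
  by_cases hz : z ∈ ball (0:ℂ) (1 - 1 / (n:ℝ))
  · have hz' := hz
    rw [mem_ball_zero_iff] at hz'
    have hmem : z - ζ ∈ {w : ℂ | 1 / (n:ℝ) < ‖w‖ ∧ ‖w‖ < 2} := by
      constructor
      · have h1 : ‖ζ‖ ≤ ‖z‖ + ‖z - ζ‖ := by
          have h2 : ζ = z - (z - ζ) := by ring
          conv_lhs => rw [h2]
          exact norm_sub_le _ _
        rw [hζ] at h1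
        linarith
      · have h1 : ‖z - ζ‖ ≤ ‖z‖ + ‖ζ‖ := norm_sub_le _ _
        rw [hζ] at h1
        linarith
    simp only
    rw [indicator_of_mem hz, indicator_of_mem hmem]
  · simp only
    rw [indicator_of_notMem hz]
    exact bot_le

end Logs

end MeanVal
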