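import Mathlib
import Pool.Agent.Helper772.MV.Defs

open MeasureTheory Metric Set
open scoped ENNReal Real

namespace MeanVal

namespace ProdCoeff


theorem pc_step_aux (h : ℂ → ℂ) (hh : DifferentiableOn ℂ h (ball 0 1)) (a : ℂ) (n : ℕ) :
    ∀ z ∈ ball (0 : ℂ) 1, iteratedDeriv (n + 1) (fun z => h z * (z - a)) z =
      (n + 1) * iteratedDeriv n h z + (z - a) * iteratedDeriv (n + 1) h z := by
  have han : AnalyticOnNhd ℂ h (ball 0 1) := hh.analyticOnNhd isOpen_ball
  have hd : ∀ k : ℕ, ∀ z ∈ ball (0 : ℂ) 1, DifferentiableAt ℂ (iteratedDeriv k h) z := by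
    intro k z hz
    rw [iteratedDeriv_eq_iterate]
    exact ((han.iterated_deriv k) z hz).differentiableAt
  induction n with
  | zero =>
    intro z hz
    have h1 : DifferentiableAt ℂ h z := (han z hz).differentiableAt
    rw [zero_add, iteratedDeriv_one, iteratedDeriv_one, iteratedDeriv_zero,
      deriv_fun_mul h1 (by fun_prop)]
    simp
    ring
  | succ n ih =>
    intro z hz
    have he : iteratedDeriv (n + 1) (fun z => h z * (z - a)) =ᶠ[nhds z]
        fun z => (n + 1) * iteratedDeriv n h z + (z - a) * iteratedDeriv (n + 1) h z := by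
      filter_upwards [isOpen_ball.mem_nhds hz] with w hw using ih w hw
    rw [iteratedDeriv_succ, he.deriv_eq]
    have h1 := hd n z hz
    have h2 := hd (n + 1) z hz
    rw [deriv_fun_add (by fun_prop) (by fun_prop), deriv_const_mul _ h1,
      deriv_fun_mul (by fun_prop) h2, ← iteratedDeriv_succ, ← iteratedDeriv_succ]
    simp
    ring

theorem pc_step (h : ℂ → ℂ) (hh : DifferentiableOn ℂ h (ball 0 1)) (a : ℂ) (n : ℕ) :
    coeff (fun z => h z * (z - a)) (n + 1) = coeff h n - a * coeff h (n + 1) := by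
  unfold coeff
  rw [pc_step_aux h hh a n 0 (by simp), Nat.factorial_succ]
  have h1 : ((n.factorial : ℕ) : ℂ) ≠ 0 := by exact_mod_cast n.factorial_ne_zero
  have h2 : ((n : ℂ) + 1) ≠ 0 := by exact_mod_cast n.succ_ne_zero
  push_cast
  field_simp
  ring

theorem pc_main (m : ℕ) (f : ℂ → ℂ) (hf : DifferentiableOn ℂ f (ball 0 1))
    (ζ : Fin m → ℂ) (hζ : ∀ l, ‖ζ l‖ = 1) :
    ∃ c : ℕ → ℂ, c 0 = 1 ∧ ‖c m‖ = 1 ∧ (∀ i, m < i → c i = 0) ∧ ∀ n : ℕ,
      coeff (fun z => f z * ∏ l, (z - ζ l)) (n + m) =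
        ∑ i ∈ Finset.range (m + 1), c i * coeff f (n + i) := by
  induction m with
  | zero =>
    refine ⟨fun i => if i = 0 then 1 else 0, by simp, by simp, ?_, ?_⟩
    · intro i hi; simp; omega
    · intro n; simp
  | succ m ih =>
    obtain ⟨c, h0, hm, hz, hc⟩ := ih (fun l => ζ l.castSucc) (fun l => hζ _)
    set a := ζ (Fin.last m) with ha
    have hna : ‖a‖ = 1 := hζ _
    refine ⟨fun i => c i - (if i = 0 then 0 else a * c (i - 1)), by simp [h0], ?_, ?_, ?_⟩
    · simp only [Nat.succ_ne_zero, if_false, Nat.add_sub_cancel, hz (m + 1) (Nat.lt_succ_self m),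
        zero_sub, norm_neg, norm_mul, hna, hm, mul_one]
    · intro i hi
      have hi0 : i ≠ 0 := by omega
      simp only [hi0, if_false, hz i (by omega), hz (i - 1) (by omega), mul_zero, sub_zero]
    · intro n
      have e1 : (fun z => f z * ∏ l, (z - ζ l)) =
          fun z => (f z * ∏ l : Fin m, (z - ζ l.castSucc)) * (z - a) := by
        funext z
        rw [Fin.prod_univ_castSucc, mul_assoc]
      have hd : DifferentiableOn ℂ (fun z => f z * ∏ l : Fin m, (z - ζ l.castSucc)) (ball 0 1) := by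
        refine hf.mul ?_
        fun_prop
      rw [e1, ← add_assoc, pc_step _ hd a (n + m), hc n]
      have e2 : coeff (fun z => f z * ∏ l : Fin m, (z - ζ l.castSucc)) (n + m + 1) =
          ∑ i ∈ Finset.range (m + 1), c i * coeff f (n + 1 + i) := by
        rw [← hc (n + 1)]; congr 1; ring
      rw [e2]
      simp only [sub_mul]
      rw [Finset.sum_sub_distrib]
      congr 1
      · rw [Finset.sum_range_succ _ (m + 1), hz (m + 1) (Nat.lt_succ_self m)]
        simp
      · rw [Finset.sum_range_succ' _ (m + 1), Finset.mul_sum]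
        simp only [Nat.succ_ne_zero, if_false, Nat.add_sub_cancel, if_true, zero_mul, add_zero]
        refine Finset.sum_congr rfl fun i _ => ?_
        rw [mul_assoc]
        congr 3
        ring

theorem prod_coeff (m : ℕ) (f : ℂ → ℂ) (hf : DifferentiableOn ℂ f (ball 0 1))
    (ζ : Fin m → ℂ) (hζ : ∀ l, ‖ζ l‖ = 1) :
    ∃ c : ℕ → ℂ, c 0 = 1 ∧ ‖c m‖ = 1 ∧ ∀ n : ℕ,
      coeff (fun z => f z * ∏ l, (z - ζ l)) (n + m) =
        ∑ i ∈ Finset.range (m + 1), c i * coeff f (n + i) := by
  obtain ⟨c, h0, h1, -, h2⟩ := pc_main m f hf ζ hζ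
  exact ⟨c, h0, h1, h2⟩

end ProdCoeff

end MeanVal
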