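import Mathlib
import Pool.Agent.Helper772.MV.Defs

open MeasureTheory Metric Set
open scoped ENNReal Real

namespace MeanVal

namespace Ray


theorem clamp_path (a b u : ℝ) (hab : a ≤ b) (hu : 0 ≤ u) (v h : ℝ → ℝ)
    (hh : ContinuousOn h (Icc a b)) (hd : ∀ t ∈ Icc a b, ∃ d, HasDerivAt v d t ∧ |d| ≤ h t) :
    ENNReal.ofReal (max 0 (min (v a) u) - max 0 (min (v b) u)) ≤
      ∫⁻ t in Ioo a b, ENNReal.ofReal ((if 0 < v t ∧ v t < u then 1 else 0) * h t) := by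
  have hv : ContinuousOn v (Icc a b) := fun t ht => by
    obtain ⟨d, hd, _⟩ := hd t ht
    exact hd.continuousAt.continuousWithinAt
  set β := max 0 (min (v a) u) with hβ
  set α := max 0 (min (v b) u) with hα
  by_cases hαβ : β ≤ α
  · rw [ENNReal.ofReal_of_nonpos (by linarith)]
    exact zero_le
  push Not at hαβ
  have hα0 : 0 ≤ α := le_max_left _ _
  have hβu : β ≤ u := by rw [hβ]; exact max_le hu (min_le_right _ _)
  have hβpos : 0 < β := by linarith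
  have hva : β ≤ v a := by
    by_contra hc
    push Not at hc
    have h1 : β ≤ max 0 (v a) := by
      rw [hβ]; exact max_le_max le_rfl (min_le_left _ _)
    rcases le_max_iff.mp h1 with h | h <;> linarith
  have hvb : v b ≤ α := by
    have h1 : min (v b) u ≤ α := le_max_right _ _
    rcases min_le_iff.mp h1 with h | h
    · exact h
    · linarith
  -- t2
  have hScl : IsClosed (Icc a b ∩ v ⁻¹' (Iic α)) := hv.preimage_isClosed_of_isClosed isClosed_Icc isClosed_Iic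
  have hSne : (Icc a b ∩ v ⁻¹' (Iic α)).Nonempty := ⟨b, ⟨hab, le_rfl⟩, hvb⟩
  have hSbd : BddBelow (Icc a b ∩ v ⁻¹' (Iic α)) := ⟨a, fun t ht => ht.1.1⟩
  obtain ⟨t2, ht2S, ht2min⟩ : ∃ t2, t2 ∈ (Icc a b ∩ v ⁻¹' (Iic α)) ∧ ∀ t ∈ (Icc a b ∩ v ⁻¹' (Iic α)), t2 ≤ t :=
    ⟨_, hScl.csInf_mem hSne hSbd, fun t ht => csInf_le hSbd ht⟩
  have hv2 : ContinuousOn v (Icc a t2) := hv.mono (Icc_subset_Icc le_rfl ht2S.1.2)
  have hTcl : IsClosed (Icc a t2 ∩ v ⁻¹' (Ici β)) := hv2.preimage_isClosed_of_isClosed isClosed_Icc isClosed_Ici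
  have hTne : (Icc a t2 ∩ v ⁻¹' (Ici β)).Nonempty := ⟨a, ⟨le_rfl, ht2S.1.1⟩, hva⟩
  have hTbd : BddAbove (Icc a t2 ∩ v ⁻¹' (Ici β)) := ⟨t2, fun t ht => ht.1.2⟩
  obtain ⟨t1, ht1S, ht1max⟩ : ∃ t1, t1 ∈ (Icc a t2 ∩ v ⁻¹' (Ici β)) ∧ ∀ t ∈ (Icc a t2 ∩ v ⁻¹' (Ici β)), t ≤ t1 :=
    ⟨_, hTcl.csSup_mem hTne hTbd, fun t ht => le_csSup hTbd ht⟩
  have hv2' : v t2 ≤ α := ht2S.2
  have hv1' : β ≤ v t1 := ht1S.2
  have h12 : t1 ≤ t2 := ht1S.1.2
  have hin : ∀ t ∈ Ioo t1 t2, 0 < v t ∧ v t < u := by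
    intro t ht
    have hta : a ≤ t := ht1S.1.1.trans ht.1.le
    have htb : t ≤ b := ht.2.le.trans ht2S.1.2
    constructor
    · by_contra hc
      push Not at hc
      have := ht2min t ⟨⟨hta, htb⟩, hc.trans hα0⟩
      linarith [ht.2]
    · by_contra hc
      push Not at hc
      have := ht1max t ⟨⟨hta, ht.2.le⟩, hβu.trans hc⟩
      linarith [ht.1]
  have hsub12 : Icc t1 t2 ⊆ Icc a b := Icc_subset_Icc ht1S.1.1 ht2S.1.2
  have hint : IntegrableOn h (Icc t1 t2) := (hh.mono hsub12).integrableOn_Icc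
  have h1 : (fun t => - v t) t2 - (fun t => - v t) t1 ≤ ∫ y in t1..t2, h y := by
    choose! d hd' hdh using hd
    apply intervalIntegral.sub_le_integral_of_hasDeriv_right_of_le (g' := fun t => - d t) h12
      ((hv.mono hsub12).neg)
    · intro t ht
      exact (hd' t (hsub12 ⟨ht.1.le, ht.2.le⟩)).neg.hasDerivWithinAt
    · exact hint
    · intro t ht
      have := hdh t (hsub12 ⟨ht.1.le, ht.2.le⟩)
      have := neg_abs_le (d t)
      show - d t ≤ h t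
      linarith
  have hnn : ∀ t ∈ Icc a b, 0 ≤ h t := fun t ht => by
    obtain ⟨d, _, hdh⟩ := hd t ht
    exact (abs_nonneg d).trans hdh
  calc ENNReal.ofReal (β - α) ≤ ENNReal.ofReal (∫ y in t1..t2, h y) := by
        apply ENNReal.ofReal_le_ofReal
        have : (fun t => - v t) t2 - (fun t => - v t) t1 = v t1 - v t2 := by ring
        rw [this] at h1
        linarith
    _ = ENNReal.ofReal (∫ y in Ioo t1 t2, h y) := by
        rw [intervalIntegral.integral_of_le h12, integral_Ioc_eq_integral_Ioo]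
    _ = ∫⁻ y in Ioo t1 t2, ENNReal.ofReal (h y) := by
        rw [ofReal_integral_eq_lintegral_ofReal]
        · exact hint.mono_set Ioo_subset_Icc_self
        · filter_upwards [ae_restrict_mem measurableSet_Ioo] with t ht
          exact hnn t (hsub12 (Ioo_subset_Icc_self ht))
    _ = ∫⁻ t in Ioo t1 t2, ENNReal.ofReal ((if 0 < v t ∧ v t < u then 1 else 0) * h t) := by
        apply setLIntegral_congr_fun measurableSet_Ioo
        intro t ht
        simp only [if_pos (hin t ht), one_mul]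
    _ ≤ _ := by
        apply lintegral_mono_set
        intro t ht
        exact ⟨ht1S.1.1.trans_lt ht.1, ht.2.trans_le ht2S.1.2⟩

theorem log_norm_deriv (g : ℝ → ℂ) (g' : ℂ) (t : ℝ) (hg : HasDerivAt g g' t) (h0 : g t ≠ 0) :
    ∃ d, HasDerivAt (fun s => Real.log ‖g s‖) d t ∧ |d| ≤ ‖g'‖ / ‖g t‖ := by
  have h1 := hg.norm_sq
  have hpos : 0 < ‖g t‖ := norm_pos_iff.mpr h0
  have h2 := h1.log (by positivity)
  have h3 := h2.const_mul (1/2 : ℝ)
  refine ⟨1 / 2 * (2 * inner ℝ (g t) g' / ‖g t‖ ^ 2), ?_, ?_⟩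
  · have h5 : (fun s => Real.log ‖g s‖) = fun y => 1 / 2 * Real.log (‖g y‖ ^ 2) := by
      funext s
      rw [Real.log_pow]
      push_cast
      ring
    rw [h5]
    exact h3
  · have h4 := abs_real_inner_le_norm (g t) g'
    have h6 : 1 / 2 * (2 * inner ℝ (g t) g' / ‖g t‖ ^ 2) = inner ℝ (g t) g' / ‖g t‖ ^ 2 := by ring
    rw [h6, abs_div, abs_of_pos (by positivity : 0 < ‖g t‖ ^ 2)]
    rw [div_le_div_iff₀ (by positivity) hpos]
    have : |inner ℝ (g t) g'| * ‖g t‖ ≤ ‖g t‖ * ‖g'‖ * ‖g t‖ := mul_le_mul_of_nonneg_right h4 hpos.le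
    nlinarith


theorem clamp_lip (a b u δ : ℝ) (hδ : 0 ≤ δ) (h : a ≤ b + δ) :
    max 0 (min a u) ≤ max 0 (min b u) + δ := by
  have h1 : 0 ≤ max 0 (min b u) := le_max_left _ _
  have h2 : min b u ≤ max 0 (min b u) := le_max_right _ _
  apply max_le (by linarith)
  rcases le_total b u with h3 | h3
  · rw [min_eq_left h3] at h2
    rw [min_eq_left h3]
    exact (min_le_left _ _).trans (by rw [min_eq_left h3] at h1; linarith)
  · rw [min_eq_right h3] at h2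
    rw [min_eq_right h3]
    exact (min_le_right _ _).trans (by rw [min_eq_right h3] at h1; linarith)

/-- point at parameter `(x, φ)` -/
noncomputable def W (ζ : ℂ) (x φ : ℝ) : ℂ := ζ * (1 - x * Complex.exp (φ * Complex.I))

theorem W_norm_sq (ζ : ℂ) (hζ : ‖ζ‖ = 1) (x φ : ℝ) : ‖W ζ x φ‖ ^ 2 = 1 - 2 * x * Real.cos φ + x ^ 2 := by
  unfold W
  rw [norm_mul, hζ, one_mul, Complex.sq_norm, Complex.normSq_apply]
  simp only [Complex.sub_re, Complex.one_re, Complex.mul_re, Complex.ofReal_re, Complex.exp_ofReal_mul_I_re,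
    Complex.ofReal_im, Complex.exp_ofReal_mul_I_im, Complex.sub_im, Complex.one_im, Complex.mul_im]
  nlinarith [Real.sin_sq_add_cos_sq φ]

theorem W_bounds (ζ : ℂ) (hζ : ‖ζ‖ = 1) (th x φ : ℝ) (hth : 0 < th) (hth2 : th < π / 2) (hx : 0 ≤ x)
    (hx' : x ≤ Real.cos th / 2) (hφ : |φ| ≤ th) :
    ‖W ζ x φ‖ ≤ 1 - x * Real.cos th / 2 ∧ 1 - x ≤ ‖W ζ x φ‖ := by
  have hcos : 0 < Real.cos th := Real.cos_pos_of_mem_Ioo ⟨by linarith, hth2⟩
  have hcφ : Real.cos th ≤ Real.cos φ := by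
    rw [← Real.cos_abs φ]
    exact Real.cos_le_cos_of_nonneg_of_le_pi (abs_nonneg φ) (by linarith) hφ
  have hc1 : Real.cos φ ≤ 1 := Real.cos_le_one φ
  have hct1 : Real.cos th ≤ 1 := Real.cos_le_one th
  have h := W_norm_sq ζ hζ x φ
  constructor
  · apply abs_le_of_sq_le_sq' _ _ |>.2
    · rw [h]
      nlinarith [mul_nonneg hx hcos.le, mul_nonneg hx (sub_nonneg.mpr hx'), mul_nonneg hx (sub_nonneg.mpr hcφ)]
    · nlinarith
  · apply abs_le_of_sq_le_sq' _ _ |>.2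
    · rw [h]
      nlinarith [mul_nonneg hx (sub_nonneg.mpr hc1)]
    · exact norm_nonneg _


theorem W_deriv_x (ζ : ℂ) (φ t : ℝ) :
    HasDerivAt (fun x : ℝ => W ζ x φ) (ζ * (-Complex.exp (φ * Complex.I))) t := by
  have h := (((hasDerivAt_id t).ofReal_comp.mul_const (Complex.exp (φ * Complex.I))).const_sub 1).const_mul ζ
  exact h.congr_deriv (by rw [Complex.ofReal_one, one_mul])

theorem W_deriv_φ (ζ : ℂ) (x t : ℝ) :
    HasDerivAt (fun s : ℝ => W ζ x s) (ζ * (-(x * (Complex.exp (t * Complex.I) * Complex.I)))) t := by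
  have h0 : HasDerivAt (fun s : ℝ => Complex.exp (s * Complex.I)) (Complex.exp (t * Complex.I) * Complex.I) t := by
    have h1 := ((hasDerivAt_id t).ofReal_comp.mul_const Complex.I).cexp
    exact h1.congr_deriv (by rw [Complex.ofReal_one, one_mul]; rfl)
  exact ((h0.const_mul (x:ℂ)).const_sub 1).const_mul ζ

theorem norm_dx (ζ : ℂ) (hζ : ‖ζ‖ = 1) (φ : ℝ) : ‖ζ * (-Complex.exp (φ * Complex.I))‖ = 1 := by
  rw [norm_mul, norm_neg, hζ, Complex.norm_exp_ofReal_mul_I, one_mul]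

theorem norm_dφ (ζ : ℂ) (hζ : ‖ζ‖ = 1) (x t : ℝ) (hx : 0 ≤ x) :
    ‖ζ * (-(x * (Complex.exp (t * Complex.I) * Complex.I)))‖ = x := by
  rw [norm_mul, norm_neg, norm_mul, norm_mul, hζ, Complex.norm_exp_ofReal_mul_I, Complex.norm_I, one_mul, one_mul,
    mul_one, Complex.norm_real, Real.norm_of_nonneg hx]

theorem ray_fixed (th r₁ C₁ : ℝ) (hth : 0 < th) (hth2 : th < π / 2)
    (hr₁' : r₁ < 1) (hC₁ : 0 ≤ C₁) (f : ℂ → ℂ) (hd : DifferentiableOn ℂ f (ball 0 1))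
    (hL : ∀ z : ℂ, r₁ ≤ ‖z‖ → ‖z‖ < 1 → f z ≠ 0 ∧ ‖deriv f z‖ * (1 - ‖z‖) ≤ C₁ * ‖f z‖)
    (x₀ : ℝ) (hx0pos : 0 < x₀) (hx0c : x₀ ≤ Real.cos th / 2) (hx0r : x₀ ≤ (1 - r₁) / 2)
    (C₂ : ℝ) (hC₂ : 0 ≤ C₂)
    (hM : ∀ w : ℂ, f w ≠ 0 → ‖w‖ ≤ 1 - x₀ * Real.cos th / 2 → Real.log ‖f w‖ ≤ C₂)
    (ζ : ℂ) (hζ : ‖ζ‖ = 1) (xz u : ℝ) (hxz : 0 < xz) (hxz' : xz < x₀) (hu : 0 ≤ u) (φ : ℝ) (hφ : |φ| ≤ th) :
    ENNReal.ofReal (max 0 (min (Real.log ‖f (W ζ xz 0)‖) u) - (C₂ + 2 * C₁ * th / Real.cos th)) ≤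
      ∫⁻ x in Ioo xz x₀, ENNReal.ofReal ((if 0 < Real.log ‖f (W ζ x φ)‖ ∧ Real.log ‖f (W ζ x φ)‖ < u then 1 else 0) *
        (‖deriv f (W ζ x φ)‖ / ‖f (W ζ x φ)‖)) := by
  have hcos : 0 < Real.cos th := Real.cos_pos_of_mem_Ioo ⟨by linarith, hth2⟩
  have hdd : DifferentiableOn ℂ (deriv f) (ball 0 1) := hd.deriv isOpen_ball
  have hin : ∀ x ∈ Icc xz x₀, ∀ s : ℝ, |s| ≤ th → ‖W ζ x s‖ < 1 ∧ r₁ ≤ ‖W ζ x s‖ ∧
      ‖W ζ x s‖ ≤ 1 - x * Real.cos th / 2 := by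
    intro x hx s hs
    have h := W_bounds ζ hζ th x s hth hth2 (hxz.le.trans hx.1) (hx.2.trans hx0c) hs
    have hxp : 0 < x := hxz.trans_le hx.1
    have : 0 < x * Real.cos th := mul_pos hxp hcos
    refine ⟨by linarith [h.1], ?_, h.1⟩
    linarith [h.2, hx.2]
  have hda : ∀ x ∈ Icc xz x₀, ∀ s : ℝ, |s| ≤ th → HasDerivAt f (deriv f (W ζ x s)) (W ζ x s) := by
    intro x hx s hs
    apply DifferentiableAt.hasDerivAt
    apply hd.differentiableAt
    apply isOpen_ball.mem_nhds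
    rw [mem_ball_zero_iff]
    exact (hin x hx s hs).1
  -- x-path
  have hpath := clamp_path xz x₀ u hxz'.le hu (fun x => Real.log ‖f (W ζ x φ)‖)
    (fun x => ‖deriv f (W ζ x φ)‖ / ‖f (W ζ x φ)‖) (by
      have hW : ContinuousOn (fun x : ℝ => W ζ x φ) (Icc xz x₀) := fun t _ =>
        (W_deriv_x ζ φ t).continuousAt.continuousWithinAt
      have hm : MapsTo (fun x : ℝ => W ζ x φ) (Icc xz x₀) (ball 0 1) := fun t ht => by
        rw [mem_ball_zero_iff]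
        exact (hin t ht φ hφ).1
      apply ContinuousOn.div
      · exact (hdd.continuousOn.comp hW hm).norm
      · exact (hd.continuousOn.comp hW hm).norm
      · intro t ht
        have h := hin t ht φ hφ
        exact norm_ne_zero_iff.mpr (hL _ h.2.1 h.1).1) (by
      intro t ht
      have h := hin t ht φ hφ
      obtain ⟨d, hd1, hd2⟩ := log_norm_deriv (fun x : ℝ => f (W ζ x φ)) _ t
        ((hda t ht φ hφ).comp t (W_deriv_x ζ φ t)) (hL _ h.2.1 h.1).1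
      refine ⟨d, hd1, ?_⟩
      rwa [norm_mul, norm_dx ζ hζ, mul_one] at hd2)
  refine le_trans (ENNReal.ofReal_le_ofReal ?_) hpath
  -- end value
  have h0 : max 0 (min (Real.log ‖f (W ζ x₀ φ)‖) u) ≤ C₂ := by
    have h := hin x₀ ⟨hxz'.le, le_rfl⟩ φ hφ
    have := hM _ (hL _ h.2.1 h.1).1 h.2.2
    exact max_le hC₂ ((min_le_left _ _).trans this)
  -- φ-path
  have hxzI : xz ∈ Icc xz x₀ := ⟨le_rfl, hxz'.le⟩
  have h1 : Real.log ‖f (W ζ xz 0)‖ ≤ Real.log ‖f (W ζ xz φ)‖ + 2 * C₁ * th / Real.cos th := by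
    have hmv : ∀ s ∈ Icc (-th) th, ∃ d, HasDerivAt (fun s : ℝ => Real.log ‖f (W ζ xz s)‖) d s ∧
        ‖d‖ ≤ 2 * C₁ / Real.cos th := by
      intro s hs
      have hs' : |s| ≤ th := abs_le.mpr hs
      have h := hin xz hxzI s hs'
      have hl := hL _ h.2.1 h.1
      obtain ⟨d, hd1, hd2⟩ := log_norm_deriv (fun s : ℝ => f (W ζ xz s)) _ s
        ((hda xz hxzI s hs').comp s (W_deriv_φ ζ xz s)) hl.1
      refine ⟨d, hd1, ?_⟩
      rw [norm_mul, norm_dφ ζ hζ xz s hxz.le] at hd2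
      rw [Real.norm_eq_abs]
      refine hd2.trans ?_
      have hpos : 0 < ‖f (W ζ xz s)‖ := norm_pos_iff.mpr hl.1
      rw [div_le_div_iff₀ hpos hcos]
      have h3 : ‖deriv f (W ζ xz s)‖ * (xz * Real.cos th / 2) ≤ C₁ * ‖f (W ζ xz s)‖ := by
        refine le_trans (mul_le_mul_of_nonneg_left ?_ (norm_nonneg _)) hl.2
        linarith [h.2.2]
      linarith
    choose! D hD1 hD2 using hmv
    have h4 := (convex_Icc (-th) th).norm_image_sub_le_of_norm_hasDerivWithin_le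
      (f := fun s : ℝ => Real.log ‖f (W ζ xz s)‖) (f' := D) (C := 2 * C₁ / Real.cos th) (x := φ) (y := 0)
      (fun s hs => (hD1 s hs).hasDerivWithinAt) hD2 (abs_le.mp hφ) ⟨by linarith, hth.le⟩
    rw [Real.norm_eq_abs, Real.norm_eq_abs, zero_sub, abs_neg] at h4
    have h5 : 2 * C₁ / Real.cos th * |φ| ≤ 2 * C₁ / Real.cos th * th :=
      mul_le_mul_of_nonneg_left hφ (by positivity)
    have h6 := (le_abs_self _).trans (h4.trans h5)
    have h7 : 2 * C₁ / Real.cos th * th = 2 * C₁ * th / Real.cos th := by ring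
    rw [h7] at h6
    linarith
  have h2 := clamp_lip _ _ u _ (by positivity) h1
  linarith


theorem sector_cov (ζ : ℂ) (hζ : ‖ζ‖ = 1) (lo hi th : ℝ) (hlo : 0 < lo) (hth : 0 < th) (hth2 : th < π / 2)
    (ψ : ℂ → ℝ) (hψ : AEMeasurable (fun p : ℝ × ℝ => ψ (W ζ p.1 p.2))
      ((volume.restrict (Ioo lo hi)).prod (volume.restrict (Ioo (-th) th)))) :
    ∫⁻ φ in Ioo (-th) th, ∫⁻ x in Ioo lo hi, ENNReal.ofReal (ψ (W ζ x φ)) ≤
      ∫⁻ w in {w : ℂ | lo < ‖1 - (starRingEnd ℂ) ζ * w‖ ∧ ‖1 - (starRingEnd ℂ) ζ * w‖ < hi ∧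
        |Complex.arg (1 - (starRingEnd ℂ) ζ * w)| < th},
        ENNReal.ofReal (ψ w / ‖1 - (starRingEnd ℂ) ζ * w‖) := by
  have hζ0 : ζ ≠ 0 := by
    intro h; rw [h, norm_zero] at hζ; exact zero_ne_one hζ
  have hcζ : ζ * (starRingEnd ℂ) ζ = 1 := by
    rw [Complex.mul_conj, Complex.normSq_eq_norm_sq, hζ]; simp
  have hcn : ‖(starRingEnd ℂ) ζ‖ = 1 := by rw [RCLike.norm_conj, hζ]
  have hc0 : (starRingEnd ℂ) ζ ≠ 0 := by
    intro h; rw [h, norm_zero] at hcn; exact zero_ne_one hcn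
  -- the map T
  have hT : MeasurePreserving (fun w : ℂ => 1 - (starRingEnd ℂ) ζ * w) volume volume := by
    have h1 := (rotation ⟨(starRingEnd ℂ) ζ, by simpa [Submonoid.unitSphere] using hcn⟩).measurePreserving
    have h2 := Measure.measurePreserving_sub_left (volume : Measure ℂ) 1
    exact h2.comp h1
  have hTe : MeasurableEmbedding (fun w : ℂ => 1 - (starRingEnd ℂ) ζ * w) :=
    ((Homeomorph.mulLeft₀ _ hc0).trans (Homeomorph.subLeft (1:ℂ))).measurableEmbedding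
  set S0 : Set ℂ := {q : ℂ | lo < ‖q‖ ∧ ‖q‖ < hi ∧ |Complex.arg q| < th} with hS0
  set G : ℂ → ℝ≥0∞ := fun q => ENNReal.ofReal (ψ (ζ * (1 - q)) / ‖q‖) with hG
  have hS0m : MeasurableSet S0 := by
    apply MeasurableSet.inter (measurableSet_lt measurable_const measurable_norm)
    apply MeasurableSet.inter (measurableSet_lt measurable_norm measurable_const)
    exact measurableSet_lt (Complex.measurable_arg.abs) measurable_const
  have e1 : ∫⁻ w in {w : ℂ | lo < ‖1 - (starRingEnd ℂ) ζ * w‖ ∧ ‖1 - (starRingEnd ℂ) ζ * w‖ < hi ∧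
        |Complex.arg (1 - (starRingEnd ℂ) ζ * w)| < th},
        ENNReal.ofReal (ψ w / ‖1 - (starRingEnd ℂ) ζ * w‖) = ∫⁻ q in S0, G q := by
    rw [← hT.setLIntegral_comp_preimage_emb hTe G S0]
    apply lintegral_congr
    intro w
    simp only [hG]
    congr 3
    rw [sub_sub_cancel, ← mul_assoc, hcζ, one_mul]
  rw [e1, ← lintegral_indicator hS0m, ← Complex.lintegral_comp_polarCoord_symm]
  have hsub : Ioo lo hi ×ˢ Ioo (-th) th ⊆ polarCoord.target := by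
    intro p hp
    exact ⟨hlo.trans hp.1.1, by linarith [hp.2.1], by linarith [hp.2.2]⟩
  refine le_trans ?_ (lintegral_mono_set hsub)
  have e2 : ∫⁻ p in Ioo lo hi ×ˢ Ioo (-th) th, ENNReal.ofReal p.1 • S0.indicator G (Complex.polarCoord.symm p) =
      ∫⁻ p in Ioo lo hi ×ˢ Ioo (-th) th, ENNReal.ofReal (ψ (W ζ p.1 p.2)) := by
    apply setLIntegral_congr_fun (measurableSet_Ioo.prod measurableSet_Ioo)
    intro p hp
    have hp1 : 0 < p.1 := hlo.trans hp.1.1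
    have hn : ‖Complex.polarCoord.symm p‖ = p.1 := by
      rw [Complex.norm_polarCoord_symm, abs_of_pos hp1]
    have ha : Complex.arg (Complex.polarCoord.symm p) = p.2 := by
      rw [Complex.polarCoord_symm_apply, Complex.ofReal_cos, Complex.ofReal_sin]
      exact Complex.arg_mul_cos_add_sin_mul_I hp1 ⟨by linarith [hp.2.1], by linarith [hp.2.2]⟩
    have hmem : Complex.polarCoord.symm p ∈ S0 := by
      refine ⟨?_, ?_, ?_⟩
      · rw [hn]; exact hp.1.1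
      · rw [hn]; exact hp.1.2
      · rw [ha]; exact abs_lt.mpr hp.2
    simp only
    rw [indicator_of_mem hmem, smul_eq_mul]
    simp only [hG]
    rw [hn, ← ENNReal.ofReal_mul hp1.le, mul_div_cancel₀ _ hp1.ne']
    congr 2
    rw [Complex.polarCoord_symm_apply]
    unfold W
    rw [Complex.exp_mul_I, Complex.ofReal_cos, Complex.ofReal_sin]
  rw [e2, Measure.volume_eq_prod, ← Measure.prod_restrict, lintegral_prod_symm _ hψ.ennreal_ofReal]


theorem ray_average (th r₁ C₁ : ℝ) (hth : 0 < th) (hth2 : th < π / 2) (hr₁ : 0 ≤ r₁)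
    (hr₁' : r₁ < 1) (hC₁ : 0 ≤ C₁) (f : ℂ → ℂ) (hd : DifferentiableOn ℂ f (ball 0 1))
    (hL : ∀ z : ℂ, r₁ ≤ ‖z‖ → ‖z‖ < 1 → f z ≠ 0 ∧ ‖deriv f z‖ * (1 - ‖z‖) ≤ C₁ * ‖f z‖) :
    ∃ x₀ C : ℝ, 0 < x₀ ∧ x₀ ≤ 1 - r₁ ∧ x₀ ≤ Real.cos th ∧ x₀ < 1 ∧ 0 ≤ C ∧
      ∀ (z : ℂ) (u : ℝ), 1 - ‖z‖ < x₀ → ‖z‖ < 1 → 0 ≤ u →
        ENNReal.ofReal (2 * th * (max 0 (min (Real.log ‖f z‖) u) - C)) ≤
          ∫⁻ w in sector (z / (‖z‖ : ℂ)) (1 - ‖z‖) x₀ th,
            ENNReal.ofReal ((if 0 < Real.log ‖f w‖ ∧ Real.log ‖f w‖ < u then 1 else 0) *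
              (‖deriv f w‖ / ‖f w‖) / ‖1 - (starRingEnd ℂ) (z / (‖z‖ : ℂ)) * w‖) := by
  have hcos : 0 < Real.cos th := Real.cos_pos_of_mem_Ioo ⟨by linarith, hth2⟩
  obtain ⟨x₀, hx0pos, hx0c, hx0r⟩ : ∃ x₀ : ℝ, 0 < x₀ ∧ x₀ ≤ Real.cos th / 2 ∧ x₀ ≤ (1 - r₁) / 2 :=
    ⟨min (Real.cos th / 2) ((1 - r₁)/2), lt_min (by positivity) (by linarith), min_le_left _ _, min_le_right _ _⟩
  have hR : 1 - x₀ * Real.cos th / 2 < 1 := by
    have := mul_pos hx0pos hcos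
    linarith
  obtain ⟨M, hM⟩ := (isCompact_closedBall (0:ℂ) (1 - x₀ * Real.cos th / 2)).exists_bound_of_continuousOn (f := f)
    (hd.continuousOn.mono (closedBall_subset_ball hR))
  have hC₂ : 0 ≤ max 0 (Real.log M) := le_max_left _ _
  refine ⟨x₀, max 0 (Real.log M) + 2 * C₁ * th / Real.cos th, hx0pos, by linarith, by linarith,
    by linarith [Real.cos_le_one th], by positivity, ?_⟩
  intro z u hz hz1 hu
  have hzpos : 0 < ‖z‖ := by linarith [Real.cos_le_one th]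
  have hz0 : z ≠ 0 := norm_pos_iff.mp hzpos
  have hζ : ‖z / (‖z‖ : ℂ)‖ = 1 := by
    rw [norm_div, Complex.norm_real, norm_norm, div_self hzpos.ne']
  have hxz : 0 < 1 - ‖z‖ := by linarith
  have hWz : W (z / (‖z‖ : ℂ)) (1 - ‖z‖) 0 = z := by
    unfold W
    have : (‖z‖ : ℂ) ≠ 0 := by exact_mod_cast hzpos.ne'
    rw [Complex.ofReal_zero, zero_mul, Complex.exp_zero]
    push_cast
    field_simp
    ring
  generalize z / (‖z‖ : ℂ) = ζ at hζ hWz
  have hray := ray_fixed th r₁ C₁ hth hth2 hr₁' hC₁ f hd hL x₀ hx0pos hx0c hx0r (max 0 (Real.log M)) hC₂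
    (fun w hw hwn => by
      have h1 := hM w (mem_closedBall_zero_iff.mpr hwn)
      have h2 := Real.log_le_log (norm_pos_iff.mpr hw) h1
      exact h2.trans (le_max_right _ _)) ζ hζ (1 - ‖z‖) u hxz hz hu
  rw [hWz] at hray
  have hψ : AEMeasurable (fun p : ℝ × ℝ => (fun w : ℂ =>
      (if 0 < Real.log ‖f w‖ ∧ Real.log ‖f w‖ < u then (1:ℝ) else 0) * (‖deriv f w‖ / ‖f w‖)) (W ζ p.1 p.2))
      ((volume.restrict (Ioo (1 - ‖z‖) x₀)).prod (volume.restrict (Ioo (-th) th))) := by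
    rw [Measure.prod_restrict]
    have hWc : Continuous (fun p : ℝ × ℝ => W ζ p.1 p.2) := by unfold W; fun_prop
    have hWm : MapsTo (fun p : ℝ × ℝ => W ζ p.1 p.2) (Ioo (1 - ‖z‖) x₀ ×ˢ Ioo (-th) th) (ball 0 1) := by
      intro p hp
      rw [mem_ball_zero_iff]
      have hp1 : 0 < p.1 := hxz.trans hp.1.1
      have h := W_bounds ζ hζ th p.1 p.2 hth hth2 hp1.le (hp.1.2.le.trans hx0c) (abs_le.mpr ⟨hp.2.1.le, hp.2.2.le⟩)
      have : 0 < p.1 * Real.cos th := mul_pos hp1 hcos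
      linarith [h.1]
    have hms : MeasurableSet (Ioo (1 - ‖z‖) x₀ ×ˢ Ioo (-th) th) := measurableSet_Ioo.prod measurableSet_Ioo
    have hf1 : AEMeasurable (fun p : ℝ × ℝ => f (W ζ p.1 p.2)) ((volume.prod volume).restrict (Ioo (1 - ‖z‖) x₀ ×ˢ Ioo (-th) th)) :=
      (hd.continuousOn.comp hWc.continuousOn hWm).aemeasurable hms
    have hf2 : AEMeasurable (fun p : ℝ × ℝ => deriv f (W ζ p.1 p.2)) ((volume.prod volume).restrict (Ioo (1 - ‖z‖) x₀ ×ˢ Ioo (-th) th)) :=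
      ((hd.deriv isOpen_ball).continuousOn.comp hWc.continuousOn hWm).aemeasurable hms
    have hΦ : Measurable (fun q : ℂ × ℂ => (if 0 < Real.log ‖q.1‖ ∧ Real.log ‖q.1‖ < u then (1:ℝ) else 0) *
        (‖q.2‖ / ‖q.1‖)) := by
      apply Measurable.mul
      · apply Measurable.ite
        · apply MeasurableSet.inter
          · exact measurableSet_lt measurable_const (Real.measurable_log.comp (measurable_norm.comp measurable_fst))
          · exact measurableSet_lt (Real.measurable_log.comp (measurable_norm.comp measurable_fst)) measurable_const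
        · exact measurable_const
        · exact measurable_const
      · exact (measurable_norm.comp measurable_snd).div (measurable_norm.comp measurable_fst)
    exact hΦ.comp_aemeasurable (hf1.prodMk hf2)
  refine le_trans ?_ (sector_cov ζ hζ (1 - ‖z‖) x₀ th hxz hth hth2 (fun w : ℂ =>
      (if 0 < Real.log ‖f w‖ ∧ Real.log ‖f w‖ < u then (1:ℝ) else 0) * (‖deriv f w‖ / ‖f w‖)) hψ)
  have hlow : ∫⁻ _ in Ioo (-th) th, ENNReal.ofReal (max 0 (min (Real.log ‖f z‖) u) -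
      (max 0 (Real.log M) + 2 * C₁ * th / Real.cos th)) ≤
      ∫⁻ φ in Ioo (-th) th, ∫⁻ x in Ioo (1 - ‖z‖) x₀, ENNReal.ofReal
        ((if 0 < Real.log ‖f (W ζ x φ)‖ ∧ Real.log ‖f (W ζ x φ)‖ < u then (1:ℝ) else 0) *
          (‖deriv f (W ζ x φ)‖ / ‖f (W ζ x φ)‖)) := by
    apply setLIntegral_mono' measurableSet_Ioo
    intro φ hφ
    exact hray φ (abs_le.mpr ⟨hφ.1.le, hφ.2.le⟩)
  refine le_trans (le_of_eq ?_) hlow
  rw [setLIntegral_const, Real.volume_Ioo, mul_comm (2 * th), ENNReal.ofReal_mul' (by positivity)]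
  congr 2
  ring

end Ray

end MeanVal
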