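import Mathlib
import Pool.Agent.Helper772.MV.Defs

open MeasureTheory Metric Set
open scoped ENNReal Real

namespace MeanVal

namespace Star


theorem j9944_sector_meas (ζ : ℂ) (lo hi th : ℝ) : MeasurableSet (sector ζ lo hi th) := by
  have hq : Measurable fun w : ℂ => 1 - (starRingEnd ℂ) ζ * w := by fun_prop
  have h1 : MeasurableSet {w : ℂ | lo < ‖1 - (starRingEnd ℂ) ζ * w‖} :=
    measurableSet_lt measurable_const hq.norm
  have h2 : MeasurableSet {w : ℂ | ‖1 - (starRingEnd ℂ) ζ * w‖ < hi} :=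
    measurableSet_lt hq.norm measurable_const
  have h3 : MeasurableSet {w : ℂ | ‖Complex.arg (1 - (starRingEnd ℂ) ζ * w)‖ < th} :=
    measurableSet_lt (Complex.measurable_arg.comp hq).norm measurable_const
  exact h1.inter (h2.inter h3)

theorem j9944_CS (ν : Measure ℂ) (F G : ℂ → ℝ) (hF : AEMeasurable F ν) (hG : AEMeasurable G ν)
    (hF0 : ∀ w, 0 ≤ F w) (hG0 : ∀ w, 0 ≤ G w) (L X Y : ℝ) (hX : 0 ≤ X) (hY : 0 ≤ Y) (hL : 0 ≤ L)
    (h : ENNReal.ofReal L ≤ ∫⁻ w, ENNReal.ofReal (F w * G w) ∂ν)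
    (hFX : ∫⁻ w, ENNReal.ofReal (F w ^ 2) ∂ν ≤ ENNReal.ofReal X)
    (hGY : ∫⁻ w, ENNReal.ofReal (G w ^ 2) ∂ν ≤ ENNReal.ofReal Y) : L ^ 2 ≤ X * Y := by
  have h1 := ENNReal.lintegral_mul_le_Lp_mul_Lq ν Real.HolderConjugate.two_two
    hF.ennreal_ofReal hG.ennreal_ofReal
  have h2 : ∀ w, ((fun x => ENNReal.ofReal (F x)) * fun x => ENNReal.ofReal (G x)) w =
      ENNReal.ofReal (F w * G w) := fun w => by
    rw [ENNReal.ofReal_mul (hF0 w)]
    rfl
  have h3 : ∀ x : ℝ, 0 ≤ x → ENNReal.ofReal x ^ (2 : ℝ) = ENNReal.ofReal (x ^ 2) := fun x hx => by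
    rw [ENNReal.ofReal_rpow_of_nonneg hx (by norm_num), Real.rpow_two]
  simp only [h2, h3 _ (hF0 _), h3 _ (hG0 _)] at h1
  have h4 : (∫⁻ w, ENNReal.ofReal (F w ^ 2) ∂ν) ^ (1 / (2 : ℝ)) ≤ ENNReal.ofReal √X := by
    refine (ENNReal.rpow_le_rpow hFX (by norm_num)).trans ?_
    rw [ENNReal.ofReal_rpow_of_nonneg hX (by norm_num), ← Real.sqrt_eq_rpow]
  have h5 : (∫⁻ w, ENNReal.ofReal (G w ^ 2) ∂ν) ^ (1 / (2 : ℝ)) ≤ ENNReal.ofReal √Y := by
    refine (ENNReal.rpow_le_rpow hGY (by norm_num)).trans ?_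
    rw [ENNReal.ofReal_rpow_of_nonneg hY (by norm_num), ← Real.sqrt_eq_rpow]
  have h6 : ENNReal.ofReal L ≤ ENNReal.ofReal (√X * √Y) := by
    rw [ENNReal.ofReal_mul (Real.sqrt_nonneg _)]
    exact (h.trans h1).trans (mul_le_mul' h4 h5)
  rw [ENNReal.ofReal_le_ofReal_iff (by positivity)] at h6
  calc L ^ 2 ≤ (√X * √Y) ^ 2 := pow_le_pow_left₀ hL h6 2
    _ = X * Y := by rw [mul_pow, Real.sq_sqrt hX, Real.sq_sqrt hY]

theorem j9944_sum {N : ℕ} (ν : Measure ℂ) (H : Fin N → Fin N → ℂ → ℝ)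
    (hm : ∀ i j, AEMeasurable (H i j) ν) (h0 : ∀ i j w, 0 ≤ H i j w) :
    ∫⁻ w, ENNReal.ofReal (∑ i, ∑ j, H i j w) ∂ν =
      ∑ i, ∑ j, ∫⁻ w, ENNReal.ofReal (H i j w) ∂ν := by
  have : ∀ w, ENNReal.ofReal (∑ i, ∑ j, H i j w) = ∑ i, ∑ j, ENNReal.ofReal (H i j w) := by
    intro w
    rw [ENNReal.ofReal_sum_of_nonneg (fun i _ => Finset.sum_nonneg fun j _ => h0 i j w)]
    exact Finset.sum_congr rfl fun i _ => ENNReal.ofReal_sum_of_nonneg fun j _ => h0 i j w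
  simp only [this]
  rw [lintegral_finsetSum' _
    (fun i _ => Finset.aemeasurable_fun_sum _ fun j _ => (hm i j).ennreal_ofReal)]
  exact Finset.sum_congr rfl fun i _ => lintegral_finsetSum' _ (fun j _ => (hm i j).ennreal_ofReal)

theorem j9944_const (ν : Measure ℂ) (c : ℝ) (hc : 0 ≤ c) (h : ℂ → ℝ) (hm : AEMeasurable h ν) :
    ∫⁻ w, ENNReal.ofReal (c * h w) ∂ν = ENNReal.ofReal c * ∫⁻ w, ENNReal.ofReal (h w) ∂ν := by
  rw [← lintegral_const_mul'' _ hm.ennreal_ofReal]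
  refine lintegral_congr fun w => ?_
  rw [ENNReal.ofReal_mul hc]

theorem j9944_ub {N : ℕ} (ν : Measure ℂ) (σ : Fin N → ℝ) (hσ : ∀ i, 0 ≤ σ i)
    (h : Fin N → Fin N → ℂ → ℝ) (hm : ∀ i j, AEMeasurable (h i j) ν) (h0 : ∀ i j w, 0 ≤ h i j w)
    (b : Fin N → Fin N → ℝ) (hb0 : ∀ i j, 0 ≤ b i j)
    (hb : ∀ i j, ∫⁻ w, ENNReal.ofReal (h i j w) ∂ν ≤ ENNReal.ofReal (b i j)) :
    ∫⁻ w, ENNReal.ofReal (∑ i, ∑ j, σ i * σ j * h i j w) ∂ν ≤
      ENNReal.ofReal (∑ i, ∑ j, σ i * σ j * b i j) := by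
  have hs : ∀ i j, 0 ≤ σ i * σ j := fun i j => mul_nonneg (hσ i) (hσ j)
  rw [j9944_sum ν (fun i j w => σ i * σ j * h i j w) (fun i j => (hm i j).const_mul _)
    (fun i j w => mul_nonneg (hs i j) (h0 i j w))]
  rw [ENNReal.ofReal_sum_of_nonneg
    (fun i _ => Finset.sum_nonneg fun j _ => mul_nonneg (hs i j) (hb0 i j))]
  refine Finset.sum_le_sum fun i _ => ?_
  rw [ENNReal.ofReal_sum_of_nonneg (fun j _ => mul_nonneg (hs i j) (hb0 i j))]
  refine Finset.sum_le_sum fun j _ => ?_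
  rw [j9944_const ν _ (hs i j) _ (hm i j), ENNReal.ofReal_mul (hs i j)]
  exact mul_le_mul' le_rfl (hb i j)

theorem j9944_lb {N : ℕ} (ν : Measure ℂ) (σ : Fin N → ℝ) (hσ : ∀ i, 0 ≤ σ i)
    (h : Fin N → Fin N → ℂ → ℝ) (hm : ∀ i j, AEMeasurable (h i j) ν) (h0 : ∀ i j w, 0 ≤ h i j w)
    (l : Fin N → Fin N → ℝ)
    (hl : ∀ i j, ENNReal.ofReal (l i j) ≤ ∫⁻ w, ENNReal.ofReal (h i j w) ∂ν) :
    ENNReal.ofReal (∑ i, ∑ j, σ i * σ j * l i j) ≤
      ∫⁻ w, ENNReal.ofReal (∑ i, ∑ j, σ i * σ j * h i j w) ∂ν := by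
  have hs : ∀ i j, 0 ≤ σ i * σ j := fun i j => mul_nonneg (hσ i) (hσ j)
  rw [j9944_sum ν (fun i j w => σ i * σ j * h i j w) (fun i j => (hm i j).const_mul _)
    (fun i j w => mul_nonneg (hs i j) (h0 i j w))]
  refine (Finset.le_sum_of_subadditive ENNReal.ofReal ENNReal.ofReal_zero.le
    (fun _ _ => ENNReal.ofReal_add_le) _ _).trans ?_
  refine Finset.sum_le_sum fun i _ => ?_
  refine (Finset.le_sum_of_subadditive ENNReal.ofReal ENNReal.ofReal_zero.le
    (fun _ _ => ENNReal.ofReal_add_le) _ _).trans ?_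
  refine Finset.sum_le_sum fun j _ => ?_
  rw [j9944_const ν _ (hs i j) _ (hm i j), ENNReal.ofReal_mul (hs i j)]
  exact mul_le_mul' le_rfl (hl i j)

theorem j9944_expand {N : ℕ} (σ a b : Fin N → ℝ) :
    (∑ i, σ i * a i) * (∑ j, σ j * b j) = ∑ i, ∑ j, σ i * σ j * (a i * b j) := by
  rw [Finset.sum_mul_sum]
  refine Finset.sum_congr rfl fun i _ => Finset.sum_congr rfl fun j _ => ?_
  ring

theorem j9944_alg (th p C₀ C₁ s Q T L2 n : ℝ) (hth : 0 < th) (hp : 0 < p) (hC₀ : 0 ≤ C₀)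
    (hC₁ : 0 ≤ C₁) (hs0 : 0 ≤ s) (hsn : s ≤ n) (hT : -L2 * s ^ 2 ≤ T)
    (hL2 : 0 ≤ L2) (hQ0 : 0 ≤ Q) (h0 : s = 0 → Q = 0 ∧ T = 0)
    (hCS : C₀ * s ^ 2 ≤ Q → (2 * th * (Q - C₀ * s ^ 2)) ^ 2 ≤
      (π * p * (s ^ 2 + 2 * Q)) * (2 * th * T + C₁ * s ^ 2)) :
    (2 * th / π) * Q ≤ 2 * p * T + ((2 * th / π) * C₀ * n ^ 2 + 2 * p * L2 * n ^ 2 +
      4 * th / π * (C₀ + 1 / 4) * n ^ 2 + p * C₁ / th * n ^ 2) := by
  have hπ := Real.pi_pos
  have hn : 0 ≤ n := hs0.trans hsn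
  have hsn2 : s ^ 2 ≤ n ^ 2 := pow_le_pow_left₀ hs0 hsn 2
  have e1 : 0 ≤ (2 * th / π) * C₀ * n ^ 2 := by positivity
  have e2 : 0 ≤ 2 * p * L2 * n ^ 2 := by positivity
  have e3 : 0 ≤ 4 * th / π * (C₀ + 1 / 4) * n ^ 2 := by positivity
  have e4 : 0 ≤ p * C₁ / th * n ^ 2 := by positivity
  rcases hs0.eq_or_lt with h | hs
  · obtain ⟨hQ, hT'⟩ := h0 h.symm
    rw [hQ, hT']
    linarith
  rcases lt_or_ge Q (C₀ * s ^ 2) with hlt | hge
  · have h1 : (2 * th / π) * Q ≤ (2 * th / π) * C₀ * n ^ 2 := by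
      rw [mul_assoc]
      refine mul_le_mul_of_nonneg_left ?_ (by positivity)
      exact hlt.le.trans (mul_le_mul_of_nonneg_left hsn2 hC₀)
    have h2 : -(2 * p * L2 * n ^ 2) ≤ 2 * p * T := by
      have h3 : 2 * p * (-L2 * s ^ 2) ≤ 2 * p * T := mul_le_mul_of_nonneg_left hT (by positivity)
      have h4 : 2 * p * L2 * s ^ 2 ≤ 2 * p * L2 * n ^ 2 :=
        mul_le_mul_of_nonneg_left hsn2 (by positivity)
      linarith
    linarith
  · have hcs := hCS hge
    have hpos : 0 < s ^ 2 + 2 * Q := by positivity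
    have h1 : (Q / 2 - (C₀ + 1 / 4) * s ^ 2) * (s ^ 2 + 2 * Q) ≤ (Q - C₀ * s ^ 2) ^ 2 := by
      have h2 : 0 ≤ s ^ 2 := sq_nonneg s
      nlinarith [mul_nonneg h2 hQ0, mul_nonneg h2 h2, mul_nonneg hC₀ (mul_nonneg h2 h2),
        sq_nonneg (C₀ * s ^ 2)]
    have h2 : (4 * th ^ 2 * (Q / 2 - (C₀ + 1 / 4) * s ^ 2)) * (s ^ 2 + 2 * Q) ≤
        (π * p * (2 * th * T + C₁ * s ^ 2)) * (s ^ 2 + 2 * Q) := by
      have h3 : 4 * th ^ 2 * ((Q / 2 - (C₀ + 1 / 4) * s ^ 2) * (s ^ 2 + 2 * Q)) ≤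
          4 * th ^ 2 * (Q - C₀ * s ^ 2) ^ 2 := mul_le_mul_of_nonneg_left h1 (by positivity)
      nlinarith
    have h3 := le_of_mul_le_mul_right h2 hpos
    have h4 : (2 * th / π) * Q - 4 * th / π * (C₀ + 1 / 4) * s ^ 2 ≤ 2 * p * T + p * C₁ / th * s ^ 2 := by
      have h5 : (2 * th / π) * Q - 4 * th / π * (C₀ + 1 / 4) * s ^ 2 =
          (4 * th ^ 2 * (Q / 2 - (C₀ + 1 / 4) * s ^ 2)) / (π * th) := by
        field_simp
        ring
      have h6 : 2 * p * T + p * C₁ / th * s ^ 2 = (π * p * (2 * th * T + C₁ * s ^ 2)) / (π * th) := by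
        field_simp
      rw [h5, h6]
      exact div_le_div_of_nonneg_right h3 (by positivity)
    have h7 : 4 * th / π * (C₀ + 1 / 4) * s ^ 2 ≤ 4 * th / π * (C₀ + 1 / 4) * n ^ 2 :=
      mul_le_mul_of_nonneg_left hsn2 (by positivity)
    have h8 : p * C₁ / th * s ^ 2 ≤ p * C₁ / th * n ^ 2 :=
      mul_le_mul_of_nonneg_left hsn2 (by positivity)
    linarith

theorem star_ineq (th p x₀ C₀ C₁ : ℝ) (hp : 0 < p) (hth : 0 < th) (hth2 : th < π / 2)
    (hx₀ : 0 < x₀) (hx₀' : x₀ ≤ 1) (hC₀ : 0 ≤ C₀) (hC₁ : 0 ≤ C₁) (f : ℂ → ℂ)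
    (hd : DifferentiableOn ℂ f (ball 0 1))
    (hE : ∀ a b : ℝ, 0 < a → a ≤ b →
        ∫⁻ z in {z : ℂ | z ∈ ball (0:ℂ) 1 ∧ a < ‖f z‖ ∧ ‖f z‖ < b},
          ENNReal.ofReal ((‖deriv f z‖ / ‖f z‖) ^ 2)
          ≤ ENNReal.ofReal (π * p * (1 + 2 * Real.log (b / a))))
    (hsub : ∀ ζ : ℂ, ‖ζ‖ = 1 → ∀ a : ℝ, 0 < a → sector ζ a x₀ th ⊆ ball (0:ℂ) 1)
    (hray : ∀ (z : ℂ) (u : ℝ), 1 - ‖z‖ < x₀ → ‖z‖ < 1 → 0 ≤ u →
        ENNReal.ofReal (2 * th * (max 0 (min (Real.log ‖f z‖) u) - C₀)) ≤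
          ∫⁻ w in sector (z / (‖z‖ : ℂ)) (1 - ‖z‖) x₀ th,
            ENNReal.ofReal ((if 0 < Real.log ‖f w‖ ∧ Real.log ‖f w‖ < u then 1 else 0) *
              (‖deriv f w‖ / ‖f w‖) / ‖1 - (starRingEnd ℂ) (z / (‖z‖ : ℂ)) * w‖))
    (hcross : ∀ (ζ ζ' : ℂ) (a a' : ℝ), ‖ζ‖ = 1 → ‖ζ'‖ = 1 → 0 < a → 0 < a' →
      a < x₀ → a' < x₀ →
      ∫⁻ w in sector ζ a x₀ th ∩ sector ζ' a' x₀ th,
        ENNReal.ofReal (1 / (‖1 - (starRingEnd ℂ) ζ * w‖ * ‖1 - (starRingEnd ℂ) ζ' * w‖))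
        ≤ ENNReal.ofReal (2 * th * Real.log (1 / max (max a a') ‖ζ - ζ'‖) + C₁))
    (N : ℕ) :
    ∃ C : ℝ, 0 ≤ C ∧ ∀ (z : Fin N → ℂ) (σ u : Fin N → ℝ),
      (∀ i, 1 - ‖z i‖ < x₀ ∧ ‖z i‖ < 1) → (∀ i, 0 ≤ σ i ∧ σ i ≤ 2) →
      (∀ i, 0 ≤ u i ∧ u i = Real.log ‖f (z i)‖) →
      (2 * th / π) * ∑ i, ∑ j, σ i * σ j * min (u i) (u j) ≤
        2 * p * (∑ i, ∑ j, σ i * σ j * Real.log (1 / max (max (1 - ‖z i‖) (1 - ‖z j‖))
          ‖z i / (‖z i‖ : ℂ) - z j / (‖z j‖ : ℂ)‖)) + C := by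
  classical
  have hπ := Real.pi_pos
  set C₁' : ℝ := C₁ + 2 * th * Real.log 2 with hC₁'
  have hlog2 : 0 ≤ Real.log 2 := Real.log_nonneg (by norm_num)
  have hC₁'0 : 0 ≤ C₁' := by positivity
  refine ⟨(2 * th / π) * C₀ * (2 * N : ℝ) ^ 2 + 2 * p * Real.log 2 * (2 * N : ℝ) ^ 2 +
      4 * th / π * (C₀ + 1 / 4) * (2 * N : ℝ) ^ 2 + p * C₁' / th * (2 * N : ℝ) ^ 2, by positivity, ?_⟩
  intro z σ u hz hσ hu
  have hσ0 : ∀ i, 0 ≤ σ i := fun i => (hσ i).1
  have hznorm : ∀ i, 0 < ‖z i‖ := by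
    intro i
    have := (hz i).1
    linarith
  have hζ : ∀ i, ‖z i / (‖z i‖ : ℂ)‖ = 1 := by
    intro i
    rw [norm_div, Complex.norm_real, norm_norm, div_self (hznorm i).ne']
  have ha0 : ∀ i, 0 < 1 - ‖z i‖ := fun i => by linarith [(hz i).2]
  set A : Fin N → Fin N → ℝ := fun i j => max (max (1 - ‖z i‖) (1 - ‖z j‖))
    ‖z i / (‖z i‖ : ℂ) - z j / (‖z j‖ : ℂ)‖ with hA
  have hA0 : ∀ i j, 0 < A i j := fun i j => lt_max_of_lt_left (lt_max_of_lt_left (ha0 i))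
  have hA2 : ∀ i j, A i j ≤ 2 := by
    intro i j
    refine max_le (max_le ?_ ?_) ?_
    · linarith [norm_nonneg (z i)]
    · linarith [norm_nonneg (z j)]
    · refine (norm_sub_le _ _).trans ?_
      rw [hζ, hζ]
      norm_num
  have hlogA : ∀ i j, -Real.log 2 ≤ Real.log (1 / A i j) := by
    intro i j
    rw [one_div, Real.log_inv, neg_le_neg_iff]
    exact Real.log_le_log (hA0 i j) (hA2 i j)
  -- the functions
  let Sec : Fin N → Set ℂ := fun i => sector (z i / (‖z i‖ : ℂ)) (1 - ‖z i‖) x₀ th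
  have hSec : ∀ i, MeasurableSet (Sec i) := fun i => j9944_sector_meas _ _ _ _
  have hSecsub : ∀ i, Sec i ⊆ ball (0 : ℂ) 1 := fun i => hsub _ (hζ i) _ (by have := (hz i).2; linarith)
  let ν : Measure ℂ := volume.restrict (ball (0 : ℂ) 1)
  let D : ℂ → ℝ := fun w => ‖deriv f w‖ / ‖f w‖
  let S : Fin N → ℂ → ℝ := fun j w =>
    if 0 < Real.log ‖f w‖ ∧ Real.log ‖f w‖ < u j then 1 else 0
  let q : Fin N → ℂ → ℝ := fun i w => ‖1 - (starRingEnd ℂ) (z i / (‖z i‖ : ℂ)) * w‖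
  let Pf : Fin N → ℂ → ℝ := fun i w => (Sec i).indicator (fun w => 1 / q i w) w
  have hfm : AEMeasurable f ν := hd.continuousOn.aemeasurable measurableSet_ball
  have hDm : AEMeasurable D ν := (measurable_deriv f).norm.aemeasurable.div hfm.norm
  have hSm : ∀ j, AEMeasurable (S j) ν := by
    intro j
    have h1 : Measurable fun x : ℝ => if 0 < x ∧ x < u j then (1 : ℝ) else 0 :=
      Measurable.ite ((measurableSet_lt measurable_const measurable_id).inter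
        (measurableSet_lt measurable_id measurable_const)) measurable_const measurable_const
    exact h1.comp_aemeasurable (Real.measurable_log.comp_aemeasurable hfm.norm)
  have hqm : ∀ i, Measurable (q i) := fun i => by
    have : Measurable fun w : ℂ => 1 - (starRingEnd ℂ) (z i / (‖z i‖ : ℂ)) * w := by fun_prop
    exact this.norm
  have hPm : ∀ i, AEMeasurable (Pf i) ν := fun i =>
    ((measurable_const.div (hqm i)).indicator (hSec i)).aemeasurable
  have hD0 : ∀ w, 0 ≤ D w := fun w => by positivity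
  have hS0 : ∀ j w, 0 ≤ S j w := fun j w => by
    simp only [S]
    split_ifs <;> norm_num
  have hP0 : ∀ i w, 0 ≤ Pf i w := fun i w => Set.indicator_nonneg (fun w _ => by positivity) w
  let F : ℂ → ℝ := fun w => ∑ j, σ j * (S j w * D w)
  let G : ℂ → ℝ := fun w => ∑ i, σ i * Pf i w
  have hSDm : ∀ j, AEMeasurable (fun w => S j w * D w) ν := fun j => (hSm j).mul hDm
  have hFm : AEMeasurable F ν :=
    Finset.aemeasurable_fun_sum _ fun j _ => (hSDm j).const_mul _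
  have hGm : AEMeasurable G ν := Finset.aemeasurable_fun_sum _ fun i _ => (hPm i).const_mul _
  have hF0 : ∀ w, 0 ≤ F w := fun w => Finset.sum_nonneg fun j _ =>
    mul_nonneg (hσ0 j) (mul_nonneg (hS0 j w) (hD0 w))
  have hG0 : ∀ w, 0 ≤ G w := fun w => Finset.sum_nonneg fun i _ => mul_nonneg (hσ0 i) (hP0 i w)
  have hmin0 : ∀ i j, 0 ≤ min (u i) (u j) := fun i j => le_min (hu i).1 (hu j).1
  -- lower bound
  have hlow : ENNReal.ofReal (∑ i, ∑ j, σ i * σ j * (2 * th * (min (u i) (u j) - C₀))) ≤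
      ∫⁻ w, ENNReal.ofReal (F w * G w) ∂ν := by
    have h1 := j9944_lb ν σ hσ0 (fun i j w => Pf i w * (S j w * D w))
      (fun i j => (hPm i).mul (hSDm j))
      (fun i j w => mul_nonneg (hP0 i w) (mul_nonneg (hS0 j w) (hD0 w)))
      (fun i j => 2 * th * (min (u i) (u j) - C₀)) (by
        intro i j
        have h2 := hray (z i) (u j) (hz i).1 (hz i).2 (hu j).1
        rw [← (hu i).2, max_eq_right (hmin0 i j)] at h2
        refine h2.trans ?_
        have h3 : (volume : Measure ℂ).restrict (Sec i) = ν.restrict (Sec i) := by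
          rw [Measure.restrict_restrict (hSec i), Set.inter_eq_left.2 (hSecsub i)]
        show ∫⁻ w in Sec i, _ ∂volume ≤ _
        rw [h3, ← lintegral_indicator (hSec i)]
        refine lintegral_mono fun w => ?_
        by_cases hw : w ∈ Sec i
        · rw [Set.indicator_of_mem hw]
          refine ENNReal.ofReal_le_ofReal (le_of_eq ?_)
          simp only [Pf, Set.indicator_of_mem hw]
          show S j w * D w / q i w = 1 / q i w * (S j w * D w)
          ring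
        · rw [Set.indicator_of_notMem hw]
          exact zero_le)
    refine h1.trans (le_of_eq ?_)
    refine lintegral_congr fun w => ?_
    congr 1
    show _ = (∑ j, σ j * (S j w * D w)) * (∑ i, σ i * Pf i w)
    rw [mul_comm, j9944_expand]
  -- upper bounds
  have hupF : ∫⁻ w, ENNReal.ofReal (F w ^ 2) ∂ν ≤
      ENNReal.ofReal (∑ i, ∑ j, σ i * σ j * (π * p * (1 + 2 * min (u i) (u j)))) := by
    have h1 := j9944_ub ν σ hσ0 (fun i j w => (S i w * D w) * (S j w * D w))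
      (fun i j => (hSDm i).mul (hSDm j))
      (fun i j w => mul_nonneg (mul_nonneg (hS0 i w) (hD0 w)) (mul_nonneg (hS0 j w) (hD0 w)))
      (fun i j => π * p * (1 + 2 * min (u i) (u j)))
      (fun i j => by have := hmin0 i j; positivity) (by
        intro i j
        have h2 := hE 1 (Real.exp (min (u i) (u j))) one_pos (by
          rw [Real.one_le_exp_iff]; exact hmin0 i j)
        rw [div_one, Real.log_exp] at h2
        refine le_trans ?_ h2
        refine le_trans ?_ (lintegral_indicator_le _ _)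
        refine le_trans ?_ (setLIntegral_le_lintegral (ball (0 : ℂ) 1) _)
        refine (setLIntegral_mono_ae' measurableSet_ball (Filter.Eventually.of_forall fun w hw => ?_))
        by_cases hB : w ∈ {z : ℂ | z ∈ ball (0:ℂ) 1 ∧ 1 < ‖f z‖ ∧ ‖f z‖ < Real.exp (min (u i) (u j))}
        · rw [Set.indicator_of_mem hB]
          refine ENNReal.ofReal_le_ofReal ?_
          have hS1 : ∀ k, S k w ≤ 1 := fun k => by
            simp only [S]
            split_ifs <;> norm_num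
          have h3 : S i w * D w * (S j w * D w) = (S i w * S j w) * D w ^ 2 := by ring
          rw [h3]
          have h4 : S i w * S j w ≤ 1 := mul_le_one₀ (hS1 i) (hS0 j w) (hS1 j)
          calc S i w * S j w * D w ^ 2 ≤ 1 * D w ^ 2 :=
                mul_le_mul_of_nonneg_right h4 (sq_nonneg _)
            _ = (‖deriv f w‖ / ‖f w‖) ^ 2 := one_mul _
        · rw [Set.indicator_of_notMem hB]
          have h3 : S i w * D w * (S j w * D w) = 0 := by
            by_contra hne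
            apply hB
            have hSi : S i w ≠ 0 := fun h => hne (by rw [h]; ring)
            have hSj : S j w ≠ 0 := fun h => hne (by rw [h]; ring)
            simp only [S, ne_eq, ite_eq_right_iff, Classical.not_imp] at hSi hSj
            obtain ⟨⟨g1, g2⟩, -⟩ := hSi
            obtain ⟨⟨-, g3⟩, -⟩ := hSj
            have g4 : 0 < ‖f w‖ := by
              rcases (norm_nonneg (f w)).eq_or_lt with h | h
              · rw [← h, Real.log_zero] at g1
                exact absurd g1 (lt_irrefl _)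
              · exact h
            refine ⟨hw, (Real.log_pos_iff g4.le).1 g1, ?_⟩
            rw [← Real.log_lt_iff_lt_exp g4]
            exact lt_min g2 g3
          rw [h3]
          simp)
    refine le_trans (le_of_eq ?_) h1
    refine lintegral_congr fun w => ?_
    congr 1
    show (∑ j, σ j * (S j w * D w)) ^ 2 = _
    rw [sq, j9944_expand]
  have hbnn : ∀ i j, 0 ≤ 2 * th * Real.log (1 / A i j) + C₁' := by
    intro i j
    have h1 : 2 * th * (-Real.log 2) ≤ 2 * th * Real.log (1 / A i j) :=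
      mul_le_mul_of_nonneg_left (hlogA i j) (by positivity)
    rw [hC₁']
    linarith
  have hupG : ∫⁻ w, ENNReal.ofReal (G w ^ 2) ∂ν ≤
      ENNReal.ofReal (∑ i, ∑ j, σ i * σ j * (2 * th * Real.log (1 / A i j) + C₁')) := by
    have h1 := j9944_ub ν σ hσ0 (fun i j w => Pf i w * Pf j w)
      (fun i j => (hPm i).mul (hPm j)) (fun i j w => mul_nonneg (hP0 i w) (hP0 j w))
      (fun i j => 2 * th * Real.log (1 / A i j) + C₁') hbnn (by
        intro i j
        have h2 := hcross _ _ _ _ (hζ i) (hζ j) (ha0 i) (ha0 j) (hz i).1 (hz j).1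
        refine le_trans ?_ (h2.trans (ENNReal.ofReal_le_ofReal ?_))
        · refine le_trans ?_ (lintegral_indicator_le _ _)
          refine le_trans ?_ (setLIntegral_le_lintegral (ball (0 : ℂ) 1) _)
          refine lintegral_mono fun w => ?_
          by_cases hw : w ∈ Sec i ∩ Sec j
          · have hw' : w ∈ sector (z i / (‖z i‖ : ℂ)) (1 - ‖z i‖) x₀ th ∩
              sector (z j / (‖z j‖ : ℂ)) (1 - ‖z j‖) x₀ th := hw
            rw [Set.indicator_of_mem hw']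
            refine ENNReal.ofReal_le_ofReal (le_of_eq ?_)
            simp only [Pf, Set.indicator_of_mem hw.1, Set.indicator_of_mem hw.2]
            show 1 / q i w * (1 / q j w) = 1 / (q i w * q j w)
            rw [one_div_mul_one_div]
          · have h3 : Pf i w * Pf j w = 0 := by
              rw [Set.mem_inter_iff, not_and_or] at hw
              rcases hw with hw | hw
              · simp only [Pf, Set.indicator_of_notMem hw, zero_mul]
              · simp only [Pf, Set.indicator_of_notMem hw, mul_zero]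
            show ENNReal.ofReal (Pf i w * Pf j w) ≤ _
            rw [h3]
            simp
        · show 2 * th * Real.log (1 / A i j) + C₁ ≤ _
          rw [hC₁']
          have : 0 ≤ 2 * th * Real.log 2 := by positivity
          linarith)
    refine le_trans (le_of_eq ?_) h1
    refine lintegral_congr fun w => ?_
    congr 1
    show (∑ i, σ i * Pf i w) ^ 2 = _
    rw [sq, j9944_expand]
  -- sums
  set s : ℝ := ∑ i, σ i with hs
  have hss : ∑ i, ∑ j, σ i * σ j = s ^ 2 := by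
    rw [sq, hs, Finset.sum_mul_sum]
  set Q : ℝ := ∑ i, ∑ j, σ i * σ j * min (u i) (u j) with hQ
  set T : ℝ := ∑ i, ∑ j, σ i * σ j * Real.log (1 / A i j) with hT
  have e1 : ∑ i, ∑ j, σ i * σ j * (2 * th * (min (u i) (u j) - C₀)) = 2 * th * (Q - C₀ * s ^ 2) := by
    rw [← hss, hQ]
    simp only [Finset.mul_sum, ← Finset.sum_sub_distrib]
    refine Finset.sum_congr rfl fun i _ => Finset.sum_congr rfl fun j _ => ?_
    ring
  have e2 : ∑ i, ∑ j, σ i * σ j * (π * p * (1 + 2 * min (u i) (u j))) =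
      π * p * (s ^ 2 + 2 * Q) := by
    rw [← hss, hQ]
    simp only [Finset.mul_sum, ← Finset.sum_add_distrib]
    refine Finset.sum_congr rfl fun i _ => Finset.sum_congr rfl fun j _ => ?_
    ring
  have e3 : ∑ i, ∑ j, σ i * σ j * (2 * th * Real.log (1 / A i j) + C₁') =
      2 * th * T + C₁' * s ^ 2 := by
    rw [← hss, hT]
    simp only [Finset.mul_sum, ← Finset.sum_add_distrib]
    refine Finset.sum_congr rfl fun i _ => Finset.sum_congr rfl fun j _ => ?_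
    ring
  rw [e1] at hlow
  rw [e2] at hupF
  rw [e3] at hupG
  have hQ0 : 0 ≤ Q := Finset.sum_nonneg fun i _ => Finset.sum_nonneg fun j _ =>
    mul_nonneg (mul_nonneg (hσ0 i) (hσ0 j)) (hmin0 i j)
  have hs0 : 0 ≤ s := Finset.sum_nonneg fun i _ => hσ0 i
  have hY0 : 0 ≤ 2 * th * T + C₁' * s ^ 2 := by
    rw [← e3]
    exact Finset.sum_nonneg fun i _ => Finset.sum_nonneg fun j _ =>
      mul_nonneg (mul_nonneg (hσ0 i) (hσ0 j)) (hbnn i j)
  refine j9944_alg th p C₀ C₁' s Q T (Real.log 2) (2 * N) hth hp hC₀ hC₁'0 hs0 ?_ ?_ hlog2 hQ0 ?_ ?_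
  · calc s ≤ ∑ _i : Fin N, (2 : ℝ) := Finset.sum_le_sum fun i _ => (hσ i).2
      _ = 2 * N := by simp [mul_comm]
  · rw [← hss, hT]
    simp only [Finset.mul_sum]
    refine Finset.sum_le_sum fun i _ => Finset.sum_le_sum fun j _ => ?_
    have := mul_le_mul_of_nonneg_left (hlogA i j) (mul_nonneg (hσ0 i) (hσ0 j))
    linarith
  · intro h
    have h1 : ∀ i, σ i = 0 := fun i =>
      (Finset.sum_eq_zero_iff_of_nonneg fun i _ => hσ0 i).1 h i (Finset.mem_univ i)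
    constructor
    · rw [hQ]; simp [h1]
    · rw [hT]; simp [h1]
  · intro hge
    refine j9944_CS ν F G hFm hGm hF0 hG0 _ _ _ ?_ hY0 ?_ hlow hupF hupG
    · positivity
    · have : 0 ≤ Q - C₀ * s ^ 2 := by linarith
      positivity

end Star

end MeanVal
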