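import Mathlib
import Pool.Agent.Helper772.MV.Defs

open MeasureTheory Metric Set
open scoped ENNReal Real

namespace MeanVal

namespace Zeros





theorem valency_ge9861 {f : ℂ → ℂ} (hd : DifferentiableOn ℂ f (ball (0:ℂ) 1)) (w : ℂ)
    (t : Finset ℂ) (y : ℂ → ℂ) (hy : ∀ z ∈ t, y z ∈ ball (0:ℂ) 1 ∧ f (y z) = w)
    (hinj : ∀ z ∈ t, ∀ z' ∈ t, y z = y z' → z = z') : (t.card : ℝ≥0∞) ≤ valency f w := by
  have han : AnalyticOnNhd ℂ f (ball (0:ℂ) 1) := hd.analyticOnNhd isOpen_ball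
  have h1 : ∑' z : t, ((analyticOrderAt (fun ζ : ℂ => f ζ - w) (y z : ℂ) : ℕ∞) : ℝ≥0∞) ≤
      valency f w := by
    unfold valency
    have hi : Function.Injective
        (fun z : t => (⟨y z, hy z z.2⟩ : {z : ℂ // z ∈ ball (0:ℂ) 1 ∧ f z = w})) := by
      intro z z' h
      have h2 : y z = y z' := congrArg Subtype.val h
      exact Subtype.ext (hinj z z.2 z' z'.2 h2)
    exact ENNReal.tsum_comp_le_tsum_of_injective hi
      (fun z : {z : ℂ // z ∈ ball (0:ℂ) 1 ∧ f z = w} =>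
        ((analyticOrderAt (fun ζ : ℂ => f ζ - w) (z:ℂ) : ℕ∞) : ℝ≥0∞))
  refine le_trans ?_ h1
  rw [tsum_fintype]
  have h2 : ∑ z : t, (1 : ℝ≥0∞) ≤
      ∑ z : t, ((analyticOrderAt (fun ζ : ℂ => f ζ - w) (y z : ℂ) : ℕ∞) : ℝ≥0∞) := by
    apply Finset.sum_le_sum
    intro z _
    have h3 : AnalyticAt ℂ (fun ζ : ℂ => f ζ - w) (y z) :=
      (han _ (hy z z.2).1).sub analyticAt_const
    have h4 : analyticOrderAt (fun ζ : ℂ => f ζ - w) (y z : ℂ) ≠ 0 := by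
      rw [h3.analyticOrderAt_ne_zero, (hy z z.2).2, sub_self]
    have h5 : (1 : ℕ∞) ≤ analyticOrderAt (fun ζ : ℂ => f ζ - w) (y z : ℂ) :=
      ENat.one_le_iff_ne_zero.mpr h4
    have h6 := ENat.toENNReal_mono h5
    simpa using h6
  refine le_trans (le_of_eq ?_) h2
  simp

theorem zeros_finite9861 {p : ℝ} {f : ℂ → ℂ} (hf : MeanValent p f)
    (hne : ∃ z ∈ ball (0:ℂ) 1, f z ≠ 0) : {z : ℂ | z ∈ ball (0:ℂ) 1 ∧ f z = 0}.Finite := by
  classical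
  by_contra hinf
  have hinf : {z : ℂ | z ∈ ball (0:ℂ) 1 ∧ f z = 0}.Infinite := hinf
  have han : AnalyticOnNhd ℂ f (ball (0:ℂ) 1) := hf.1.analyticOnNhd isOpen_ball
  rcases han.is_constant_or_isOpen (convex_ball (0:ℂ) 1).isPreconnected with ⟨w, hw⟩ | hopen
  · obtain ⟨z, hz, hz0⟩ := hne
    obtain ⟨z', hz'⟩ := hinf.nonempty
    apply hz0
    rw [hw z hz, ← hw z' hz'.1, hz'.2]
  obtain ⟨k, hk⟩ := exists_nat_gt p
  obtain ⟨t, ht, htc⟩ := hinf.exists_subset_card_eq (k + 1)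
  obtain ⟨U, hU, hdisj⟩ := (Finset.finite_toSet t).t2_separation
  have hB : ∀ z ∈ t, IsOpen (f '' (U z ∩ ball (0:ℂ) 1)) := fun z _ =>
    hopen _ inter_subset_right ((hU z).2.inter isOpen_ball)
  have hOpen : IsOpen (⋂ z ∈ t, f '' (U z ∩ ball (0:ℂ) 1)) :=
    isOpen_biInter_finset hB
  have h0 : (0:ℂ) ∈ ⋂ z ∈ t, f '' (U z ∩ ball (0:ℂ) 1) := by
    simp only [mem_iInter]
    intro z hz
    have h1 := ht hz
    exact ⟨z, ⟨(hU z).1, h1.1⟩, h1.2⟩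
  obtain ⟨δ, hδ, hball⟩ := Metric.isOpen_iff.mp hOpen 0 h0
  have hval : ∀ w ∈ ball (0:ℂ) δ, ((k + 1 : ℕ) : ℝ≥0∞) ≤ valency f w := by
    intro w hw
    have h1 := hball hw
    simp only [mem_iInter] at h1
    choose! y hy using h1
    rw [← htc]
    apply valency_ge9861 hf.1 w t y (fun z hz => ⟨(hy z hz).1.2, (hy z hz).2⟩)
    intro z hz z' hz' hyy
    by_contra hzz
    have h2 := hdisj hz hz' hzz
    rw [Function.onFun, Set.disjoint_left] at h2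
    apply h2 (hy z hz).1.1
    rw [hyy]
    exact (hy z' hz').1.1
  have hint := hf.2 δ hδ
  have h3 : ∫⁻ _w in ball (0:ℂ) δ, ((k + 1 : ℕ) : ℝ≥0∞) ≤ ∫⁻ w in ball (0:ℂ) δ, valency f w :=
    setLIntegral_mono' measurableSet_ball hval
  rw [setLIntegral_const, Complex.volume_ball] at h3
  have h4 := h3.trans hint
  have h5 : ((k + 1 : ℕ) : ℝ≥0∞) * (ENNReal.ofReal δ ^ 2 * (NNReal.pi : ℝ≥0∞)) =
      ENNReal.ofReal (((k + 1 : ℕ) : ℝ) * (δ ^ 2 * π)) := by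
    rw [ENNReal.ofReal_mul (by positivity), ENNReal.ofReal_mul (by positivity),
      ENNReal.ofReal_pow hδ.le, ENNReal.ofReal_natCast]
    congr 2
    rw [ENNReal.ofReal]
    congr 1
    exact Real.toNNReal_coe.symm
  rw [h5, ENNReal.ofReal_le_ofReal_iff'] at h4
  have hpi := Real.pi_pos
  have hpos : 0 < δ ^ 2 * π := by positivity
  push_cast at h4
  rcases h4 with h | h
  · have : π * p * δ ^ 2 = p * (δ ^ 2 * π) := by ring
    rw [this] at h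
    have := le_of_mul_le_mul_right h hpos
    linarith
  · have : 0 < ((k:ℝ) + 1) * (δ ^ 2 * π) := by positivity
    linarith

theorem zero_free_near_boundary {p : ℝ} {f : ℂ → ℂ} (hf : MeanValent p f)
    (hne : ∃ z ∈ ball (0:ℂ) 1, f z ≠ 0) :
    ∃ r : ℝ, 0 ≤ r ∧ r < 1 ∧ ∀ z : ℂ, r ≤ ‖z‖ → ‖z‖ < 1 → f z ≠ 0 := by
  have hfin := zeros_finite9861 hf hne
  have h1 : ∀ᶠ r in nhdsWithin (1:ℝ) (Iio 1), ∀ z ∈ {z : ℂ | z ∈ ball (0:ℂ) 1 ∧ f z = 0},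
      ‖z‖ < r := by
    rw [Filter.eventually_all_finite hfin]
    intro z hz
    have h2 : ‖z‖ < 1 := by simpa using hz.1
    filter_upwards [Ioo_mem_nhdsLT h2] with r hr
    exact hr.1
  have h2 : ∀ᶠ r in nhdsWithin (1:ℝ) (Iio 1), 0 < r ∧ r < 1 := by
    filter_upwards [Ioo_mem_nhdsLT (show (0:ℝ) < 1 by norm_num)] with r hr
    exact hr
  obtain ⟨r, hr1, hr2⟩ := (h1.and h2).exists
  refine ⟨r, hr2.1.le, hr2.2, ?_⟩
  intro z hz1 hz2 hfz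
  have := hr1 z ⟨by simpa using hz2, hfz⟩
  linarith

end Zeros

end MeanVal
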