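import Mathlib
import Pool.Agent.Helper772.MV.Defs
import Pool.Agent.Helper772.MV.Upper

open MeasureTheory Metric Set
open scoped ENNReal Real

namespace MeanVal

theorem tail_sum (N : ℕ) (F : ℕ → ℝ) (j : Fin N) :
    ∑ i ∈ Finset.univ.filter (fun i : Fin N => j ≤ i), F i = ∑ i ∈ Finset.Ico (j:ℕ) N, F i := by
  rw [Finset.sum_filter]
  have h1 : ∑ a : Fin N, (if j ≤ a then F a else 0) =
      ∑ a : Fin N, (fun a : ℕ => if (j:ℕ) ≤ a then F a else 0) a := by
    apply Finset.sum_congr rfl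
    intro a _
    simp only [Fin.le_def]
  rw [h1, Fin.sum_univ_eq_sum_range (fun a : ℕ => if (j:ℕ) ≤ a then F a else 0), ← Finset.sum_filter]
  apply Finset.sum_congr _ (fun _ _ => rfl)
  ext i
  simp only [Finset.mem_filter, Finset.mem_range, Finset.mem_Ico]
  tauto

theorem tele_Ico (T : ℕ → ℝ) (j N : ℕ) (hj : j ≤ N) :
    ∑ i ∈ Finset.Ico j N, (T i - T (i + 1)) = T j - T N := by
  have h := Finset.sum_Ico_sub (fun i => -T i) hj
  have h2 : ∑ i ∈ Finset.Ico j N, (T i - T (i + 1)) = ∑ i ∈ Finset.Ico j N, (-T (i + 1) - -T i) := by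
    apply Finset.sum_congr rfl
    intro i _
    ring
  rw [h2, h]
  ring

/-- tail-tight certificates for `p ≤ 1` -/
theorem admissible_of_T (m : ℕ) (p : ℝ) (hp : 0 < p) (hp1 : p ≤ 1) (T : ℕ → ℝ)
    (hTm : T (m + 1) = 0) (hT0 : T 0 ^ 2 = 2 * p) (hnn : ∀ i ≤ m, 0 ≤ T i)
    (hg : ∀ i ≤ m, (4 * p + 1) * T (i + 1) ≤ (4 * p - 1) * T i) (b : ℝ)
    (hb : ∑ i ∈ Finset.range (m + 1), ((T i - T (i + 1)) ^ 2 - (T i ^ 2 - T (i + 1) ^ 2) / (4 * p))
      = b) (α : ℝ) (hα : -1 / 2 + b < α) : Admissible m p α := by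
  have hnn' : ∀ i ≤ m + 1, 0 ≤ T i := by
    intro i hi
    rcases Nat.lt_or_ge i (m + 1) with h | h
    · exact hnn i (by omega)
    · have : i = m + 1 := by omega
      rw [this, hTm]
  have hdec : ∀ i ≤ m, T (i + 1) ≤ T i := by
    intro i hi
    have h1 := hg i hi
    have h2 := hnn i hi
    have h3 := hnn' (i + 1) (by omega)
    nlinarith
  have hanti : ∀ i j, i ≤ j → j ≤ m + 1 → T j ≤ T i := by
    intro i j hij hj
    induction j, hij using Nat.le_induction with
    | base => exact le_rfl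
    | succ j hij ih => exact (hdec j (by omega)).trans (ih (by omega))
  set σ : ℕ → ℝ := fun i => T i - T (i + 1) with hσ
  set lam : ℕ → ℝ := fun i => (T i ^ 2 - T (i + 1) ^ 2) / (2 * p) with hlam
  set μ : ℕ → ℝ := fun i => (T i - T (i + 1)) ^ 2 - (T i ^ 2 - T (i + 1) ^ 2) / (4 * p) with hμ
  have hσ0 : ∀ i ≤ m, 0 ≤ σ i := fun i hi => by
    simp only [hσ]; linarith [hdec i hi]
  have hlam0 : ∀ i ≤ m, 0 ≤ lam i := by
    intro i hi
    simp only [hlam]
    apply div_nonneg _ (by positivity)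
    have h1 := hdec i hi
    have h2 := hnn' (i + 1) (by omega)
    nlinarith
  have hμ0 : ∀ i ≤ m, 0 ≤ μ i := by
    intro i hi
    have h1 := hdec i hi
    have h2 := hg i hi
    have h3 : μ i = (T i - T (i + 1)) * ((4 * p - 1) * T i - (4 * p + 1) * T (i + 1)) / (4 * p) := by
      simp only [hμ]
      field_simp
      ring
    rw [h3]
    apply div_nonneg _ (by positivity)
    apply mul_nonneg <;> linarith
  have hpair : ∀ i k, i < k → k ≤ m → 2 * σ i * σ k ≤ lam i + lam k := by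
    intro i k hik hk
    have h1 := hσ0 i (by omega)
    have h2 := hσ0 k hk
    have h3 : T k ≤ T (i + 1) := hanti (i + 1) k (by omega) (by omega)
    have h4 := hnn' (k + 1) (by omega)
    have h5 : lam i = σ i * (σ i + 2 * T (i + 1)) / (2 * p) := by
      simp only [hσ, hlam]; ring
    have h6 : lam k = σ k * (σ k + 2 * T (k + 1)) / (2 * p) := by
      simp only [hσ, hlam]; ring
    have h7 : σ k ≤ T (i + 1) := by
      simp only [hσ]; linarith
    have h8 : (σ i + σ k) ^ 2 / (2 * p) ≤ lam i + lam k := by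
      rw [h5, h6, ← add_div]
      apply div_le_div_of_nonneg_right _ (by positivity)
      nlinarith [mul_nonneg h1 (sub_nonneg.2 h7), mul_nonneg h2 h4]
    refine le_trans ?_ h8
    rw [le_div_iff₀ (by positivity)]
    nlinarith [mul_nonneg h1 h2, sq_nonneg (σ i - σ k), mul_nonneg (mul_nonneg h1 h2) (sub_nonneg.2 hp1)]
  have hbsum : ∑ i : Fin (m + 1), μ i = b := by
    rw [Fin.sum_univ_eq_sum_range]
    exact hb
  have hb0 : 0 ≤ b := by
    rw [← hbsum]
    exact Finset.sum_nonneg fun i _ => hμ0 i (by omega)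
  apply admissible_of_certOK m p hp (fun i : Fin (m + 1) => σ i) b _ hb0 _ α hα
  · intro i
    refine ⟨hσ0 i (by omega), ?_⟩
    have h1 : σ i ≤ T 0 := by
      have h2 := hanti 0 i (Nat.zero_le _) (by omega)
      have h3 := hnn' (i + 1) (by omega)
      simp only [hσ]
      linarith
    have h2 : T 0 ≤ 2 := by
      have := hnn 0 (Nat.zero_le _)
      nlinarith
    linarith
  · rw [← hbsum]
    apply certOK_of (m + 1) p hp (fun i : Fin (m + 1) => lam i) (fun i : Fin (m + 1) => μ i)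
      (fun i : Fin (m + 1) => σ i)
    · exact fun i => hlam0 i (by omega)
    · rw [Fin.sum_univ_eq_sum_range (fun i => lam i), Finset.range_eq_Ico]
      simp only [hlam]
      rw [← Finset.sum_div, tele_Ico (fun i => T i ^ 2) 0 (m + 1) (by omega), hTm, hT0]
      field_simp
      ring
    · exact fun i => hμ0 i (by omega)
    · exact fun i => hσ0 i (by omega)
    · intro i
      simp only [hσ, hlam, hμ]
      ring
    · intro j
      rw [tail_sum (m + 1) lam j, tail_sum (m + 1) σ j]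
      simp only [hlam, hσ]
      rw [← Finset.sum_div, tele_Ico (fun i => T i ^ 2) j (m + 1) (by omega),
        tele_Ico T j (m + 1) (by omega), hTm]
      apply le_of_eq
      ring
    · intro i k hik
      have hik' : (i:ℕ) ≠ k := fun h => hik (Fin.ext h)
      rcases Nat.lt_or_gt_of_ne hik' with h | h
      · exact hpair i k h (by omega)
      · have := hpair k i h (by omega)
        linarith

/-- upper bound, `1/4 ≤ p ≤ 1` -/
theorem upper_one (m : ℕ) (p : ℝ) (hp : 1 / 4 ≤ p) (hp1 : p ≤ 1) (α : ℝ)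
    (hα : -1 / 2 + (2 * p - 1 / 2) * ((4 * p - 1) / (4 * p + 1)) ^ (2 * m) < α) :
    Admissible m p α := by
  have hp0 : 0 < p := by linarith
  set ρ : ℝ := (4 * p - 1) / (4 * p + 1) with hρ
  have hρ0 : 0 ≤ ρ := div_nonneg (by linarith) (by linarith)
  have hρe : (4 * p + 1) * ρ = 4 * p - 1 := by
    rw [hρ]; field_simp
  have hs : Real.sqrt (2 * p) ^ 2 = 2 * p := Real.sq_sqrt (by positivity)
  have hs0 := Real.sqrt_nonneg (2 * p)
  set T : ℕ → ℝ := fun i => if i ≤ m then Real.sqrt (2 * p) * ρ ^ i else 0 with hT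
  have hTle : ∀ i ≤ m, T i = Real.sqrt (2 * p) * ρ ^ i := fun i hi => by simp only [hT, if_pos hi]
  have hTm : T (m + 1) = 0 := by simp [hT]
  refine admissible_of_T m p hp0 hp1 T hTm ?_ ?_ ?_ _ ?_ α hα
  · rw [hTle 0 (Nat.zero_le _)]; simpa using hs
  · intro i hi
    rw [hTle i hi]; positivity
  · intro i hi
    rcases Nat.lt_or_ge i m with h | h
    · rw [hTle i hi, hTle (i + 1) h, pow_succ]
      apply le_of_eq
      linear_combination (Real.sqrt (2 * p) * ρ ^ i) * hρe
    · have : i = m := by omega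
      subst this
      rw [hTm, hTle i hi]
      have : 0 ≤ 4 * p - 1 := by linarith
      simp only [mul_zero]
      positivity
  · rw [Finset.sum_range_succ]
    have h0 : ∑ i ∈ Finset.range m, ((T i - T (i + 1)) ^ 2 - (T i ^ 2 - T (i + 1) ^ 2) / (4 * p)) = 0 := by
      apply Finset.sum_eq_zero
      intro i hi
      have hi' := Finset.mem_range.1 hi
      rw [hTle i hi'.le, hTle (i + 1) hi', pow_succ ρ i]
      have h1 : (Real.sqrt (2 * p) * ρ ^ i - Real.sqrt (2 * p) * (ρ ^ i * ρ)) ^ 2 -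
          ((Real.sqrt (2 * p) * ρ ^ i) ^ 2 - (Real.sqrt (2 * p) * (ρ ^ i * ρ)) ^ 2) / (4 * p) =
          (Real.sqrt (2 * p) ^ 2 * (ρ ^ i) ^ 2) * (1 - ρ) * ((4 * p - 1) - (4 * p + 1) * ρ) / (4 * p) := by
        field_simp
        ring
      rw [h1, hρe]
      simp
    rw [h0, hTm, hTle m le_rfl, zero_add]
    have h1 : (Real.sqrt (2 * p) * ρ ^ m - 0) ^ 2 - ((Real.sqrt (2 * p) * ρ ^ m) ^ 2 - 0 ^ 2) / (4 * p)
        = Real.sqrt (2 * p) ^ 2 * ρ ^ (2 * m) * (1 - 1 / (4 * p)) := by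
      rw [pow_mul' ρ 2 m]
      ring
    rw [h1, hs]
    field_simp
    ring

/-- upper bound, `3/4 ≤ p ≤ 1` -/
theorem upper_two (m : ℕ) (p : ℝ) (hp : 3 / 4 ≤ p) (hp1 : p ≤ 1) (α : ℝ)
    (hα : -1 / 2 + (p - 1 / 2) * ((4 * p - 1) / (4 * p + 1)) ^ (2 * m) < α) :
    Admissible (m + 1) p α := by
  have hp0 : 0 < p := by linarith
  set ρ : ℝ := (4 * p - 1) / (4 * p + 1) with hρ
  have hρ0 : 0 ≤ ρ := div_nonneg (by linarith) (by linarith)
  have hρe : (4 * p + 1) * ρ = 4 * p - 1 := by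
    rw [hρ]; field_simp
  have hs : Real.sqrt (2 * p) ^ 2 = 2 * p := Real.sq_sqrt (by positivity)
  have hs0 := Real.sqrt_nonneg (2 * p)
  set T : ℕ → ℝ := fun i => if i ≤ m then Real.sqrt (2 * p) * ρ ^ i else
    if i = m + 1 then Real.sqrt (2 * p) * ρ ^ m / 2 else 0 with hT
  have hTle : ∀ i ≤ m, T i = Real.sqrt (2 * p) * ρ ^ i := fun i hi => by simp only [hT, if_pos hi]
  have hTm1 : T (m + 1) = Real.sqrt (2 * p) * ρ ^ m / 2 := by simp [hT]
  have hTm2 : T (m + 1 + 1) = 0 := by simp [hT]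
  refine admissible_of_T (m + 1) p hp0 hp1 T hTm2 ?_ ?_ ?_ _ ?_ α hα
  · rw [hTle 0 (Nat.zero_le _)]; simpa using hs
  · intro i hi
    rcases Nat.lt_or_ge i (m + 1) with h | h
    · rw [hTle i (by omega)]; positivity
    · have : i = m + 1 := by omega
      subst this
      rw [hTm1]; positivity
  · intro i hi
    rcases Nat.lt_or_ge i m with h | h
    · rw [hTle i h.le, hTle (i + 1) h, pow_succ]
      apply le_of_eq
      linear_combination (Real.sqrt (2 * p) * ρ ^ i) * hρe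
    · rcases Nat.lt_or_ge i (m + 1) with h' | h'
      · have : i = m := by omega
        subst this
        rw [hTm1, hTle i le_rfl]
        have h1 : 0 ≤ Real.sqrt (2 * p) * ρ ^ i := by positivity
        nlinarith
      · have : i = m + 1 := by omega
        subst this
        rw [hTm2, hTm1]
        have : 0 ≤ 4 * p - 1 := by linarith
        simp only [mul_zero]
        positivity
  · rw [Finset.sum_range_succ, Finset.sum_range_succ]
    have h0 : ∑ i ∈ Finset.range m, ((T i - T (i + 1)) ^ 2 - (T i ^ 2 - T (i + 1) ^ 2) / (4 * p)) = 0 := by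
      apply Finset.sum_eq_zero
      intro i hi
      have hi' := Finset.mem_range.1 hi
      rw [hTle i hi'.le, hTle (i + 1) hi', pow_succ ρ i]
      have h1 : (Real.sqrt (2 * p) * ρ ^ i - Real.sqrt (2 * p) * (ρ ^ i * ρ)) ^ 2 -
          ((Real.sqrt (2 * p) * ρ ^ i) ^ 2 - (Real.sqrt (2 * p) * (ρ ^ i * ρ)) ^ 2) / (4 * p) =
          (Real.sqrt (2 * p) ^ 2 * (ρ ^ i) ^ 2) * (1 - ρ) * ((4 * p - 1) - (4 * p + 1) * ρ) / (4 * p) := by
        field_simp
        ring
      rw [h1, hρe]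
      simp
    rw [h0, hTm2, hTm1, hTle m le_rfl, zero_add]
    have h1 : (Real.sqrt (2 * p) * ρ ^ m - Real.sqrt (2 * p) * ρ ^ m / 2) ^ 2 -
        ((Real.sqrt (2 * p) * ρ ^ m) ^ 2 - (Real.sqrt (2 * p) * ρ ^ m / 2) ^ 2) / (4 * p) +
        ((Real.sqrt (2 * p) * ρ ^ m / 2 - 0) ^ 2 -
          ((Real.sqrt (2 * p) * ρ ^ m / 2) ^ 2 - 0 ^ 2) / (4 * p))
        = Real.sqrt (2 * p) ^ 2 * ρ ^ (2 * m) * (1 / 2 - 1 / (4 * p)) := by
      rw [pow_mul' ρ 2 m]
      ring
    rw [h1, hs]
    field_simp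
    ring

/-- upper bound, `p ≤ 1/4` -/
theorem upper_zero (m : ℕ) (p : ℝ) (hp0 : 0 < p) (hp : p ≤ 1 / 4) (α : ℝ)
    (hα : -1 / 2 < α) : Admissible m p α := by
  have hN : (0:ℝ) < (m:ℝ) + 1 := by positivity
  set s : ℝ := Real.sqrt (1 / (2 * ((m:ℝ) + 1))) with hs
  have hs2 : s ^ 2 = 1 / (2 * ((m:ℝ) + 1)) := Real.sq_sqrt (by positivity)
  have hs0 : 0 ≤ s := Real.sqrt_nonneg _
  apply admissible_of_certOK m p hp0 (fun _ : Fin (m + 1) => s) 0 _ le_rfl _ α (by linarith)
  · intro i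
    refine ⟨hs0, ?_⟩
    have h1 : s ^ 2 ≤ 1 := by
      rw [hs2, div_le_one (by positivity)]
      have : (0:ℝ) ≤ m := Nat.cast_nonneg _
      linarith
    nlinarith
  · have h := certOK_of (m + 1) p hp0 (fun _ : Fin (m + 1) => 1 / ((m:ℝ) + 1))
      (fun _ : Fin (m + 1) => 0) (fun _ : Fin (m + 1) => s) (fun _ => by positivity)
      (by
        rw [Finset.sum_const, Finset.card_univ, Fintype.card_fin, nsmul_eq_mul]
        push_cast
        field_simp) (fun _ => le_rfl) (fun _ => hs0)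
      (fun _ => by rw [hs2]; field_simp; ring) ?_ ?_
    · simpa using h
    · intro j
      rw [Finset.sum_const, Finset.sum_const, nsmul_eq_mul, nsmul_eq_mul, mul_pow, hs2]
      set c : ℕ := (Finset.univ.filter (fun i : Fin (m + 1) => j ≤ i)).card with hc
      have hc1 : (1:ℝ) ≤ c := by
        have : 0 < c := Finset.card_pos.2 ⟨j, by simp⟩
        exact_mod_cast this
      rw [le_div_iff₀ (by positivity)]
      have h1 : (c:ℝ) * (1 / ((m:ℝ) + 1)) * (2 * p) = (c:ℝ) * (4 * p) * (1 / (2 * ((m:ℝ) + 1))) := by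
        field_simp
        ring
      rw [h1]
      apply mul_le_mul_of_nonneg_right _ (by positivity)
      nlinarith
    · intro i k _
      have : 2 * s * s = 2 * s ^ 2 := by ring
      rw [this, hs2]
      have h1 : 2 * (1 / (2 * ((m:ℝ) + 1))) = 1 / ((m:ℝ) + 1) := by field_simp
      rw [h1]
      have : 0 < 1 / ((m:ℝ) + 1) := by positivity
      linarith

end MeanVal
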