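import Mathlib
import Pool.Agent.Helper772.MV.Defs

open MeasureTheory Metric Set
open scoped ENNReal Real

namespace MeanVal

namespace EvParams



theorem ep_small (C a δ : ℝ) (ha : a < 0) (hδ : 0 < δ) :
    ∀ᶠ n : ℕ in Filter.atTop, C * (n:ℝ) ^ a ≤ δ := by
  have h1 := (tendsto_rpow_neg_atTop (y := -a) (by linarith)).comp (tendsto_natCast_atTop_atTop (R := ℝ))
  have h2 := h1.const_mul C
  rw [mul_zero] at h2
  have h3 := h2.eventually (gt_mem_nhds hδ)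
  filter_upwards [h3] with n hn
  have : C * (n:ℝ) ^ (- -a) < δ := hn
  rw [neg_neg] at this
  exact this.le

theorem ep_ceil (K T : ℝ) (hK : 0 < K) (hT : 0 < T) (n : ℕ) (hn : 1 ≤ n) :
    ((⌈K * (n:ℝ) ^ T⌉₊ : ℕ) : ℝ) ≤ (K + 1) * (n:ℝ) ^ T := by
  have h0 : (1:ℝ) ≤ n := by exact_mod_cast hn
  have h1 : (1:ℝ) ≤ (n:ℝ) ^ T := Real.one_le_rpow h0 hT.le
  have h2 := (Nat.ceil_lt_add_one (a := K * (n:ℝ) ^ T) (by positivity)).le
  nlinarith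

theorem ep_geo (a C r δ : ℝ) (hC : 0 ≤ C) (hr : 0 < r) (hr1 : r < 1) (hδ : 0 < δ) :
    ∀ᶠ n : ℕ in Filter.atTop, C * (n:ℝ) ^ a * r ^ (n / 2) ≤ δ := by
  obtain ⟨k, hk⟩ := exists_nat_ge a
  have hs0 : 0 < √r := Real.sqrt_pos.2 hr
  have hs1 : √r < 1 := by
    rw [Real.sqrt_lt' one_pos]; simpa using hr1
  have h1 := tendsto_pow_const_mul_const_pow_of_abs_lt_one k (r := √r)
    (by rw [abs_of_pos hs0]; exact hs1)
  have h2 := h1.const_mul (C / √r)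
  rw [mul_zero] at h2
  have h3 := h2.eventually (gt_mem_nhds hδ)
  filter_upwards [h3, Filter.eventually_ge_atTop 1] with n hn hn1
  refine le_trans ?_ (le_of_lt hn)
  have h0 : (1:ℝ) ≤ n := by exact_mod_cast hn1
  have h4 : (n:ℝ) ^ a ≤ (n:ℝ) ^ k := by
    rw [← Real.rpow_natCast]
    exact Real.rpow_le_rpow_of_exponent_le h0 hk
  have h5 : r ^ (n / 2) ≤ √r ^ n / √r := by
    have : r ^ (n / 2) = √r ^ (2 * (n / 2)) := by
      rw [pow_mul, Real.sq_sqrt hr.le]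
    rw [this, le_div_iff₀ hs0, ← pow_succ]
    exact pow_le_pow_of_le_one hs0.le hs1.le (by omega)
  calc C * (n:ℝ) ^ a * r ^ (n / 2) ≤ C * (n:ℝ) ^ k * (√r ^ n / √r) := by
        gcongr
    _ = C / √r * ((n:ℝ) ^ k * √r ^ n) := by ring

theorem eventual_params (m : ℕ) (T K kE Hl : ℕ → ℝ) (V ε' Cosc A ω c r εc K₀ T₀ D : ℝ)
    (hT : ∀ l ≤ m, 0 < T l ∧ T l < 1) (hK : ∀ l ≤ m, 0 < K l) (hkE : ∀ l ≤ m, 0 < kE l)
    (hV : ∀ l ≤ m, V < Hl l - T l / 2) (hε' : 0 < ε') (hCosc : 0 < Cosc) (hA : 0 ≤ A)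
    (hω : 0 < ω) (hc : 0 < c) (hr : 0 < r) (hr1 : r < 1) (hεc : 0 < εc) (hK₀ : 0 < K₀)
    (hT₀ : T₀ < 1) (hD : 0 ≤ D) :
    ∀ᶠ n : ℕ in Filter.atTop, (∀ l ≤ m,
      2 * m + 1 ≤ ⌈K l * (n:ℝ) ^ (T l)⌉₊ ∧ 4 * ⌈K l * (n:ℝ) ^ (T l)⌉₊ ≤ n ∧
      Cosc * ((2 * (n:ℝ) ^ (-1 / 2 + V)) * ⌈K l * (n:ℝ) ^ (T l)⌉₊ / (kE l * (n:ℝ) ^ (Hl l)))
        ≤ ω / (m + 1) ∧
      Cosc * ((2 * (n:ℝ) ^ (-1 / 2 + V)) ^ 2 * ⌈K l * (n:ℝ) ^ (T l)⌉₊ * n /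
        (kE l * (n:ℝ) ^ (Hl l)) ^ 2) ≤ ω / (m + 1) ^ 2 ∧
      3 * (2 * (n:ℝ) ^ (-1 / 2 + V)) * ⌈K l * (n:ℝ) ^ (T l)⌉₊ * r ^ (n / 2) ≤ εc / (m + 1)) ∧
      (n:ℝ) ^ (-ε') ≤ c ∧
      A * ((8 * (K₀ * (n:ℝ) ^ T₀)) ^ D) ^ (m + 1) *
        Real.exp (-(n * (1 / (K₀ * (n:ℝ) ^ T₀)) / 4)) ≤ (2 * (n:ℝ) ^ (-1 / 2 + V)) / (4 * (m + 1)) := by
  have hm : (0:ℝ) < m + 1 := by positivity
  refine Filter.Eventually.and ?_ (Filter.Eventually.and ?_ ?_)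
  · have key : ∀ l ∈ Finset.range (m + 1), ∀ᶠ n : ℕ in Filter.atTop,
      2 * m + 1 ≤ ⌈K l * (n:ℝ) ^ (T l)⌉₊ ∧ 4 * ⌈K l * (n:ℝ) ^ (T l)⌉₊ ≤ n ∧
      Cosc * ((2 * (n:ℝ) ^ (-1 / 2 + V)) * ⌈K l * (n:ℝ) ^ (T l)⌉₊ / (kE l * (n:ℝ) ^ (Hl l)))
        ≤ ω / (m + 1) ∧
      Cosc * ((2 * (n:ℝ) ^ (-1 / 2 + V)) ^ 2 * ⌈K l * (n:ℝ) ^ (T l)⌉₊ * n /
        (kE l * (n:ℝ) ^ (Hl l)) ^ 2) ≤ ω / (m + 1) ^ 2 ∧
      3 * (2 * (n:ℝ) ^ (-1 / 2 + V)) * ⌈K l * (n:ℝ) ^ (T l)⌉₊ * r ^ (n / 2) ≤ εc / (m + 1) := by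
      intro l hl
      have hl' : l ≤ m := by
        have := Finset.mem_range.1 hl
        omega
      obtain ⟨hT0, hT1⟩ := hT l hl'
      have hKl := hK l hl'
      have hkl := hkE l hl'
      have hVl := hV l hl'
      have e1 : ∀ᶠ n : ℕ in Filter.atTop, ((2 * m + 1 : ℕ) : ℝ) / K l ≤ (n:ℝ) ^ (T l) :=
        ((tendsto_rpow_atTop hT0).comp tendsto_natCast_atTop_atTop).eventually_ge_atTop _
      have e2 := ep_small (4 * (K l + 1)) (T l - 1) 1 (by linarith) one_pos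
      have e3 := ep_small (Cosc * 2 * (K l + 1) / kE l) (-1 / 2 + V + T l - Hl l) (ω / (m + 1))
        (by linarith) (by positivity)
      have e4 := ep_small (Cosc * 4 * (K l + 1) / kE l ^ 2) (2 * V + T l - 2 * Hl l)
        (ω / (m + 1) ^ 2) (by linarith) (by positivity)
      have e5 := ep_geo (-1 / 2 + V + T l) (6 * (K l + 1)) r (εc / (m + 1)) (by positivity) hr hr1
        (by positivity)
      filter_upwards [e1, e2, e3, e4, e5, Filter.eventually_ge_atTop 1] with n h1 h2 h3 h4 h5 hn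
      have hn0 : (0:ℝ) < n := by exact_mod_cast hn
      have hc := ep_ceil (K l) (T l) hKl hT0 n hn
      refine ⟨?_, ?_, ?_, ?_, ?_⟩
      · have : ((2 * m + 1 : ℕ) : ℝ) ≤ ⌈K l * (n:ℝ) ^ (T l)⌉₊ := by
          refine le_trans ?_ (Nat.le_ceil _)
          rw [div_le_iff₀ hKl] at h1
          linarith
        exact_mod_cast this
      · have : ((4 * ⌈K l * (n:ℝ) ^ (T l)⌉₊ : ℕ) : ℝ) ≤ n := by
          push_cast
          have h6 : (n:ℝ) ^ (T l) = (n:ℝ) ^ (T l - 1) * n := by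
            rw [Real.rpow_sub_one hn0.ne', div_mul_cancel₀ _ hn0.ne']
          calc 4 * (⌈K l * (n:ℝ) ^ (T l)⌉₊ : ℝ) ≤ 4 * ((K l + 1) * (n:ℝ) ^ (T l)) := by gcongr
            _ = 4 * (K l + 1) * (n:ℝ) ^ (T l - 1) * n := by rw [h6]; ring
            _ ≤ 1 * n := by gcongr
            _ = n := one_mul _
        exact_mod_cast this
      · refine le_trans ?_ h3
        have h6 : (n:ℝ) ^ (-1 / 2 + V + T l - Hl l) =
            (n:ℝ) ^ (-1 / 2 + V) * (n:ℝ) ^ (T l) / (n:ℝ) ^ (Hl l) := by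
          rw [Real.rpow_sub hn0, Real.rpow_add hn0 (-1 / 2 + V) (T l)]
        rw [h6]
        calc Cosc * ((2 * (n:ℝ) ^ (-1 / 2 + V)) * ⌈K l * (n:ℝ) ^ (T l)⌉₊ /
              (kE l * (n:ℝ) ^ (Hl l)))
            ≤ Cosc * ((2 * (n:ℝ) ^ (-1 / 2 + V)) * ((K l + 1) * (n:ℝ) ^ (T l)) /
              (kE l * (n:ℝ) ^ (Hl l))) := by gcongr
          _ = _ := by field_simp
      · refine le_trans ?_ h4
        have h6 : (n:ℝ) ^ (2 * V + T l - 2 * Hl l) =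
            ((n:ℝ) ^ (-1 / 2 + V)) ^ 2 * n * (n:ℝ) ^ (T l) / ((n:ℝ) ^ (Hl l)) ^ 2 := by
          have h7 : ((n:ℝ) ^ (-1 / 2 + V)) ^ 2 * n = (n:ℝ) ^ (2 * V) := by
            rw [← Real.rpow_natCast, ← Real.rpow_mul hn0.le]
            nth_rewrite 2 [← Real.rpow_one (n:ℝ)]
            rw [← Real.rpow_add hn0]
            congr 1
            push_cast
            ring
          rw [h7, ← Real.rpow_add hn0, ← Real.rpow_natCast ((n:ℝ) ^ (Hl l)),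
            ← Real.rpow_mul hn0.le, ← Real.rpow_sub hn0]
          congr 1
          push_cast
          ring
        rw [h6]
        calc Cosc * ((2 * (n:ℝ) ^ (-1 / 2 + V)) ^ 2 * ⌈K l * (n:ℝ) ^ (T l)⌉₊ * n /
              (kE l * (n:ℝ) ^ (Hl l)) ^ 2)
            ≤ Cosc * ((2 * (n:ℝ) ^ (-1 / 2 + V)) ^ 2 * ((K l + 1) * (n:ℝ) ^ (T l)) * n /
              (kE l * (n:ℝ) ^ (Hl l)) ^ 2) := by gcongr
          _ = _ := by field_simp; ring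
      · refine le_trans ?_ h5
        have h6 : (n:ℝ) ^ (-1 / 2 + V + T l) = (n:ℝ) ^ (-1 / 2 + V) * (n:ℝ) ^ (T l) :=
          Real.rpow_add hn0 _ _
        rw [h6]
        calc 3 * (2 * (n:ℝ) ^ (-1 / 2 + V)) * ⌈K l * (n:ℝ) ^ (T l)⌉₊ * r ^ (n / 2)
            ≤ 3 * (2 * (n:ℝ) ^ (-1 / 2 + V)) * ((K l + 1) * (n:ℝ) ^ (T l)) * r ^ (n / 2) := by
              gcongr
          _ = _ := by ring
    have := (Filter.eventually_all_finset (Finset.range (m + 1))).2 key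
    filter_upwards [this] with n hn l hl
    exact hn l (Finset.mem_range.2 (by omega))
  · have := ep_small 1 (-ε') c (by linarith) hc
    filter_upwards [this] with n hn
    simpa using hn
  · have hs : 0 < 1 - T₀ := by linarith
    set s := 1 - T₀ with hsdef
    set b : ℝ := (T₀ * (D * (m + 1)) + (1 / 2 - V)) / s with hb
    have h1 := tendsto_rpow_mul_exp_neg_mul_atTop_nhds_zero b (1 / (4 * K₀)) (by positivity)
    have h2 := (h1.comp ((tendsto_rpow_atTop hs).comp (tendsto_natCast_atTop_atTop (R := ℝ)))).const_mul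
      (A * (8 * K₀) ^ (D * (m + 1)))
    rw [mul_zero] at h2
    have h3 := h2.eventually (gt_mem_nhds (show (0:ℝ) < 1 / (2 * (m + 1)) by positivity))
    filter_upwards [h3, Filter.eventually_ge_atTop 1] with n h4 hn
    have hn0 : (0:ℝ) < n := by exact_mod_cast hn
    have h5 : A * (8 * K₀) ^ (D * (m + 1)) * (((n:ℝ) ^ s) ^ b *
        Real.exp (-(1 / (4 * K₀)) * (n:ℝ) ^ s)) < 1 / (2 * (m + 1)) := h4
    have h6 : ((n:ℝ) ^ s) ^ b = (n:ℝ) ^ (T₀ * (D * (m + 1))) * (n:ℝ) ^ (1 / 2 - V) := by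
      rw [← Real.rpow_mul hn0.le, hb, mul_div_cancel₀ _ hs.ne', Real.rpow_add hn0]
    have h7 : (n * (1 / (K₀ * (n:ℝ) ^ T₀)) / 4) = 1 / (4 * K₀) * (n:ℝ) ^ s := by
      rw [hsdef, Real.rpow_sub hn0, Real.rpow_one]
      field_simp
    have h8 : ((8 * (K₀ * (n:ℝ) ^ T₀)) ^ D) ^ (m + 1) =
        (8 * K₀) ^ (D * (m + 1)) * (n:ℝ) ^ (T₀ * (D * (m + 1))) := by
      rw [← Real.rpow_natCast, ← Real.rpow_mul (by positivity), ← mul_assoc,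
        Real.mul_rpow (by positivity) (by positivity), ← Real.rpow_mul hn0.le]
      push_cast
      rfl
    rw [h8, h7]
    have h9 : (n:ℝ) ^ (-1 / 2 + V) * (n:ℝ) ^ (1 / 2 - V) = 1 := by
      rw [← Real.rpow_add hn0]
      have : (-1 / 2 + V + (1 / 2 - V)) = 0 := by ring
      rw [this, Real.rpow_zero]
    rw [h6] at h5
    have hp : 0 < (n:ℝ) ^ (-1 / 2 + V) := by positivity
    have h10 := mul_le_mul_of_nonneg_left h5.le hp.le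
    calc A * ((8 * K₀) ^ (D * (m + 1)) * (n:ℝ) ^ (T₀ * (D * (m + 1)))) *
          Real.exp (-(1 / (4 * K₀) * (n:ℝ) ^ s))
        = ((n:ℝ) ^ (-1 / 2 + V) * (n:ℝ) ^ (1 / 2 - V)) * (A * ((8 * K₀) ^ (D * (m + 1)) *
            (n:ℝ) ^ (T₀ * (D * (m + 1)))) * Real.exp (-(1 / (4 * K₀)) * (n:ℝ) ^ s)) := by
          rw [h9, one_mul, neg_mul]
      _ = (n:ℝ) ^ (-1 / 2 + V) * (A * (8 * K₀) ^ (D * (m + 1)) * ((n:ℝ) ^ (T₀ * (D * (m + 1))) *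
            (n:ℝ) ^ (1 / 2 - V) * Real.exp (-(1 / (4 * K₀)) * (n:ℝ) ^ s))) := by ring
      _ ≤ (n:ℝ) ^ (-1 / 2 + V) * (1 / (2 * (m + 1))) := h10
      _ = (2 * (n:ℝ) ^ (-1 / 2 + V)) / (4 * (m + 1)) := by field_simp; ring

end EvParams

end MeanVal
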