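import Mathlib
import Pool.Agent.Helper772.MV.Defs

open MeasureTheory Metric Set
open scoped ENNReal Real

namespace MeanVal

namespace Fatou







theorem areaBound_of_limit (p : ℝ) (F : ℕ → ℂ → ℂ) (f : ℂ → ℂ) (hF : ∀ n, AreaBound p (F n))
    (hlim : TendstoLocallyUniformlyOn F f Filter.atTop (ball (0:ℂ) 1)) : AreaBound p f := by
  have hFd : ∀ᶠ n in Filter.atTop, DifferentiableOn ℂ (F n) (ball (0:ℂ) 1) :=
    Filter.Eventually.of_forall fun n => (hF n).1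
  have hd : DifferentiableOn ℂ f (ball (0:ℂ) 1) := hlim.differentiableOn hFd isOpen_ball
  have hder := hlim.deriv hFd isOpen_ball
  refine ⟨hd, fun R hR => ?_⟩
  have hopen : ∀ g : ℂ → ℂ, DifferentiableOn ℂ g (ball (0:ℂ) 1) →
      MeasurableSet (ball (0:ℂ) 1 ∩ g ⁻¹' ball (0:ℂ) R) := fun g hg =>
    (hg.continuousOn.isOpen_inter_preimage isOpen_ball isOpen_ball).measurableSet
  rw [← lintegral_indicator (hopen f hd)]
  have hle : ∀ z, (ball (0:ℂ) 1 ∩ f ⁻¹' ball (0:ℂ) R).indicator (fun z => ‖deriv f z‖ₑ ^ 2) z ≤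
      Filter.liminf (fun n => (ball (0:ℂ) 1 ∩ F n ⁻¹' ball (0:ℂ) R).indicator
        (fun z => ‖deriv (F n) z‖ₑ ^ 2) z) Filter.atTop := by
    intro z
    by_cases hz : z ∈ ball (0:ℂ) 1 ∩ f ⁻¹' ball (0:ℂ) R
    · rw [indicator_of_mem hz]
      have h1 : Filter.Tendsto (fun n => F n z) Filter.atTop (nhds (f z)) :=
        hlim.tendsto_at hz.1
      have h2 : Filter.Tendsto (fun n => deriv (F n) z) Filter.atTop (nhds (deriv f z)) :=
        hder.tendsto_at hz.1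
      have h3 : ∀ᶠ n in Filter.atTop, F n z ∈ ball (0:ℂ) R :=
        h1.eventually (isOpen_ball.mem_nhds hz.2)
      have h4 : Filter.Tendsto (fun n => ‖deriv (F n) z‖ₑ ^ 2) Filter.atTop
          (nhds (‖deriv f z‖ₑ ^ 2)) := by
        have hc : Continuous fun w : ℂ => ‖w‖ₑ ^ 2 := by
          exact (ENNReal.continuous_pow 2).comp continuous_enorm
        exact (hc.tendsto _).comp h2
      have h5 : Filter.Tendsto (fun n => (ball (0:ℂ) 1 ∩ F n ⁻¹' ball (0:ℂ) R).indicator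
        (fun z => ‖deriv (F n) z‖ₑ ^ 2) z) Filter.atTop (nhds (‖deriv f z‖ₑ ^ 2)) := by
        refine h4.congr' ?_
        filter_upwards [h3] with n hn
        have : z ∈ ball (0:ℂ) 1 ∩ F n ⁻¹' ball (0:ℂ) R := ⟨hz.1, hn⟩
        rw [indicator_of_mem this]
      rw [h5.liminf_eq]
    · rw [indicator_of_notMem hz]
      exact zero_le
  calc ∫⁻ z, (ball (0:ℂ) 1 ∩ f ⁻¹' ball (0:ℂ) R).indicator (fun z => ‖deriv f z‖ₑ ^ 2) z
      ≤ ∫⁻ z, Filter.liminf (fun n => (ball (0:ℂ) 1 ∩ F n ⁻¹' ball (0:ℂ) R).indicator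
        (fun z => ‖deriv (F n) z‖ₑ ^ 2) z) Filter.atTop := lintegral_mono hle
    _ ≤ Filter.liminf (fun n => ∫⁻ z, (ball (0:ℂ) 1 ∩ F n ⁻¹' ball (0:ℂ) R).indicator
        (fun z => ‖deriv (F n) z‖ₑ ^ 2) z) Filter.atTop := by
        apply lintegral_liminf_le
        intro n
        refine Measurable.indicator ?_ (hopen _ (hF n).1)
        exact (measurable_deriv (F n)).enorm.pow_const 2
    _ ≤ Filter.liminf (fun _ : ℕ => ENNReal.ofReal (π * p * R ^ 2)) Filter.atTop := by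
        refine Filter.liminf_le_liminf (Filter.Eventually.of_forall fun n => ?_)
        rw [lintegral_indicator (hopen _ (hF n).1)]
        exact (hF n).2 R hR
    _ = ENNReal.ofReal (π * p * R ^ 2) := Filter.liminf_const _

theorem coeff_cauchy_aux (g : ℂ → ℂ) (ρ ρ' M : ℝ) (hρ : 0 < ρ) (hρ' : ρ < ρ')
    (hg : DifferentiableOn ℂ g (ball 0 ρ')) (h : ∀ z : ℂ, ‖z‖ = ρ → ‖g z‖ ≤ M) (n : ℕ) :
    ‖coeff g n‖ ≤ M / ρ ^ n := by
  have h1 : DiffContOnCl ℂ g (ball 0 ρ) :=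
    hg.diffContOnCl_ball (closedBall_subset_ball hρ')
  have h2 := Complex.norm_iteratedDeriv_le_of_forall_mem_sphere_norm_le n hρ h1
    (C := M) (fun z hz => h z (by simpa using hz))
  unfold coeff
  rw [norm_div, Complex.norm_natCast]
  have hn : (0:ℝ) < (n.factorial : ℝ) := by exact_mod_cast n.factorial_pos
  rw [div_le_iff₀ hn]
  calc _ ≤ _ := h2
    _ = M / ρ ^ n * n.factorial := by ring

theorem coeff_close (f g : ℂ → ℂ) (hf : DifferentiableOn ℂ f (ball 0 1))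
    (hg : DifferentiableOn ℂ g (ball 0 1)) (ε : ℝ)
    (h : ∀ z : ℂ, ‖z‖ ≤ 1 / 2 → ‖f z - g z‖ ≤ ε) (n : ℕ) :
    ‖coeff f n - coeff g n‖ ≤ 2 ^ n * ε := by
  have h0 : (0:ℂ) ∈ ball (0:ℂ) 1 := mem_ball_self one_pos
  have hf' : ContDiffAt ℂ n f 0 :=
    (hf.analyticAt (isOpen_ball.mem_nhds h0)).contDiffAt
  have hg' : ContDiffAt ℂ n g 0 :=
    (hg.analyticAt (isOpen_ball.mem_nhds h0)).contDiffAt
  have h1 : coeff f n - coeff g n = coeff (f - g) n := by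
    unfold coeff
    rw [iteratedDeriv_sub hf' hg', sub_div]
  rw [h1]
  have h2 := coeff_cauchy_aux (f - g) (1 / 2) 1 ε (by norm_num) (by norm_num) (hf.sub hg)
    (fun z hz => h z hz.le) n
  refine h2.trans (le_of_eq ?_)
  rw [one_div, inv_pow, div_inv_eq_mul, mul_comm]

theorem coeff_cauchy (g : ℂ → ℂ) (ρ ρ' M : ℝ) (hρ : 0 < ρ) (hρ' : ρ < ρ')
    (hg : DifferentiableOn ℂ g (ball 0 ρ')) (h : ∀ z : ℂ, ‖z‖ = ρ → ‖g z‖ ≤ M) (n : ℕ) :
    ‖coeff g n‖ ≤ M / ρ ^ n :=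
  coeff_cauchy_aux g ρ ρ' M hρ hρ' hg h n

end Fatou

end MeanVal
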