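import Mathlib
import Pool.Agent.Helper772.MV.Defs
import Pool.Agent.Helper772.MV.Fatou

open MeasureTheory Metric Set
open scoped ENNReal Real

namespace MeanVal

namespace Glue







theorem areaBound_of_limit (p : ℝ) (F : ℕ → ℂ → ℂ) (f : ℂ → ℂ) (hF : ∀ n, AreaBound p (F n))
    (hlim : TendstoLocallyUniformlyOn F f Filter.atTop (ball (0:ℂ) 1)) : AreaBound p f :=
  Fatou.areaBound_of_limit p F f hF hlim

theorem coeff_close (f g : ℂ → ℂ) (hf : DifferentiableOn ℂ f (ball 0 1))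
    (hg : DifferentiableOn ℂ g (ball 0 1)) (ε : ℝ)
    (h : ∀ z : ℂ, ‖z‖ ≤ 1 / 2 → ‖f z - g z‖ ≤ ε) (n : ℕ) :
    ‖coeff f n - coeff g n‖ ≤ 2 ^ n * ε :=
  Fatou.coeff_close f g hf hg ε h n

noncomputable def pp10389 (p q : ℝ) (i : ℕ) : ℝ := q + (p - q) * (1 - 1 / ((i : ℝ) + 2))

theorem pp_props_10389 {p q : ℝ} (hqp : q < p) (i : ℕ) :
    q < pp10389 p q i ∧ pp10389 p q i < pp10389 p q (i + 1) ∧ pp10389 p q i < p := by
  have h1 : (0 : ℝ) < (i : ℝ) + 2 := by positivity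
  have h2 : 0 < p - q := by linarith
  have h3 : 1 / ((i : ℝ) + 2) < 1 := by
    rw [div_lt_one h1]
    have : (0 : ℝ) ≤ i := Nat.cast_nonneg i
    linarith
  have h4 : 0 < 1 / ((i : ℝ) + 2) := by positivity
  refine ⟨?_, ?_, ?_⟩
  · unfold pp10389
    have := mul_pos h2 (by linarith : 0 < 1 - 1 / ((i : ℝ) + 2))
    linarith
  · unfold pp10389
    have h5 : 1 / (((i + 1 : ℕ) : ℝ) + 2) < 1 / ((i : ℝ) + 2) := by
      apply one_div_lt_one_div_of_lt h1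
      push_cast
      linarith
    have := mul_lt_mul_of_pos_left h5 h2
    linarith
  · unfold pp10389
    have := mul_pos h2 h4
    linarith

noncomputable def dl10389 (m : ℕ) (a : ℝ) (n : ℕ) : ℝ :=
  (n : ℝ) ^ a / (2 * ((m : ℝ) + 1)) * (1 / 2) ^ (n + 2 * m)

theorem dl_pos_10389 (m : ℕ) (a : ℝ) (n : ℕ) (hn : 1 ≤ n) : 0 < dl10389 m a n := by
  have h1 : (0 : ℝ) < n := by exact_mod_cast hn
  have h2 := Real.rpow_pos_of_pos h1 a
  unfold dl10389
  positivity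

/-- transfer of the Hankel bound -/
theorem hankel_transfer_10389 (m n : ℕ) (a : ℝ) (f g : ℂ → ℂ) (δ : ℝ) (hδ0 : 0 ≤ δ)
    (hδ : δ ≤ dl10389 m a n)
    (hclose : ∀ N, ‖coeff g N - coeff f N‖ ≤ 2 ^ N * δ)
    (hg : HankelLB m n g ((n : ℝ) ^ a)) : HankelLB m n f ((n : ℝ) ^ a / 2) := by
  have hna : 0 ≤ (n : ℝ) ^ a := Real.rpow_nonneg (Nat.cast_nonneg n) a
  intro c B hB
  obtain ⟨i1, hi1, hmax⟩ := Finset.exists_max_image (Finset.range (m + 1)) (fun i => ‖c i‖)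
    ⟨0, by simp⟩
  have hB1 : B ≤ ‖c i1‖ := by
    obtain ⟨i, hi, hBi⟩ := hB
    exact hBi.trans (hmax i (Finset.mem_range.2 (by omega)))
  have hi1m : i1 ≤ m := by
    have := Finset.mem_range.1 hi1
    omega
  obtain ⟨j, hj, hlow⟩ := hg c ‖c i1‖ ⟨i1, hi1m, le_rfl⟩
  refine ⟨j, hj, ?_⟩
  have hdiff : ‖∑ i ∈ Finset.range (m + 1), c i * coeff g (n + j + i) -
      ∑ i ∈ Finset.range (m + 1), c i * coeff f (n + j + i)‖ ≤
      ((m : ℝ) + 1) * (‖c i1‖ * (2 ^ (n + 2 * m) * δ)) := by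
    rw [← Finset.sum_sub_distrib]
    refine (norm_sum_le _ _).trans ?_
    have h1 : ∀ i ∈ Finset.range (m + 1),
        ‖c i * coeff g (n + j + i) - c i * coeff f (n + j + i)‖ ≤
        ‖c i1‖ * (2 ^ (n + 2 * m) * δ) := by
      intro i hi
      rw [← mul_sub, norm_mul]
      have hi' := Finset.mem_range.1 hi
      refine mul_le_mul (hmax i hi) ((hclose _).trans ?_) (norm_nonneg _) (norm_nonneg _)
      refine mul_le_mul_of_nonneg_right ?_ hδ0
      exact pow_le_pow_right₀ (by norm_num) (by omega)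
    refine (Finset.sum_le_sum h1).trans (le_of_eq ?_)
    rw [Finset.sum_const, Finset.card_range, nsmul_eq_mul]
    push_cast
    ring
  have hδ' : ((m : ℝ) + 1) * (2 ^ (n + 2 * m) * δ) ≤ (n : ℝ) ^ a / 2 := by
    have h1 : ((m : ℝ) + 1) * (2 ^ (n + 2 * m) * δ) ≤
        ((m : ℝ) + 1) * (2 ^ (n + 2 * m) * dl10389 m a n) := by
      have : (0 : ℝ) ≤ (m : ℝ) + 1 := by positivity
      gcongr
    refine h1.trans (le_of_eq ?_)
    unfold dl10389
    have h2 : (2 : ℝ) ^ (n + 2 * m) * (1 / 2) ^ (n + 2 * m) = 1 := by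
      rw [← mul_pow]
      norm_num
    have h3 : ((m : ℝ) + 1) ≠ 0 := by positivity
    calc ((m : ℝ) + 1) * (2 ^ (n + 2 * m) * ((n : ℝ) ^ a / (2 * ((m : ℝ) + 1)) *
        (1 / 2) ^ (n + 2 * m)))
        = ((m : ℝ) + 1) * ((n : ℝ) ^ a / (2 * ((m : ℝ) + 1))) *
          ((2 : ℝ) ^ (n + 2 * m) * (1 / 2) ^ (n + 2 * m)) := by ring
      _ = (n : ℝ) ^ a / 2 := by
          rw [h2]
          field_simp
  have h4 : ((m : ℝ) + 1) * (‖c i1‖ * (2 ^ (n + 2 * m) * δ)) ≤ ‖c i1‖ * ((n : ℝ) ^ a / 2) := by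
    have := mul_le_mul_of_nonneg_left hδ' (norm_nonneg (c i1))
    calc ((m : ℝ) + 1) * (‖c i1‖ * (2 ^ (n + 2 * m) * δ))
        = ‖c i1‖ * (((m : ℝ) + 1) * (2 ^ (n + 2 * m) * δ)) := by ring
      _ ≤ _ := this
  have h5 : ‖∑ i ∈ Finset.range (m + 1), c i * coeff g (n + j + i)‖ ≤
      ‖∑ i ∈ Finset.range (m + 1), c i * coeff f (n + j + i)‖ +
      ‖∑ i ∈ Finset.range (m + 1), c i * coeff g (n + j + i) -
      ∑ i ∈ Finset.range (m + 1), c i * coeff f (n + j + i)‖ := by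
    have := norm_add_le (∑ i ∈ Finset.range (m + 1), c i * coeff f (n + j + i))
      (∑ i ∈ Finset.range (m + 1), c i * coeff g (n + j + i) -
      ∑ i ∈ Finset.range (m + 1), c i * coeff f (n + j + i))
    rwa [add_sub_cancel] at this
  have h6 : (n : ℝ) ^ a / 2 * B ≤ (n : ℝ) ^ a / 2 * ‖c i1‖ :=
    mul_le_mul_of_nonneg_left hB1 (by positivity)
  nlinarith [h5, h6, hlow, hdiff, h4]

/-- the states of the recursion -/
def St10389 (p q : ℝ) (i : ℕ) : Type :=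
  {s : (ℂ → ℂ) × ℕ × ℝ // Nice (pp10389 p q i) s.1 ∧ 0 < s.2.2 ∧ s.2.2 ≤ 1}

theorem areaBound_mono_10389 {p p' : ℝ} (h : p ≤ p') {f : ℂ → ℂ} (hf : AreaBound p f) :
    AreaBound p' f := by
  refine ⟨hf.1, fun R hR => (hf.2 R hR).trans (ENNReal.ofReal_le_ofReal ?_)⟩
  have := Real.pi_pos
  gcongr

theorem nice_one_10389 (p : ℝ) (hp : 0 < p) : Nice p (fun _ => 1) := by
  refine ⟨⟨2, by norm_num, differentiableOn_const _⟩, fun z _ => one_ne_zero,
    differentiableOn_const _, fun R hR => ?_⟩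
  simp

/-- gluing: an inductive step produces one function which is good at infinitely many scales -/
theorem glue (m : ℕ) (p q a : ℝ) (hq : 0 < q) (hqp : q < p)
    (step : ∀ (f : ℂ → ℂ) (p₁ p₂ : ℝ), q < p₁ → p₁ < p₂ → p₂ < p → Nice p₁ f →
      ∀ (r ε : ℝ) (n₀ : ℕ), 0 < r → r < 1 → 0 < ε →
        ∃ (g : ℂ → ℂ) (n : ℕ), Nice p₂ g ∧ n₀ ≤ n ∧ (∀ z : ℂ, ‖z‖ ≤ r → ‖g z - f z‖ ≤ ε) ∧
          HankelLB m n g ((n : ℝ) ^ a)) :
    ∃ f : ℂ → ℂ, AreaBound p f ∧ ∀ n₀ : ℕ, ∃ n : ℕ, n₀ ≤ n ∧ HankelLB m n f ((n : ℝ) ^ a / 2) := by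
  have hnext : ∀ (i : ℕ) (s : St10389 p q i), ∃ s' : St10389 p q (i + 1),
      (∀ z : ℂ, ‖z‖ ≤ 1 - 1 / ((i : ℝ) + 2) →
        ‖s'.1.1 z - s.1.1 z‖ ≤ (1 / 2) ^ (i + 1) * s.1.2.2) ∧
      i + 1 ≤ s'.1.2.1 ∧ HankelLB m s'.1.2.1 s'.1.1 ((s'.1.2.1 : ℝ) ^ a) ∧
      s'.1.2.2 ≤ s.1.2.2 ∧ s'.1.2.2 ≤ dl10389 m a s'.1.2.1 := by
    intro i s
    obtain ⟨h1, h2, h3⟩ := pp_props_10389 hqp i
    obtain ⟨_, _, h4⟩ := pp_props_10389 hqp (i + 1)
    have h5 : (0 : ℝ) < (i : ℝ) + 2 := by positivity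
    have hi0 : (0 : ℝ) ≤ i := Nat.cast_nonneg i
    have h6 : 1 / ((i : ℝ) + 2) < 1 := by
      rw [div_lt_one h5]
      linarith
    have h7 : 0 < 1 / ((i : ℝ) + 2) := by positivity
    obtain ⟨g, n, hg, hn, hclose, hH⟩ := step s.1.1 (pp10389 p q i) (pp10389 p q (i + 1)) h1 h2 h4
      s.2.1 (1 - 1 / ((i : ℝ) + 2)) ((1 / 2) ^ (i + 1) * s.1.2.2) (i + 1) (by linarith)
      (by linarith) (mul_pos (by positivity) s.2.2.1)
    refine ⟨⟨(g, n, min s.1.2.2 (dl10389 m a n)), hg, ?_, ?_⟩, hclose, hn, hH, ?_, ?_⟩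
    · exact lt_min s.2.2.1 (dl_pos_10389 m a n (by omega))
    · exact (min_le_left _ _).trans s.2.2.2
    · exact min_le_left _ _
    · exact min_le_right _ _
  choose nxt hnxt using hnext
  let s0 : St10389 p q 0 := ⟨(fun _ => 1, 0, 1), nice_one_10389 _
    (hq.trans (pp_props_10389 hqp 0).1), one_pos, le_rfl⟩
  let S : (i : ℕ) → St10389 p q i := fun i => Nat.rec s0 (fun i s => nxt i s) i
  have hS : ∀ i, S (i + 1) = nxt i (S i) := fun i => rfl
  set F : ℕ → ℂ → ℂ := fun i => (S i).1.1 with hF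
  set N : ℕ → ℕ := fun i => (S i).1.2.1 with hN
  set t : ℕ → ℝ := fun i => (S i).1.2.2 with ht
  have ht0 : ∀ i, 0 < t i := fun i => (S i).2.2.1
  have ht1 : ∀ i, t i ≤ 1 := fun i => (S i).2.2.2
  have hA : ∀ i, AreaBound p (F i) := fun i =>
    areaBound_mono_10389 (pp_props_10389 hqp i).2.2.le (S i).2.1.2.2
  have hc : ∀ (i : ℕ) (z : ℂ), ‖z‖ ≤ 1 - 1 / ((i : ℝ) + 2) →
      ‖F (i + 1) z - F i z‖ ≤ (1 / 2) ^ (i + 1) * t i := by
    intro i z hz
    have := (hnxt i (S i)).1 z hz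
    rw [← hS i] at this
    exact this
  have hN1 : ∀ i, i + 1 ≤ N (i + 1) := by
    intro i
    have := (hnxt i (S i)).2.1
    rw [← hS i] at this
    exact this
  have hH : ∀ i, HankelLB m (N (i + 1)) (F (i + 1)) ((N (i + 1) : ℝ) ^ a) := by
    intro i
    have := (hnxt i (S i)).2.2.1
    rw [← hS i] at this
    exact this
  have hta : ∀ i, t (i + 1) ≤ t i := by
    intro i
    have := (hnxt i (S i)).2.2.2.1
    rw [← hS i] at this
    exact this
  have htd : ∀ i, t (i + 1) ≤ dl10389 m a (N (i + 1)) := by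
    intro i
    have := (hnxt i (S i)).2.2.2.2
    rw [← hS i] at this
    exact this
  have htanti : Antitone t := antitone_nat_of_succ_le hta
  have hr_mono : ∀ k i : ℕ, 1 - 1 / ((k : ℝ) + 2) ≤ 1 - 1 / (((k + i : ℕ) : ℝ) + 2) := by
    intro k i
    have h1 : (0 : ℝ) < (k : ℝ) + 2 := by positivity
    have h2 : 1 / (((k + i : ℕ) : ℝ) + 2) ≤ 1 / ((k : ℝ) + 2) := by
      apply one_div_le_one_div_of_le h1
      push_cast
      have : (0 : ℝ) ≤ i := Nat.cast_nonneg i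
      linarith
    linarith
  -- geometric estimates
  have hgeo : ∀ (k : ℕ) (z : ℂ), ‖z‖ ≤ 1 - 1 / ((k : ℝ) + 2) → ∀ i : ℕ,
      dist (F (k + i) z) (F (k + (i + 1)) z) ≤ t k / 2 ^ k / 2 / 2 ^ i := by
    intro k z hz i
    have h1 := hc (k + i) z (hz.trans (hr_mono k i))
    rw [dist_comm, dist_eq_norm]
    refine h1.trans ?_
    have h2 : t (k + i) ≤ t k := htanti (Nat.le_add_right k i)
    have h3 : t k / 2 ^ k / 2 / 2 ^ i = (1 / 2) ^ (k + i + 1) * t k := by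
      rw [div_pow, one_pow, pow_succ, pow_add]
      field_simp
    rw [h3]
    gcongr
  have hcau : ∀ z : ℂ, ‖z‖ < 1 → ∃ w, Filter.Tendsto (fun i => F i z) Filter.atTop (nhds w) := by
    intro z hz
    obtain ⟨k, hk⟩ := exists_nat_gt (1 / (1 - ‖z‖))
    have hz1 : 0 < 1 - ‖z‖ := by linarith
    have hk0 : (0 : ℝ) ≤ k := Nat.cast_nonneg k
    have hzk : ‖z‖ ≤ 1 - 1 / ((k : ℝ) + 2) := by
      have h1 : 1 / ((k : ℝ) + 2) ≤ 1 - ‖z‖ := by
        rw [div_le_iff₀ (by positivity)]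
        rw [div_lt_iff₀ hz1] at hk
        nlinarith
      linarith
    have h2 : CauchySeq (fun i => F (k + i) z) :=
      cauchySeq_of_le_geometric_two (hgeo k z hzk)
    obtain ⟨w, hw⟩ := cauchySeq_tendsto_of_complete h2
    refine ⟨w, ?_⟩
    have h3 : Filter.Tendsto (fun i => F (i + k) z) Filter.atTop (nhds w) := by
      simpa [add_comm] using hw
    exact (Filter.tendsto_add_atTop_iff_nat k).1 h3
  choose! f hf using hcau
  have hlt : ∀ k : ℕ, (1 : ℝ) - 1 / ((k : ℝ) + 2) < 1 := by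
    intro k
    have : (0 : ℝ) < 1 / ((k : ℝ) + 2) := by positivity
    linarith
  have hkey : ∀ (k : ℕ) (z : ℂ), ‖z‖ ≤ 1 - 1 / ((k : ℝ) + 2) → ‖F k z - f z‖ ≤ t k / 2 ^ k := by
    intro k z hz
    have h1 := hf z (hz.trans_lt (hlt k))
    have h2 : Filter.Tendsto (fun i => F (k + i) z) Filter.atTop (nhds (f z)) := by
      have := (Filter.tendsto_add_atTop_iff_nat k).2 h1
      simpa [add_comm] using this
    have h3 := dist_le_of_le_geometric_two_of_tendsto₀ (hgeo k z hz) h2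
    rw [dist_eq_norm] at h3
    simpa using h3
  have hlim : TendstoLocallyUniformlyOn F f Filter.atTop (ball (0:ℂ) 1) := by
    rw [Metric.tendstoLocallyUniformlyOn_iff]
    intro ε hε x hx
    rw [mem_ball_zero_iff] at hx
    refine ⟨ball 0 ((1 + ‖x‖) / 2), ?_, ?_⟩
    · apply mem_nhdsWithin_of_mem_nhds
      apply isOpen_ball.mem_nhds
      rw [mem_ball_zero_iff]
      linarith
    · have e1 : ∀ᶠ k : ℕ in Filter.atTop, (1 + ‖x‖) / 2 ≤ 1 - 1 / ((k : ℝ) + 2) := by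
        have h1 : Filter.Tendsto (fun k : ℕ => (1 : ℝ) - 1 / ((k : ℝ) + 2)) Filter.atTop
            (nhds (1 - 0)) := by
          apply Filter.Tendsto.sub tendsto_const_nhds
          have h2 := tendsto_one_div_add_atTop_nhds_zero_nat (𝕜 := ℝ)
          have h3 := (Filter.tendsto_add_atTop_iff_nat 1).2 h2
          refine h3.congr (fun k => ?_)
          push_cast
          ring
        rw [sub_zero] at h1
        exact (h1.eventually (lt_mem_nhds (by linarith : (1 + ‖x‖) / 2 < 1))).mono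
          (fun k hk => le_of_lt hk)
      have e2 : ∀ᶠ k : ℕ in Filter.atTop, ((1 : ℝ) / 2) ^ k < ε :=
        (tendsto_pow_atTop_nhds_zero_of_lt_one (by norm_num) (by norm_num)).eventually
          (gt_mem_nhds hε)
      filter_upwards [e1, e2] with k hk1 hk2 y hy
      rw [mem_ball_zero_iff] at hy
      rw [dist_comm, dist_eq_norm]
      refine (hkey k y (hy.le.trans hk1)).trans_lt ?_
      refine lt_of_le_of_lt ?_ hk2
      rw [div_pow, one_pow]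
      have := ht1 k
      gcongr
  have hfA : AreaBound p f := areaBound_of_limit p F f hA hlim
  refine ⟨f, hfA, fun n₀ => ⟨N (n₀ + 1), ?_, ?_⟩⟩
  · have := hN1 n₀
    omega
  · refine hankel_transfer_10389 m (N (n₀ + 1)) a f (F (n₀ + 1)) (t (n₀ + 1)) (ht0 (n₀ + 1)).le
      (htd n₀) ?_ (hH n₀)
    refine coeff_close (F (n₀ + 1)) f (hA (n₀ + 1)).1 hfA.1 (t (n₀ + 1)) ?_
    intro z hz
    have h1 : (1 : ℝ) / 2 ≤ 1 - 1 / (((n₀ + 1 : ℕ) : ℝ) + 2) := by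
      have h2 : 1 / (((n₀ + 1 : ℕ) : ℝ) + 2) ≤ 1 / 2 := by
        apply one_div_le_one_div_of_le (by norm_num)
        have : (0 : ℝ) ≤ ((n₀ + 1 : ℕ) : ℝ) := Nat.cast_nonneg _
        linarith
      linarith
    refine (hkey (n₀ + 1) z (hz.trans h1)).trans ?_
    apply div_le_self (ht0 (n₀ + 1)).le
    exact one_le_pow₀ (by norm_num)

end Glue

end MeanVal
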