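import Mathlib
import Pool.Agent.Helper772.MV.Defs

open MeasureTheory Metric Set
open scoped ENNReal Real

namespace MeanVal

namespace OscTotal



theorem osc_total_DL_diff (L : ℕ) : Differentiable ℂ (DL L) := by
  unfold DL
  fun_prop

theorem osc_total_kern_diff (L : ℕ) : Differentiable ℂ (kern L) := by
  have h1 := osc_total_DL_diff L
  have h2 := osc_total_DL_diff (3 * L)
  unfold kern
  exact ((h1.pow 2).mul h2).div_const _

theorem osc_total_summand_diff (X : ℝ) (L M : ℕ) (ζ : ℂ) : Differentiable ℂ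
    (fun z : ℂ => (X : ℂ) * L * z ^ M * kern L ((starRingEnd ℂ) ζ * z)) := by
  have h1 := osc_total_kern_diff L
  have h2 : Differentiable ℂ (fun z : ℂ => (starRingEnd ℂ) ζ * z) := by fun_prop
  have h3 : Differentiable ℂ (fun z : ℂ => kern L ((starRingEnd ℂ) ζ * z)) := h1.comp h2
  fun_prop

theorem osc_total (m : ℕ) (C ω : ℝ) (hC : 0 < C) (hω : 0 < ω)
    (hosc : ∀ (car : ℂ → ℂ) (L M : ℕ) (ζ : ℂ) (X T E : ℝ),
      1 ≤ L → L ≤ M → ‖ζ‖ = 1 → 0 < X → 0 < T → T ≤ 1 → 0 < E →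
      (∀ z ∈ ball (0:ℂ) 1,
        E * (1 + (L : ℝ) * ‖1 - (starRingEnd ℂ) ζ * z‖) ^ (-(2 * T)) ≤ ‖car z‖) →
      (∀ z ∈ ball (0:ℂ) 1, ‖(X : ℂ) * L * z ^ M * kern L ((starRingEnd ℂ) ζ * z)‖ ≤
        C * (X * L / E) * ‖car z‖) ∧
      (∀ R : ℝ, 0 < R → ∫⁻ z in {z : ℂ | z ∈ ball (0:ℂ) 1 ∧ ‖car z‖ < R},
        ENNReal.ofReal (‖deriv (fun z => (X : ℂ) * L * z ^ M * kern L ((starRingEnd ℂ) ζ * z)) z‖ ^ 2)
        ≤ ENNReal.ofReal (C * (X ^ 2 * L * M / E ^ 2) * R ^ 2)))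
    (car : ℂ → ℂ) (L M : ℕ → ℕ) (ζ : ℕ → ℂ) (X : ℝ) (E : ℕ → ℝ) (hX : 0 < X)
    (hL : ∀ l ≤ m, 1 ≤ L l) (hM : ∀ l ≤ m, L l ≤ M l) (hζ : ∀ l ≤ m, ‖ζ l‖ = 1)
    (hE : ∀ l ≤ m, 0 < E l)
    (hlow : ∀ l ≤ m, ∀ z ∈ ball (0:ℂ) 1,
      E l * (1 + (L l : ℝ) * ‖1 - (starRingEnd ℂ) (ζ l) * z‖) ^ (-(2 * (1:ℝ))) ≤ ‖car z‖)
    (h1 : ∀ l ≤ m, C * (X * L l / E l) ≤ ω / (m + 1))
    (h2 : ∀ l ≤ m, C * (X ^ 2 * L l * M l / E l ^ 2) ≤ ω / (m + 1) ^ 2) :
    Differentiable ℂ (fun z : ℂ => ∑ l ∈ Finset.range (m + 1),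
      (X : ℂ) * L l * z ^ M l * kern (L l) ((starRingEnd ℂ) (ζ l) * z)) ∧
    (∀ z ∈ ball (0:ℂ) 1, ‖∑ l ∈ Finset.range (m + 1),
      (X : ℂ) * L l * z ^ M l * kern (L l) ((starRingEnd ℂ) (ζ l) * z)‖ ≤ ω * ‖car z‖) ∧
    (∀ R : ℝ, 0 < R → ∫⁻ z in {z : ℂ | z ∈ ball (0:ℂ) 1 ∧ ‖car z‖ < R},
      ENNReal.ofReal (‖deriv (fun z : ℂ => ∑ l ∈ Finset.range (m + 1),
        (X : ℂ) * L l * z ^ M l * kern (L l) ((starRingEnd ℂ) (ζ l) * z)) z‖ ^ 2)
        ≤ ENNReal.ofReal (ω * R ^ 2)) := by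
  have hd : ∀ l : ℕ, Differentiable ℂ
      (fun z : ℂ => (X : ℂ) * L l * z ^ M l * kern (L l) ((starRingEnd ℂ) (ζ l) * z)) :=
    fun l => osc_total_summand_diff X (L l) (M l) (ζ l)
  have hm : (0 : ℝ) < m + 1 := by positivity
  have hlr : ∀ l ∈ Finset.range (m + 1), l ≤ m := fun l hl => by
    rw [Finset.mem_range] at hl; omega
  have key : ∀ l ≤ m, _ := fun l hl => hosc car (L l) (M l) (ζ l) X 1 (E l) (hL l hl) (hM l hl)
    (hζ l hl) hX one_pos le_rfl (hE l hl) (hlow l hl)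
  refine ⟨?_, ?_, ?_⟩
  · exact Differentiable.fun_sum (fun l _ => hd l)
  · intro z hz
    calc ‖∑ l ∈ Finset.range (m + 1),
      (X : ℂ) * L l * z ^ M l * kern (L l) ((starRingEnd ℂ) (ζ l) * z)‖
        ≤ ∑ l ∈ Finset.range (m + 1),
          ‖(X : ℂ) * L l * z ^ M l * kern (L l) ((starRingEnd ℂ) (ζ l) * z)‖ := norm_sum_le _ _
      _ ≤ ∑ l ∈ Finset.range (m + 1), ω / (m + 1) * ‖car z‖ := by
          refine Finset.sum_le_sum (fun l hl => ?_)
          refine ((key l (hlr l hl)).1 z hz).trans ?_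
          exact mul_le_mul_of_nonneg_right (h1 l (hlr l hl)) (norm_nonneg _)
      _ = ω * ‖car z‖ := by
          rw [Finset.sum_const, Finset.card_range, nsmul_eq_mul]
          push_cast
          field_simp
  · intro R hR
    have hder : ∀ z, deriv (fun z : ℂ => ∑ l ∈ Finset.range (m + 1),
        (X : ℂ) * L l * z ^ M l * kern (L l) ((starRingEnd ℂ) (ζ l) * z)) z =
        ∑ l ∈ Finset.range (m + 1), deriv (fun z : ℂ =>
          (X : ℂ) * L l * z ^ M l * kern (L l) ((starRingEnd ℂ) (ζ l) * z)) z := by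
      intro z
      exact deriv_fun_sum (fun l _ => (hd l) z)
    have hmeas : ∀ l, Measurable (fun z => ENNReal.ofReal (‖deriv (fun z : ℂ =>
          (X : ℂ) * L l * z ^ M l * kern (L l) ((starRingEnd ℂ) (ζ l) * z)) z‖ ^ 2)) := by
      intro l
      exact ((measurable_deriv _).norm.pow_const 2).ennreal_ofReal
    calc _ ≤ ∫⁻ z in {z : ℂ | z ∈ ball (0:ℂ) 1 ∧ ‖car z‖ < R},
          ENNReal.ofReal (m + 1) * ∑ l ∈ Finset.range (m + 1), ENNReal.ofReal (‖deriv (fun z : ℂ =>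
          (X : ℂ) * L l * z ^ M l * kern (L l) ((starRingEnd ℂ) (ζ l) * z)) z‖ ^ 2) := by
          refine lintegral_mono (fun z => ?_)
          rw [hder z, ← ENNReal.ofReal_sum_of_nonneg (fun _ _ => by positivity),
            ← ENNReal.ofReal_mul hm.le]
          apply ENNReal.ofReal_le_ofReal
          calc _ ≤ (∑ l ∈ Finset.range (m + 1), ‖deriv (fun z : ℂ =>
          (X : ℂ) * L l * z ^ M l * kern (L l) ((starRingEnd ℂ) (ζ l) * z)) z‖) ^ 2 := by
                  gcongr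
                  exact norm_sum_le _ _
            _ ≤ _ := by
                  have := sq_sum_le_card_mul_sum_sq (s := Finset.range (m + 1))
                    (f := fun l => ‖deriv (fun z : ℂ =>
          (X : ℂ) * L l * z ^ M l * kern (L l) ((starRingEnd ℂ) (ζ l) * z)) z‖)
                  rw [Finset.card_range] at this
                  exact_mod_cast this
      _ = ENNReal.ofReal (m + 1) * ∑ l ∈ Finset.range (m + 1),
          ∫⁻ z in {z : ℂ | z ∈ ball (0:ℂ) 1 ∧ ‖car z‖ < R}, ENNReal.ofReal (‖deriv (fun z : ℂ =>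
          (X : ℂ) * L l * z ^ M l * kern (L l) ((starRingEnd ℂ) (ζ l) * z)) z‖ ^ 2) := by
          rw [lintegral_const_mul _ (Finset.measurable_sum _ (fun l _ => hmeas l)),
            lintegral_finsetSum _ (fun l _ => hmeas l)]
      _ ≤ ENNReal.ofReal (m + 1) * ∑ l ∈ Finset.range (m + 1),
          ENNReal.ofReal (ω / (m + 1) ^ 2 * R ^ 2) := by
          gcongr with l hl
          refine ((key l (hlr l hl)).2 R hR).trans ?_
          apply ENNReal.ofReal_le_ofReal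
          exact mul_le_mul_of_nonneg_right (h2 l (hlr l hl)) (by positivity)
      _ = ENNReal.ofReal (ω * R ^ 2) := by
          rw [Finset.sum_const, Finset.card_range, nsmul_eq_mul,
            ← ENNReal.ofReal_natCast (m + 1), ← ENNReal.ofReal_mul (by positivity),
            ← ENNReal.ofReal_mul (by positivity)]
          congr 1
          push_cast
          field_simp

end OscTotal

end MeanVal
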