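import Mathlib
import Pool.Agent.Helper772.MV.Defs
import Pool.Agent.Helper772.MV.Step1
import Pool.Agent.Helper772.MV.NumTotal
import Pool.Agent.Helper772.MV.CarCoeff
import Pool.Agent.Helper772.MV.OscTotal
import Pool.Agent.Helper772.MV.AreaFin
import Pool.Agent.Helper772.MV.EvParams

open MeasureTheory Metric Set
open scoped ENNReal Real

namespace MeanVal

theorem coeff_add_of {a b : ℂ → ℂ} {ρ : ℝ} (hρ : 0 < ρ) (ha : DifferentiableOn ℂ a (ball 0 ρ))
    (hb : DifferentiableOn ℂ b (ball 0 ρ)) (n : ℕ) :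
    coeff (fun z => a z + b z) n = coeff a n + coeff b n := by
  have h0 : (0:ℂ) ∈ ball (0:ℂ) ρ := mem_ball_self hρ
  have ha' : ContDiffAt ℂ n a 0 :=
    ((ha.analyticOnNhd isOpen_ball) 0 h0).contDiffAt
  have hb' : ContDiffAt ℂ n b 0 :=
    ((hb.analyticOnNhd isOpen_ball) 0 h0).contDiffAt
  unfold coeff
  have h1 : iteratedDeriv n (fun z => a z + b z) 0 = iteratedDeriv n a 0 + iteratedDeriv n b 0 := by
    have := iteratedDeriv_add ha' hb'
    exact this
  rw [h1, add_div]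

theorem coeff_sum_of {ι : Type*} (s : Finset ι) {a : ι → ℂ → ℂ}
    (ha : ∀ i ∈ s, Differentiable ℂ (a i)) (n : ℕ) :
    coeff (fun z => ∑ i ∈ s, a i z) n = ∑ i ∈ s, coeff (a i) n := by
  classical
  induction s using Finset.induction_on with
  | empty =>
    simp only [Finset.sum_empty]
    unfold coeff
    simp
  | insert i s hi ih =>
    simp only [Finset.sum_insert hi]
    rw [coeff_add_of (ρ := 1) one_pos (ha i (Finset.mem_insert_self _ _)).differentiableOn
      (Differentiable.differentiableOn (Differentiable.fun_sum fun j hj =>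
        ha j (Finset.mem_insert_of_mem hj))),
      ih fun j hj => ha j (Finset.mem_insert_of_mem hj)]

theorem kern_diff (L : ℕ) : Differentiable ℂ (kern L) := by
  have h : ∀ N : ℕ, Differentiable ℂ (DL N) := by
    intro N
    unfold DL
    exact Differentiable.fun_sum fun j _ => differentiable_id.pow j
  unfold kern
  exact (((h L).pow 2).mul (h (3 * L))).div_const _

theorem finite_eps {m : ℕ} {P : ℕ → ℝ → Prop}
    (h : ∀ l ≤ m, ∀ᶠ x in nhdsWithin (0:ℝ) (Ioi 0), P l x) :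
    ∀ᶠ x in nhdsWithin (0:ℝ) (Ioi 0), ∀ l ≤ m, P l x := by
  have h1 : ∀ᶠ x in nhdsWithin (0:ℝ) (Ioi 0), ∀ l ∈ Finset.range (m + 1), P l x := by
    rw [Filter.eventually_all_finset]
    intro l hl
    exact h l (by have := Finset.mem_range.1 hl; omega)
  filter_upwards [h1] with x hx l hl
  exact hx l (Finset.mem_range.2 (by omega))

/-- a small positive number with given eventual property -/
theorem exists_small {P : ℝ → Prop} (h : ∀ᶠ x in nhdsWithin (0:ℝ) (Ioi 0), P x) :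
    ∃ x : ℝ, 0 < x ∧ P x := by
  obtain ⟨x, hx1, hx2⟩ := (h.and self_mem_nhdsWithin).exists
  exact ⟨x, hx2, hx1⟩

theorem ev_lt {g : ℝ → ℝ} (hg : ContinuousAt g 0) {b : ℝ} (h : g 0 < b) :
    ∀ᶠ x in nhdsWithin (0:ℝ) (Ioi 0), g x < b :=
  (hg.eventually (gt_mem_nhds h)).filter_mono nhdsWithin_le_nhds

theorem sum_modify (J : ℕ) (hJ : 1 ≤ J) (h : ℕ → ℝ) (e : ℝ) :
    ∑ i ∈ Finset.range J, (if i + 1 = J then h i - e else h i) = ∑ i ∈ Finset.range J, h i - e := by
  obtain ⟨J', rfl⟩ : ∃ J', J = J' + 1 := ⟨J - 1, by omega⟩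
  rw [Finset.sum_range_succ, Finset.sum_range_succ]
  have h1 : ∑ i ∈ Finset.range J', (if i + 1 = J' + 1 then h i - e else h i) =
      ∑ i ∈ Finset.range J', h i := by
    apply Finset.sum_congr rfl
    intro i hi
    have := Finset.mem_range.1 hi
    rw [if_neg (by omega)]
  rw [h1, if_pos rfl]
  ring

set_option maxHeartbeats 8000000 in
theorem step_of_schedule (m : ℕ) (J : ℕ → ℕ) (h : ℕ → ℝ) (θ : ℕ → ℕ → ℝ) (q V : ℝ) (hq : 0 ≤ q)
    (hJ : ∀ l ≤ m, 1 ≤ J l) (hh : ∀ j, 0 < h j)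
    (hθ : ∀ l ≤ m, ∀ j < J l, 0 < θ l j ∧ θ l j ≤ 1)
    (hmono : ∀ l ≤ m, ∀ j, j + 1 < J l → θ l j ≤ θ l (j + 1))
    (hsum : ∀ j, ∑ l ∈ Finset.range (m + 1), (if j < J l then θ l j else 0) ≤ q)
    (hτ : ∀ l ≤ m, ∑ j ∈ Finset.range (J l), h j / (2 * θ l j) < 1)
    (hV : ∀ l ≤ m, V < ∑ j ∈ Finset.range (J l), h j -
      (∑ j ∈ Finset.range (J l), h j / (2 * θ l j)) / 2)
    (f : ℂ → ℂ) (p₁ p₂ : ℝ) (hqp : q < p₁) (hp12 : p₁ < p₂) (hnice : Nice p₁ f)
    (r ε : ℝ) (n₀ : ℕ) (hr0 : 0 < r) (hr1 : r < 1) (hε : 0 < ε) :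
    ∃ (g : ℂ → ℂ) (n : ℕ), Nice p₂ g ∧ n₀ ≤ n ∧ (∀ z : ℂ, ‖z‖ ≤ r → ‖g z - f z‖ ≤ ε) ∧
      HankelLB m n g ((n : ℝ) ^ (-1 / 2 + V)) := by
  obtain ⟨⟨ρf, hρf, hfd⟩, hf0, hfab⟩ := hnice
  have hpi := Real.pi_pos
  have hmR : (0:ℝ) < (m:ℝ) + 1 := by positivity
  have hp₁ : 0 < p₁ := lt_of_le_of_lt hq hqp
  -- bounds of f
  have hcb : IsCompact (closedBall (0:ℂ) 1) := isCompact_closedBall _ _
  have hfc : ContinuousOn f (closedBall (0:ℂ) 1) :=
    hfd.continuousOn.mono (closedBall_subset_ball hρf)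
  obtain ⟨M₀, hM₀, hfM⟩ : ∃ M₀ : ℝ, 0 < M₀ ∧ ∀ z : ℂ, ‖z‖ ≤ 1 → ‖f z‖ < M₀ := by
    obtain ⟨M, hM⟩ := hcb.exists_bound_of_continuousOn hfc
    refine ⟨|M| + 1, by positivity, fun z hz => ?_⟩
    have := hM z (by simpa using hz)
    have := le_abs_self M
    linarith
  obtain ⟨cf, hcf, hfcf⟩ : ∃ cf : ℝ, 0 < cf ∧ ∀ z : ℂ, ‖z‖ ≤ 1 → cf ≤ ‖f z‖ := by
    obtain ⟨z₀, hz₀, hmin⟩ := hcb.exists_isMinOn ⟨0, by simp⟩ hfc.norm
    refine ⟨‖f z₀‖, norm_pos_iff.2 (hf0 z₀ (by simpa using hz₀)), fun z hz => ?_⟩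
    exact hmin (by simpa using hz)
  -- epsilon_1
  obtain ⟨ε₁, hε₁, hε₁1, hε₁p⟩ : ∃ ε₁ : ℝ, 0 < ε₁ ∧ ε₁ < 1 ∧
      (1 + ε₁) ^ 4 * (p₁ + (m + 1) * ε₁) + ε₁ / π < p₂ := by
    apply exists_small
    apply (ev_lt (g := fun x => x) continuousAt_id (by norm_num)).and
    apply ev_lt (g := fun x : ℝ => (1 + x) ^ 4 * (p₁ + (m + 1) * x) + x / π)
    · fun_prop
    · simpa using hp12
  obtain ⟨δ, hδ, hδε, hδθ⟩ : ∃ δ : ℝ, 0 < δ ∧ δ < ε₁ ∧ ∀ l ≤ m, δ < θ l 0 := by
    apply exists_small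
    apply (ev_lt (g := fun x => x) continuousAt_id hε₁).and
    apply finite_eps
    intro l hl
    exact ev_lt (g := fun x => x) continuousAt_id (hθ l hl 0 (hJ l hl)).1
  have hδ1 : δ ≤ 1 := by linarith
  set Jm : ℕ := ∑ l ∈ Finset.range (m + 1), J l with hJm
  have hJle : ∀ l ≤ m, J l ≤ Jm := by
    intro l hl
    exact Finset.single_le_sum (f := J) (fun _ _ => Nat.zero_le _) (Finset.mem_range.2 (by omega))
  obtain ⟨c, hc0, hc4, hpack⟩ := profile_package δ ε₁ hδ hδ1 hε₁ (Jm + 1)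
  set Cs : ℝ := M₀ / c ^ 2 with hCs
  have hCs0 : 0 < Cs := by positivity
  -- points
  set ζ : ℕ → ℂ := fun l => Complex.exp (2 * π * Complex.I * l / (m + 1)) with hζdef
  have hζ : ∀ l ≤ m, ‖ζ l‖ = 1 := by
    intro l _
    simp only [hζdef]
    rw [show (2 * π * Complex.I * l / (m + 1) : ℂ) = ((2 * π * l / (m + 1) : ℝ) : ℂ) * Complex.I by
      push_cast; ring]
    exact Complex.norm_exp_ofReal_mul_I _
  have hζ' : ∀ l ≤ m, ∀ l' ≤ m, l ≠ l' → ζ l ≠ ζ l' := by
    intro l hl l' hl' hne heq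
    simp only [hζdef] at heq
    rw [Complex.exp_eq_exp_iff_exists_int] at heq
    obtain ⟨k, hk⟩ := heq
    have h1 : (l:ℂ) = l' + k * (m + 1) := by
      have h2 : (2 * π * Complex.I : ℂ) ≠ 0 := Complex.two_pi_I_ne_zero
      have h3 : ((m:ℂ) + 1) ≠ 0 := by
        have : ((m + 1 : ℕ) : ℂ) ≠ 0 := Nat.cast_ne_zero.2 (by omega)
        push_cast at this; exact this
      have h4 : (2 * π * Complex.I) * ((l:ℂ) / (m + 1)) =
          (2 * π * Complex.I) * ((l':ℂ) / (m + 1) + k) := by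
        linear_combination hk
      have h5 := mul_left_cancel₀ h2 h4
      field_simp at h5
      linear_combination h5
    have h2 : (l:ℤ) = l' + k * (m + 1) := by exact_mod_cast h1
    have h3 : k = 0 := by
      by_contra hk0
      rcases lt_or_gt_of_ne hk0 with h | h
      · have : k ≤ -1 := by omega
        nlinarith
      · have : 1 ≤ k := by omega
        nlinarith
    rw [h3] at h2
    omega
  obtain ⟨κ₀, ω₀, hκ₀, hω₀, hasm⟩ := AreaAsm.area_assembly m f ⟨ρf, hρf, hfd⟩ hf0 ζ hζ hζ' ε₁ hε₁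
  set ω : ℝ := min ω₀ (1 / 2) with hω
  have hω0 : 0 < ω := lt_min hω₀ (by norm_num)
  have hωω : ω ≤ ω₀ := min_le_left _ _
  have hω2 : ω ≤ 1 / 2 := min_le_right _ _
  -- d
  obtain ⟨d, hd, hd1, hd2, hd3, hd4, hd5, hd6⟩ : ∃ d : ℝ, 0 < d ∧ d < 1 ∧ 4 * d / κ₀ < ω₀ ∧
      6 * d / κ₀ ^ 2 < ω₀ ∧ 2 * d < κ₀ ∧ 2 * d < 1 - r ∧
      M₀ * (Real.exp ((m + 1) * (4 * d / (1 - r))) - 1) < ε / 2 := by
    apply exists_small
    refine (ev_lt (g := fun x => x) continuousAt_id (by norm_num)).and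
      ((ev_lt (g := fun x => 4 * x / κ₀) (by fun_prop) (by simpa using hω₀)).and
      ((ev_lt (g := fun x => 6 * x / κ₀ ^ 2) (by fun_prop) (by simpa using hω₀)).and
      ((ev_lt (g := fun x => 2 * x) (by fun_prop) (by simpa using hκ₀)).and
      ((ev_lt (g := fun x => 2 * x) (by fun_prop) (by simpa using hr1)).and
      (ev_lt (g := fun x => M₀ * (Real.exp ((m + 1) * (4 * x / (1 - r))) - 1)) (by fun_prop)
        (by simpa using hε))))))
  have hJ' : ∀ l ≤ m, ∃ j, J l = j + 1 := fun l hl => ⟨J l - 1, by have := hJ l hl; omega⟩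
  -- ε'
  obtain ⟨ε', hε', hε'h⟩ : ∃ ε' : ℝ, 0 < ε' ∧ ∀ l ≤ m, ε' < h (J l - 1) ∧
      ε' < (∑ j ∈ Finset.range (J l), h j) -
        (∑ j ∈ Finset.range (J l), h j / (2 * θ l j)) / 2 - V := by
    apply exists_small
    apply finite_eps
    intro l hl
    apply (ev_lt (g := fun x => x) continuousAt_id (hh _)).and
    apply ev_lt (g := fun x => x) continuousAt_id
    have := hV l hl
    linarith
  set h' : ℕ → ℕ → ℝ := fun l i => if i + 1 = J l then h i - ε' else h i with hh'def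
  have hh'pos : ∀ l ≤ m, ∀ i, 0 < h' l i := by
    intro l hl i
    simp only [hh'def]
    split_ifs with hi
    · have := (hε'h l hl).1
      have h2 : J l - 1 = i := by omega
      rw [h2] at this
      linarith
    · exact hh i
  have hh'le : ∀ l, ∀ i, h' l i ≤ h i := by
    intro l i
    simp only [hh'def]
    split_ifs <;> linarith
  set x : ℕ → ℕ → ℝ := fun l i => h' l i / (2 * θ l i) with hxdef
  have hxpos : ∀ l ≤ m, ∀ i < J l, 0 < x l i := by
    intro l hl i hi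
    have h1 := hh'pos l hl i
    have h2 := (hθ l hl i hi).1
    simp only [hxdef]
    positivity
  have hx2 : ∀ l ≤ m, ∀ i < J l, 2 * θ l i * x l i = h' l i := by
    intro l hl i hi
    have h2 := (hθ l hl i hi).1
    simp only [hxdef]
    field_simp
  set T' : ℕ → ℝ := fun l => ∑ i ∈ Finset.range (J l), x l i with hT'def
  have hT'le : ∀ l ≤ m, T' l ≤ ∑ j ∈ Finset.range (J l), h j / (2 * θ l j) := by
    intro l hl
    apply Finset.sum_le_sum
    intro i hi
    have h2 := (hθ l hl i (Finset.mem_range.1 hi)).1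
    simp only [hxdef]
    gcongr
    exact hh'le l i
  have hT' : ∀ l ≤ m, 0 < T' l ∧ T' l < 1 := by
    intro l hl
    refine ⟨?_, (hT'le l hl).trans_lt (hτ l hl)⟩
    apply Finset.sum_pos
    · intro i hi
      exact hxpos l hl i (Finset.mem_range.1 hi)
    · exact ⟨0, Finset.mem_range.2 (hJ l hl)⟩
  set Hl : ℕ → ℝ := fun l => ∑ j ∈ Finset.range (J l), h j - ε' with hHl
  have hh'sum : ∀ l ≤ m, ∑ i ∈ Finset.range (J l), h' l i = Hl l := by
    intro l hl
    exact sum_modify (J l) (hJ l hl) h ε'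
  have hVl : ∀ l ≤ m, V < Hl l - T' l / 2 := by
    intro l hl
    have h1 := (hε'h l hl).2
    have h2 := hT'le l hl
    simp only [hHl]
    linarith
  -- a, W
  set W : ℕ → ℝ := fun l => ‖f (ζ l)‖ with hWdef
  have hW0 : ∀ l ≤ m, 0 < W l := fun l hl => norm_pos_iff.2 (hf0 _ (hζ l hl).le)
  have hWM : ∀ l ≤ m, W l ≤ M₀ := fun l hl => (hfM _ (hζ l hl).le).le
  set a : ℕ → ℝ := fun l => (W l / Cs) ^ (1 / (2 * δ)) with hadef
  have ha0 : ∀ l ≤ m, 0 < a l := fun l hl => Real.rpow_pos_of_pos (div_pos (hW0 l hl) hCs0) _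
  have hc1 : c < 1 := by linarith
  have hac : ∀ l ≤ m, a l ≤ c := by
    intro l hl
    have h1 : W l / Cs ≤ c ^ 2 := by
      rw [hCs, div_le_iff₀ (by positivity)]
      have : c ^ 2 * (M₀ / c ^ 2) = M₀ := by field_simp
      rw [this]
      exact hWM l hl
    have h2 : a l ≤ (c ^ 2) ^ (1 / (2 * δ)) :=
      Real.rpow_le_rpow (div_pos (hW0 l hl) hCs0).le h1 (by positivity)
    have h3 : (c ^ 2) ^ (1 / (2 * δ)) = c ^ (1 / δ) := by
      rw [← Real.rpow_natCast, ← Real.rpow_mul hc0.le]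
      congr 1
      push_cast
      field_simp
    have h4 : c ^ (1 / δ) ≤ c ^ (1:ℝ) := by
      apply Real.rpow_le_rpow_of_exponent_ge hc0 hc1.le
      rw [le_div_iff₀ hδ]
      linarith
    rw [Real.rpow_one] at h4
    linarith
  have ha1 : ∀ l ≤ m, a l ≤ 1 := fun l hl => (hac l hl).trans hc1.le
  have hainv : ∀ l ≤ m, (1 / a l) ^ (2 * δ) = Cs / W l := by
    intro l hl
    have h1 : a l ^ (2 * δ) = W l / Cs := by
      simp only [hadef]
      rw [← Real.rpow_mul (div_pos (hW0 l hl) hCs0).le]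
      have : 1 / (2 * δ) * (2 * δ) = 1 := by field_simp
      rw [this, Real.rpow_one]
    rw [Real.div_rpow zero_le_one (ha0 l hl).le, Real.one_rpow, h1, one_div_div]
  -- constants K₀, T₀
  set K : ℕ → ℝ := fun l => 1 / (d * a l) with hKdef
  have hK : ∀ l ≤ m, 0 < K l := fun l hl => by
    have := ha0 l hl
    simp only [hKdef]; positivity
  set kE : ℕ → ℝ := fun l => cf * Cs / W l with hkEdef
  have hkE : ∀ l ≤ m, 0 < kE l := fun l hl => by
    have := hW0 l hl
    simp only [hkEdef]; positivity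
  obtain ⟨K₀, hK₀1, hK₀ρ, hK₀K⟩ : ∃ K₀ : ℝ, 1 ≤ K₀ ∧ 2 / (ρf - 1) ≤ K₀ ∧ ∀ l ≤ m, K l ≤ K₀ := by
    refine ⟨1 + 2 / (ρf - 1) + ∑ l ∈ Finset.range (m + 1), K l, ?_, ?_, ?_⟩
    · have h1 : 0 ≤ 2 / (ρf - 1) := by
        have : 0 < ρf - 1 := by linarith
        positivity
      have h2 : 0 ≤ ∑ l ∈ Finset.range (m + 1), K l :=
        Finset.sum_nonneg fun l hl => (hK l (by have := Finset.mem_range.1 hl; omega)).le
      linarith
    · have h2 : 0 ≤ ∑ l ∈ Finset.range (m + 1), K l :=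
        Finset.sum_nonneg fun l hl => (hK l (by have := Finset.mem_range.1 hl; omega)).le
      linarith
    · intro l hl
      have h1 : 0 ≤ 2 / (ρf - 1) := by
        have : 0 < ρf - 1 := by linarith
        positivity
      have h2 : K l ≤ ∑ l ∈ Finset.range (m + 1), K l :=
        Finset.single_le_sum (f := K)
          (fun l hl => (hK l (by have := Finset.mem_range.1 hl; omega)).le)
          (Finset.mem_range.2 (by omega))
      linarith
  have hK₀0 : 0 < K₀ := by linarith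
  obtain ⟨T₀, hT₀1, hT₀0, hT₀T⟩ : ∃ T₀ : ℝ, T₀ < 1 ∧ 0 ≤ T₀ ∧ ∀ l ≤ m, T' l ≤ T₀ := by
    obtain ⟨e, he0, he⟩ : ∃ e : ℝ, 0 < e ∧ (e < 1 ∧ ∀ l ≤ m, e < 1 - T' l) := by
      apply exists_small
      apply (ev_lt (g := fun x => x) continuousAt_id (by norm_num)).and
      apply finite_eps
      intro l hl
      apply ev_lt (g := fun x => x) continuousAt_id
      have := (hT' l hl).2
      linarith
    refine ⟨1 - e, by linarith, by linarith [he.1], fun l hl => ?_⟩
    have := he.2 l hl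
    linarith
  obtain ⟨A, hA, hcar⟩ := CarCoeff.car_coeff m f ρf hρf hfd
  obtain ⟨Cosc, hCosc, hosc⟩ := Osc.osc_term
  set D : ℝ := 2 * ((Jm : ℝ) + 1) with hD
  have hD0 : 0 ≤ D := by positivity
  have hevn := EvParams.eventual_params m T' K kE Hl V ε' Cosc A ω c r (ε / 2) K₀ T₀ D hT' hK hkE
    hVl hε' hCosc hA hω0 hc0 hr0 hr1 (by positivity) hK₀0 hT₀1 hD0
  obtain ⟨n, hn1, hn⟩ := ((Filter.eventually_ge_atTop (max n₀ 1)).and hevn).exists
  have hnn₀ : n₀ ≤ n := (le_max_left _ _).trans hn1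
  have hn1' : 1 ≤ n := (le_max_right _ _).trans hn1
  have hnR : (1:ℝ) ≤ (n:ℝ) := by exact_mod_cast hn1'
  have hnR0 : (0:ℝ) < (n:ℝ) := by linarith
  obtain ⟨hnl, hnε', hncar⟩ := hn
  set X : ℝ := 2 * (n:ℝ) ^ (-1 / 2 + V) with hX
  have hX0 : 0 < X := by
    have := Real.rpow_pos_of_pos hnR0 (-1 / 2 + V)
    positivity
  set L : ℕ → ℕ := fun l => ⌈K l * (n:ℝ) ^ (T' l)⌉₊ with hL
  set M : ℕ → ℕ := fun l => n - 2 * L l with hM
  have hLm : ∀ l ≤ m, 2 * m + 1 ≤ L l := fun l hl => (hnl l hl).1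
  have hL1 : ∀ l ≤ m, 1 ≤ L l := fun l hl => by have := hLm l hl; omega
  have hL4 : ∀ l ≤ m, 4 * L l ≤ n := fun l hl => (hnl l hl).2.1
  have hMn : ∀ l ≤ m, M l + 2 * L l = n := fun l hl => by
    have := hL4 l hl
    simp only [hM]; omega
  have hLM : ∀ l ≤ m, L l ≤ M l := fun l hl => by
    have := hL4 l hl
    have := hMn l hl
    omega
  have hMhalf : ∀ l ≤ m, n / 2 ≤ M l := fun l hl => by
    have := hL4 l hl
    have := hMn l hl
    omega
  -- scales
  set e : ℕ → ℕ → ℝ := fun l => scl d (a l) (x l) n with hedef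
  have he : ∀ l ≤ m, ∀ k ≤ J l + 1, 0 < e l k := fun l hl k _ => scl_pos hd (ha0 l hl) hnR k
  have hdec : ∀ l ≤ m, ∀ k < J l + 1, e l (k + 1) ≤ e l k := fun l hl k hk =>
    scl_dec hd (ha0 l hl) (ha1 l hl) hnR k (fun i hi => (hxpos l hl i (by omega)).le)
  have hθnn : ∀ l ≤ m, ∀ k < J l + 1, 0 ≤ rat δ (θ l) k := by
    intro l hl k hk
    cases k with
    | zero => exact hδ.le
    | succ k => exact (hθ l hl k (by omega)).1.le
  have hθ1 : ∀ l ≤ m, ∀ k < J l + 1, rat δ (θ l) k ≤ 1 := by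
    intro l hl k hk
    cases k with
    | zero => exact hδ1
    | succ k => exact (hθ l hl k (by omega)).2
  have hθmono : ∀ l ≤ m, ∀ k, k + 1 < J l + 1 → rat δ (θ l) k ≤ rat δ (θ l) (k + 1) := by
    intro l hl k hk
    cases k with
    | zero => exact (hδθ l hl).le
    | succ k => exact hmono l hl k (by omega)
  have hlevk : ∀ l ≤ m, ∀ k ≤ J l, lev (e l) (rat δ (θ l)) (k + 1) =
      Cs / W l * (n:ℝ) ^ (∑ i ∈ Finset.range k, h' l i) := by
    intro l hl k hk
    rw [← hainv l hl]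
    exact lev_scl hd (ha0 l hl) hnR k (fun i hi => hx2 l hl i (by omega))
  have hlevJ : ∀ l ≤ m, lev (e l) (rat δ (θ l)) (J l + 1) = Cs / W l * (n:ℝ) ^ (Hl l) := by
    intro l hl
    rw [hlevk l hl (J l) le_rfl, hh'sum l hl]
  have heJ : ∀ l ≤ m, e l (J l + 1) = 1 / (K l * (n:ℝ) ^ (T' l)) := by
    intro l hl
    have := ha0 l hl
    simp only [hedef, scl, hKdef, hT'def]
    rw [Real.rpow_neg hnR0.le]
    field_simp
  have he0 : ∀ l, e l 0 = d := fun l => rfl
  set H : ℕ → ℂ → ℂ := fun l => prof (J l + 1) (e l) (rat δ (θ l)) with hH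
  set car : ℂ → ℂ := fun z => f z * ∏ l ∈ Finset.range (m + 1), H l (1 - (starRingEnd ℂ) (ζ l) * z)
    with hcardef
  set O : ℂ → ℂ := fun z => ∑ l ∈ Finset.range (m + 1),
    (X : ℂ) * L l * z ^ M l * kern (L l) ((starRingEnd ℂ) (ζ l) * z) with hO
  have hre : ∀ l ≤ m, ∀ z : ℂ, 1 - ‖z‖ ≤ (1 - (starRingEnd ℂ) (ζ l) * z).re := by
    intro l hl z
    have h1 : ‖(starRingEnd ℂ) (ζ l) * z‖ = ‖z‖ := by
      rw [norm_mul, RCLike.norm_conj, hζ l hl, one_mul]
    have h2 := Complex.re_le_norm ((starRingEnd ℂ) (ζ l) * z)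
    rw [Complex.sub_re, Complex.one_re]
    linarith
  have hnq : ∀ l ≤ m, ∀ z : ℂ, 1 - ‖z‖ ≤ ‖1 - (starRingEnd ℂ) (ζ l) * z‖ := by
    intro l hl z
    exact (hre l hl z).trans (Complex.re_le_norm _)
  have hnq3 : ∀ l ≤ m, ∀ z : ℂ, ‖1 - (starRingEnd ℂ) (ζ l) * z‖ ≤ 1 + ‖z‖ := by
    intro l hl z
    have h1 : ‖(starRingEnd ℂ) (ζ l) * z‖ = ‖z‖ := by
      rw [norm_mul, RCLike.norm_conj, hζ l hl, one_mul]
    calc _ ≤ ‖(1:ℂ)‖ + ‖(starRingEnd ℂ) (ζ l) * z‖ := norm_sub_le _ _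
      _ = _ := by rw [h1, norm_one]
  have hHge : ∀ l ≤ m, ∀ q : ℂ, 0 ≤ q.re → 1 ≤ ‖H l q‖ := fun l hl q hq =>
    (ProfBasic.prof_bounds (J l + 1) (e l) (rat δ (θ l)) (he l hl) (hθnn l hl) (hdec l hl) q hq).1
  have hHdiff : ∀ l ≤ m, ∀ q : ℂ, -(e l (J l + 1)) < q.re → DifferentiableAt ℂ (H l) q :=
    fun l hl q hq => (ProfBasic.prof_hasDerivAt (J l + 1) (e l) (rat δ (θ l)) (he l hl)
      (hdec l hl) q hq).differentiableAt
  have heJ0 : ∀ l ≤ m, 0 < e l (J l + 1) := fun l hl => he l hl _ le_rfl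
  have hHge' : ∀ z : ℂ, ‖z‖ ≤ 1 → ∀ l ∈ Finset.range (m + 1),
      1 ≤ ‖H l (1 - (starRingEnd ℂ) (ζ l) * z)‖ := by
    intro z hz l hl
    have hl' : l ≤ m := by have := Finset.mem_range.1 hl; omega
    exact hHge l hl' _ (le_trans (by linarith) (hre l hl' z))
  -- carrier lower bound
  have hcarlow : ∀ z : ℂ, ‖z‖ ≤ 1 → cf ≤ ‖car z‖ := by
    intro z hz
    simp only [hcardef]
    rw [norm_mul, norm_prod]
    have h1 : 1 ≤ ∏ l ∈ Finset.range (m + 1), ‖H l (1 - (starRingEnd ℂ) (ζ l) * z)‖ :=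
      ProfBasic.one_le_prod_real _ _ (hHge' z hz)
    have h2 := hfcf z hz
    nlinarith
  have hlow : ∀ l ≤ m, ∀ z ∈ ball (0:ℂ) 1,
      kE l * (n:ℝ) ^ (Hl l) * (1 + (L l : ℝ) * ‖1 - (starRingEnd ℂ) (ζ l) * z‖) ^ (-(2 * (1:ℝ)))
        ≤ ‖car z‖ := by
    intro l hl z hz
    have hz' : ‖z‖ < 1 := by simpa using hz
    set qq : ℂ := 1 - (starRingEnd ℂ) (ζ l) * z with hqq
    have hqre : 0 ≤ qq.re := le_trans (by linarith) (hre l hl z)
    have h1 := ProfGrowth.prof_growth (J l + 1) (e l) (rat δ (θ l)) (he l hl) (hθnn l hl)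
      (hdec l hl) 1 zero_le_one (hθ1 l hl) qq hqre
    rw [hlevJ l hl] at h1
    have h2 : ‖qq‖ / e l (J l + 1) ≤ (L l : ℝ) * ‖qq‖ := by
      rw [heJ l hl]
      have h3 : K l * (n:ℝ) ^ (T' l) ≤ L l := Nat.le_ceil _
      have h4 : ‖qq‖ / (1 / (K l * (n:ℝ) ^ (T' l))) = K l * (n:ℝ) ^ (T' l) * ‖qq‖ := by
        rw [div_div_eq_mul_div, div_one, mul_comm]
      rw [h4]
      gcongr
    have h5 : (1 + (L l : ℝ) * ‖qq‖) ^ (-(2 * (1:ℝ))) ≤ (1 + ‖qq‖ / e l (J l + 1)) ^ (-(2 * (1:ℝ))) := by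
      apply Real.rpow_le_rpow_of_nonpos
      · have := heJ0 l hl
        positivity
      · linarith
      · norm_num
    have hWl := hW0 l hl
    have hnH : 0 < (n:ℝ) ^ (Hl l) := Real.rpow_pos_of_pos hnR0 _
    have h6 : Cs / W l * (n:ℝ) ^ (Hl l) * (1 + (L l : ℝ) * ‖qq‖) ^ (-(2 * (1:ℝ))) ≤ ‖H l qq‖ := by
      refine le_trans ?_ h1
      gcongr
    have h7 : ‖H l qq‖ ≤ ∏ l ∈ Finset.range (m + 1), ‖H l (1 - (starRingEnd ℂ) (ζ l) * z)‖ := by
      have hmem : l ∈ Finset.range (m + 1) := Finset.mem_range.2 (by omega)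
      rw [← Finset.mul_prod_erase _ _ hmem]
      have h8 : 1 ≤ ∏ x ∈ (Finset.range (m + 1)).erase l, ‖H x (1 - (starRingEnd ℂ) (ζ x) * z)‖ :=
        ProfBasic.one_le_prod_real _ _ (fun i hi => hHge' z hz'.le i (Finset.mem_of_mem_erase hi))
      calc ‖H l qq‖ = ‖H l qq‖ * 1 := (mul_one _).symm
        _ ≤ _ := mul_le_mul_of_nonneg_left h8 (norm_nonneg _)
    simp only [hcardef]
    rw [norm_mul, norm_prod]
    calc kE l * (n:ℝ) ^ (Hl l) * (1 + (L l : ℝ) * ‖qq‖) ^ (-(2 * (1:ℝ)))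
        = cf * (Cs / W l * (n:ℝ) ^ (Hl l) * (1 + (L l : ℝ) * ‖qq‖) ^ (-(2 * (1:ℝ)))) := by
          simp only [hkEdef]; ring
      _ ≤ ‖f z‖ * ‖H l qq‖ := by
          apply mul_le_mul (hfcf z hz'.le) h6 (by positivity) (norm_nonneg _)
      _ ≤ _ := mul_le_mul_of_nonneg_left h7 (norm_nonneg _)
  obtain ⟨hOd, hO1, hO2⟩ := OscTotal.osc_total m Cosc ω hCosc hω0 hosc car L M ζ X
    (fun l => kE l * (n:ℝ) ^ (Hl l)) hX0 hL1 hLM hζ
    (fun l hl => mul_pos (hkE l hl) (Real.rpow_pos_of_pos hnR0 _)) hlow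
    (fun l hl => (hnl l hl).2.2.1)
    (fun l hl => by
      refine le_trans ?_ (hnl l hl).2.2.2.1
      have h1 : (M l : ℝ) ≤ n := by
        have := hMn l hl
        exact_mod_cast (by omega : M l ≤ n)
      have h2 := mul_pos (hkE l hl) (Real.rpow_pos_of_pos hnR0 (Hl l))
      gcongr)
  set g : ℂ → ℂ := fun z => car z + O z with hg
  -- η
  set η : ℝ := 1 / (K₀ * (n:ℝ) ^ T₀) with hη
  have hnT₀ : 1 ≤ (n:ℝ) ^ T₀ := Real.one_le_rpow hnR hT₀0
  have hη0 : 0 < η := by positivity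
  have hη1 : η ≤ 1 := by
    rw [hη, div_le_one (by positivity)]
    nlinarith
  have hηρ : η ≤ (ρf - 1) / 2 := by
    have h1 : 0 < ρf - 1 := by linarith
    rw [hη, div_le_iff₀ (by positivity)]
    have h2 : 1 ≤ (ρf - 1) / 2 * K₀ := by
      rw [div_le_iff₀ h1] at hK₀ρ
      linarith
    have h3 : (ρf - 1) / 2 * (K₀ * (n:ℝ) ^ T₀) = (ρf - 1) / 2 * K₀ * (n:ℝ) ^ T₀ := by ring
    rw [h3]
    nlinarith
  have hηe : ∀ l ≤ m, η ≤ e l (J l + 1) := by
    intro l hl
    rw [heJ l hl, hη]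
    have h1 := hK l hl
    have h2 := Real.rpow_pos_of_pos hnR0 (T' l)
    apply one_div_le_one_div_of_le (by positivity)
    apply mul_le_mul (hK₀K l hl) _ h2.le hK₀0.le
    exact Real.rpow_le_rpow_of_exponent_le hnR (hT₀T l hl)
  -- analyticity
  have hρ' : 1 < min ρf (1 + η) := lt_min hρf (by linarith)
  have hcard : DifferentiableOn ℂ car (ball 0 (min ρf (1 + η))) := by
    apply DifferentiableOn.mul (hfd.mono (ball_subset_ball (min_le_left _ _)))
    apply DifferentiableOn.fun_finsetProd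
    intro l hl z hz
    have hl' : l ≤ m := by have := Finset.mem_range.1 hl; omega
    have hz' : ‖z‖ < 1 + η := by
      have : ‖z‖ < min ρf (1 + η) := by simpa using hz
      exact this.trans_le (min_le_right _ _)
    apply DifferentiableAt.differentiableWithinAt
    have h1 := hHdiff l hl' (1 - (starRingEnd ℂ) (ζ l) * z) (by
      have := hre l hl' z
      have := hηe l hl'
      linarith)
    have h2 : DifferentiableAt ℂ (fun z : ℂ => 1 - (starRingEnd ℂ) (ζ l) * z) z := by fun_prop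
    exact DifferentiableAt.fun_comp' z h1 h2
  have hgd : DifferentiableOn ℂ g (ball 0 (min ρf (1 + η))) := hcard.add hOd.differentiableOn
  have hsub1 : closedBall (0:ℂ) 1 ⊆ ball 0 (min ρf (1 + η)) := closedBall_subset_ball hρ'
  have hsub2 : ball (0:ℂ) 1 ⊆ ball 0 (min ρf (1 + η)) := ball_subset_ball hρ'.le
  -- zero free
  have hO1' : ∀ z : ℂ, ‖z‖ ≤ 1 → ‖O z‖ ≤ ω * ‖car z‖ := by
    intro z hz
    have hcl : z ∈ closure (ball (0:ℂ) 1) := by
      rw [closure_ball _ one_ne_zero]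
      simpa using hz
    have hzb : z ∈ ball (0:ℂ) (min ρf (1 + η)) := hsub1 (by simpa using hz)
    have hcc : ContinuousWithinAt (fun z => ω * ‖car z‖) (ball (0:ℂ) 1) z :=
      (continuousWithinAt_const.mul (((hcard z hzb).continuousWithinAt).norm)).mono hsub2
    exact ContinuousWithinAt.closure_le hcl (hOd.continuous.norm.continuousWithinAt) hcc
      (fun y hy => hO1 y hy)
  have hg0 : ∀ z : ℂ, ‖z‖ ≤ 1 → g z ≠ 0 := by
    intro z hz h0
    have h1 := hO1' z hz
    have h2 := hcarlow z hz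
    have h3 : car z = -O z := by
      have : car z + O z = 0 := h0
      linear_combination this
    rw [h3, norm_neg] at h1 h2
    nlinarith
  -- area
  have harea : AreaBound p₂ g := by
    refine area_final m Jm J θ q p₁ p₂ δ ε₁ M₀ (c * Cs) n h f g W hJle hq hqp.le hδ.le hδε.le hε₁ hh
      hnR (fun l hl j hj => (hθ l hl j hj).1.le) hsum hM₀ ?_ hW0 hWM hε₁p.le
      (fun z hz => hfM z hz.le) hfab (hgd.mono hsub2) ?_
    · rw [hCs]
      have : c * (M₀ / c ^ 2) = M₀ / c := by field_simp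
      rw [this, le_div_iff₀ hc0]
      nlinarith
    · intro R hR
      refine hasm H O (fun l R => ENNReal.ofReal (π * (1 + ε₁) *
        ∑ k ∈ Finset.range (J l + 1), rat δ (θ l) k *
                (min R (bet (c * Cs / W l) h n (k + 1)) ^ 2 -
                  min R (bet (c * Cs / W l) h n k) ^ 2))) ?_ ?_ ?_ hOd.differentiableOn ?_ ?_ R hR
      · intro l hl q hq
        exact ⟨hHdiff l hl q (by have := heJ0 l hl; linarith), hHge l hl q hq.le⟩
      · intro l hl q hq hκq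
        have hq0 : q ≠ 0 := by
          rintro rfl
          simp at hq
        have hsmall : 2 * 1 * e l 0 ≤ ‖q‖ := by
          rw [he0]
          linarith
        have h1 := ProfBasic.prof_far (J l + 1) (e l) (rat δ (θ l)) (he l hl) (hθnn l hl)
          (hdec l hl) 1 (hθ1 l hl) zero_le_one q hq.le hq0 hsmall
        rw [he0] at h1
        have hq' : 0 < ‖q‖ := norm_pos_iff.2 hq0
        constructor
        · refine h1.1.trans ?_
          have : 4 * 1 * d / ‖q‖ ≤ 4 * d / κ₀ := by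
            rw [mul_one]
            gcongr
          linarith
        · refine h1.2.trans ?_
          have : 6 * 1 * d / ‖q‖ ^ 2 ≤ 6 * d / κ₀ ^ 2 := by
            rw [mul_one]
            gcongr
          linarith
      · intro l hl R
        have hWl := hW0 l hl
        refine hpack (J l + 1) (e l) (rat δ (θ l)) (bet (c * Cs / W l) h n) (by omega)
          (by have := hJle l hl; omega) (he l hl) (hdec l hl) rfl (hθmono l hl) (hθ1 l hl) ?_ rfl
          ?_ ?_ ?_ R
        · rw [he0]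
          simp only [hedef, scl_one]
          have := hac l hl
          nlinarith
        · intro k _
          apply bet_mono _ hnR hh k
          rw [le_div_iff₀ hWl, one_mul]
          have h1 := hWM l hl
          have h2 : M₀ ≤ c * Cs := by
            rw [hCs]
            have : c * (M₀ / c ^ 2) = M₀ / c := by field_simp
            rw [this, le_div_iff₀ hc0]
            nlinarith
          linarith
        · intro k hk1 hk2
          obtain ⟨k', rfl⟩ : ∃ k', k = k' + 1 := ⟨k - 1, by omega⟩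
          rw [hlevk l hl k' (by omega)]
          have : ∑ i ∈ Finset.range k', h' l i = ∑ i ∈ Finset.range k', h i := by
            apply Finset.sum_congr rfl
            intro i hi
            have := Finset.mem_range.1 hi
            simp only [hh'def]
            rw [if_neg (by omega)]
          rw [this]
          simp only [bet]
          apply le_of_eq
          ring
        · rw [hlevJ l hl]
          simp only [bet, hHl]
          rw [sub_eq_add_neg, Real.rpow_add hnR0]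
          have h1 := Real.rpow_pos_of_pos hnR0 (∑ j ∈ Finset.range (J l), h j)
          calc Cs / W l * ((n:ℝ) ^ (∑ j ∈ Finset.range (J l), h j) * (n:ℝ) ^ (-ε')) ≤
              Cs / W l * ((n:ℝ) ^ (∑ j ∈ Finset.range (J l), h j) * c) := by gcongr
            _ = _ := by ring
      · intro z hz
        refine (hO1 z hz).trans ?_
        gcongr
      · intro R hR
        refine (hO2 R hR).trans ?_
        apply ENNReal.ofReal_le_ofReal
        gcongr
  -- closeness
  have hOsmall : ∀ z : ℂ, ‖z‖ ≤ r → ‖O z‖ ≤ ε / 2 := by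
    intro z hz
    have hz1 : ‖z‖ ≤ 1 := by linarith
    have h1 : ∀ l ∈ Finset.range (m + 1),
        ‖(X : ℂ) * L l * z ^ M l * kern (L l) ((starRingEnd ℂ) (ζ l) * z)‖ ≤
        (ε / 2) / (m + 1) := by
      intro l hl
      have hl' : l ≤ m := by have := Finset.mem_range.1 hl; omega
      refine le_trans ?_ (hnl l hl').2.2.2.2
      rw [norm_mul, norm_mul, norm_mul, norm_pow, Complex.norm_real, Complex.norm_natCast,
        Real.norm_of_nonneg hX0.le]
      have hk := (Osc.kern_bound (L l) (hL1 l hl') ((starRingEnd ℂ) (ζ l) * z) (by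
        rw [norm_mul, RCLike.norm_conj, hζ l hl', one_mul]; exact hz1)).1
      have hp1 : ‖z‖ ^ M l ≤ r ^ (n / 2) :=
        calc ‖z‖ ^ M l ≤ r ^ M l := pow_le_pow_left₀ (norm_nonneg _) hz _
          _ ≤ r ^ (n / 2) := pow_le_pow_of_le_one hr0.le hr1.le (hMhalf l hl')
      calc X * (L l : ℝ) * ‖z‖ ^ M l * ‖kern (L l) ((starRingEnd ℂ) (ζ l) * z)‖ ≤
          X * (L l : ℝ) * r ^ (n / 2) * 3 := by gcongr
        _ = _ := by ring
    calc ‖O z‖ ≤ ∑ l ∈ Finset.range (m + 1), (ε / 2) / (m + 1) :=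
          (norm_sum_le _ _).trans (Finset.sum_le_sum h1)
      _ = ε / 2 := by
          rw [Finset.sum_const, Finset.card_range, nsmul_eq_mul]
          push_cast
          field_simp
  have hclose : ∀ z : ℂ, ‖z‖ ≤ r → ‖g z - f z‖ ≤ ε := by
    intro z hz
    have hz1 : ‖z‖ ≤ 1 := by linarith
    have h1r : 0 < 1 - r := by linarith
    have hprod : ‖∏ l ∈ Finset.range (m + 1), (1 + (H l (1 - (starRingEnd ℂ) (ζ l) * z) - 1)) - 1‖ ≤
        Real.exp ((m + 1) * (4 * d / (1 - r))) - 1 := by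
      refine (Finset.norm_prod_one_add_sub_one_le _ _).trans ?_
      apply sub_le_sub_right
      apply Real.exp_le_exp.2
      calc ∑ l ∈ Finset.range (m + 1), ‖H l (1 - (starRingEnd ℂ) (ζ l) * z) - 1‖ ≤
          ∑ l ∈ Finset.range (m + 1), 4 * d / (1 - r) := by
            apply Finset.sum_le_sum
            intro l hl
            have hl' : l ≤ m := by have := Finset.mem_range.1 hl; omega
            set qq : ℂ := 1 - (starRingEnd ℂ) (ζ l) * z with hqq
            have hqre : 0 ≤ qq.re := le_trans (by linarith) (hre l hl' z)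
            have hqn : 1 - r ≤ ‖qq‖ := le_trans (by linarith) (hnq l hl' z)
            have hq0 : qq ≠ 0 := by
              rw [← norm_pos_iff]
              linarith
            have h1 := (ProfBasic.prof_far (J l + 1) (e l) (rat δ (θ l)) (he l hl') (hθnn l hl')
              (hdec l hl') 1 (hθ1 l hl') zero_le_one qq hqre hq0 (by rw [he0]; linarith)).1
            rw [he0, mul_one] at h1
            refine h1.trans ?_
            gcongr
        _ = (m + 1) * (4 * d / (1 - r)) := by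
            rw [Finset.sum_const, Finset.card_range, nsmul_eq_mul]
            push_cast
            ring
    have hprod' : ‖∏ l ∈ Finset.range (m + 1), H l (1 - (starRingEnd ℂ) (ζ l) * z) - 1‖ ≤
        Real.exp ((m + 1) * (4 * d / (1 - r))) - 1 := by
      refine le_trans (le_of_eq ?_) hprod
      congr 2
      apply Finset.prod_congr rfl
      intro l _
      ring
    have h2 : g z - f z = f z * (∏ l ∈ Finset.range (m + 1), H l (1 - (starRingEnd ℂ) (ζ l) * z) - 1)
        + O z := by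
      simp only [hg, hcardef]
      ring
    rw [h2]
    calc _ ≤ ‖f z * (∏ l ∈ Finset.range (m + 1), H l (1 - (starRingEnd ℂ) (ζ l) * z) - 1)‖ + ‖O z‖ :=
          norm_add_le _ _
      _ ≤ M₀ * (Real.exp ((m + 1) * (4 * d / (1 - r))) - 1) + ε / 2 := by
          rw [norm_mul]
          apply add_le_add _ (hOsmall z hz)
          exact mul_le_mul (hfM z hz1).le hprod' (norm_nonneg _) hM₀.le
      _ ≤ ε := by linarith
  -- Hankel
  have hexp : ∀ l ≤ m, ∀ s : ℕ, (starRingEnd ℂ) (ζ l) ^ s =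
      Complex.exp (-(2 * π * Complex.I * l * s / (m + 1))) := by
    intro l _ s
    simp only [hζdef]
    rw [← Complex.exp_conj, ← Complex.exp_nat_mul]
    congr 1
    simp only [map_div₀, map_mul, map_add, map_one, Complex.conj_ofReal, Complex.conj_I,
      map_natCast, map_ofNat]
    ring
  set x' : ℕ → ℂ := fun l => (X : ℂ) * (starRingEnd ℂ) (ζ l) ^ (2 * L l) with hx'
  have hx'n : ∀ l ≤ m, X ≤ ‖x' l‖ := by
    intro l hl
    simp only [hx']
    rw [norm_mul, norm_pow, RCLike.norm_conj, hζ l hl, one_pow, mul_one, Complex.norm_real,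
      Real.norm_of_nonneg hX0.le]
  have hgco : ∀ s ≤ 2 * m, coeff g (n + s) - ∑ l ∈ Finset.range (m + 1),
      x' l * Complex.exp (-(2 * π * Complex.I * l * s / (m + 1))) = coeff car (n + s) := by
    intro s hs
    have h1 : coeff g (n + s) = coeff car (n + s) + coeff O (n + s) :=
      coeff_add_of (ρ := 1) one_pos (hcard.mono hsub2) hOd.differentiableOn _
    have h2 : coeff O (n + s) = ∑ l ∈ Finset.range (m + 1),
        coeff (fun z : ℂ => (X : ℂ) * L l * z ^ M l * kern (L l) ((starRingEnd ℂ) (ζ l) * z))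
          (n + s) := by
      apply coeff_sum_of
      intro l hl
      exact OscTotal.osc_total_summand_diff X (L l) (M l) (ζ l)
    have h3 : coeff O (n + s) = ∑ l ∈ Finset.range (m + 1),
        x' l * Complex.exp (-(2 * π * Complex.I * l * s / (m + 1))) := by
      rw [h2]
      apply Finset.sum_congr rfl
      intro l hl
      have hl' : l ≤ m := by have := Finset.mem_range.1 hl; omega
      rw [CarCoeff.osc_coeff m (L l) (M l) n (hL1 l hl') (hLm l hl') (hMn l hl') (ζ l) (hζ l hl') X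
        (Kern.kern_coeff (L l) (hL1 l hl')) s hs]
      simp only [hx']
      rw [← hexp l hl' s, pow_add]
      ring
    rw [h1, h3]
    ring
  have hcarn : ∀ s ≤ 2 * m, ‖coeff car (n + s)‖ ≤ X / (4 * (m + 1)) := by
    intro s _
    have hG1 : (1:ℝ) ≤ (8 * (K₀ * (n:ℝ) ^ T₀)) ^ D := by
      apply Real.one_le_rpow _ hD0
      nlinarith
    have h1 := hcar H ζ η ((8 * (K₀ * (n:ℝ) ^ T₀)) ^ D) hη0 hη1 hηρ hG1 hζ
      (fun l hl q hq => hHdiff l hl q (by have := hηe l hl; linarith))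
      (fun l hl q hq hq3 => by
        have h2 := ProfGrowth.prof_big (J l + 1) (e l) (rat δ (θ l)) (he l hl)
          (by rw [he0]; linarith) (hθnn l hl) (hdec l hl) q
          (by have := hηe l hl; linarith) hq3
        refine h2.trans ?_
        have h3 : 8 / e l (J l + 1) ≤ 8 * (K₀ * (n:ℝ) ^ T₀) := by
          have h4 := hηe l hl
          have h5 : 8 * (K₀ * (n:ℝ) ^ T₀) = 8 / η := by
            rw [hη, div_div_eq_mul_div, div_one]
          rw [h5]
          gcongr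
        have h8 : 1 ≤ 8 * (K₀ * (n:ℝ) ^ T₀) := by nlinarith
        have h6 : ∑ k ∈ Finset.range (J l + 1), rat δ (θ l) k ≤ (Jm : ℝ) + 1 := by
          calc _ ≤ ∑ k ∈ Finset.range (J l + 1), (1:ℝ) :=
                Finset.sum_le_sum fun k hk => hθ1 l hl k (Finset.mem_range.1 hk)
            _ = (J l : ℝ) + 1 := by simp
            _ ≤ _ := by
              have := hJle l hl
              have : (J l : ℝ) ≤ Jm := by exact_mod_cast this
              linarith
        have h7 : 0 ≤ ∑ k ∈ Finset.range (J l + 1), rat δ (θ l) k :=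
          Finset.sum_nonneg fun k hk => hθnn l hl k (Finset.mem_range.1 hk)
        have h9 : 0 ≤ 8 / e l (J l + 1) := by
          have := heJ0 l hl
          positivity
        calc (8 / e l (J l + 1)) ^ (2 * ∑ k ∈ Finset.range (J l + 1), rat δ (θ l) k) ≤
            (8 * (K₀ * (n:ℝ) ^ T₀)) ^ (2 * ∑ k ∈ Finset.range (J l + 1), rat δ (θ l) k) :=
              Real.rpow_le_rpow h9 h3 (by positivity)
          _ ≤ (8 * (K₀ * (n:ℝ) ^ T₀)) ^ D := by
              apply Real.rpow_le_rpow_of_exponent_le h8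
              rw [hD]
              linarith) (n + s)
    refine h1.trans (le_trans ?_ hncar)
    apply mul_le_mul_of_nonneg_left _ (by positivity)
    apply Real.exp_le_exp.2
    have h10 : (n:ℝ) * η ≤ ((n + s : ℕ) : ℝ) * η := by
      apply mul_le_mul_of_nonneg_right _ hη0.le
      push_cast
      have : (0:ℝ) ≤ s := Nat.cast_nonneg _
      linarith
    have h11 : (n:ℝ) * (1 / (K₀ * (n:ℝ) ^ T₀)) = n * η := rfl
    rw [h11]
    linarith
  have hH' : HankelLB m n g (X / 2) := by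
    apply HankelDFT.hankel_of_dft m n g X hX0 x' hx'n
    intro s hs
    rw [hgco s hs]
    exact hcarn s hs
  have hX2 : X / 2 = (n:ℝ) ^ (-1 / 2 + V) := by
    rw [hX]; ring
  rw [hX2] at hH'
  exact ⟨g, n, ⟨⟨_, hρ', hgd⟩, hg0, harea⟩, hnn₀, hclose, hH'⟩

end MeanVal
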