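import Mathlib
import Pool.Agent.Helper772.MV.Defs
import Pool.Agent.Helper772.MV.Lower

open MeasureTheory Metric Set
open scoped ENNReal Real

namespace MeanVal

/-- geometric sum used for the rates: `∑_{j ≤ l < k} a ρ^(l-j) = p (1 - ρ^(k-j))` -/
theorem geo_rates (p ρ a : ℝ) (ha : a = p * (1 - ρ)) (j k : ℕ) (hjk : j ≤ k) :
    ∑ l ∈ Finset.Ico j k, a * ρ ^ (l - j) = p * (1 - ρ ^ (k - j)) := by
  induction k, hjk using Nat.le_induction with
  | base => simp
  | succ k hjk ih =>
    rw [Finset.sum_Ico_succ_top hjk, ih, ha]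
    have : k + 1 - j = (k - j) + 1 := by omega
    rw [this, pow_succ]
    ring

/-- level increments -/
noncomputable def hinc (h₀ hl g : ℝ) (k : ℕ) (j : ℕ) : ℝ :=
  if j = 0 then h₀ else if j < k then (g - 1) * g ^ (2 * j - 1) * h₀ else hl

/-- `∑_{j ≤ l} h_j = h₀ (1 + g/(g+1) (g^(2l) - 1))` for `l < k` -/
theorem hinc_sum (h₀ hl g : ℝ) (k l : ℕ) (hg : 0 < g) (hlk : l < k) :
    ∑ j ∈ Finset.range (l + 1), hinc h₀ hl g k j = h₀ * (1 + g / (g + 1) * (g ^ (2 * l) - 1)) := by
  induction l with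
  | zero => simp [hinc]
  | succ l ih =>
    rw [Finset.sum_range_succ, ih (by omega)]
    have h1 : hinc h₀ hl g k (l + 1) = (g - 1) * g ^ (2 * l + 1) * h₀ := by
      unfold hinc
      rw [if_neg (by omega), if_pos hlk]
      congr 2
    rw [h1]
    have h2 : g ^ (2 * (l + 1)) = g ^ (2 * l) * g ^ 2 := by rw [← pow_add]; ring_nf
    have h3 : g ^ (2 * l + 1) = g ^ (2 * l) * g := pow_succ _ _
    rw [h2, h3]
    field_simp
    ring

/-- `∑_{j ≤ l} h_j g^(l-j) = g^(2l) h₀` for `l < k` -/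
theorem hinc_sum_geo (h₀ hl g : ℝ) (k l : ℕ) (hg : 0 < g) (hlk : l < k) :
    ∑ j ∈ Finset.range (l + 1), hinc h₀ hl g k j * g ^ (l - j) = g ^ (2 * l) * h₀ := by
  induction l with
  | zero => simp [hinc]
  | succ l ih =>
    rw [Finset.sum_range_succ]
    have h0 : ∑ j ∈ Finset.range (l + 1), hinc h₀ hl g k j * g ^ (l + 1 - j) =
        g * ∑ j ∈ Finset.range (l + 1), hinc h₀ hl g k j * g ^ (l - j) := by
      rw [Finset.mul_sum]
      apply Finset.sum_congr rfl
      intro j hj
      have hj' := Finset.mem_range.1 hj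
      have : l + 1 - j = (l - j) + 1 := by omega
      rw [this, pow_succ]
      ring
    rw [h0, ih (by omega)]
    have h1 : hinc h₀ hl g k (l + 1) = (g - 1) * g ^ (2 * l + 1) * h₀ := by
      unfold hinc
      rw [if_neg (by omega), if_pos hlk]
      congr 2
    rw [h1]
    have h2 : g ^ (2 * (l + 1)) = g ^ (2 * l) * g ^ 2 := by rw [← pow_add]; ring_nf
    have h3 : g ^ (2 * l + 1) = g ^ (2 * l) * g := pow_succ _ _
    rw [h2, h3]
    simp
    ring

theorem hinc_pos (h₀ hl g : ℝ) (k : ℕ) (hh : 0 < h₀) (hhl : 0 < hl) (hg : 1 < g) (j : ℕ) :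
    0 < hinc h₀ hl g k j := by
  unfold hinc
  split_ifs
  · exact hh
  · have : 0 < g - 1 := by linarith
    positivity
  · exact hhl

/-- lower bound, `1/4 < p < 3/4`, `m = k + 1` -/
theorem lower_one (k : ℕ) (p : ℝ) (hp : 1 / 4 < p) (hp1 : p < 3 / 4) (α : ℝ)
    (hα : α < -1 / 2 + (2 * p - 1 / 2) * ((4 * p - 1) / (4 * p + 1)) ^ (2 * (k + 1))) :
    ¬ Admissible (k + 1) p α := by
  have hp0 : 0 < p := by linarith
  have hq0 : 0 < 4 * p - 1 := by linarith
  have hq1 : 0 < 4 * p + 1 := by linarith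
  set ρ : ℝ := (4 * p - 1) / (4 * p + 1) with hρ
  set g : ℝ := (4 * p + 1) / (4 * p - 1) with hg
  have hg0 : 0 < g := by positivity
  have hρ0 : 0 < ρ := by positivity
  have hg1 : 1 < g := by rw [hg, lt_div_iff₀ hq0]; linarith
  have hρ1 : ρ < 1 := by rw [hρ, div_lt_iff₀ hq1]; linarith
  have hgρ : g * ρ = 1 := by rw [hg, hρ]; field_simp
  have hρinv : ρ⁻¹ = g := by rw [hρ, hg, inv_div]
  set a : ℝ := 2 * p / (4 * p + 1) with ha
  have ha0 : 0 < a := by positivity
  have ha1 : a ≤ 1 := by rw [ha, div_le_one hq1]; linarith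
  have hap : a = p * (1 - ρ) := by rw [ha, hρ]; field_simp; ring
  set h₀ : ℝ := 4 * p * ρ ^ (2 * (k + 1)) with hh₀
  have hh₀0 : 0 < h₀ := by positivity
  set hl : ℝ := 2 * p * (3 - 4 * p) / (4 * p + 1) with hhl
  have hhl0 : 0 < hl := by
    have : 0 < 3 - 4 * p := by linarith
    positivity
  set h : ℕ → ℝ := hinc h₀ hl g (k + 1) with hh
  -- A_k = g^(2k) h₀ = 4 p ρ^2
  have hA : g ^ (2 * k) * h₀ = 4 * p * ρ ^ 2 := by
    rw [hh₀]
    have h1 : ρ ^ (2 * (k + 1)) = ρ ^ (2 * k) * ρ ^ 2 := by rw [← pow_add]; ring_nf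
    have h2 : g ^ (2 * k) * ρ ^ (2 * k) = 1 := by rw [← mul_pow, hgρ, one_pow]
    rw [h1]
    linear_combination (4 * p * ρ ^ 2) * h2
  have hgl : g / (g + 1) = (4 * p + 1) / (8 * p) := by
    rw [hg]; field_simp; ring
  set θ : ℕ → ℕ → ℝ := fun l j => if l ≤ k then a * ρ ^ (l - j) else p * ρ ^ (k + 1 - j) with hθ
  have hθl : ∀ l ≤ k, ∀ j, θ l j = a * ρ ^ (l - j) := fun l hl j => by simp only [hθ, if_pos hl]
  have hθm : ∀ j, θ (k + 1) j = p * ρ ^ (k + 1 - j) := fun j => by
    simp only [hθ]; rw [if_neg (by omega)]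
  -- sums of times
  have hTl : ∀ l ≤ k, ∑ j ∈ Finset.range (l + 1), h j / (2 * θ l j) =
      (4 * p + 1) / (4 * p) * (g ^ (2 * l) * h₀) := by
    intro l hl'
    rw [← hinc_sum_geo h₀ hl g (k + 1) l hg0 (by omega), Finset.mul_sum]
    apply Finset.sum_congr rfl
    intro j hj
    rw [hθl l hl' j]
    have h1 : (ρ ^ (l - j))⁻¹ = g ^ (l - j) := by rw [← inv_pow, hρinv]
    rw [← h1, ha]
    have := pow_pos hρ0 (l - j)
    field_simp
    ring
  have hHl : ∀ l ≤ k, ∑ j ∈ Finset.range (l + 1), h j =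
      h₀ * (1 + (4 * p + 1) / (8 * p) * (g ^ (2 * l) - 1)) := by
    intro l hl'
    rw [← hgl]
    exact hinc_sum h₀ hl g (k + 1) l hg0 (by omega)
  have hVh : (2 * p - 1 / 2) * ρ ^ (2 * (k + 1)) = h₀ * (4 * p - 1) / (8 * p) := by
    rw [hh₀]; field_simp; ring
  have hhlast : h (k + 1) = hl := by
    simp only [hh, hinc]
    rw [if_neg (by omega), if_neg (by omega)]
  have hTm : ∑ j ∈ Finset.range (k + 2), h j / (2 * θ (k + 1) j) = 1 := by
    have h0 : ∀ j ∈ Finset.range (k + 1), h j / (2 * θ (k + 1) j) =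
        g / (2 * p) * (h j * g ^ (k - j)) := by
      intro j hj
      have hj' := Finset.mem_range.1 hj
      rw [hθm j]
      have h1 : (ρ ^ (k + 1 - j))⁻¹ = g * g ^ (k - j) := by
        rw [← inv_pow, hρinv]
        have : k + 1 - j = (k - j) + 1 := by omega
        rw [this, pow_succ]; ring
      have := pow_pos hρ0 (k + 1 - j)
      have h2 : h j / (2 * (p * ρ ^ (k + 1 - j))) = h j / (2 * p) * (ρ ^ (k + 1 - j))⁻¹ := by
        field_simp
      rw [h2, h1]
      ring
    rw [Finset.sum_range_succ, Finset.sum_congr rfl h0, ← Finset.mul_sum,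
      hinc_sum_geo h₀ hl g (k + 1) k hg0 (by omega), hA, hθm, hhlast]
    simp only [Nat.sub_self, pow_zero, mul_one]
    rw [hg, hρ, hhl]
    field_simp
    ring
  have hHm : ∑ j ∈ Finset.range (k + 2), h j = (2 * p - 1 / 2) * ρ ^ (2 * (k + 1)) + 1 / 2 := by
    rw [Finset.sum_range_succ, hHl k le_rfl, hhlast, hVh]
    have h1 : h₀ * (1 + (4 * p + 1) / (8 * p) * (g ^ (2 * k) - 1)) =
        h₀ * (4 * p - 1) / (8 * p) + (4 * p + 1) / (8 * p) * (g ^ (2 * k) * h₀) := by
      field_simp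
      ring
    rw [h1, hA, hρ, hhl]
    field_simp
    ring
  refine not_admissible_of_schedule' (k + 1) (fun l => l + 1) h θ p
    ((2 * p - 1 / 2) * ρ ^ (2 * (k + 1))) α hp0 (fun l _ => by simp)
    (hinc_pos h₀ hl g (k + 1) hh₀0 hhl0 hg1) ?_ ?_ ?_ ?_ ?_ hα
  · intro l hl' j _
    rcases Nat.lt_or_ge k l with h1 | h1
    · have : l = k + 1 := by omega
      subst this
      rw [hθm]
      refine ⟨by positivity, ?_⟩
      have := pow_le_one₀ (n := k + 1 - j) hρ0.le hρ1.le
      nlinarith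
    · rw [hθl l h1]
      refine ⟨by positivity, ?_⟩
      have := pow_le_one₀ (n := l - j) hρ0.le hρ1.le
      have := pow_pos hρ0 (l - j)
      nlinarith
  · intro l hl' j _
    have h2 : ∀ b : ℕ, ρ ^ (b - j) ≤ ρ ^ (b - (j + 1)) := fun b =>
      pow_le_pow_of_le_one hρ0.le hρ1.le (by omega)
    rcases Nat.lt_or_ge k l with h1 | h1
    · have : l = k + 1 := by omega
      subst this
      rw [hθm, hθm]
      exact mul_le_mul_of_nonneg_left (h2 _) hp0.le
    · rw [hθl l h1, hθl l h1]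
      exact mul_le_mul_of_nonneg_left (h2 _) ha0.le
  · intro j
    rw [Finset.sum_range_succ]
    rcases Nat.lt_or_ge (k + 1) j with h1 | h1
    · have h0 : ∑ l ∈ Finset.range (k + 1), (if j < l + 1 then θ l j else 0) = 0 := by
        apply Finset.sum_eq_zero
        intro l hl'
        have := Finset.mem_range.1 hl'
        rw [if_neg (by omega)]
      rw [h0, if_neg (by omega)]
      linarith
    · have h0 : ∑ l ∈ Finset.range (k + 1), (if j < l + 1 then θ l j else 0) =
          ∑ l ∈ Finset.Ico j (k + 1), a * ρ ^ (l - j) := by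
        rw [← Finset.sum_filter]
        have h2 : (Finset.range (k + 1)).filter (fun l => j < l + 1) = Finset.Ico j (k + 1) := by
          ext l
          simp only [Finset.mem_filter, Finset.mem_range, Finset.mem_Ico]
          omega
        rw [h2]
        apply Finset.sum_congr rfl
        intro l hl'
        have := Finset.mem_Ico.1 hl'
        exact hθl l (by omega) j
      rw [h0, geo_rates p ρ a hap j (k + 1) h1, if_pos (by omega), hθm]
      apply le_of_eq
      ring
  · intro l hl'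
    rcases Nat.lt_or_ge k l with h1 | h1
    · have : l = k + 1 := by omega
      subst this
      exact hTm.le
    · rw [hTl l h1]
      have h2 : g ^ (2 * l) * h₀ ≤ 4 * p * ρ ^ 2 := by
        rw [← hA]
        exact mul_le_mul_of_nonneg_right (pow_le_pow_right₀ hg1.le (by omega)) hh₀0.le
      have h3 : (4 * p + 1) / (4 * p) * (g ^ (2 * l) * h₀) ≤ (4 * p + 1) / (4 * p) * (4 * p * ρ ^ 2) :=
        mul_le_mul_of_nonneg_left h2 (by positivity)
      refine h3.trans ?_
      have h4 : (4 * p + 1) / (4 * p) * (4 * p * ρ ^ 2) = (4 * p - 1) ^ 2 / (4 * p + 1) := by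
        rw [hρ]; field_simp
      rw [h4, div_le_one hq1]
      nlinarith
  · intro l hl'
    rcases Nat.lt_or_ge k l with h1 | h1
    · have : l = k + 1 := by omega
      subst this
      change _ ≤ ∑ j ∈ Finset.range (k + 2), h j -
        (∑ j ∈ Finset.range (k + 2), h j / (2 * θ (k + 1) j)) / 2
      rw [hTm, hHm]
      linarith
    · rw [hTl l h1, hHl l h1, hVh]
      apply le_of_eq
      field_simp
      ring

/-- lower bound, `3/4 ≤ p < 5/4`, `m = k + 2` -/
theorem lower_two (k : ℕ) (p : ℝ) (hp : 3 / 4 ≤ p) (hp1 : p < 5 / 4) (α : ℝ)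
    (hα : α < -1 / 2 + (p - 1 / 2) * ((4 * p - 1) / (4 * p + 1)) ^ (2 * (k + 1))) :
    ¬ Admissible (k + 2) p α := by
  have hp0 : 0 < p := by linarith
  have hq0 : 0 < 4 * p - 1 := by linarith
  have hq1 : 0 < 4 * p + 1 := by linarith
  have hq2 : 0 < 2 * p - 1 := by linarith
  set ρ : ℝ := (4 * p - 1) / (4 * p + 1) with hρ
  set g : ℝ := (4 * p + 1) / (4 * p - 1) with hg
  have hg0 : 0 < g := by positivity
  have hρ0 : 0 < ρ := by positivity
  have hg1 : 1 < g := by rw [hg, lt_div_iff₀ hq0]; linarith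
  have hρ1 : ρ < 1 := by rw [hρ, div_lt_iff₀ hq1]; linarith
  have hgρ : g * ρ = 1 := by rw [hg, hρ]; field_simp
  have hρinv : ρ⁻¹ = g := by rw [hρ, hg, inv_div]
  set a : ℝ := 2 * p / (4 * p + 1) with ha
  have ha0 : 0 < a := by positivity
  have ha1 : a ≤ 1 := by rw [ha, div_le_one hq1]; linarith
  have hap : a = p * (1 - ρ) := by rw [ha, hρ]; field_simp; ring
  set h₀ : ℝ := 4 * p * (2 * p - 1) / (4 * p - 1) * ρ ^ (2 * (k + 1)) with hh₀
  have hh₀0 : 0 < h₀ := by positivity
  set hl : ℝ := p * (5 - 4 * p) / (4 * p + 1) with hhl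
  have hhl0 : 0 < hl := by
    have : 0 < 5 - 4 * p := by linarith
    positivity
  set h : ℕ → ℝ := hinc h₀ hl g (k + 1) with hh
  have hA : g ^ (2 * k) * h₀ = 4 * p * (2 * p - 1) / (4 * p - 1) * ρ ^ 2 := by
    rw [hh₀]
    have h1 : ρ ^ (2 * (k + 1)) = ρ ^ (2 * k) * ρ ^ 2 := by rw [← pow_add]; ring_nf
    have h2 : g ^ (2 * k) * ρ ^ (2 * k) = 1 := by rw [← mul_pow, hgρ, one_pow]
    rw [h1]
    linear_combination (4 * p * (2 * p - 1) / (4 * p - 1) * ρ ^ 2) * h2
  have hgl : g / (g + 1) = (4 * p + 1) / (8 * p) := by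
    rw [hg]; field_simp; ring
  set θ : ℕ → ℕ → ℝ := fun l j => if l ≤ k then a * ρ ^ (l - j) else p / 2 * ρ ^ (k + 1 - j) with hθ
  have hθl : ∀ l ≤ k, ∀ j, θ l j = a * ρ ^ (l - j) := fun l hl j => by simp only [hθ, if_pos hl]
  have hθm : ∀ l, k < l → ∀ j, θ l j = p / 2 * ρ ^ (k + 1 - j) := fun l hl j => by
    simp only [hθ]; rw [if_neg (by omega)]
  have hTl : ∀ l ≤ k, ∑ j ∈ Finset.range (l + 1), h j / (2 * θ l j) =
      (4 * p + 1) / (4 * p) * (g ^ (2 * l) * h₀) := by
    intro l hl'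
    rw [← hinc_sum_geo h₀ hl g (k + 1) l hg0 (by omega), Finset.mul_sum]
    apply Finset.sum_congr rfl
    intro j hj
    rw [hθl l hl' j]
    have h1 : (ρ ^ (l - j))⁻¹ = g ^ (l - j) := by rw [← inv_pow, hρinv]
    rw [← h1, ha]
    have := pow_pos hρ0 (l - j)
    field_simp
    ring
  have hHl : ∀ l ≤ k, ∑ j ∈ Finset.range (l + 1), h j =
      h₀ * (1 + (4 * p + 1) / (8 * p) * (g ^ (2 * l) - 1)) := by
    intro l hl'
    rw [← hgl]
    exact hinc_sum h₀ hl g (k + 1) l hg0 (by omega)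
  have hVh : (p - 1 / 2) * ρ ^ (2 * (k + 1)) = h₀ * (4 * p - 1) / (8 * p) := by
    have hne : 4 * p - 1 ≠ 0 := hq0.ne'
    have h1 : 4 * p * (2 * p - 1) / (4 * p - 1) * ρ ^ (2 * (k + 1)) * (4 * p - 1) =
        4 * p * (2 * p - 1) * ρ ^ (2 * (k + 1)) := by
      rw [div_mul_eq_mul_div, div_mul_cancel₀ _ hne]
    rw [hh₀, h1, eq_div_iff (by positivity)]
    ring
  have hhlast : h (k + 1) = hl := by
    simp only [hh, hinc]
    rw [if_neg (by omega), if_neg (by omega)]
  have hTm : ∀ l, k < l → ∑ j ∈ Finset.range (k + 2), h j / (2 * θ l j) = 1 := by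
    intro l hkl
    have h0 : ∀ j ∈ Finset.range (k + 1), h j / (2 * θ l j) =
        g / p * (h j * g ^ (k - j)) := by
      intro j hj
      have hj' := Finset.mem_range.1 hj
      rw [hθm l hkl j]
      have h1 : (ρ ^ (k + 1 - j))⁻¹ = g * g ^ (k - j) := by
        rw [← inv_pow, hρinv]
        have : k + 1 - j = (k - j) + 1 := by omega
        rw [this, pow_succ]; ring
      have := pow_pos hρ0 (k + 1 - j)
      have h2 : h j / (2 * (p / 2 * ρ ^ (k + 1 - j))) = h j / p * (ρ ^ (k + 1 - j))⁻¹ := by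
        field_simp
      rw [h2, h1]
      ring
    rw [Finset.sum_range_succ, Finset.sum_congr rfl h0, ← Finset.mul_sum,
      hinc_sum_geo h₀ hl g (k + 1) k hg0 (by omega), hA, hθm l hkl, hhlast]
    simp only [Nat.sub_self, pow_zero, mul_one]
    rw [hg, hρ, hhl]
    field_simp
    ring
  have hHm : ∑ j ∈ Finset.range (k + 2), h j = (p - 1 / 2) * ρ ^ (2 * (k + 1)) + 1 / 2 := by
    rw [Finset.sum_range_succ, hHl k le_rfl, hhlast, hVh]
    have h1 : h₀ * (1 + (4 * p + 1) / (8 * p) * (g ^ (2 * k) - 1)) =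
        h₀ * (4 * p - 1) / (8 * p) + (4 * p + 1) / (8 * p) * (g ^ (2 * k) * h₀) := by
      field_simp
      ring
    rw [h1, hA, hρ, hhl]
    field_simp
    ring
  set J : ℕ → ℕ := fun l => if l ≤ k then l + 1 else k + 2 with hJdef
  have hJl : ∀ l ≤ k, J l = l + 1 := fun l hl => by simp only [hJdef, if_pos hl]
  have hJm : ∀ l, k < l → J l = k + 2 := fun l hl => by
    simp only [hJdef]; rw [if_neg (by omega)]
  refine not_admissible_of_schedule' (k + 2) J h θ p
    ((p - 1 / 2) * ρ ^ (2 * (k + 1))) α hp0 ?_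
    (hinc_pos h₀ hl g (k + 1) hh₀0 hhl0 hg1) ?_ ?_ ?_ ?_ ?_ hα
  · intro l _
    rcases Nat.lt_or_ge k l with h1 | h1
    · rw [hJm l h1]; omega
    · rw [hJl l h1]; omega
  · intro l hl' j _
    rcases Nat.lt_or_ge k l with h1 | h1
    · rw [hθm l h1]
      refine ⟨by positivity, ?_⟩
      have := pow_le_one₀ (n := k + 1 - j) hρ0.le hρ1.le
      nlinarith
    · rw [hθl l h1]
      refine ⟨by positivity, ?_⟩
      have := pow_le_one₀ (n := l - j) hρ0.le hρ1.le
      have := pow_pos hρ0 (l - j)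
      nlinarith
  · intro l hl' j _
    have h2 : ∀ b : ℕ, ρ ^ (b - j) ≤ ρ ^ (b - (j + 1)) := fun b =>
      pow_le_pow_of_le_one hρ0.le hρ1.le (by omega)
    rcases Nat.lt_or_ge k l with h1 | h1
    · rw [hθm l h1, hθm l h1]
      exact mul_le_mul_of_nonneg_left (h2 _) (by linarith)
    · rw [hθl l h1, hθl l h1]
      exact mul_le_mul_of_nonneg_left (h2 _) ha0.le
  · intro j
    rw [Finset.sum_range_succ, Finset.sum_range_succ, hJm (k + 1) (by omega),
      hJm (k + 2) (by omega), hθm (k + 1) (by omega), hθm (k + 2) (by omega)]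
    rcases Nat.lt_or_ge (k + 1) j with h1 | h1
    · have h0 : ∑ l ∈ Finset.range (k + 1), (if j < J l then θ l j else 0) = 0 := by
        apply Finset.sum_eq_zero
        intro l hl'
        have := Finset.mem_range.1 hl'
        rw [hJl l (by omega), if_neg (by omega)]
      rw [h0, if_neg (by omega)]
      linarith
    · have h0 : ∑ l ∈ Finset.range (k + 1), (if j < J l then θ l j else 0) =
          ∑ l ∈ Finset.Ico j (k + 1), a * ρ ^ (l - j) := by
        rw [← Finset.sum_filter]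
        have h2 : (Finset.range (k + 1)).filter (fun l => j < J l) = Finset.Ico j (k + 1) := by
          ext l
          simp only [Finset.mem_filter, Finset.mem_range, Finset.mem_Ico]
          constructor
          · rintro ⟨h3, h4⟩
            rw [hJl l (by omega)] at h4
            omega
          · rintro ⟨h3, h4⟩
            rw [hJl l (by omega)]
            omega
        rw [h2]
        apply Finset.sum_congr rfl
        intro l hl'
        have := Finset.mem_Ico.1 hl'
        exact hθl l (by omega) j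
      rw [h0, geo_rates p ρ a hap j (k + 1) h1, if_pos (by omega)]
      apply le_of_eq
      ring
  · intro l hl'
    rcases Nat.lt_or_ge k l with h1 | h1
    · rw [hJm l h1]
      exact (hTm l h1).le
    · rw [hJl l h1, hTl l h1]
      have h2 : g ^ (2 * l) * h₀ ≤ 4 * p * (2 * p - 1) / (4 * p - 1) * ρ ^ 2 := by
        rw [← hA]
        exact mul_le_mul_of_nonneg_right (pow_le_pow_right₀ hg1.le (by omega)) hh₀0.le
      have h3 : (4 * p + 1) / (4 * p) * (g ^ (2 * l) * h₀) ≤
          (4 * p + 1) / (4 * p) * (4 * p * (2 * p - 1) / (4 * p - 1) * ρ ^ 2) :=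
        mul_le_mul_of_nonneg_left h2 (by positivity)
      refine h3.trans ?_
      have h4 : (4 * p + 1) / (4 * p) * (4 * p * (2 * p - 1) / (4 * p - 1) * ρ ^ 2) =
          (2 * p - 1) * (4 * p - 1) / (4 * p + 1) := by
        rw [hρ]; field_simp
      rw [h4, div_le_one hq1]
      nlinarith
  · intro l hl'
    rcases Nat.lt_or_ge k l with h1 | h1
    · rw [hJm l h1, hTm l h1, hHm]
      linarith
    · rw [hJl l h1, hTl l h1, hHl l h1, hVh]
      apply le_of_eq
      field_simp
      ring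

/-- lower bound, `m = 1`, equal rates -/
theorem lower_three (p : ℝ) (hp : 1 / 2 < p) (hp1 : p ≤ 2) (α : ℝ)
    (hα : α < -1 / 2 + (p - 1 / 2)) :
    ¬ Admissible 1 p α := by
  have hp0 : 0 < p := by linarith
  refine not_admissible_of_schedule' 1 (fun _ => 1) (fun _ => p) (fun _ _ => p / 2) p (p - 1 / 2) α
    hp0 (fun _ _ => le_rfl) (fun _ => hp0) ?_ ?_ ?_ ?_ ?_ hα
  · intro l _ j _
    constructor <;> linarith
  · intro l _ j hj
    exact le_rfl
  · intro j
    simp only [Finset.sum_range_succ, Finset.range_zero, Finset.sum_empty, zero_add]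
    split_ifs <;> linarith
  · intro l _
    simp only [Finset.sum_range_succ, Finset.range_zero, Finset.sum_empty, zero_add]
    apply le_of_eq
    field_simp
  · intro l _
    simp only [Finset.sum_range_succ, Finset.range_zero, Finset.sum_empty, zero_add]
    apply le_of_eq
    field_simp

/-- lower bound `-1/2` for all `p` -/
theorem lower_zero (m : ℕ) (p : ℝ) (hp0 : 0 < p) (hp1 : p ≤ 1) (α : ℝ) (hα : α < -1 / 2) :
    ¬ Admissible m p α := by
  have hN : (0:ℝ) < (m:ℝ) + 1 := by positivity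
  set V : ℝ := (α + 1 / 2) / 2 with hV
  have hV0 : V < 0 := by rw [hV]; linarith
  obtain ⟨h, hh0, hh1, hh2⟩ : ∃ h : ℝ, 0 < h ∧ h * ((m + 1) / (2 * p)) < 1 ∧
      h * ((m + 1) / (4 * p)) - h < -V := by
    apply exists_small
    apply (ev_lt (g := fun x : ℝ => x * ((m + 1) / (2 * p))) (by fun_prop) (by simp)).and
    exact ev_lt (g := fun x : ℝ => x * ((m + 1) / (4 * p)) - x) (by fun_prop) (by simpa using hV0)
  refine not_admissible_of_schedule' m (fun _ => 1) (fun _ => h) (fun _ _ => p / (m + 1)) p V α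
    hp0 (fun _ _ => le_rfl) (fun _ => hh0) ?_ ?_ ?_ ?_ ?_ (by rw [hV]; linarith)
  · intro l _ j _
    refine ⟨by positivity, ?_⟩
    rw [div_le_one hN]
    have : (0:ℝ) ≤ m := Nat.cast_nonneg _
    linarith
  · intro l _ j hj
    exact le_rfl
  · intro j
    by_cases hj : j < 1
    · simp only [if_pos hj]
      rw [Finset.sum_const, Finset.card_range, nsmul_eq_mul]
      push_cast
      apply le_of_eq
      field_simp
    · simp only [if_neg hj, Finset.sum_const_zero]
      exact hp0.le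
  · intro l _
    simp only [Finset.sum_range_succ, Finset.range_zero, Finset.sum_empty, zero_add]
    have : h / (2 * (p / (m + 1))) = h * ((m + 1) / (2 * p)) := by field_simp
    rw [this]
    exact hh1.le
  · intro l _
    simp only [Finset.sum_range_succ, Finset.range_zero, Finset.sum_empty, zero_add]
    have : h / (2 * (p / (m + 1))) / 2 = h * ((m + 1) / (4 * p)) := by field_simp; ring
    rw [this]
    linarith

end MeanVal
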