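import Mathlib
import Pool.Agent.Helper772.MV.Defs
import Pool.Agent.Helper772.MV.Upper
import Pool.Agent.Helper772.MV.Lower
import Pool.Agent.Helper772.MV.CertT
import Pool.Agent.Helper772.MV.Sched

open MeasureTheory Metric Set
open scoped ENNReal Real

namespace MeanVal

theorem optExp_eq (m : ℕ) (p b : ℝ) (hU : ∀ α, b < α → Admissible m p α)
    (hL : ∀ α, α < b → ¬ Admissible m p α) : optExp m p = (b : EReal) := by
  apply le_antisymm
  · apply le_of_forall_gt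
    intro c hc
    obtain ⟨d, hbd, hdc⟩ := EReal.lt_iff_exists_real_btwn.1 hc
    have hbd' : b < d := EReal.coe_lt_coe_iff.1 hbd
    exact lt_of_le_of_lt (sInf_le ⟨d, hU d hbd', rfl⟩) hdc
  · apply le_sInf
    rintro _ ⟨α, hα, rfl⟩
    simp only [EReal.coe_le_coe_iff]
    by_contra h
    push Not at h
    exact hL α h hα

theorem meanValent_mono {p p' : ℝ} (h : p ≤ p') {f : ℂ → ℂ} (hf : MeanValent p f) :
    MeanValent p' f := by
  refine ⟨hf.1, fun R hR => (hf.2 R hR).trans ?_⟩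
  apply ENNReal.ofReal_le_ofReal
  have := Real.pi_pos
  gcongr

theorem admissible_anti {m : ℕ} {p p' α : ℝ} (h : p ≤ p') (ha : Admissible m p' α) :
    Admissible m p α := fun f hf => ha f (meanValent_mono h hf)

theorem optExp_mono {m : ℕ} {p p' : ℝ} (h : p ≤ p') : optExp m p ≤ optExp m p' := by
  unfold optExp
  apply sInf_le_sInf
  apply image_mono
  intro α hα
  exact admissible_anti h hα

/-- `α_m(p) = -1/2` for `p ≤ 1/4` -/
theorem optExp_zero (m : ℕ) (p : ℝ) (hp0 : 0 < p) (hp : p ≤ 1 / 4) :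
    optExp m p = ((-1 / 2 : ℝ) : EReal) :=
  optExp_eq m p _ (fun α hα => upper_zero m p hp0 hp α hα)
    (fun α hα => lower_zero m p hp0 (by linarith) α hα)

/-- `3/4 ≤ p ≤ 1` -/
theorem optExp_two (m : ℕ) (hm : 1 ≤ m) (p : ℝ) (hp : 3 / 4 ≤ p) (hp1 : p ≤ 1) :
    optExp m p = ((-1 / 2 + (p - 1 / 2) * ((4 * p - 1) / (4 * p + 1)) ^ (2 * (m - 1)) : ℝ) : EReal) := by
  obtain ⟨k, rfl⟩ : ∃ k, m = k + 1 := ⟨m - 1, by omega⟩
  rw [Nat.add_sub_cancel]
  apply optExp_eq
  · exact fun α hα => upper_two k p hp hp1 α hα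
  · intro α hα
    cases k with
    | zero => exact lower_three p (by linarith) (by linarith) α (by simpa using hα)
    | succ k => exact lower_two k p hp (by linarith) α hα

/-- `1/4 ≤ p ≤ 3/4` -/
theorem optExp_one (m : ℕ) (hm : 1 ≤ m) (p : ℝ) (hp : 1 / 4 ≤ p) (hp1 : p ≤ 3 / 4) :
    optExp m p = ((-1 / 2 + (2 * p - 1 / 2) * ((4 * p - 1) / (4 * p + 1)) ^ (2 * m) : ℝ) : EReal) := by
  rcases hp1.eq_or_lt with rfl | h3
  · rw [optExp_two m hm (3 / 4) le_rfl (by norm_num)]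
    obtain ⟨k, rfl⟩ : ∃ k, m = k + 1 := ⟨m - 1, by omega⟩
    rw [Nat.add_sub_cancel]
    congr 1
    rw [show 2 * (k + 1) = 2 * k + 2 by ring, pow_add]
    norm_num
    ring
  rcases hp.eq_or_lt with h1 | h1
  · rw [← h1, optExp_zero m (1 / 4) (by norm_num) le_rfl]
    norm_num
  obtain ⟨k, rfl⟩ : ∃ k, m = k + 1 := ⟨m - 1, by omega⟩
  apply optExp_eq
  · exact fun α hα => upper_one (k + 1) p hp (by linarith) α hα
  · exact fun α hα => lower_one k p h1 h3 α hα

/-- `α_m(p) > -1/2` for all `p > 1/4`, `m ≥ 1` -/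
theorem optExp_gt (m : ℕ) (hm : 1 ≤ m) (p : ℝ) (hp : 1 / 4 < p) :
    ((-1 / 2 : ℝ) : EReal) < optExp m p := by
  have key : ∀ q : ℝ, 1 / 4 < q → q ≤ 3 / 4 → ((-1 / 2 : ℝ) : EReal) < optExp m q := by
    intro q hq hq3
    rw [optExp_one m hm q hq.le hq3, EReal.coe_lt_coe_iff]
    have h1 : 0 < (4 * q - 1) / (4 * q + 1) := div_pos (by linarith) (by linarith)
    have h2 : 0 < (2 * q - 1 / 2) * ((4 * q - 1) / (4 * q + 1)) ^ (2 * m) :=
      mul_pos (by linarith) (pow_pos h1 _)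
    linarith
  rcases le_total p (3 / 4) with h | h
  · exact key p hp h
  · exact (key (3 / 4) (by norm_num) le_rfl).trans_le (optExp_mono h)

end MeanVal
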