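import Mathlib
import Pool.Agent.Helper772.MV.Defs
import Pool.Agent.Helper772.MV.Upper
import Pool.Agent.Helper772.MV.CertT

open MeasureTheory Metric Set
open scoped ENNReal Real

namespace MeanVal

/-- univalent functions are mean 1-valent (area form) -/
theorem areaBound_of_injOn {f : ℂ → ℂ} (hf : DifferentiableOn ℂ f (ball (0:ℂ) 1))
    (hinj : InjOn f (ball (0:ℂ) 1)) : AreaBound 1 f := by
  refine ⟨hf, fun R hR => ?_⟩
  have hpi := Real.pi_pos
  set s : Set ℂ := ball (0:ℂ) 1 ∩ f ⁻¹' ball (0:ℂ) R with hs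
  have hopen : IsOpen s := hf.continuousOn.isOpen_inter_preimage isOpen_ball isOpen_ball
  have hder : ∀ x ∈ s, HasFDerivWithinAt f (ContinuousLinearMap.mul ℝ ℂ (deriv f x)) s x := by
    intro x hx
    have h1 : HasDerivAt f (deriv f x) x :=
      (hf.differentiableAt (isOpen_ball.mem_nhds hx.1)).hasDerivAt
    exact (Area.af_hasFDerivAt f x _ h1).hasFDerivWithinAt
  have h1 := lintegral_abs_det_fderiv_eq_addHaar_image volume hopen.measurableSet hder
    (hinj.mono inter_subset_left)
  have h2 : ∫⁻ z in s, ‖deriv f z‖ₑ ^ 2 = volume (f '' s) := by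
    rw [← h1]
    apply lintegral_congr
    intro z
    rw [Area.af_det, abs_of_nonneg (by positivity), ← ofReal_norm,
      ENNReal.ofReal_pow (norm_nonneg _)]
  rw [h2]
  have h3 : f '' s ⊆ ball (0:ℂ) R := by
    rintro _ ⟨z, hz, rfl⟩
    exact hz.2
  refine (measure_mono h3).trans ?_
  rw [Complex.volume_ball]
  apply le_of_eq
  rw [mul_one, ENNReal.ofReal_mul hpi.le, ENNReal.ofReal_pow hR.le, mul_comm]
  congr 1
  rw [← NNReal.coe_real_pi, ENNReal.ofReal_coe_nnreal]

end MeanVal
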